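import Mathlib

/-! Helper file: even 1-subdivisions of dense graphs in 2-coloured complete graphs. -/

namespace Pool.Agent.W5h9.DenseSub

open Finset

section Structure

variable {V : Type} [Fintype V] [DecidableEq V]

/-- Number of vertices whose colours to `x` and `y` agree. -/
def agree (c : V → V → Bool) (x y : V) : ℕ := (univ.filter (fun w => c w x = c w y)).card

/-- `x` and `y` have almost opposite colours. -/
def Opp (c : V → V → Bool) (x y : V) : Prop := 200 * agree c x y ≤ Fintype.card V

instance (c : V → V → Bool) (x y : V) : Decidable (Opp c x y) := by unfold Opp; infer_instance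

/-- Few almost opposite pairs in a large subset. -/
lemma split (c : V → V → Bool) (hN : 0 < Fintype.card V) (k : ℕ) :
    ∃ V' : Finset V, Fintype.card V ≤ 2 ^ k * V'.card ∧
      200 ^ k * ((V' ×ˢ V').filter (fun p => Opp c p.1 p.2)).card ≤ (Fintype.card V) ^ 2 := by
  induction k with
  | zero =>
    refine ⟨univ, by simp, ?_⟩
    rw [pow_zero, one_mul]
    refine (Finset.card_filter_le _ _).trans ?_
    rw [Finset.card_product, Finset.card_univ, sq]
  | succ k ih =>
    obtain ⟨V', h1, h2⟩ := ih
    set P := (V' ×ˢ V').filter (fun p => Opp c p.1 p.2) with hP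
    have hsum : ∑ w, (P.filter (fun p => c w p.1 = c w p.2)).card
        = ∑ p ∈ P, agree c p.1 p.2 := by
      simp only [agree, Finset.card_filter]
      rw [Finset.sum_comm]
    have hle : 200 * ∑ w, (P.filter (fun p => c w p.1 = c w p.2)).card
        ≤ P.card * Fintype.card V := by
      rw [hsum, Finset.mul_sum, ← smul_eq_mul, ← Finset.sum_const]
      apply Finset.sum_le_sum
      intro p hp
      exact (Finset.mem_filter.1 hp).2
    obtain ⟨w, hw⟩ : ∃ w : V, 200 * (P.filter (fun p => c w p.1 = c w p.2)).card ≤ P.card := by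
      by_contra hcon
      push Not at hcon
      have : ∑ w : V, (P.card + 1) ≤ ∑ w, 200 * (P.filter (fun p => c w p.1 = c w p.2)).card :=
        Finset.sum_le_sum fun w _ => hcon w
      rw [← Finset.mul_sum, Finset.sum_const, Finset.card_univ, smul_eq_mul] at this
      have h3 := this.trans hle
      nlinarith
    have hfin : ∀ β : Bool, V'.card ≤ 2 * (V'.filter (fun x => c w x = β)).card →
        ∃ V'' : Finset V, Fintype.card V ≤ 2 ^ (k + 1) * V''.card ∧
        200 ^ (k + 1) * ((V'' ×ˢ V'').filter (fun p => Opp c p.1 p.2)).card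
          ≤ (Fintype.card V) ^ 2 := by
      intro β hβ
      refine ⟨V'.filter (fun x => c w x = β), ?_, ?_⟩
      · calc Fintype.card V ≤ 2 ^ k * V'.card := h1
          _ ≤ 2 ^ k * (2 * (V'.filter (fun x => c w x = β)).card) :=
            Nat.mul_le_mul_left _ hβ
          _ = _ := by ring
      · have hsub : ((V'.filter (fun x => c w x = β)) ×ˢ (V'.filter (fun x => c w x = β))).filter
            (fun p => Opp c p.1 p.2) ⊆ P.filter (fun p => c w p.1 = c w p.2) := by
          intro p hp
          simp only [hP, Finset.mem_filter, Finset.mem_product] at hp ⊢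
          obtain ⟨⟨⟨a1, a2⟩, a3, a4⟩, a5⟩ := hp
          exact ⟨⟨⟨a1, a3⟩, a5⟩, a2.trans a4.symm⟩
        have hc := Finset.card_le_card hsub
        calc 200 ^ (k + 1) * _ ≤ 200 ^ (k + 1) * (P.filter (fun p => c w p.1 = c w p.2)).card :=
              Nat.mul_le_mul_left _ hc
          _ = 200 ^ k * (200 * (P.filter (fun p => c w p.1 = c w p.2)).card) := by ring
          _ ≤ 200 ^ k * P.card := Nat.mul_le_mul_left _ hw
          _ ≤ _ := h2
    have htot : (V'.filter (fun x => c w x = true)).card +
        (V'.filter (fun x => c w x = false)).card = V'.card := by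
      have := Finset.card_filter_add_card_filter_not (s := V') (fun x => c w x = true)
      simpa using this
    rcases le_total (V'.filter (fun x => c w x = true)).card
        (V'.filter (fun x => c w x = false)).card with h | h
    · exact hfin false (by omega)
    · exact hfin true (by omega)

/-- A cell: no large set of vertices is almost completely `true` to a large part and almost
completely `false` to another large part of it. -/
def GoodCell (c : V → V → Bool) (γ h : ℝ) (C : Finset V) : Prop :=
  ∀ W X Y : Finset V, Fintype.card V ≤ 100 * W.card → X ⊆ C → Y ⊆ C →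
    γ * C.card ≤ X.card → γ * C.card ≤ Y.card →
    ∃ w ∈ W, h < ((X.filter (fun x => c w x = false)).card : ℝ) ∨
      h < ((Y.filter (fun x => c w x = true)).card : ℝ)

lemma cell (c : V → V → Bool) (hN : 0 < Fintype.card V) (V' : Finset V) (γ h : ℝ) (hγ0 : 0 < γ)
    (hγ1 : γ ≤ 1) (hh : 2 * h < γ ^ 102 * V'.card) :
    ∃ C ⊆ V', γ ^ 101 * V'.card ≤ C.card ∧ GoodCell c γ h C := by
  classical
  by_contra hcon
  push Not at hcon
  have hM : (0 : ℝ) ≤ V'.card := Nat.cast_nonneg _
  have key : ∀ i : ℕ, i ≤ 101 → ∃ C ⊆ V', γ ^ i * V'.card ≤ C.card ∧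
      i * Fintype.card V ≤ 100 * (univ.filter (fun w =>
        ((C.filter (fun x => c w x = false)).card : ℝ) ≤ h)).card := by
    intro i
    induction i with
    | zero => intro _; exact ⟨V', subset_rfl, by simp, by simp⟩
    | succ i ih =>
      intro hi
      obtain ⟨C, hC, h1, h2⟩ := ih (by omega)
      have h3 : γ ^ 101 * V'.card ≤ C.card := by
        refine le_trans ?_ h1
        apply mul_le_mul_of_nonneg_right _ hM
        exact pow_le_pow_of_le_one hγ0.le hγ1 (by omega)
      have h4 := hcon C hC h3
      unfold GoodCell at h4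
      push Not at h4
      obtain ⟨W, X, Y, hW, hX, hY, hXc, hYc, hbad⟩ := h4
      refine ⟨X, hX.trans hC, ?_, ?_⟩
      · calc γ ^ (i + 1) * V'.card = γ * (γ ^ i * V'.card) := by ring
          _ ≤ γ * C.card := mul_le_mul_of_nonneg_left h1 hγ0.le
          _ ≤ _ := hXc
      · have hYbig : 2 * h < Y.card := by
          calc 2 * h < γ ^ 102 * V'.card := hh
            _ ≤ γ ^ (i + 1) * V'.card := by
              apply mul_le_mul_of_nonneg_right _ hM
              exact pow_le_pow_of_le_one hγ0.le hγ1 (by omega)
            _ = γ * (γ ^ i * V'.card) := by ring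
            _ ≤ γ * C.card := mul_le_mul_of_nonneg_left h1 hγ0.le
            _ ≤ _ := hYc
        have hsub : (univ.filter (fun w => ((C.filter (fun x => c w x = false)).card : ℝ) ≤ h)) ∪ W
            ⊆ univ.filter (fun w => ((X.filter (fun x => c w x = false)).card : ℝ) ≤ h) := by
          intro w hw
          rw [Finset.mem_union] at hw
          simp only [Finset.mem_filter, Finset.mem_univ, true_and] at hw ⊢
          rcases hw with hw | hw
          · refine le_trans ?_ hw
            exact_mod_cast Finset.card_le_card (Finset.filter_subset_filter _ hX)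
          · exact (hbad w hw).1
        have hdisj : Disjoint
            (univ.filter (fun w => ((C.filter (fun x => c w x = false)).card : ℝ) ≤ h)) W := by
          rw [Finset.disjoint_left]
          intro w hw hwW
          simp only [Finset.mem_filter, Finset.mem_univ, true_and] at hw
          have a1 := (hbad w hwW).2
          have a2 : ((Y.filter (fun x => c w x = false)).card : ℝ) ≤ h := by
            refine le_trans ?_ hw
            exact_mod_cast Finset.card_le_card (Finset.filter_subset_filter _ hY)
          have a3 : (Y.filter (fun x => c w x = true)).card +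
              (Y.filter (fun x => c w x = false)).card = Y.card := by
            have := Finset.card_filter_add_card_filter_not (s := Y) (fun x => c w x = true)
            simpa using this
          have a4 : ((Y.filter (fun x => c w x = true)).card : ℝ) +
              ((Y.filter (fun x => c w x = false)).card : ℝ) = Y.card := by exact_mod_cast a3
          linarith
        have hc := Finset.card_le_card hsub
        rw [Finset.card_union_of_disjoint hdisj] at hc
        have e : (i + 1) * Fintype.card V = i * Fintype.card V + Fintype.card V := by ring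
        rw [e]
        omega
  obtain ⟨C, _, _, h2⟩ := key 101 le_rfl
  have h5 : (univ.filter (fun w =>
      ((C.filter (fun x => c w x = false)).card : ℝ) ≤ h)).card ≤ Fintype.card V :=
    (Finset.card_filter_le _ _).trans (by rw [Finset.card_univ])
  omega

/-- Elements of `C` of colour `β` to all of `S`. -/
def mono (c : V → V → Bool) (C : Finset V) (β : Bool) (S : Finset V) : Finset V :=
  C.filter (fun x => ∀ w ∈ S, c w x = β)

lemma greedy (c : V → V → Bool) (C W : Finset V) (β : Bool) (h : ℝ) (T : ℕ)
    (hT : (C.card : ℝ) < T * h) :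
    ∃ S ⊆ W, S.card ≤ T ∧ ∀ w ∈ W,
      (((mono c C β S).filter (fun x => c w x = !β)).card : ℝ) ≤ h := by
  classical
  have key : ∀ j : ℕ, ∃ S ⊆ W, S.card ≤ j ∧ ((∀ w ∈ W,
      (((mono c C β S).filter (fun x => c w x = !β)).card : ℝ) ≤ h) ∨
      ((mono c C β S).card : ℝ) + j * h ≤ C.card) := by
    intro j
    induction j with
    | zero =>
      refine ⟨∅, Finset.empty_subset _, by simp, Or.inr ?_⟩
      simp [mono]
    | succ j ih =>
      obtain ⟨S, hS, hc, hl | hr⟩ := ih
      · exact ⟨S, hS, by omega, Or.inl hl⟩
      · by_cases hst : ∀ w ∈ W, (((mono c C β S).filter (fun x => c w x = !β)).card : ℝ) ≤ h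
        · exact ⟨S, hS, by omega, Or.inl hst⟩
        · push Not at hst
          obtain ⟨w, hw, hbig⟩ := hst
          refine ⟨insert w S, Finset.insert_subset hw hS, ?_, Or.inr ?_⟩
          · exact (Finset.card_insert_le _ _).trans (by omega)
          · have e1 : mono c C β (insert w S) = (mono c C β S).filter (fun x => c w x = β) := by
              ext x
              simp only [mono, Finset.mem_filter, Finset.mem_insert, forall_eq_or_imp]
              tauto
            have e2 : ((mono c C β S).filter (fun x => c w x = β)).card +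
                ((mono c C β S).filter (fun x => c w x = !β)).card = (mono c C β S).card := by
              have := Finset.card_filter_add_card_filter_not (s := mono c C β S)
                (fun x => c w x = β)
              rw [← this]
              congr 2
              ext x
              simp only [Finset.mem_filter]
              have : (c w x = !β) ↔ ¬ c w x = β := by
                cases c w x <;> cases β <;> simp
              rw [this]
            have e3 : (((mono c C β S).filter (fun x => c w x = β)).card : ℝ) +
                (((mono c C β S).filter (fun x => c w x = !β)).card : ℝ)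
                = (mono c C β S).card := by exact_mod_cast e2
            rw [e1]
            push_cast
            linarith
  obtain ⟨S, hS, hc, hl | hr⟩ := key T
  · exact ⟨S, hS, hc, hl⟩
  · exfalso
    have : (0 : ℝ) ≤ ((mono c C β S).card : ℝ) := Nat.cast_nonneg _
    linarith

lemma mono_anti (c : V → V → Bool) (C : Finset V) (β : Bool) {S S' : Finset V} (h : S ⊆ S') :
    mono c C β S' ⊆ mono c C β S := by
  intro x hx
  simp only [mono, Finset.mem_filter] at hx ⊢
  exact ⟨hx.1, fun w hw => hx.2 w (h hw)⟩

end Structure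

section Sampling

variable {V : Type} [DecidableEq V]

/-- The samples. -/
def Om (L : ℕ) (C : Finset V) : Finset (Fin L → V) := Fintype.piFinset (fun _ => C)

omit [DecidableEq V] in
lemma mem_Om {L : ℕ} {C : Finset V} {b : Fin L → V} : b ∈ Om L C ↔ ∀ i, b i ∈ C := by
  simp [Om]

omit [DecidableEq V] in
lemma card_Om (L : ℕ) (C : Finset V) : (Om L C).card = C.card ^ L := by
  simp [Om, Fintype.card_piFinset]

lemma resample {L : ℕ} (C : Finset V) {u v : Fin L} (huv : u ≠ v) (P : (Fin L → V) → Prop)
    [DecidablePred P]
    (hP : ∀ b x y, P (Function.update (Function.update b u x) v y) ↔ P b)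
    (Q : V → V → Prop) [∀ x y, Decidable (Q x y)] :
    ((Om L C).filter (fun b => P b ∧ Q (b u) (b v))).card * C.card ^ 2 =
      ((Om L C).filter P).card * ((C ×ˢ C).filter (fun p => Q p.1 p.2)).card := by
  have e1 : ((Om L C).filter (fun b => P b ∧ Q (b u) (b v))).card * C.card ^ 2 =
    (((Om L C).filter (fun b => P b ∧ Q (b u) (b v))) ×ˢ (C ×ˢ C)).card := by
    rw [Finset.card_product, Finset.card_product, sq]
  have e2 : ((Om L C).filter P).card * ((C ×ˢ C).filter (fun p => Q p.1 p.2)).card =
    (((Om L C).filter P) ×ˢ ((C ×ˢ C).filter (fun p => Q p.1 p.2))).card := by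
    rw [Finset.card_product]
  rw [e1, e2]
  set σ : (Fin L → V) × (V × V) → (Fin L → V) × (V × V) := fun z =>
    (Function.update (Function.update z.1 u z.2.1) v z.2.2, (z.1 u, z.1 v)) with hσ
  have hu : ∀ z, (σ z).1 u = z.2.1 := by
    intro z
    simp [hσ, Function.update_of_ne huv]
  have hv : ∀ z, (σ z).1 v = z.2.2 := by
    intro z
    simp [hσ]
  have hσσ : ∀ z, σ (σ z) = z := by
    rintro ⟨b, x, y⟩
    have h1 := hu (b, x, y)
    have h2 := hv (b, x, y)
    refine Prod.ext ?_ (Prod.ext h1 h2)
    funext i
    show Function.update (Function.update (σ (b, x, y)).1 u (b u)) v (b v) i = b i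
    by_cases hiv : i = v
    · subst hiv; simp
    · rw [Function.update_of_ne hiv]
      by_cases hiu : i = u
      · subst hiu; simp
      · rw [Function.update_of_ne hiu]
        show Function.update (Function.update b u x) v y i = b i
        rw [Function.update_of_ne hiv, Function.update_of_ne hiu]
  have hmem : ∀ b : Fin L → V, ∀ x y, b ∈ Om L C → x ∈ C → y ∈ C → (σ (b, x, y)).1 ∈ Om L C := by
    intro b x y hb hx hy
    rw [mem_Om] at hb ⊢
    intro i
    show Function.update (Function.update b u x) v y i ∈ C
    by_cases hiv : i = v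
    · subst hiv; simpa using hy
    · rw [Function.update_of_ne hiv]
      by_cases hiu : i = u
      · subst hiu; simpa using hx
      · rw [Function.update_of_ne hiu]; exact hb i
  refine Finset.card_nbij' σ σ ?_ ?_ (fun z _ => hσσ z) (fun z _ => hσσ z)
  · rintro ⟨b, x, y⟩ hz
    simp only [Finset.coe_product, Finset.coe_filter, Set.mem_prod, Set.mem_ofPred_eq,
      Finset.mem_coe, Finset.mem_product, Finset.mem_filter] at hz ⊢
    obtain ⟨⟨hb, hPb, hQ⟩, hx, hy⟩ := hz
    refine ⟨⟨hmem b x y hb hx hy, (hP b x y).2 hPb⟩, ⟨?_, ?_⟩, hQ⟩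
    · exact mem_Om.1 hb u
    · exact mem_Om.1 hb v
  · rintro ⟨b, x, y⟩ hz
    simp only [Finset.coe_product, Finset.coe_filter, Set.mem_prod, Set.mem_ofPred_eq,
      Finset.mem_coe, Finset.mem_product, Finset.mem_filter] at hz ⊢
    obtain ⟨⟨hb, hPb⟩, ⟨hx, hy⟩, hQ⟩ := hz
    refine ⟨⟨hmem b x y hb hx hy, (hP b x y).2 hPb, ?_⟩, ?_, ?_⟩
    · rw [hu, hv]; exact hQ
    · exact mem_Om.1 hb u
    · exact mem_Om.1 hb v

lemma half (C : Finset V) (f : V → Bool) :
    2 * ((C ×ˢ C).filter (fun p => f p.1 ≠ f p.2)).card ≤ C.card ^ 2 := by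
  have htot : (C.filter (fun x => f x = true)).card + (C.filter (fun x => f x = false)).card
      = C.card := by
    have := Finset.card_filter_add_card_filter_not (s := C) (fun x => f x = true)
    simpa using this
  have hsub : (C ×ˢ C).filter (fun p => f p.1 ≠ f p.2) ⊆
      (C.filter (fun x => f x = true)) ×ˢ (C.filter (fun x => f x = false)) ∪
      (C.filter (fun x => f x = false)) ×ˢ (C.filter (fun x => f x = true)) := by
    rintro ⟨x, y⟩ hp
    simp only [Finset.mem_union, Finset.mem_product, Finset.mem_filter] at hp ⊢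
    obtain ⟨⟨hx, hy⟩, hne⟩ := hp
    cases h1 : f x <;> cases h2 : f y <;> simp_all
  have h := (Finset.card_le_card hsub).trans (Finset.card_union_le _ _)
  rw [Finset.card_product, Finset.card_product] at h
  rw [← htot]
  set a := (C.filter (fun x => f x = true)).card
  set d := (C.filter (fun x => f x = false)).card
  have : 4 * (a * d) ≤ (a + d) ^ 2 := by
    rcases le_total a d with h' | h'
    · obtain ⟨t, ht⟩ := Nat.exists_eq_add_of_le h'
      rw [ht]; nlinarith [Nat.zero_le (t * t)]
    · obtain ⟨t, ht⟩ := Nat.exists_eq_add_of_le h'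
      rw [ht]; nlinarith [Nat.zero_le (t * t)]
  nlinarith

lemma match_bound {L : ℕ} {ι : Type} [DecidableEq ι] (C : Finset V) (hC : 0 < C.card)
    (f : V → Bool) (M : Finset ι) (u v : ι → Fin L) (hu : Set.InjOn u M) (hv : Set.InjOn v M)
    (huv : ∀ p ∈ M, ∀ q ∈ M, u p ≠ v q) :
    2 ^ M.card * ((Om L C).filter (fun b => ∀ p ∈ M, f (b (u p)) ≠ f (b (v p)))).card
      ≤ C.card ^ L := by
  induction M using Finset.induction_on with
  | empty => simp [card_Om]
  | insert p M hp ih =>
    have ih' := ih (hu.mono (by simp)) (hv.mono (by simp))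
      (fun a ha q hq => huv a (Finset.mem_insert_of_mem ha) q (Finset.mem_insert_of_mem hq))
    rw [Finset.card_insert_of_notMem hp]
    have hne : u p ≠ v p := huv p (Finset.mem_insert_self _ _) p (Finset.mem_insert_self _ _)
    have hr := resample (L := L) C hne (fun b => ∀ q ∈ M, f (b (u q)) ≠ f (b (v q))) (by
      intro b x y
      refine forall₂_congr fun q hq => ?_
      have a1 : u q ≠ u p := fun h => hp (by
        have := hu (Finset.mem_coe.2 (Finset.mem_insert_of_mem hq))
          (Finset.mem_coe.2 (Finset.mem_insert_self _ _)) h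
        rwa [this] at hq)
      have a2 : u q ≠ v p := huv q (Finset.mem_insert_of_mem hq) p (Finset.mem_insert_self _ _)
      have a3 : v q ≠ v p := fun h => hp (by
        have := hv (Finset.mem_coe.2 (Finset.mem_insert_of_mem hq))
          (Finset.mem_coe.2 (Finset.mem_insert_self _ _)) h
        rwa [this] at hq)
      have a4 : v q ≠ u p := fun h =>
        huv p (Finset.mem_insert_self _ _) q (Finset.mem_insert_of_mem hq) h.symm
      rw [Function.update_of_ne a2, Function.update_of_ne a1, Function.update_of_ne a3,
        Function.update_of_ne a4]) (fun x y => f x ≠ f y)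
    have hset : (Om L C).filter (fun b => ∀ q ∈ insert p M, f (b (u q)) ≠ f (b (v q))) =
        (Om L C).filter (fun b => (∀ q ∈ M, f (b (u q)) ≠ f (b (v q))) ∧
          f (b (u p)) ≠ f (b (v p))) := by
      ext b
      simp only [Finset.mem_filter, Finset.mem_insert, forall_eq_or_imp]
      tauto
    rw [hset]
    set A := ((Om L C).filter (fun b => (∀ q ∈ M, f (b (u q)) ≠ f (b (v q))) ∧
          f (b (u p)) ≠ f (b (v p)))).card
    set B := ((Om L C).filter (fun b => ∀ q ∈ M, f (b (u q)) ≠ f (b (v q)))).card
    set D := ((C ×ˢ C).filter (fun p => f p.1 ≠ f p.2)).card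
    have hD : 2 * D ≤ C.card ^ 2 := half C f
    have h2 : 2 * A ≤ B := by
      have h3 : (2 * A) * C.card ^ 2 ≤ B * C.card ^ 2 := by
        calc (2 * A) * C.card ^ 2 = 2 * (A * C.card ^ 2) := by ring
          _ = 2 * (B * D) := by rw [hr]
          _ = B * (2 * D) := by ring
          _ ≤ B * C.card ^ 2 := Nat.mul_le_mul_left _ hD
      exact Nat.le_of_mul_le_mul_right h3 (by positivity)
    calc 2 ^ (M.card + 1) * A = 2 ^ M.card * (2 * A) := by ring
      _ ≤ 2 ^ M.card * B := Nat.mul_le_mul_left _ h2
      _ ≤ _ := ih'

lemma group_bound {L : ℕ} {ι : Type} [DecidableEq ι] (C : Finset V) (hC : 0 < C.card)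
    (f : V → Bool) (M : Finset ι) (u v : ι → Fin L) (hu : Set.InjOn u M) (hv : Set.InjOn v M)
    (huv : ∀ p ∈ M, ∀ q ∈ M, u p ≠ v q) (k : ℕ) (hk : 4 * k ≤ M.card) :
    2 ^ k * ((Om L C).filter (fun b =>
      2 * (M.filter (fun p => f (b (u p)) = f (b (v p)))).card < k)).card ≤ C.card ^ L := by
  obtain ⟨M', hM', hM'c⟩ := Finset.exists_subset_card_eq hk
  have hcard : Fintype.card (Fin k × Fin 4) = Fintype.card M' := by
    simp [hM'c, mul_comm]
  let e : Fin k × Fin 4 ≃ M' := Fintype.equivOfCardEq hcard
  have hsub : (Om L C).filter (fun b =>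
      2 * (M.filter (fun p => f (b (u p)) = f (b (v p)))).card < k) ⊆
      ((univ : Finset (Finset (Fin k))).filter (fun Q => 2 * k ≤ 4 * Q.card)).biUnion (fun Q =>
        (Om L C).filter (fun b => ∀ p ∈ (Q ×ˢ (univ : Finset (Fin 4))).image
          (fun z => (e z : ι)), f (b (u p)) ≠ f (b (v p)))) := by
    intro b hb
    rw [Finset.mem_filter] at hb
    obtain ⟨hbO, hb⟩ := hb
    rw [Finset.mem_biUnion]
    refine ⟨univ.filter (fun a => ∀ t, f (b (u (e (a, t)))) ≠ f (b (v (e (a, t))))), ?_, ?_⟩
    · rw [Finset.mem_filter]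
      refine ⟨Finset.mem_univ _, ?_⟩
      have h1 := Finset.card_filter_add_card_filter_not (s := (univ : Finset (Fin k)))
        (fun a => ∀ t, f (b (u (e (a, t)))) ≠ f (b (v (e (a, t)))))
      rw [Finset.card_univ, Fintype.card_fin] at h1
      have h2 : (univ.filter (fun a => ¬ ∀ t, f (b (u (e (a, t)))) ≠
          f (b (v (e (a, t)))))).card ≤
          (M.filter (fun p => f (b (u p)) = f (b (v p)))).card := by
        have hch : ∀ a : Fin k, ∃ t : Fin 4, (¬ ∀ t, f (b (u (e (a, t)))) ≠
          f (b (v (e (a, t))))) → f (b (u (e (a, t)))) = f (b (v (e (a, t)))) := by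
          intro a
          by_cases h : ∀ t, f (b (u (e (a, t)))) ≠ f (b (v (e (a, t))))
          · exact ⟨0, fun h' => absurd h h'⟩
          · push Not at h
            obtain ⟨t, ht⟩ := h
            exact ⟨t, fun _ => ht⟩
        choose t ht using hch
        refine Finset.card_le_card_of_injOn (fun a => (e (a, t a) : ι)) ?_ ?_
        · intro a ha
          simp only [Finset.coe_filter, Finset.mem_univ, true_and, Set.mem_ofPred_eq] at ha ⊢
          exact ⟨hM' (e (a, t a)).2, ht a ha⟩
        · intro a _ a' _ haa
          have : e (a, t a) = e (a', t a') := Subtype.ext haa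
          exact congrArg Prod.fst (e.injective this)
      omega
    · rw [Finset.mem_filter]
      refine ⟨hbO, ?_⟩
      intro p hp
      simp only [Finset.mem_image, Finset.mem_product, Finset.mem_filter, Finset.mem_univ,
        true_and, and_true] at hp
      obtain ⟨⟨a, t⟩, ha, rfl⟩ := hp
      exact ha t
  have h1 := (Finset.card_le_card hsub).trans Finset.card_biUnion_le
  have h2 : ∀ Q ∈ (univ : Finset (Finset (Fin k))).filter (fun Q => 2 * k ≤ 4 * Q.card),
      2 ^ (2 * k) * ((Om L C).filter (fun b => ∀ p ∈ (Q ×ˢ (univ : Finset (Fin 4))).image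
          (fun z => (e z : ι)), f (b (u p)) ≠ f (b (v p)))).card ≤ C.card ^ L := by
    intro Q hQ
    rw [Finset.mem_filter] at hQ
    set MQ := (Q ×ˢ (univ : Finset (Fin 4))).image (fun z => (e z : ι)) with hMQ
    have hMQs : MQ ⊆ M := by
      intro p hp
      rw [hMQ, Finset.mem_image] at hp
      obtain ⟨z, _, rfl⟩ := hp
      exact hM' (e z).2
    have hMQc : MQ.card = 4 * Q.card := by
      rw [hMQ, Finset.card_image_of_injective _ (fun z z' h => e.injective (Subtype.ext h)),
        Finset.card_product, Finset.card_univ, Fintype.card_fin, mul_comm]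
    have := match_bound C hC f MQ u v (hu.mono (by exact_mod_cast hMQs))
      (hv.mono (by exact_mod_cast hMQs)) (fun p hp q hq => huv p (hMQs hp) q (hMQs hq))
    rw [hMQc] at this
    refine le_trans ?_ this
    exact Nat.mul_le_mul_right _ (Nat.pow_le_pow_right (by norm_num) hQ.2)
  have h3 : 2 ^ (2 * k) * ((Om L C).filter (fun b =>
      2 * (M.filter (fun p => f (b (u p)) = f (b (v p)))).card < k)).card ≤
      2 ^ k * C.card ^ L := by
    refine (Nat.mul_le_mul_left _ h1).trans ?_
    rw [Finset.mul_sum]
    refine (Finset.sum_le_sum h2).trans ?_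
    rw [Finset.sum_const, smul_eq_mul]
    apply Nat.mul_le_mul_right
    refine (Finset.card_filter_le _ _).trans ?_
    rw [Finset.card_univ, Fintype.card_finset, Fintype.card_fin]
  have h4 : 2 ^ k * (2 ^ k * ((Om L C).filter (fun b =>
      2 * (M.filter (fun p => f (b (u p)) = f (b (v p)))).card < k)).card) ≤
      2 ^ k * C.card ^ L := by
    refine le_trans (le_of_eq ?_) h3
    rw [two_mul k, pow_add]; ring
  exact Nat.le_of_mul_le_mul_left h4 (by positivity)

lemma many_bound {L : ℕ} (C R : Finset V) (γ : ℝ) (hγ : 0 ≤ γ)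
    (hR : (R.card : ℝ) ≤ γ * C.card) (s : ℕ) :
    (((Om L C).filter (fun b => s ≤ (univ.filter (fun i => b i ∈ R)).card)).card : ℝ)
      ≤ 2 ^ L * γ ^ s * C.card ^ L := by
  classical
  have hsub : (Om L C).filter (fun b => s ≤ (univ.filter (fun i => b i ∈ R)).card) ⊆
      (Finset.powersetCard s (univ : Finset (Fin L))).biUnion (fun S =>
        Fintype.piFinset (fun i => if i ∈ S then R else C)) := by
    intro b hb
    rw [Finset.mem_filter] at hb
    obtain ⟨hbO, hb⟩ := hb
    obtain ⟨S, hS, hSc⟩ := Finset.exists_subset_card_eq hb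
    rw [Finset.mem_biUnion]
    refine ⟨S, by rw [Finset.mem_powersetCard]; exact ⟨Finset.subset_univ _, hSc⟩, ?_⟩
    rw [Fintype.mem_piFinset]
    intro i
    split_ifs with hi
    · exact (Finset.mem_filter.1 (hS hi)).2
    · exact mem_Om.1 hbO i
  have h1 := (Finset.card_le_card hsub).trans Finset.card_biUnion_le
  have h2 : (((Om L C).filter (fun b => s ≤ (univ.filter (fun i => b i ∈ R)).card)).card : ℝ)
      ≤ ∑ S ∈ Finset.powersetCard s (univ : Finset (Fin L)),
        ((Fintype.piFinset (fun i => if i ∈ S then R else C)).card : ℝ) := by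
    exact_mod_cast h1
  refine h2.trans ?_
  have h3 : ∀ S ∈ Finset.powersetCard s (univ : Finset (Fin L)),
      ((Fintype.piFinset (fun i => if i ∈ S then R else C)).card : ℝ) ≤
        γ ^ s * C.card ^ L := by
    intro S hS
    rw [Finset.mem_powersetCard] at hS
    rw [Fintype.card_piFinset]
    push_cast
    have e1 : ∀ i ∈ (univ : Finset (Fin L)), (((if i ∈ S then R else C) : Finset V).card : ℝ) ≤
        (if i ∈ S then γ else 1) * (C.card : ℝ) := by
      intro i _
      split_ifs
      · exact hR
      · simp
    refine (Finset.prod_le_prod (fun i _ => Nat.cast_nonneg _) e1).trans ?_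
    rw [Finset.prod_mul_distrib, Finset.prod_const, Finset.card_univ, Fintype.card_fin,
      Finset.prod_ite_mem, Finset.univ_inter, Finset.prod_const, hS.2]
  refine (Finset.sum_le_sum h3).trans ?_
  rw [Finset.sum_const, nsmul_eq_mul, Finset.card_powersetCard, Finset.card_univ,
    Fintype.card_fin]
  have h4 : (Nat.choose L s : ℝ) ≤ 2 ^ L := by exact_mod_cast Nat.choose_le_two_pow L s
  have h5 : 0 ≤ γ ^ s * (C.card : ℝ) ^ L := by positivity
  calc _ ≤ 2 ^ L * (γ ^ s * (C.card : ℝ) ^ L) := mul_le_mul_of_nonneg_right h4 h5
    _ = _ := by ring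

end Sampling

end Pool.Agent.W5h9.DenseSub
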