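import Mathlib
import Pool.Agent.W5h9.DenseSub

/-! Helper file: the deterministic part of the proof for dense graphs. -/

namespace Pool.Agent.W5h9.DenseSub

open Finset

section Core

variable {V U : Type} [Fintype V] [DecidableEq V] [Fintype U] [DecidableEq U]

/-- Hall's theorem for the middle vertices. -/
lemma hall (c : V → V → Bool) (E : Finset (U × U)) (φ : U → V)
    (hF : ∀ F ⊆ E, F.Nonempty → F.card + (univ.filter (fun w => (∀ u, w ≠ φ u) ∧
      ∀ e ∈ F, c w (φ e.1) ≠ c w (φ e.2))).card ≤ E.card)
    (hφ : Function.Injective φ) (hcard : Fintype.card V = E.card + Fintype.card U) :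
    ∃ ψ : E → V, Function.Injective ψ ∧
      ∀ e : E, (∀ u, ψ e ≠ φ u) ∧ c (ψ e) (φ e.1.1) = c (ψ e) (φ e.1.2) := by
  classical
  set t : E → Finset V := fun e =>
    univ.filter (fun w => (∀ u, w ≠ φ u) ∧ c w (φ e.1.1) = c w (φ e.1.2)) with ht
  have hall' : ∀ s : Finset E, s.card ≤ (s.biUnion t).card := by
    intro s
    rcases s.eq_empty_or_nonempty with rfl | hs
    · simp
    set F : Finset (U × U) := s.image Subtype.val with hFdef
    have hFc : F.card = s.card := Finset.card_image_of_injective _ Subtype.val_injective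
    have hFE : F ⊆ E := by
      intro x hx
      rw [hFdef, Finset.mem_image] at hx
      obtain ⟨y, _, rfl⟩ := hx
      exact y.2
    have h1 := hF F hFE (hs.image _)
    set bad := univ.filter (fun w => (∀ u, w ≠ φ u) ∧ ∀ e ∈ F, c w (φ e.1) ≠ c w (φ e.2))
      with hbad
    have hout : (univ.filter (fun w : V => ∀ u, w ≠ φ u)).card = E.card := by
      have h2 := Finset.card_filter_add_card_filter_not (s := (univ : Finset V))
        (fun w : V => ∀ u, w ≠ φ u)
      have h3 : (univ.filter (fun w : V => ¬ ∀ u, w ≠ φ u)) = (univ : Finset U).image φ := by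
        ext w
        simp only [Finset.mem_filter, Finset.mem_univ, true_and, Finset.mem_image]
        push Not
        constructor
        · rintro ⟨u, hu⟩; exact ⟨u, hu.symm⟩
        · rintro ⟨u, hu⟩; exact ⟨u, hu.symm⟩
      rw [h3, Finset.card_image_of_injective _ hφ, Finset.card_univ, Finset.card_univ,
        hcard] at h2
      omega
    have hsub : univ.filter (fun w : V => ∀ u, w ≠ φ u) ⊆ s.biUnion t ∪ bad := by
      intro w hw
      rw [Finset.mem_filter] at hw
      rw [Finset.mem_union]
      by_cases hb : ∀ e ∈ F, c w (φ e.1) ≠ c w (φ e.2)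
      · right
        rw [hbad, Finset.mem_filter]
        exact ⟨Finset.mem_univ _, hw.2, hb⟩
      · left
        push Not at hb
        obtain ⟨e, he, hce⟩ := hb
        rw [hFdef, Finset.mem_image] at he
        obtain ⟨y, hy, rfl⟩ := he
        rw [Finset.mem_biUnion]
        refine ⟨y, hy, ?_⟩
        rw [ht]
        simp only [Finset.mem_filter, Finset.mem_univ, true_and]
        exact ⟨hw.2, hce⟩
    have h4 := (Finset.card_le_card hsub).trans (Finset.card_union_le _ _)
    omega
  obtain ⟨ψ, hψ, hψt⟩ := (Finset.all_card_le_biUnion_card_iff_exists_injective t).1 hall'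
  refine ⟨ψ, hψ, fun e => ?_⟩
  have := hψt e
  rw [ht] at this
  simpa using this

lemma agree_comm (c : V → V → Bool) (x y : V) : agree c x y = agree c y x := by
  unfold agree
  congr 1
  ext w
  simp only [Finset.mem_filter, Finset.mem_univ, true_and]
  exact eq_comm

lemma class_small (c : V → V → Bool) (φ : U → V) (C : Finset V) (g γ h : ℝ) (T : ℕ)
    (hφC : ∀ u, φ u ∈ C)
    (h2 : ∀ β, ∀ S : Finset V, S.card ≤ T → ((mono c C β S).card : ℝ) < γ * C.card →
      ((univ.filter (fun u => φ u ∈ mono c C β S)).card : ℝ) < g * Fintype.card U)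
    (hcell : GoodCell c γ h C) (hT : (C.card : ℝ) < T * h)
    (W : Finset V) (hW : Fintype.card V ≤ 100 * W.card) (A B : Finset U)
    (hA : ∀ a ∈ A, ∀ w ∈ W, c w (φ a) = true) (hB : ∀ a ∈ B, ∀ w ∈ W, c w (φ a) = false) :
    (A.card : ℝ) < g * Fintype.card U ∨ (B.card : ℝ) < g * Fintype.card U := by
  by_contra hcon
  push Not at hcon
  obtain ⟨S₁, hS₁W, hS₁c, hS₁⟩ := greedy c C W true h T hT
  obtain ⟨S₀, hS₀W, hS₀c, hS₀⟩ := greedy c C W false h T hT
  have hbig : ∀ β, ∀ S ⊆ W, S.card ≤ T → ∀ A : Finset U, (∀ a ∈ A, ∀ w ∈ W, c w (φ a) = β) →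
      g * Fintype.card U ≤ A.card → γ * C.card ≤ (mono c C β S).card := by
    intro β S hSW hSc A hA hAc
    by_contra hlt
    push Not at hlt
    have h3 := h2 β S hSc hlt
    have h4 : A ⊆ univ.filter (fun u => φ u ∈ mono c C β S) := by
      intro a ha
      simp only [Finset.mem_filter, Finset.mem_univ, true_and, mono]
      exact ⟨hφC a, fun w hw => hA a ha w (hSW hw)⟩
    have h5 : (A.card : ℝ) ≤ (univ.filter (fun u => φ u ∈ mono c C β S)).card := by
      exact_mod_cast Finset.card_le_card h4
    linarith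
  have b1 := hbig true S₁ hS₁W hS₁c A hA hcon.1
  have b0 := hbig false S₀ hS₀W hS₀c B hB hcon.2
  obtain ⟨w, hw, hw'⟩ := hcell W (mono c C true S₁) (mono c C false S₀) hW
    (Finset.filter_subset _ _) (Finset.filter_subset _ _) b1 b0
  rcases hw' with hw' | hw'
  · have := hS₁ w hw
    simp only [Bool.not_true] at this
    linarith
  · have := hS₀ w hw
    simp only [Bool.not_false] at this
    linarith

lemma core (c : V → V → Bool) (E : Finset (U × U)) (φ : U → V) (C : Finset V) (g γ h : ℝ)
    (T : ℕ) (hg : 0 ≤ g)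
    (hφ : Function.Injective φ) (hcard : Fintype.card V = E.card + Fintype.card U)
    (hUE : Fintype.card U ≤ E.card) (hEne : ∀ e ∈ E, e.1 ≠ e.2)
    (h1 : ∀ u v, u ≠ v → ¬ Opp c (φ u) (φ v))
    (hφC : ∀ u, φ u ∈ C)
    (h2 : ∀ β, ∀ S : Finset V, S.card ≤ T → ((mono c C β S).card : ℝ) < γ * C.card →
      ((univ.filter (fun u => φ u ∈ mono c C β S)).card : ℝ) < g * Fintype.card U)
    (h3 : ∀ w, E.card ≤ 25 * (E.filter (fun e => c w (φ e.1) = c w (φ e.2))).card)
    (hcell : GoodCell c γ h C) (hT : (C.card : ℝ) < T * h)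
    (hbig : 200 * ((Fintype.card U : ℝ) + 2 * g * (Fintype.card U : ℝ) ^ 2) ≤ Fintype.card V) :
    ∀ F ⊆ E, F.Nonempty → F.card + (univ.filter (fun w => (∀ u, w ≠ φ u) ∧
      ∀ e ∈ F, c w (φ e.1) ≠ c w (φ e.2))).card ≤ E.card := by
  classical
  intro F hFE hFne
  by_contra hcon
  push Not at hcon
  set W := univ.filter (fun w => (∀ u, w ≠ φ u) ∧ ∀ e ∈ F, c w (φ e.1) ≠ c w (φ e.2)) with hWdef
  have hWmem : ∀ w ∈ W, ∀ e ∈ F, c w (φ e.1) ≠ c w (φ e.2) := by
    intro w hw
    rw [hWdef, Finset.mem_filter] at hw
    exact hw.2.2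
  have hWne : W.Nonempty := by
    rw [Finset.nonempty_iff_ne_empty]
    intro h0
    rw [h0, Finset.card_empty, add_zero] at hcon
    exact absurd (Finset.card_le_card hFE) (by omega)
  have hWbig : Fintype.card V ≤ 50 * W.card := by
    obtain ⟨w, hw⟩ := hWne
    have hsub : F ⊆ E.filter (fun e => ¬ c w (φ e.1) = c w (φ e.2)) := by
      intro e he
      rw [Finset.mem_filter]
      exact ⟨hFE he, hWmem w hw e he⟩
    have a1 := Finset.card_le_card hsub
    have a2 := Finset.card_filter_add_card_filter_not (s := E)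
      (fun e => c w (φ e.1) = c w (φ e.2))
    have a3 := h3 w
    omega
  -- the rows
  set ρ : U → Finset V := fun u => W.filter (fun w => c w (φ u) = true) with hρ
  have hρc : ∀ e ∈ F, ρ e.2 = W \ ρ e.1 := by
    intro e he
    ext w
    simp only [hρ, Finset.mem_filter, Finset.mem_sdiff, not_and]
    constructor
    · rintro ⟨hw, h4⟩
      refine ⟨hw, fun _ h5 => hWmem w hw e he (h5.trans h4.symm)⟩
    · rintro ⟨hw, h4⟩
      refine ⟨hw, ?_⟩
      have h5 := h4 hw
      have h6 := hWmem w hw e he
      cases h7 : c w (φ e.1) <;> cases h8 : c w (φ e.2) <;> simp_all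
  have hclaim : ∀ e ∈ F, ((univ.filter (fun v => ρ v = ρ e.2)).card : ℝ) < g * Fintype.card U ∨
      ((univ.filter (fun v => ρ v = ρ e.1)).card : ℝ) < g * Fintype.card U := by
    intro e he
    have hW' : (ρ e.1).card + (ρ e.2).card = W.card := by
      rw [hρc e he, add_comm]
      exact Finset.card_sdiff_add_card_eq_card (Finset.filter_subset _ _)
    have htrue : ∀ x v, ρ v = ρ x → ∀ w ∈ ρ x, c w (φ v) = true := by
      intro x v hv w hw
      rw [← hv] at hw
      exact (Finset.mem_filter.1 hw).2
    rcases le_total (ρ e.1).card (ρ e.2).card with hle | hle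
    · -- use `ρ e.2`
      have hbigW : Fintype.card V ≤ 100 * (ρ e.2).card := by omega
      have := class_small c φ C g γ h T hφC h2 hcell hT (ρ e.2) hbigW
        (univ.filter (fun v => ρ v = ρ e.2)) (univ.filter (fun v => ρ v = ρ e.1))
        (fun a ha w hw => htrue e.2 a (Finset.mem_filter.1 ha).2 w hw)
        (by
          intro a ha w hw
          have h5 := (Finset.mem_filter.1 ha).2
          have hwW : w ∈ W := (Finset.mem_filter.1 hw).1
          have h6 : w ∉ ρ e.1 := by
            rw [hρc e he] at hw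
            exact (Finset.mem_sdiff.1 hw).2
          rw [← h5] at h6
          by_contra hne
          exact h6 (Finset.mem_filter.2 ⟨hwW, by simpa using hne⟩))
      exact this
    · have hbigW : Fintype.card V ≤ 100 * (ρ e.1).card := by omega
      have := class_small c φ C g γ h T hφC h2 hcell hT (ρ e.1) hbigW
        (univ.filter (fun v => ρ v = ρ e.1)) (univ.filter (fun v => ρ v = ρ e.2))
        (fun a ha w hw => htrue e.1 a (Finset.mem_filter.1 ha).2 w hw)
        (by
          intro a ha w hw
          have h5 := (Finset.mem_filter.1 ha).2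
          have hwW : w ∈ W := (Finset.mem_filter.1 hw).1
          have h6 : w ∉ ρ e.2 := by
            rw [hρc e he]
            exact fun h => (Finset.mem_sdiff.1 h).2 hw
          rw [← h5] at h6
          by_contra hne
          exact h6 (Finset.mem_filter.2 ⟨hwW, by simpa using hne⟩))
      exact this.symm
  -- counting `F`
  have hgU : 0 ≤ g * Fintype.card U := by positivity
  have hcount : ∀ (p q : U × U → U), (∀ e e' : U × U, p e = p e' → q e = q e' → e = e') →
      (∀ e ∈ F, ρ (q e) = W \ ρ (p e)) →
      (((F.filter (fun e => ((univ.filter (fun v => ρ v = ρ (q e))).card : ℝ) <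
        g * Fintype.card U)).card : ℕ) : ℝ) ≤ Fintype.card U * (g * Fintype.card U) := by
    intro p q hpq hqρ
    set F' := F.filter (fun e => ((univ.filter (fun v => ρ v = ρ (q e))).card : ℝ) <
        g * Fintype.card U) with hF'
    have e1 : F'.card = ∑ u ∈ (univ : Finset U), (F'.filter (fun e => p e = u)).card :=
      Finset.card_eq_sum_card_fiberwise (fun e _ => Finset.mem_coe.2 (Finset.mem_univ _))
    rw [e1]
    push_cast
    have e2 : ∀ u ∈ (univ : Finset U), ((F'.filter (fun e => p e = u)).card : ℝ) ≤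
        g * Fintype.card U := by
      intro u _
      rcases (F'.filter (fun e => p e = u)).eq_empty_or_nonempty with h0 | ⟨e₀, he₀⟩
      · rw [h0]; simpa using hgU
      · rw [Finset.mem_filter, hF', Finset.mem_filter] at he₀
        obtain ⟨⟨he₀F, he₀s⟩, he₀u⟩ := he₀
        have e3 : (F'.filter (fun e => p e = u)).card ≤
            (univ.filter (fun v => ρ v = ρ (q e₀))).card := by
          refine Finset.card_le_card_of_injOn q ?_ ?_
          · intro e he
            rw [Finset.mem_coe, Finset.mem_filter, hF', Finset.mem_filter] at he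
            rw [Finset.mem_coe, Finset.mem_filter]
            refine ⟨Finset.mem_univ _, ?_⟩
            rw [hqρ e he.1.1, hqρ e₀ he₀F, he.2, he₀u]
          · intro e he e' he' hee
            rw [Finset.mem_coe, Finset.mem_filter] at he he'
            exact hpq e e' (he.2.trans he'.2.symm) hee
        have e4 : ((F'.filter (fun e => p e = u)).card : ℝ) ≤
            (univ.filter (fun v => ρ v = ρ (q e₀))).card := by exact_mod_cast e3
        linarith
    refine (Finset.sum_le_sum e2).trans ?_
    rw [Finset.sum_const, nsmul_eq_mul, Finset.card_univ]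
  have c1 := hcount Prod.fst Prod.snd (fun e e' h h' => Prod.ext h h') hρc
  have c2 := hcount Prod.snd Prod.fst (fun e e' h h' => Prod.ext h' h) (by
    intro e he
    rw [hρc e he, Finset.sdiff_sdiff_eq_self (Finset.filter_subset _ _)])
  have hFsub : F ⊆ F.filter (fun e => ((univ.filter (fun v => ρ v = ρ e.2)).card : ℝ) <
        g * Fintype.card U) ∪ F.filter (fun e =>
        ((univ.filter (fun v => ρ v = ρ e.1)).card : ℝ) < g * Fintype.card U) := by
    intro e he
    rw [Finset.mem_union, Finset.mem_filter, Finset.mem_filter]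
    rcases hclaim e he with h | h
    · exact Or.inl ⟨he, h⟩
    · exact Or.inr ⟨he, h⟩
  have hFc : (F.card : ℝ) ≤ 2 * g * (Fintype.card U : ℝ) ^ 2 := by
    have a1 := (Finset.card_le_card hFsub).trans (Finset.card_union_le _ _)
    have a2 : (F.card : ℝ) ≤ ((F.filter (fun e =>
        ((univ.filter (fun v => ρ v = ρ e.2)).card : ℝ) < g * Fintype.card U)).card : ℝ) +
        ((F.filter (fun e => ((univ.filter (fun v => ρ v = ρ e.1)).card : ℝ) <
          g * Fintype.card U)).card : ℝ) := by exact_mod_cast a1
    nlinarith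
  -- the contradiction
  obtain ⟨e, he⟩ := hFne
  apply h1 e.1 e.2 (hEne e (hFE he))
  unfold Opp
  have hag : agree c (φ e.1) (φ e.2) + W.card ≤ Fintype.card V := by
    have hdis : Disjoint (univ.filter (fun w => c w (φ e.1) = c w (φ e.2))) W := by
      rw [Finset.disjoint_left]
      intro w hw hwW
      exact hWmem w hwW e he (Finset.mem_filter.1 hw).2
    unfold agree
    rw [← Finset.card_union_of_disjoint hdis, ← Finset.card_univ]
    exact Finset.card_le_card (Finset.subset_univ _)
  have hag2 : agree c (φ e.1) (φ e.2) ≤ Fintype.card U + F.card := by omega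
  have hag3 : (agree c (φ e.1) (φ e.2) : ℝ) ≤ Fintype.card U + F.card := by exact_mod_cast hag2
  have hfin : (200 : ℝ) * (agree c (φ e.1) (φ e.2) : ℝ) ≤ Fintype.card V := by linarith
  exact_mod_cast hfin

end Core

end Pool.Agent.W5h9.DenseSub
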