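import Mathlib
import Pool.Agent.W5h9.DenseSub2

set_option linter.unusedSectionVars false

/-! Helper file: cells for 2-coloured complete graphs (structure part of the proof for graphs with
at least `n ^ (1 + ε)` edges). -/

namespace Pool.Agent.W5h9.PowSub

open Finset
open Pool.Agent.W5h9.DenseSub (agree agree_comm)

section Structure

variable {V : Type} [Fintype V] [DecidableEq V]

/-- A large subset with few pairs of almost opposite vertices. -/
lemma splitR (c : V → V → Bool) (hN : 0 < Fintype.card V) (R : ℕ) (k : ℕ) :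
    ∃ V' : Finset V, Fintype.card V ≤ 2 ^ k * V'.card ∧
      R ^ k * ((V' ×ˢ V').filter (fun p => R * agree c p.1 p.2 ≤ Fintype.card V)).card ≤
        (Fintype.card V) ^ 2 := by
  induction k with
  | zero =>
    refine ⟨univ, by simp, ?_⟩
    rw [pow_zero, one_mul]
    refine (Finset.card_filter_le _ _).trans ?_
    rw [Finset.card_product, Finset.card_univ, sq]
  | succ k ih =>
    obtain ⟨V', h1, h2⟩ := ih
    set P := (V' ×ˢ V').filter (fun p => R * agree c p.1 p.2 ≤ Fintype.card V) with hP
    have hsum : ∑ w, (P.filter (fun p => c w p.1 = c w p.2)).card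
        = ∑ p ∈ P, agree c p.1 p.2 := by
      simp only [agree, Finset.card_filter]
      rw [Finset.sum_comm]
    have hle : R * ∑ w, (P.filter (fun p => c w p.1 = c w p.2)).card
        ≤ P.card * Fintype.card V := by
      rw [hsum, Finset.mul_sum, ← smul_eq_mul, ← Finset.sum_const]
      apply Finset.sum_le_sum
      intro p hp
      exact (Finset.mem_filter.1 hp).2
    obtain ⟨w, hw⟩ : ∃ w : V, R * (P.filter (fun p => c w p.1 = c w p.2)).card ≤ P.card := by
      by_contra hcon
      push Not at hcon
      have : ∑ w : V, (P.card + 1) ≤ ∑ w, R * (P.filter (fun p => c w p.1 = c w p.2)).card :=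
        Finset.sum_le_sum fun w _ => hcon w
      rw [← Finset.mul_sum, Finset.sum_const, Finset.card_univ, smul_eq_mul] at this
      have h3 := this.trans hle
      nlinarith
    have hfin : ∀ β : Bool, V'.card ≤ 2 * (V'.filter (fun x => c w x = β)).card →
        ∃ V'' : Finset V, Fintype.card V ≤ 2 ^ (k + 1) * V''.card ∧
        R ^ (k + 1) * ((V'' ×ˢ V'').filter
          (fun p => R * agree c p.1 p.2 ≤ Fintype.card V)).card ≤ (Fintype.card V) ^ 2 := by
      intro β hβ
      refine ⟨V'.filter (fun x => c w x = β), ?_, ?_⟩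
      · calc Fintype.card V ≤ 2 ^ k * V'.card := h1
          _ ≤ 2 ^ k * (2 * (V'.filter (fun x => c w x = β)).card) :=
            Nat.mul_le_mul_left _ hβ
          _ = _ := by ring
      · have hsub : ((V'.filter (fun x => c w x = β)) ×ˢ (V'.filter (fun x => c w x = β))).filter
            (fun p => R * agree c p.1 p.2 ≤ Fintype.card V) ⊆
              P.filter (fun p => c w p.1 = c w p.2) := by
          intro p hp
          simp only [hP, Finset.mem_filter, Finset.mem_product] at hp ⊢
          obtain ⟨⟨⟨a1, a2⟩, a3, a4⟩, a5⟩ := hp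
          exact ⟨⟨⟨a1, a3⟩, a5⟩, a2.trans a4.symm⟩
        have hc := Finset.card_le_card hsub
        calc R ^ (k + 1) * _ ≤ R ^ (k + 1) * (P.filter (fun p => c w p.1 = c w p.2)).card :=
              Nat.mul_le_mul_left _ hc
          _ = R ^ k * (R * (P.filter (fun p => c w p.1 = c w p.2)).card) := by ring
          _ ≤ R ^ k * P.card := Nat.mul_le_mul_left _ hw
          _ ≤ _ := h2
    have htot : (V'.filter (fun x => c w x = true)).card +
        (V'.filter (fun x => c w x = false)).card = V'.card := by
      have := Finset.card_filter_add_card_filter_not (s := V') (fun x => c w x = true)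
      simpa using this
    rcases le_total (V'.filter (fun x => c w x = true)).card
        (V'.filter (fun x => c w x = false)).card with h | h
    · exact hfin false (by omega)
    · exact hfin true (by omega)

/-- The ordered pairs of `C` with opposite colours to all of `t`. -/
def pairs (c : V → V → Bool) (t C : Finset V) : Finset (V × V) :=
  (C ×ˢ C).filter (fun p => ∀ w ∈ t, c w p.1 ≠ c w p.2)

/-- A good cell: every large set of vertices contains a small set to which only few pairs have
opposite colours. -/
def Good (c : V → V → Bool) (g : ℝ) (T : ℕ) (C : Finset V) : Prop :=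
  ∀ W : Finset V, Fintype.card V ≤ 50 * W.card →
    ∃ t ⊆ W, t.card ≤ T ∧ ((pairs c t C).card : ℝ) ≤ g * (C.card : ℝ) ^ 2

/-- The number of elements of `C` in the minority colour to `w`. -/
def exc (c : V → V → Bool) (w : V) (C : Finset V) : ℕ :=
  min (C.filter (fun x => c w x = true)).card (C.filter (fun x => c w x = false)).card

lemma greedy_pairs (c : V → V → Bool) (C W : Finset V) (κ : ℝ) (hκ : 0 ≤ κ) (T : ℕ)
    (hT : 1 ≤ T * κ) :
    ∃ t ⊆ W, t.card ≤ T ∧ ∀ w ∈ W,
      (((pairs c t C).filter (fun p => c w p.1 = c w p.2)).card : ℝ) ≤ κ * (C.card : ℝ) ^ 2 := by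
  classical
  have key : ∀ j : ℕ, ∃ t ⊆ W, t.card ≤ j ∧ ((∀ w ∈ W,
      (((pairs c t C).filter (fun p => c w p.1 = c w p.2)).card : ℝ) ≤ κ * (C.card : ℝ) ^ 2) ∨
      ((pairs c t C).card : ℝ) + j * (κ * (C.card : ℝ) ^ 2) ≤ (C.card : ℝ) ^ 2) := by
    intro j
    induction j with
    | zero =>
      refine ⟨∅, Finset.empty_subset _, by simp, Or.inr ?_⟩
      simp [pairs, sq]
    | succ j ih =>
      obtain ⟨t, ht, hc, hl | hr⟩ := ih
      · exact ⟨t, ht, by omega, Or.inl hl⟩
      · by_cases hst : ∀ w ∈ W, (((pairs c t C).filter (fun p => c w p.1 = c w p.2)).card : ℝ)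
            ≤ κ * (C.card : ℝ) ^ 2
        · exact ⟨t, ht, by omega, Or.inl hst⟩
        · push Not at hst
          obtain ⟨w, hw, hbig⟩ := hst
          refine ⟨insert w t, Finset.insert_subset hw ht, ?_, Or.inr ?_⟩
          · exact (Finset.card_insert_le _ _).trans (by omega)
          · have e1 : pairs c (insert w t) C =
                (pairs c t C).filter (fun p => ¬ c w p.1 = c w p.2) := by
              ext p
              simp only [pairs, Finset.mem_filter, Finset.mem_insert, forall_eq_or_imp]
              tauto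
            have e2 := Finset.card_filter_add_card_filter_not (s := pairs c t C)
                (fun p => c w p.1 = c w p.2)
            have e3 : (((pairs c t C).filter (fun p => c w p.1 = c w p.2)).card : ℝ) +
                (((pairs c t C).filter (fun p => ¬ c w p.1 = c w p.2)).card : ℝ)
                = (pairs c t C).card := by exact_mod_cast e2
            rw [e1]
            push_cast
            linarith
  obtain ⟨t, ht, hc, hl | hr⟩ := key T
  · exact ⟨t, ht, hc, hl⟩
  · refine ⟨t, ht, hc, fun w _ => ?_⟩
    have h1 : (((pairs c t C).filter (fun p => c w p.1 = c w p.2)).card : ℝ) ≤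
        (pairs c t C).card := by exact_mod_cast Finset.card_filter_le _ _
    have h2 : (0 : ℝ) ≤ (C.card : ℝ) ^ 2 := by positivity
    have h3 : (C.card : ℝ) ^ 2 ≤ T * (κ * (C.card : ℝ) ^ 2) := by nlinarith
    have h4 : 0 ≤ κ * (C.card : ℝ) ^ 2 := by positivity
    linarith

lemma true_add_false (c : V → V → Bool) (w : V) (C : Finset V) :
    (C.filter (fun x => c w x = true)).card + (C.filter (fun x => c w x = false)).card
      = C.card := by
  have := Finset.card_filter_add_card_filter_not (s := C) (fun x => c w x = true)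
  simpa using this

lemma cut_le (c : V → V → Bool) (w : V) (C : Finset V) :
    ((C ×ˢ C).filter (fun p => ¬ c w p.1 = c w p.2)).card ≤ 2 * (exc c w C * C.card) := by
  have hsub : (C ×ˢ C).filter (fun p => ¬ c w p.1 = c w p.2) ⊆
      (C.filter (fun x => c w x = true)) ×ˢ (C.filter (fun x => c w x = false)) ∪
      (C.filter (fun x => c w x = false)) ×ˢ (C.filter (fun x => c w x = true)) := by
    rintro ⟨x, y⟩ hp
    simp only [Finset.mem_union, Finset.mem_product, Finset.mem_filter] at hp ⊢
    obtain ⟨⟨hx, hy⟩, hne⟩ := hp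
    cases h1 : c w x <;> cases h2 : c w y <;> simp_all
  have h := (Finset.card_le_card hsub).trans (Finset.card_union_le _ _)
  rw [Finset.card_product, Finset.card_product] at h
  have h3 := true_add_false c w C
  unfold exc
  set a := (C.filter (fun x => c w x = true)).card
  set d := (C.filter (fun x => c w x = false)).card
  have h4 : a * d ≤ min a d * C.card := by
    rcases le_total a d with h' | h'
    · rw [min_eq_left h']
      exact Nat.mul_le_mul_left _ (by omega)
    · rw [min_eq_right h', mul_comm]
      exact Nat.mul_le_mul_left _ (by omega)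
  have h5 : d * a = a * d := mul_comm _ _
  omega

/-- The row of `x` on `t`. -/
def row (c : V → V → Bool) (t : Finset V) (x : V) : Finset V := t.filter (fun w => c w x = true)

/-- The class of a row. -/
def cl (c : V → V → Bool) (t C τ : Finset V) : Finset V := C.filter (fun x => row c t x = τ)

lemma opp_iff (c : V → V → Bool) (t : Finset V) (x y : V) :
    (∀ w ∈ t, c w x ≠ c w y) ↔ row c t y = t \ row c t x := by
  constructor
  · intro h
    ext w
    simp only [row, Finset.mem_filter, Finset.mem_sdiff, not_and]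
    constructor
    · rintro ⟨hw, hy⟩
      exact ⟨hw, fun _ hx => h w hw (hx.trans hy.symm)⟩
    · rintro ⟨hw, hx⟩
      refine ⟨hw, ?_⟩
      have h1 := hx hw
      have h2 := h w hw
      cases h3 : c w x <;> cases h4 : c w y <;> simp_all
  · intro h w hw heq
    have h1 := Finset.ext_iff.1 h w
    simp only [row, Finset.mem_filter, Finset.mem_sdiff, not_and] at h1
    cases h3 : c w x
    · rw [h3] at heq h1
      have := h1.2 ⟨hw, fun _ => by decide⟩
      rw [← heq] at this
      exact absurd this.2 (by decide)
    · rw [h3] at heq h1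
      have := h1.1 ⟨hw, heq.symm⟩
      exact this.2 hw rfl

lemma fiber (c : V → V → Bool) (t C τ : Finset V) :
    (pairs c t C).filter (fun p => row c t p.1 = τ) = cl c t C τ ×ˢ cl c t C (t \ τ) := by
  ext ⟨x, y⟩
  simp only [pairs, Finset.mem_filter, Finset.mem_product, cl, opp_iff]
  constructor
  · rintro ⟨⟨⟨hx, hy⟩, h1⟩, h2⟩
    rw [h2] at h1
    exact ⟨⟨hx, h2⟩, hy, h1⟩
  · rintro ⟨⟨hx, h2⟩, hy, h1⟩
    refine ⟨⟨⟨hx, hy⟩, ?_⟩, h2⟩
    rw [h2]; exact h1

lemma row_mem (c : V → V → Bool) (t : Finset V) (x : V) : row c t x ∈ t.powerset :=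
  Finset.mem_powerset.2 (Finset.filter_subset _ _)

lemma card_pairs (c : V → V → Bool) (t C : Finset V) :
    (pairs c t C).card = ∑ τ ∈ t.powerset, (cl c t C τ).card * (cl c t C (t \ τ)).card := by
  rw [Finset.card_eq_sum_card_fiberwise (f := fun p => row c t p.1) (t := t.powerset)
    (fun p _ => row_mem c t p.1)]
  apply Finset.sum_congr rfl
  intro τ _
  rw [fiber, Finset.card_product]

lemma sum_cl (c : V → V → Bool) (t C : Finset V) :
    ∑ τ ∈ t.powerset, (cl c t C τ).card = C.card :=
  (Finset.card_eq_sum_card_fiberwise (f := fun x => row c t x) (t := t.powerset)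
    (fun x _ => row_mem c t x)).symm

lemma sum_cl' (c : V → V → Bool) (t C : Finset V) :
    ∑ τ ∈ t.powerset, (cl c t C (t \ τ)).card = C.card := by
  rw [← sum_cl c t C]
  refine Finset.sum_nbij' (fun τ => t \ τ) (fun τ => t \ τ) ?_ ?_ ?_ ?_ ?_
  · intro τ _; exact Finset.mem_powerset.2 Finset.sdiff_subset
  · intro τ _; exact Finset.mem_powerset.2 Finset.sdiff_subset
  · intro τ hτ
    exact Finset.sdiff_sdiff_eq_self (Finset.mem_powerset.1 hτ)
  · intro τ hτ
    exact Finset.sdiff_sdiff_eq_self (Finset.mem_powerset.1 hτ)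
  · intro τ _; rfl

lemma sum_exc (c : V → V → Bool) (w : V) (t C : Finset V) :
    ∑ τ ∈ t.powerset, exc c w (cl c t C τ) ≤ exc c w C := by
  have h : ∀ β : Bool, (C.filter (fun x => c w x = β)).card =
      ∑ τ ∈ t.powerset, ((cl c t C τ).filter (fun x => c w x = β)).card := by
    intro β
    rw [Finset.card_eq_sum_card_fiberwise (f := fun x => row c t x) (t := t.powerset)
      (fun x _ => row_mem c t x)]
    apply Finset.sum_congr rfl
    intro τ _
    congr 1
    ext x
    simp only [cl, Finset.mem_filter]
    tauto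
  unfold exc
  rw [h true, h false]
  apply le_min
  · exact Finset.sum_le_sum (fun τ _ => min_le_left _ _)
  · exact Finset.sum_le_sum (fun τ _ => min_le_right _ _)

lemma exc_mul_le (c : V → V → Bool) (w : V) (X Y : Finset V) :
    exc c w X * Y.card ≤ ((X ×ˢ Y).filter (fun p => c w p.1 = c w p.2)).card := by
  have h1 : (X.filter (fun x => c w x = true)) ×ˢ (Y.filter (fun x => c w x = true)) ∪
      (X.filter (fun x => c w x = false)) ×ˢ (Y.filter (fun x => c w x = false)) ⊆
      (X ×ˢ Y).filter (fun p => c w p.1 = c w p.2) := by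
    rintro ⟨x, y⟩ hp
    simp only [Finset.mem_union, Finset.mem_product, Finset.mem_filter] at hp ⊢
    rcases hp with ⟨⟨a1, a2⟩, a3, a4⟩ | ⟨⟨a1, a2⟩, a3, a4⟩
    · exact ⟨⟨a1, a3⟩, a2.trans a4.symm⟩
    · exact ⟨⟨a1, a3⟩, a2.trans a4.symm⟩
  have hdis : Disjoint
      ((X.filter (fun x => c w x = true)) ×ˢ (Y.filter (fun x => c w x = true)))
      ((X.filter (fun x => c w x = false)) ×ˢ (Y.filter (fun x => c w x = false))) := by
    rw [Finset.disjoint_left]
    rintro ⟨x, y⟩ h2 h3
    simp only [Finset.mem_product, Finset.mem_filter] at h2 h3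
    have := h2.1.2.symm.trans h3.1.2
    exact absurd this (by decide)
  have h2 := Finset.card_le_card h1
  rw [Finset.card_union_of_disjoint hdis, Finset.card_product, Finset.card_product] at h2
  have h3 := true_add_false c w Y
  unfold exc
  set a := (X.filter (fun x => c w x = true)).card
  set d := (X.filter (fun x => c w x = false)).card
  rw [← h3, mul_add]
  refine le_trans (Nat.add_le_add ?_ ?_) h2
  · exact Nat.mul_le_mul_right _ (min_le_left _ _)
  · exact Nat.mul_le_mul_right _ (min_le_right _ _)

lemma sum_exc_mul (c : V → V → Bool) (w : V) (t C : Finset V) :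
    ∑ τ ∈ t.powerset, exc c w (cl c t C τ) * (cl c t C (t \ τ)).card ≤
      ((pairs c t C).filter (fun p => c w p.1 = c w p.2)).card := by
  rw [Finset.card_eq_sum_card_fiberwise (f := fun p => row c t p.1) (t := t.powerset)
    (fun p _ => row_mem c t p.1)]
  apply Finset.sum_le_sum
  intro τ _
  refine (exc_mul_le c w _ _).trans (le_of_eq ?_)
  congr 1
  rw [← fiber]
  ext p
  simp only [Finset.mem_filter]
  tauto

/-- One step of the construction of a good cell. -/
lemma step (c : V → V → Bool) (t C Z : Finset V) (g μ : ℝ) (hg : 0 < g) (hμ : 0 < μ)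
    (hN : 0 < Fintype.card V)
    (hD : g * (C.card : ℝ) ^ 2 < (pairs c t C).card)
    (hZ : ∀ w ∈ Z, ((∑ τ ∈ t.powerset, exc c w (cl c t C τ) * (cl c t C (t \ τ)).card : ℕ) : ℝ)
      ≤ μ * (C.card : ℝ) ^ 2) :
    ∃ C' ⊆ C, g / 2 * C.card ≤ C'.card ∧
      ((∑ w ∈ Z, exc c w C' : ℕ) : ℝ) ≤ (2 * μ / g) * Fintype.card V * C'.card := by
  by_contra hcon
  push Not at hcon
  have hNR : (0 : ℝ) < Fintype.card V := by exact_mod_cast hN
  have hC : 0 < C.card := by
    by_contra h0
    have h1 : C.card = 0 := by omega
    rw [Finset.card_eq_zero] at h1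
    rw [h1] at hD
    simp [pairs] at hD
  have hCR : (0 : ℝ) < C.card := by exact_mod_cast hC
  -- the weighted sum
  have hS : ((∑ τ ∈ t.powerset, (cl c t C (t \ τ)).card * ∑ w ∈ Z, exc c w (cl c t C τ) : ℕ) : ℝ)
      ≤ Fintype.card V * (μ * (C.card : ℝ) ^ 2) := by
    have h1 : (∑ τ ∈ t.powerset, (cl c t C (t \ τ)).card * ∑ w ∈ Z, exc c w (cl c t C τ) : ℕ)
        = ∑ w ∈ Z, ∑ τ ∈ t.powerset, exc c w (cl c t C τ) * (cl c t C (t \ τ)).card := by
      rw [Finset.sum_comm]
      apply Finset.sum_congr rfl
      intro τ _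
      rw [Finset.mul_sum]
      apply Finset.sum_congr rfl
      intro w _
      ring
    rw [h1]
    push_cast
    have h2 : ∑ w ∈ Z, ∑ τ ∈ t.powerset, (exc c w (cl c t C τ) : ℝ) *
        ((cl c t C (t \ τ)).card : ℝ) ≤ ∑ w ∈ Z, μ * (C.card : ℝ) ^ 2 := by
      apply Finset.sum_le_sum
      intro w hw
      have := hZ w hw
      push_cast at this
      exact this
    refine h2.trans ?_
    rw [Finset.sum_const, nsmul_eq_mul]
    have h3 : (Z.card : ℝ) ≤ Fintype.card V := by
      exact_mod_cast Finset.card_le_univ Z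
    have h4 : 0 ≤ μ * (C.card : ℝ) ^ 2 := by positivity
    exact mul_le_mul_of_nonneg_right h3 h4
  -- every class
  have hcls : ∀ τ ∈ t.powerset, (2 * μ / g) * Fintype.card V *
      (((cl c t C τ).card : ℝ) * ((cl c t C (t \ τ)).card : ℝ)) ≤
      ((cl c t C (t \ τ)).card : ℝ) * ((∑ w ∈ Z, exc c w (cl c t C τ) : ℕ) : ℝ) +
      (2 * μ / g) * Fintype.card V * (g / 2 * C.card) * ((cl c t C (t \ τ)).card : ℝ) := by
    intro τ _
    have hy : (0 : ℝ) ≤ ((cl c t C (t \ τ)).card : ℝ) := Nat.cast_nonneg _
    have hl : 0 ≤ (2 * μ / g) * Fintype.card V := by positivity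
    by_cases hbig : g / 2 * (C.card : ℝ) ≤ (cl c t C τ).card
    · have h1 := (hcon (cl c t C τ) (Finset.filter_subset _ _) hbig).le
      have h2 : 0 ≤ (2 * μ / g) * Fintype.card V * (g / 2 * C.card) *
          ((cl c t C (t \ τ)).card : ℝ) := by positivity
      have h3 := mul_le_mul_of_nonneg_left h1 hy
      linarith
    · push Not at hbig
      have h2 : (0 : ℝ) ≤ ((cl c t C (t \ τ)).card : ℝ) *
          ((∑ w ∈ Z, exc c w (cl c t C τ) : ℕ) : ℝ) := by positivity
      have h3 : (2 * μ / g) * Fintype.card V *
          (((cl c t C τ).card : ℝ) * ((cl c t C (t \ τ)).card : ℝ)) ≤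
          (2 * μ / g) * Fintype.card V * (g / 2 * C.card * ((cl c t C (t \ τ)).card : ℝ)) := by
        apply mul_le_mul_of_nonneg_left _ hl
        exact mul_le_mul_of_nonneg_right hbig.le hy
      linarith
  have hsum := Finset.sum_le_sum hcls
  rw [← Finset.mul_sum, Finset.sum_add_distrib, ← Finset.mul_sum] at hsum
  have e1 : ∑ τ ∈ t.powerset, ((cl c t C τ).card : ℝ) * ((cl c t C (t \ τ)).card : ℝ) =
      (pairs c t C).card := by
    rw [card_pairs]; push_cast; rfl
  have e2 : ∑ τ ∈ t.powerset, ((cl c t C (t \ τ)).card : ℝ) = C.card := by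
    rw [← sum_cl' c t C]; push_cast; rfl
  rw [e1, e2] at hsum
  push_cast at hS hsum
  have h5 : (2 * μ / g) * Fintype.card V * (g * (C.card : ℝ) ^ 2) <
      (2 * μ / g) * Fintype.card V * (pairs c t C).card := by
    apply mul_lt_mul_of_pos_left hD
    positivity
  have h6 : (2 * μ / g) * Fintype.card V * (g * (C.card : ℝ) ^ 2) =
      2 * (Fintype.card V * (μ * (C.card : ℝ) ^ 2)) := by field_simp
  have h7 : (2 * μ / g) * Fintype.card V * (g / 2 * C.card) * (C.card : ℝ) =
      Fintype.card V * (μ * (C.card : ℝ) ^ 2) := by field_simp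
  linarith

/-- Good cells exist in every subset. -/
lemma good_cell (c : V → V → Bool) (hN : 0 < Fintype.card V) (V' : Finset V)
    (hV' : V'.Nonempty) (g κ : ℝ) (T : ℕ) (hg : 0 < g) (hg1 : g ≤ 1) (hκ : 0 < κ)
    (hκg : κ * (2 * (400 / g) ^ 101 + 1) ≤ g) (hT : 1 ≤ T * κ) :
    ∃ C ⊆ V', (g / 2) ^ 101 * V'.card ≤ C.card ∧ Good c g T C := by
  classical
  by_contra hcon
  push Not at hcon
  have hNR : (0 : ℝ) < Fintype.card V := by exact_mod_cast hN
  have hV'R : (0 : ℝ) < V'.card := by exact_mod_cast hV'.card_pos
  have hA : 1 ≤ 400 / g := by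
    rw [le_div_iff₀ hg]; linarith
  have hA0 : 0 < 400 / g := by positivity
  have key : ∀ i : ℕ, i ≤ 101 → ∃ C ⊆ V', (g / 2) ^ i * V'.card ≤ C.card ∧
      i * Fintype.card V ≤ 100 * (univ.filter (fun w =>
        (exc c w C : ℝ) ≤ κ * (400 / g) ^ i * C.card)).card := by
    intro i
    induction i with
    | zero => intro _; exact ⟨V', subset_rfl, by simp, by simp⟩
    | succ i ih =>
      intro hi
      obtain ⟨C, hC, h1, h2⟩ := ih (by omega)
      have hpow : (g / 2) ^ 101 * (V'.card : ℝ) ≤ C.card := by
        refine le_trans ?_ h1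
        apply mul_le_mul_of_nonneg_right _ hV'R.le
        exact pow_le_pow_of_le_one (by positivity) (by linarith) (by omega)
      have hCR : (0 : ℝ) < C.card := lt_of_lt_of_le (by positivity) hpow
      have h3 := hcon C hC hpow
      unfold Good at h3
      push Not at h3
      obtain ⟨W, hW, hWt⟩ := h3
      obtain ⟨t, htW, htT, ht⟩ := greedy_pairs c C W κ hκ.le T hT
      have hD := hWt t htW htT
      set M := univ.filter (fun w => (exc c w C : ℝ) ≤ κ * (400 / g) ^ i * C.card) with hM
      have hAi : (400 / g) ^ i ≤ (400 / g) ^ 101 := pow_le_pow_right₀ hA (by omega)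
      have hAi1 : 1 ≤ (400 / g) ^ i := one_le_pow₀ hA
      have hdis : Disjoint M W := by
        rw [Finset.disjoint_left]
        intro w hwM hwW
        rw [hM, Finset.mem_filter] at hwM
        have a1 := ht w hwW
        have a2 : (pairs c t C).card ≤ ((pairs c t C).filter (fun p => c w p.1 = c w p.2)).card +
            2 * (exc c w C * C.card) := by
          rw [← Finset.card_filter_add_card_filter_not (s := pairs c t C)
            (fun p => c w p.1 = c w p.2)]
          apply Nat.add_le_add_left
          refine le_trans (Finset.card_le_card ?_) (cut_le c w C)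
          intro p hp
          simp only [pairs, Finset.mem_filter] at hp ⊢
          exact ⟨hp.1.1, hp.2⟩
        have a3 : ((pairs c t C).card : ℝ) ≤
            (((pairs c t C).filter (fun p => c w p.1 = c w p.2)).card : ℝ) +
            2 * ((exc c w C : ℝ) * C.card) := by exact_mod_cast a2
        have a4 : (exc c w C : ℝ) * C.card ≤ κ * (400 / g) ^ i * C.card * C.card :=
          mul_le_mul_of_nonneg_right hwM.2 hCR.le
        have a5 : g * (C.card : ℝ) ^ 2 < κ * (C.card : ℝ) ^ 2 +
            2 * (κ * (400 / g) ^ i * C.card * C.card) := by linarith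
        have a6 : κ * (C.card : ℝ) ^ 2 + 2 * (κ * (400 / g) ^ i * C.card * C.card) ≤
            g * (C.card : ℝ) ^ 2 := by
          calc κ * (C.card : ℝ) ^ 2 + 2 * (κ * (400 / g) ^ i * C.card * C.card)
              = κ * (2 * (400 / g) ^ i + 1) * (C.card : ℝ) ^ 2 := by ring
            _ ≤ κ * (2 * (400 / g) ^ 101 + 1) * (C.card : ℝ) ^ 2 := by gcongr
            _ ≤ g * (C.card : ℝ) ^ 2 := by gcongr
        linarith
      have hμ : 0 < κ * (400 / g) ^ i := by positivity
      obtain ⟨C', hC'C, hC'1, hC'2⟩ := step c t C (M ∪ W) g (κ * (400 / g) ^ i) hg hμ hN hD (by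
        intro w hw
        rw [Finset.mem_union] at hw
        rcases hw with hw | hw
        · rw [hM, Finset.mem_filter] at hw
          have b1 : (∑ τ ∈ t.powerset, exc c w (cl c t C τ) * (cl c t C (t \ τ)).card) ≤
              exc c w C * C.card := by
            calc (∑ τ ∈ t.powerset, exc c w (cl c t C τ) * (cl c t C (t \ τ)).card)
                ≤ ∑ τ ∈ t.powerset, exc c w (cl c t C τ) * C.card := by
                  apply Finset.sum_le_sum
                  intro τ _
                  exact Nat.mul_le_mul_left _ (Finset.card_filter_le _ _)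
              _ = (∑ τ ∈ t.powerset, exc c w (cl c t C τ)) * C.card := by rw [Finset.sum_mul]
              _ ≤ _ := Nat.mul_le_mul_right _ (sum_exc c w t C)
          have b2 : ((∑ τ ∈ t.powerset, exc c w (cl c t C τ) * (cl c t C (t \ τ)).card : ℕ) : ℝ)
              ≤ (exc c w C : ℝ) * C.card := by exact_mod_cast b1
          calc _ ≤ (exc c w C : ℝ) * C.card := b2
            _ ≤ κ * (400 / g) ^ i * C.card * C.card := mul_le_mul_of_nonneg_right hw.2 hCR.le
            _ = _ := by ring
        · have b1 : ((∑ τ ∈ t.powerset, exc c w (cl c t C τ) * (cl c t C (t \ τ)).card : ℕ) : ℝ)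
              ≤ (((pairs c t C).filter (fun p => c w p.1 = c w p.2)).card : ℝ) := by
            exact_mod_cast sum_exc_mul c w t C
          calc _ ≤ (((pairs c t C).filter (fun p => c w p.1 = c w p.2)).card : ℝ) := b1
            _ ≤ κ * (C.card : ℝ) ^ 2 := ht w hw
            _ = κ * 1 * (C.card : ℝ) ^ 2 := by ring
            _ ≤ κ * (400 / g) ^ i * (C.card : ℝ) ^ 2 := by gcongr)
      refine ⟨C', hC'C.trans hC, ?_, ?_⟩
      · calc (g / 2) ^ (i + 1) * (V'.card : ℝ) = g / 2 * ((g / 2) ^ i * V'.card) := by ring
          _ ≤ g / 2 * C.card := by gcongr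
          _ ≤ _ := hC'1
      · have hC'R : (0 : ℝ) < C'.card := lt_of_lt_of_le (by positivity) hC'1
        set M' := univ.filter (fun w => (exc c w C' : ℝ) ≤ κ * (400 / g) ^ (i + 1) * C'.card)
          with hM'
        -- the lost vertices
        have hlost : 100 * ((M ∪ W).filter (fun w => w ∉ M')).card ≤ Fintype.card V := by
          set Q := (M ∪ W).filter (fun w => w ∉ M') with hQ
          have c1 : (Q.card : ℝ) * (κ * (400 / g) ^ (i + 1) * C'.card) ≤
              ((∑ w ∈ M ∪ W, exc c w C' : ℕ) : ℝ) := by
            have c2 : ∑ w ∈ Q, (κ * (400 / g) ^ (i + 1) * (C'.card : ℝ)) ≤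
                ∑ w ∈ Q, (exc c w C' : ℝ) := by
              apply Finset.sum_le_sum
              intro w hw
              rw [hQ, Finset.mem_filter, hM', Finset.mem_filter] at hw
              have := hw.2
              push Not at this
              exact (this (Finset.mem_univ _)).le
            rw [Finset.sum_const, nsmul_eq_mul] at c2
            refine c2.trans ?_
            push_cast
            exact Finset.sum_le_sum_of_subset_of_nonneg (Finset.filter_subset _ _)
              (fun _ _ _ => Nat.cast_nonneg _)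
          have c3 := c1.trans hC'2
          have c4 : (2 * (κ * (400 / g) ^ i) / g) * Fintype.card V * (C'.card : ℝ) =
              (κ * (400 / g) ^ (i + 1) * C'.card) * (Fintype.card V / 200) := by
            rw [pow_succ]; field_simp; ring
          rw [c4, mul_comm] at c3
          have c5 : (Q.card : ℝ) ≤ Fintype.card V / 200 :=
            le_of_mul_le_mul_left c3 (by positivity)
          have c6 : (100 : ℝ) * Q.card ≤ Fintype.card V := by linarith
          exact_mod_cast c6
        have hcov : (M ∪ W).card ≤ ((M ∪ W).filter (fun w => w ∉ M')).card + M'.card := by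
          rw [← Finset.card_filter_add_card_filter_not (s := M ∪ W) (fun w => w ∉ M')]
          apply Nat.add_le_add_left
          apply Finset.card_le_card
          intro w hw
          rw [Finset.mem_filter] at hw
          exact not_not.1 hw.2
        rw [Finset.card_union_of_disjoint hdis] at hcov
        have e : (i + 1) * Fintype.card V = i * Fintype.card V + Fintype.card V := by ring
        rw [e]
        omega
  obtain ⟨C, _, _, h2⟩ := key 101 le_rfl
  have h5 : (univ.filter (fun w => (exc c w C : ℝ) ≤ κ * (400 / g) ^ 101 * C.card)).card ≤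
      Fintype.card V := (Finset.card_filter_le _ _).trans (by rw [Finset.card_univ])
  omega

end Structure

end Pool.Agent.W5h9.PowSub
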