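import Mathlib
import Pool.Agent.W5h9.PowSub

set_option linter.unusedSectionVars false

/-! Helper file: large sets without almost opposite pairs, and weighted splitting. -/

namespace Pool.Agent.W5h9.LogSub

open Finset
open Pool.Agent.W5h9.DenseSub (agree agree_comm)

section Free

variable {V : Type} [Fintype V] [DecidableEq V]

/-- The number of vertices whose colours to `x` and `y` differ. -/
def dis (c : V → V → Bool) (x y : V) : ℕ := (univ.filter (fun w => ¬ c w x = c w y)).card

lemma agree_add_dis (c : V → V → Bool) (x y : V) : agree c x y + dis c x y = Fintype.card V := by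
  unfold agree dis
  rw [← Finset.card_univ]
  exact Finset.card_filter_add_card_filter_not (s := (univ : Finset V)) (fun w => c w x = c w y)

lemma dis_comm (c : V → V → Bool) (x y : V) : dis c x y = dis c y x := by
  have h1 := agree_add_dis c x y
  have h2 := agree_add_dis c y x
  rw [agree_comm c y x] at h2
  omega

lemma t1 (c : V → V → Bool) (v x y : V) : agree c v y ≤ agree c x y + dis c v x := by
  unfold agree dis
  refine le_trans (Finset.card_le_card ?_) (Finset.card_union_le _ _)
  intro w hw
  simp only [Finset.mem_union, Finset.mem_filter, Finset.mem_univ, true_and] at hw ⊢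
  cases h1 : c w v <;> cases h2 : c w x <;> cases h3 : c w y <;> simp_all

lemma t2 (c : V → V → Bool) (v x y : V) : dis c v y ≤ agree c x y + agree c v x := by
  unfold agree dis
  refine le_trans (Finset.card_le_card ?_) (Finset.card_union_le _ _)
  intro w hw
  simp only [Finset.mem_union, Finset.mem_filter, Finset.mem_univ, true_and] at hw ⊢
  cases h1 : c w v <;> cases h2 : c w x <;> cases h3 : c w y <;> simp_all

lemma t3 (c : V → V → Bool) (v x y : V) : dis c x y ≤ dis c v x + dis c v y := by
  unfold dis
  refine le_trans (Finset.card_le_card ?_) (Finset.card_union_le _ _)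
  intro w hw
  simp only [Finset.mem_union, Finset.mem_filter, Finset.mem_univ, true_and] at hw ⊢
  cases h1 : c w v <;> cases h2 : c w x <;> cases h3 : c w y <;> simp_all

lemma t4 (c : V → V → Bool) (v x y : V) : dis c x y ≤ agree c v x + agree c v y := by
  unfold agree dis
  refine le_trans (Finset.card_le_card ?_) (Finset.card_union_le _ _)
  intro w hw
  simp only [Finset.mem_union, Finset.mem_filter, Finset.mem_univ, true_and] at hw ⊢
  cases h1 : c w v <;> cases h2 : c w x <;> cases h3 : c w y <;> simp_all

/-- A quarter of every set has no almost opposite pairs. -/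
lemma opp_free (c : V → V → Bool) (a L : ℕ) (hL : Fintype.card V < 2 ^ L)
    (ha : (2 * L + 1) * a < Fintype.card V) (n : ℕ) :
    ∀ S : Finset V, S.card ≤ n → ∃ I ⊆ S, S.card ≤ 4 * I.card ∧
      ∀ x ∈ I, ∀ y ∈ I, a < agree c x y := by
  classical
  induction n with
  | zero =>
    intro S hS
    refine ⟨∅, Finset.empty_subset _, by simpa using hS, ?_⟩
    intro x hx
    exact absurd hx (Finset.notMem_empty _)
  | succ n ih =>
    intro S hS
    rcases S.eq_empty_or_nonempty with rfl | ⟨v, hv⟩
    · exact ⟨∅, Finset.empty_subset _, by simp, fun x hx => absurd hx (Finset.notMem_empty _)⟩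
    set ball : ℕ → Finset V := fun j => S.filter (fun x => dis c v x ≤ j * a ∨
      agree c v x ≤ j * a) with hball
    have hdvv : dis c v v = 0 := by
      unfold dis
      rw [Finset.card_eq_zero, Finset.filter_eq_empty_iff]
      intro w _ h
      exact h rfl
    have hgrow : ∃ j < L, (ball (j + 1)).card ≤ 2 * (ball j).card := by
      by_contra hcon
      push Not at hcon
      have h1 : ∀ j ≤ L, 2 ^ j ≤ (ball j).card := by
        intro j
        induction j with
        | zero =>
          intro _
          rw [pow_zero]
          apply Finset.card_pos.2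
          refine ⟨v, ?_⟩
          rw [hball]
          simp only [Finset.mem_filter]
          exact ⟨hv, Or.inl (by rw [hdvv]; exact Nat.zero_le _)⟩
        | succ j ihj =>
          intro hj
          have h2 := ihj (by omega)
          have h3 := hcon j (by omega)
          rw [pow_succ]
          omega
      have h2 := h1 L le_rfl
      have h3 : (ball L).card ≤ Fintype.card V := Finset.card_le_univ _
      omega
    obtain ⟨j, hjL, hj⟩ := hgrow
    have hvb : v ∈ ball (j + 1) := by
      rw [hball]
      simp only [Finset.mem_filter]
      exact ⟨hv, Or.inl (by rw [hdvv]; exact Nat.zero_le _)⟩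
    have hcard : (S \ ball (j + 1)).card + (ball (j + 1)).card = S.card :=
      Finset.card_sdiff_add_card_eq_card (Finset.filter_subset _ _)
    have hpos : 0 < (ball (j + 1)).card := Finset.card_pos.2 ⟨v, hvb⟩
    obtain ⟨I', hI'S, hI'c, hI'⟩ := ih (S \ ball (j + 1)) (by omega)
    have hja : (2 * j + 1) * a ≤ (2 * L + 1) * a := Nat.mul_le_mul_right _ (by omega)
    have hja' : (2 * j + 1) * a = 2 * (j * a) + a := by ring
    have hj1 : (j + 1) * a = j * a + a := by ring
    -- the two sides
    have hside : ∀ Q : Finset V, Q ⊆ ball j → (ball j).card ≤ 2 * Q.card →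
        (∀ x ∈ Q, ∀ y ∈ Q, a < agree c x y) →
        ∃ I ⊆ S, S.card ≤ 4 * I.card ∧ ∀ x ∈ I, ∀ y ∈ I, a < agree c x y := by
      intro Q hQ hQc hQi
      have hbj : ball j ⊆ ball (j + 1) := by
        intro x hx
        rw [hball] at hx ⊢
        simp only [Finset.mem_filter] at hx ⊢
        refine ⟨hx.1, ?_⟩
        rcases hx.2 with h | h
        · left; omega
        · right; omega
      have hcross : ∀ x ∈ Q, ∀ y ∈ I', a < agree c x y := by
        intro x hx y hy
        by_contra hle
        push Not at hle
        have hyS := hI'S hy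
        rw [Finset.mem_sdiff] at hyS
        apply hyS.2
        rw [hball]
        simp only [Finset.mem_filter]
        refine ⟨hyS.1, ?_⟩
        have hxb := hQ hx
        rw [hball] at hxb
        simp only [Finset.mem_filter] at hxb
        rcases hxb.2 with h | h
        · right
          have := t1 c v x y
          omega
        · left
          have := t2 c v x y
          omega
      have hdisj : Disjoint Q I' := by
        rw [Finset.disjoint_left]
        intro x hx hx'
        have := hI'S hx'
        rw [Finset.mem_sdiff] at this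
        exact this.2 (hbj (hQ hx))
      refine ⟨Q ∪ I', ?_, ?_, ?_⟩
      · apply Finset.union_subset
        · exact hQ.trans (Finset.filter_subset _ _)
        · exact hI'S.trans Finset.sdiff_subset
      · rw [Finset.card_union_of_disjoint hdisj]
        omega
      · intro x hx y hy
        rw [Finset.mem_union] at hx hy
        rcases hx with hx | hx <;> rcases hy with hy | hy
        · exact hQi x hx y hy
        · exact hcross x hx y hy
        · rw [agree_comm]; exact hcross y hy x hx
        · exact hI' x hx y hy
    have hsum : (ball j).card ≤ (S.filter (fun x => dis c v x ≤ j * a)).card +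
        (S.filter (fun x => agree c v x ≤ j * a)).card := by
      refine le_trans (le_of_eq ?_) (Finset.card_union_le _ _)
      rw [← Finset.filter_or]
    rcases le_total (S.filter (fun x => agree c v x ≤ j * a)).card
        (S.filter (fun x => dis c v x ≤ j * a)).card with h | h
    · apply hside (S.filter (fun x => dis c v x ≤ j * a))
      · intro x hx
        rw [hball]
        simp only [Finset.mem_filter] at hx ⊢
        exact ⟨hx.1, Or.inl hx.2⟩
      · omega
      · intro x hx y hy
        rw [Finset.mem_filter] at hx hy
        have h1 := t3 c v x y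
        have h2 := agree_add_dis c x y
        omega
    · apply hside (S.filter (fun x => agree c v x ≤ j * a))
      · intro x hx
        rw [hball]
        simp only [Finset.mem_filter] at hx ⊢
        exact ⟨hx.1, Or.inr hx.2⟩
      · omega
      · intro x hx y hy
        rw [Finset.mem_filter] at hx hy
        have h1 := t4 c v x y
        have h2 := agree_add_dis c x y
        omega

/-- Weighted splitting. -/
lemma wsplit (c : V → V → Bool) (hN : 0 < Fintype.card V) (k : ℕ) :
    ∀ (V₀ : Finset V) (h : V → V → ℝ), (∀ x y, 0 ≤ h x y) →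
    ∃ V' ⊆ V₀, V₀.card ≤ 2 ^ k * V'.card ∧
      ∑ p ∈ V' ×ˢ V', h p.1 p.2 ≤
        ∑ p ∈ V₀ ×ˢ V₀, ((agree c p.1 p.2 : ℝ) / Fintype.card V) ^ k * h p.1 p.2 := by
  classical
  have hNR : (0 : ℝ) < Fintype.card V := by exact_mod_cast hN
  induction k with
  | zero =>
    intro V₀ h _
    exact ⟨V₀, subset_rfl, by simp, by simp⟩
  | succ k ih =>
    intro V₀ h hh
    obtain ⟨V', hV', hc, hs⟩ := ih V₀
      (fun x y => ((agree c x y : ℝ) / Fintype.card V) * h x y) (by
        intro x y
        have := hh x y
        positivity)
    have hs' : ∑ p ∈ V' ×ˢ V', ((agree c p.1 p.2 : ℝ) / Fintype.card V) * h p.1 p.2 ≤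
        ∑ p ∈ V₀ ×ˢ V₀, ((agree c p.1 p.2 : ℝ) / Fintype.card V) ^ (k + 1) * h p.1 p.2 := by
      refine hs.trans (le_of_eq ?_)
      apply Finset.sum_congr rfl
      intro p _
      ring
    have hsum : ∑ w, ∑ p ∈ (V' ×ˢ V').filter (fun p => c w p.1 = c w p.2), h p.1 p.2
        = Fintype.card V *
          ∑ p ∈ V' ×ˢ V', ((agree c p.1 p.2 : ℝ) / Fintype.card V) * h p.1 p.2 := by
      simp only [Finset.sum_filter]
      rw [Finset.sum_comm, Finset.mul_sum]
      apply Finset.sum_congr rfl
      intro p _
      rw [← Finset.sum_filter, Finset.sum_const, nsmul_eq_mul]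
      unfold agree
      field_simp
    obtain ⟨w, hw⟩ : ∃ w : V, ∑ p ∈ (V' ×ˢ V').filter (fun p => c w p.1 = c w p.2), h p.1 p.2 ≤
        ∑ p ∈ V' ×ˢ V', ((agree c p.1 p.2 : ℝ) / Fintype.card V) * h p.1 p.2 := by
      by_contra hcon
      push Not at hcon
      have hne : (univ : Finset V).Nonempty := by
        rw [Finset.univ_nonempty_iff]
        exact Fintype.card_pos_iff.1 hN
      have := Finset.sum_lt_sum_of_nonempty hne (fun w _ => hcon w)
      rw [hsum, Finset.sum_const, nsmul_eq_mul, Finset.card_univ] at this
      exact lt_irrefl _ this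
    have hfin : ∀ β : Bool, V'.card ≤ 2 * (V'.filter (fun x => c w x = β)).card →
        ∃ V'' ⊆ V₀, V₀.card ≤ 2 ^ (k + 1) * V''.card ∧
        ∑ p ∈ V'' ×ˢ V'', h p.1 p.2 ≤
          ∑ p ∈ V₀ ×ˢ V₀, ((agree c p.1 p.2 : ℝ) / Fintype.card V) ^ (k + 1) * h p.1 p.2 := by
      intro β hβ
      refine ⟨V'.filter (fun x => c w x = β), (Finset.filter_subset _ _).trans hV', ?_, ?_⟩
      · calc V₀.card ≤ 2 ^ k * V'.card := hc
          _ ≤ 2 ^ k * (2 * (V'.filter (fun x => c w x = β)).card) :=
            Nat.mul_le_mul_left _ hβ
          _ = _ := by ring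
      · refine le_trans ?_ (hw.trans hs')
        apply Finset.sum_le_sum_of_subset_of_nonneg
        · intro p hp
          simp only [Finset.mem_filter, Finset.mem_product] at hp ⊢
          obtain ⟨⟨a1, a2⟩, a3, a4⟩ := hp
          exact ⟨⟨a1, a3⟩, a2.trans a4.symm⟩
        · intro p _ _
          exact hh _ _
    have htot := Pool.Agent.W5h9.PowSub.true_add_false c w V'
    rcases le_total (V'.filter (fun x => c w x = true)).card
        (V'.filter (fun x => c w x = false)).card with h' | h'
    · exact hfin false (by omega)
    · exact hfin true (by omega)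

end Free

end Pool.Agent.W5h9.LogSub
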