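import Mathlib
import Pool.Agent.W5h9.DenseSub2

/-! Helper file: the probabilistic part of the proof for dense graphs. -/

namespace Pool.Agent.W5h9.DenseSub

open Finset

section Select

variable {V : Type} [DecidableEq V]

/-- Choosing the branch vertices among the samples. -/
lemma select (n r : ℕ) (b : Fin (n + r) → V) (bad : V → V → Prop) [∀ x y, Decidable (bad x y)]
    (hsymm : ∀ x y, bad x y → bad y x)
    (hb : ((univ : Finset (Fin (n + r) × Fin (n + r))).filter
      (fun p => p.1 < p.2 ∧ bad (b p.1) (b p.2))).card ≤ r) :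
    ∃ j : Fin n → Fin (n + r), Function.Injective j ∧
      (∀ u v, u ≠ v → ¬ bad (b (j u)) (b (j v))) ∧
      (univ.filter (fun v => j v ≠ Fin.castAdd r v)).card ≤ r := by
  classical
  set G : Finset (Fin (n + r)) := univ.filter (fun i => ∀ j, i < j → ¬ bad (b i) (b j)) with hG
  have hGc : (univ.filter (fun i => ¬ ∀ j, i < j → ¬ bad (b i) (b j))).card ≤ r := by
    refine le_trans ?_ hb
    have hch : ∀ i : Fin (n + r), ∃ j : Fin (n + r), (¬ ∀ j, i < j → ¬ bad (b i) (b j)) →
        i < j ∧ bad (b i) (b j) := by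
      intro i
      by_cases h : ∀ j, i < j → ¬ bad (b i) (b j)
      · exact ⟨i, fun h' => absurd h h'⟩
      · push Not at h
        obtain ⟨j, hj⟩ := h
        exact ⟨j, fun _ => hj⟩
    choose f hf using hch
    refine Finset.card_le_card_of_injOn (fun i => (i, f i)) ?_ ?_
    · intro i hi
      rw [Finset.mem_coe, Finset.mem_filter] at hi
      rw [Finset.mem_coe, Finset.mem_filter]
      exact ⟨Finset.mem_univ _, hf i hi.2⟩
    · intro i _ i' _ h
      exact congrArg Prod.fst h
  have htot : G.card + (univ.filter (fun i => ¬ ∀ j, i < j → ¬ bad (b i) (b j))).card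
      = n + r := by
    have h0 : (univ : Finset (Fin (n + r))).card = n + r := by
      rw [Finset.card_univ, Fintype.card_fin]
    refine Eq.trans ?_ h0
    rw [hG]
    convert Finset.card_filter_add_card_filter_not (s := (univ : Finset (Fin (n + r))))
      (fun i => ∀ j, i < j → ¬ bad (b i) (b j))
  have hGn : n ≤ G.card := by omega
  set s : Finset (Fin n) := univ.filter (fun v => Fin.castAdd r v ∈ G) with hs
  have hinj : Function.Injective (Fin.castAdd r : Fin n → Fin (n + r)) :=
    Fin.castAdd_injective n r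
  have hsG : s.image (Fin.castAdd r) ⊆ G := by
    intro x hx
    rw [Finset.mem_image] at hx
    obtain ⟨v, hv, rfl⟩ := hx
    exact (Finset.mem_filter.1 hv).2
  have hsn : (s.image (Fin.castAdd r)).card ≤ n := by
    rw [Finset.card_image_of_injective _ hinj]
    exact (Finset.card_filter_le _ _).trans (by simp)
  obtain ⟨t, hst, htG, htc⟩ := Finset.exists_subsuperset_card_eq hsG hsn hGn
  obtain ⟨j, hj⟩ := Finset.exists_equiv_extend_of_card_eq (α := Fin n) (t := t)
    (by rw [htc, Fintype.card_fin]) (s := s) (f := Fin.castAdd r) hst hinj.injOn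
  have hjinj : Function.Injective (fun v => ((j v : t) : Fin (n + r))) :=
    fun u v h => j.injective (Subtype.ext h)
  refine ⟨fun v => (j v : Fin (n + r)), hjinj, ?_, ?_⟩
  · intro u v huv
    have hne : ((j u : t) : Fin (n + r)) ≠ ((j v : t) : Fin (n + r)) := fun h => huv (hjinj h)
    have hu : ((j u : t) : Fin (n + r)) ∈ G := htG (j u).2
    have hv : ((j v : t) : Fin (n + r)) ∈ G := htG (j v).2
    rw [hG, Finset.mem_filter] at hu hv
    rcases lt_or_gt_of_ne hne with h | h
    · exact hu.2 _ h
    · exact fun h' => hv.2 _ h (hsymm _ _ h')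
  · have hsub : (univ.filter (fun v => ((j v : t) : Fin (n + r)) ≠ Fin.castAdd r v)).image
        (Fin.castAdd r) ⊆ univ.filter (fun i => ¬ ∀ j, i < j → ¬ bad (b i) (b j)) := by
      intro x hx
      rw [Finset.mem_image] at hx
      obtain ⟨v, hv, rfl⟩ := hx
      rw [Finset.mem_filter] at hv ⊢
      refine ⟨Finset.mem_univ _, fun h => hv.2 ?_⟩
      apply hj v
      rw [hs, Finset.mem_filter]
      refine ⟨Finset.mem_univ _, ?_⟩
      rw [hG, Finset.mem_filter]
      exact ⟨Finset.mem_univ _, h⟩
    have := Finset.card_le_card hsub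
    rw [Finset.card_image_of_injective _ hinj] at this
    exact this.trans hGc

end Select

section Fail

variable {V : Type} [Fintype V] [DecidableEq V]

/-- Too many bad pairs. -/
lemma fail_pairs (L r : ℕ) (C : Finset V) (hC : 0 < C.card) (bad : V → V → Prop)
    [∀ x y, Decidable (bad x y)]
    (hp : 4 * L ^ 2 * ((C ×ˢ C).filter (fun p => bad p.1 p.2)).card ≤ (r + 1) * C.card ^ 2) :
    4 * ((Om L C).filter (fun b => r < ((univ : Finset (Fin L × Fin L)).filter
      (fun p => p.1 < p.2 ∧ bad (b p.1) (b p.2))).card)).card ≤ C.card ^ L := by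
  classical
  set cnt : (Fin L → V) → ℕ := fun b => ((univ : Finset (Fin L × Fin L)).filter
      (fun p => p.1 < p.2 ∧ bad (b p.1) (b p.2))).card with hcnt
  set B := ((C ×ˢ C).filter (fun p => bad p.1 p.2)).card with hB
  have h1 : (r + 1) * ((Om L C).filter (fun b => r < cnt b)).card ≤ ∑ b ∈ Om L C, cnt b := by
    have a1 : ∑ b ∈ (Om L C).filter (fun b => r < cnt b), (r + 1) ≤
        ∑ b ∈ (Om L C).filter (fun b => r < cnt b), cnt b :=
      Finset.sum_le_sum (fun b hb => (Finset.mem_filter.1 hb).2)
    rw [Finset.sum_const, smul_eq_mul, mul_comm] at a1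
    exact a1.trans (Finset.sum_le_sum_of_subset (Finset.filter_subset _ _))
  have h2 : ∑ b ∈ Om L C, cnt b = ∑ p ∈ (univ : Finset (Fin L × Fin L)),
      ((Om L C).filter (fun b => p.1 < p.2 ∧ bad (b p.1) (b p.2))).card := by
    simp only [hcnt, Finset.card_filter]
    rw [Finset.sum_comm]
  have h3 : ∀ p ∈ (univ : Finset (Fin L × Fin L)),
      ((Om L C).filter (fun b => p.1 < p.2 ∧ bad (b p.1) (b p.2))).card * C.card ^ 2 ≤
        C.card ^ L * B := by
    intro p _
    by_cases hp12 : p.1 < p.2
    · have := resample (L := L) C hp12.ne (fun _ => p.1 < p.2) (fun b x y => Iff.rfl) bad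
      rw [this]
      apply Nat.mul_le_mul_right
      rw [← card_Om]
      exact Finset.card_filter_le _ _
    · have : (Om L C).filter (fun b => p.1 < p.2 ∧ bad (b p.1) (b p.2)) = ∅ := by
        rw [Finset.filter_eq_empty_iff]
        intro b _ h
        exact hp12 h.1
      rw [this]; simp
  have h4 : (∑ b ∈ Om L C, cnt b) * C.card ^ 2 ≤ L ^ 2 * (C.card ^ L * B) := by
    rw [h2, Finset.sum_mul]
    refine (Finset.sum_le_sum h3).trans ?_
    rw [Finset.sum_const, smul_eq_mul, Finset.card_univ, Fintype.card_prod, Fintype.card_fin,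
      ← sq]
  have h5 : ((r + 1) * C.card ^ 2) * (4 * ((Om L C).filter (fun b => r < cnt b)).card) ≤
      ((r + 1) * C.card ^ 2) * C.card ^ L := by
    calc ((r + 1) * C.card ^ 2) * (4 * ((Om L C).filter (fun b => r < cnt b)).card)
        = 4 * (((r + 1) * ((Om L C).filter (fun b => r < cnt b)).card) * C.card ^ 2) := by ring
      _ ≤ 4 * ((∑ b ∈ Om L C, cnt b) * C.card ^ 2) := by gcongr
      _ ≤ 4 * (L ^ 2 * (C.card ^ L * B)) := by gcongr
      _ = (4 * L ^ 2 * B) * C.card ^ L := by ring
      _ ≤ _ := Nat.mul_le_mul_right _ hp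
  exact Nat.le_of_mul_le_mul_left h5 (by positivity)

/-- The set given by a tuple. -/
def tset {T : ℕ} (t : Fin T → Option V) : Finset V := univ.filter (fun w => ∃ i, t i = some w)

lemma exists_tset {T : ℕ} (S : Finset V) (hS : S.card ≤ T) : ∃ t : Fin T → Option V,
    tset t = S := by
  classical
  let e := S.equivFin
  refine ⟨fun i => if h : (i : ℕ) < S.card then some ((e.symm ⟨i, h⟩ : S) : V) else none, ?_⟩
  ext w
  simp only [tset, Finset.mem_filter, Finset.mem_univ, true_and]
  constructor
  · rintro ⟨i, hi⟩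
    split_ifs at hi with h
    · rw [Option.some.injEq] at hi
      rw [← hi]
      exact (e.symm ⟨i, h⟩).2
  · intro hw
    have h1 : ((e ⟨w, hw⟩ : Fin S.card) : ℕ) < T := lt_of_lt_of_le (e ⟨w, hw⟩).2 hS
    refine ⟨⟨(e ⟨w, hw⟩ : Fin S.card), h1⟩, ?_⟩
    rw [dif_pos (e ⟨w, hw⟩).2]
    simp

/-- The event that a small monochromatic set contains many samples. -/
def ManyMono (c : V → V → Bool) {L : ℕ} (T s : ℕ) (C : Finset V) (γ : ℝ) (b : Fin L → V) : Prop :=
  ∃ β : Bool, ∃ t : Fin T → Option V,
      ((mono c C β (tset t)).card : ℝ) < γ * C.card ∧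
      s ≤ (univ.filter (fun i => b i ∈ mono c C β (tset t))).card

open scoped Classical in
/-- Too many samples in a small monochromatic set. -/
lemma fail_mono (c : V → V → Bool) (L T s : ℕ) (C : Finset V) (γ : ℝ) (hγ : 0 ≤ γ)
    (hp : 8 * ((Fintype.card V : ℝ) + 1) ^ T * 2 ^ L * γ ^ s ≤ 1) :
    4 * ((((Om L C).filter (fun b => ManyMono c T s C γ b)).card : ℕ) : ℝ)
      ≤ (C.card : ℝ) ^ L := by
  set fail := (Om L C).filter (fun b => ManyMono c T s C γ b) with hfail
  have hsub : fail ⊆ (univ : Finset (Bool × (Fin T → Option V))).biUnion (fun z =>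
      if ((mono c C z.1 (tset z.2)).card : ℝ) < γ * C.card then
        (Om L C).filter (fun b => s ≤ (univ.filter (fun i => b i ∈ mono c C z.1 (tset z.2))).card)
      else ∅) := by
    intro b hb
    rw [hfail, Finset.mem_filter] at hb
    obtain ⟨hbO, β, t, h1, h2⟩ := hb
    rw [Finset.mem_biUnion]
    refine ⟨(β, t), Finset.mem_univ _, ?_⟩
    rw [if_pos h1, Finset.mem_filter]
    exact ⟨hbO, h2⟩
  have h1 := (Finset.card_le_card hsub).trans Finset.card_biUnion_le
  have h2 : (fail.card : ℝ) ≤ ∑ z : Bool × (Fin T → Option V), (((if ((mono c C z.1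
      (tset z.2)).card : ℝ) < γ * C.card then
        (Om L C).filter (fun b => s ≤ (univ.filter (fun i => b i ∈ mono c C z.1 (tset z.2))).card)
      else ∅ : Finset (Fin L → V)).card : ℕ) : ℝ) := by exact_mod_cast h1
  have h3 : ∀ z ∈ (univ : Finset (Bool × (Fin T → Option V))), (((if ((mono c C z.1
      (tset z.2)).card : ℝ) < γ * C.card then
        (Om L C).filter (fun b => s ≤ (univ.filter (fun i => b i ∈ mono c C z.1 (tset z.2))).card)
      else ∅ : Finset (Fin L → V)).card : ℕ) : ℝ) ≤ 2 ^ L * γ ^ s * (C.card : ℝ) ^ L := by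
    intro z _
    split_ifs with hz
    · exact many_bound C _ γ hγ hz.le s
    · rw [Finset.card_empty, Nat.cast_zero]; positivity
  have h4 := h2.trans (Finset.sum_le_sum h3)
  rw [Finset.sum_const, nsmul_eq_mul, Finset.card_univ, Fintype.card_prod, Fintype.card_bool,
    Fintype.card_fun, Fintype.card_option, Fintype.card_fin] at h4
  push_cast at h4
  have h5 : (0 : ℝ) ≤ (C.card : ℝ) ^ L := by positivity
  calc 4 * (fail.card : ℝ) ≤ 4 * (2 * ((Fintype.card V : ℝ) + 1) ^ T *
        (2 ^ L * γ ^ s * (C.card : ℝ) ^ L)) := by linarith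
    _ = (8 * ((Fintype.card V : ℝ) + 1) ^ T * 2 ^ L * γ ^ s) * (C.card : ℝ) ^ L := by ring
    _ ≤ 1 * (C.card : ℝ) ^ L := mul_le_mul_of_nonneg_right hp h5
    _ = _ := one_mul _

/-- The pairs of a fixed sum. -/
def cls {n : ℕ} (E : Finset (Fin n × Fin n)) (a : ℕ) : Finset (Fin n × Fin n) :=
  E.filter (fun e => (e.1 : ℕ) + (e.2 : ℕ) = a)

/-- The number of uncut edges of a class. -/
def uncut (c : V → V → Bool) {n r : ℕ} (F : Finset (Fin n × Fin n)) (b : Fin (n + r) → V)
    (w : V) : ℕ :=
  (F.filter (fun e => c w (b (Fin.castAdd r e.1)) = c w (b (Fin.castAdd r e.2)))).card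

/-- The event that a large class has too few uncut edges. -/
def FewUncut (c : V → V → Bool) {n r : ℕ} (k' : ℕ) (E : Finset (Fin n × Fin n))
    (b : Fin (n + r) → V) : Prop :=
  ∃ w : V, ∃ a ∈ Finset.range (2 * n),
      k' ≤ (cls E a).card / 4 ∧ 2 * uncut c (cls E a) b w < (cls E a).card / 4

open scoped Classical in
/-- Too few uncut edges. -/
lemma fail_uncut (c : V → V → Bool) (n r k' : ℕ) (E : Finset (Fin n × Fin n))
    (hE : ∀ e ∈ E, e.1 < e.2) (C : Finset V) (hC : 0 < C.card)
    (hp : 8 * Fintype.card V * n ≤ 2 ^ k') :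
    4 * ((Om (n + r) C).filter (fun b => FewUncut c k' E b)).card ≤ C.card ^ (n + r) := by
  set fail := (Om (n + r) C).filter (fun b => FewUncut c k' E b) with hfail
  have hsub : fail ⊆ ((univ : Finset V) ×ˢ Finset.range (2 * n)).biUnion (fun z =>
      if k' ≤ (cls E z.2).card / 4 then
        (Om (n + r) C).filter (fun b => 2 * ((cls E z.2).filter (fun e =>
          c z.1 (b (Fin.castAdd r e.1)) = c z.1 (b (Fin.castAdd r e.2)))).card <
            (cls E z.2).card / 4)
      else ∅) := by
    intro b hb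
    rw [hfail, Finset.mem_filter] at hb
    obtain ⟨hbO, w, a, ha, h1, h2⟩ := hb
    rw [Finset.mem_biUnion]
    refine ⟨(w, a), by rw [Finset.mem_product]; exact ⟨Finset.mem_univ _, ha⟩, ?_⟩
    rw [if_pos h1, Finset.mem_filter]
    exact ⟨hbO, h2⟩
  have h1 := (Finset.card_le_card hsub).trans Finset.card_biUnion_le
  have h3 : ∀ z ∈ ((univ : Finset V) ×ˢ Finset.range (2 * n)),
      2 ^ k' * (if k' ≤ (cls E z.2).card / 4 then
        (Om (n + r) C).filter (fun b => 2 * ((cls E z.2).filter (fun e =>
          c z.1 (b (Fin.castAdd r e.1)) = c z.1 (b (Fin.castAdd r e.2)))).card <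
            (cls E z.2).card / 4)
      else ∅ : Finset (Fin (n + r) → V)).card ≤ C.card ^ (n + r) := by
    intro z _
    split_ifs with hz
    · have hcls : ∀ e ∈ cls E z.2, e.1 < e.2 ∧ (e.1 : ℕ) + (e.2 : ℕ) = z.2 := by
        intro e he
        rw [cls, Finset.mem_filter] at he
        exact ⟨hE e he.1, he.2⟩
      have hg := group_bound (L := n + r) C hC (c z.1) (cls E z.2)
        (fun e => Fin.castAdd r e.1) (fun e => Fin.castAdd r e.2) (by
          intro e he e' he' h
          have a1 := hcls e he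
          have a2 := hcls e' he'
          have a3 : e.1 = e'.1 := Fin.castAdd_injective n r h
          refine Prod.ext a3 (Fin.ext ?_)
          have a4 := congrArg Fin.val a3
          omega) (by
          intro e he e' he' h
          have a1 := hcls e he
          have a2 := hcls e' he'
          have a3 : e.2 = e'.2 := Fin.castAdd_injective n r h
          refine Prod.ext (Fin.ext ?_) a3
          have a4 := congrArg Fin.val a3
          omega) (by
          intro e he e' he' h
          have a1 := hcls e he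
          have a2 := hcls e' he'
          have a3 : e.1 = e'.2 := Fin.castAdd_injective n r h
          have a4 := congrArg Fin.val a3
          have a5 : (e.1 : ℕ) < e.2 := a1.1
          have a6 : (e'.1 : ℕ) < e'.2 := a2.1
          omega) ((cls E z.2).card / 4) (by omega)
      refine le_trans ?_ hg
      apply Nat.mul_le_mul_right
      exact Nat.pow_le_pow_right (by norm_num) hz
    · rw [Finset.card_empty, mul_zero]; exact Nat.zero_le _
  have h4 : 2 ^ k' * fail.card ≤ Fintype.card V * (2 * n) * C.card ^ (n + r) := by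
    refine (Nat.mul_le_mul_left _ h1).trans ?_
    rw [Finset.mul_sum]
    refine (Finset.sum_le_sum h3).trans ?_
    rw [Finset.sum_const, smul_eq_mul, Finset.card_product, Finset.card_univ,
      Finset.card_range]
  have h5 : 2 ^ k' * (4 * fail.card) ≤ 2 ^ k' * C.card ^ (n + r) := by
    calc 2 ^ k' * (4 * fail.card) = 4 * (2 ^ k' * fail.card) := by ring
      _ ≤ 4 * (Fintype.card V * (2 * n) * C.card ^ (n + r)) := Nat.mul_le_mul_left _ h4
      _ = (8 * Fintype.card V * n) * C.card ^ (n + r) := by ring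
      _ ≤ _ := Nat.mul_le_mul_right _ hp
  exact Nat.le_of_mul_le_mul_left h5 (by positivity)

lemma uncut_of_classes (n k' : ℕ) (E : Finset (Fin n × Fin n)) (P : Fin n × Fin n → Prop)
    [DecidablePred P] (hk : 32 * n * k' ≤ E.card) (h24 : 24 * n ≤ E.card)
    (h : ∀ a ∈ Finset.range (2 * n), k' ≤ (cls E a).card / 4 →
      (cls E a).card / 4 ≤ 2 * ((cls E a).filter P).card) :
    E.card ≤ 16 * (E.filter P).card := by
  classical
  have hmaps : ∀ e ∈ E, ((e.1 : ℕ) + (e.2 : ℕ)) ∈ Finset.range (2 * n) := by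
    intro e _
    rw [Finset.mem_range]
    have := e.1.2
    have := e.2.2
    omega
  have h1 : E.card = ∑ a ∈ Finset.range (2 * n), (cls E a).card :=
    Finset.card_eq_sum_card_fiberwise (fun e he => hmaps e he)
  have h2 : (E.filter P).card = ∑ a ∈ Finset.range (2 * n), ((cls E a).filter P).card := by
    rw [Finset.card_eq_sum_card_fiberwise (f := fun e : Fin n × Fin n => (e.1 : ℕ) + (e.2 : ℕ))
      (t := Finset.range (2 * n)) (fun e he => hmaps e (Finset.mem_filter.1 he).1)]
    apply Finset.sum_congr rfl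
    intro a _
    congr 1
    ext e
    simp only [cls, Finset.mem_filter]
    tauto
  have h3 : ∀ a ∈ Finset.range (2 * n), (cls E a).card ≤
      8 * ((cls E a).filter P).card + (3 + 4 * k') := by
    intro a ha
    by_cases hka : k' ≤ (cls E a).card / 4
    · have := h a ha hka
      omega
    · omega
  have h4 := Finset.sum_le_sum h3
  rw [← h1, Finset.sum_add_distrib, ← Finset.mul_sum, ← h2, Finset.sum_const,
    Finset.card_range, smul_eq_mul] at h4
  have h5 : 2 * n * (3 + 4 * k') = 6 * n + 8 * n * k' := by ring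
  have h6 : 32 * n * k' = 4 * (8 * n * k') := by ring
  omega

end Fail

end Pool.Agent.W5h9.DenseSub
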