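import Mathlib
import Pool.Agent.W5h9.DenseSub3
import Pool.Agent.W5h9.PowSub

set_option linter.unusedSectionVars false

/-! Helper file: sampling in a good cell (graphs with at least `n ^ (1 + ε)` edges). -/

namespace Pool.Agent.W5h9.PowSub

open Finset
open Pool.Agent.W5h9.DenseSub (Om mem_Om card_Om resample group_bound cls tset exists_tset
  uncut_of_classes)

section Bounds

variable {V : Type} [Fintype V] [DecidableEq V]

lemma match_boundR {L : ℕ} {ι : Type} [DecidableEq ι] (C : Finset V) (hC : 0 < C.card)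
    (Q : V → V → Prop) [∀ x y, Decidable (Q x y)] (ρ : ℝ) (hρ : 0 ≤ ρ)
    (hQ : (((C ×ˢ C).filter (fun p => Q p.1 p.2)).card : ℝ) ≤ ρ * (C.card : ℝ) ^ 2)
    (M : Finset ι) (u v : ι → Fin L) (hu : Set.InjOn u M) (hv : Set.InjOn v M)
    (huv : ∀ p ∈ M, ∀ q ∈ M, u p ≠ v q) :
    (((Om L C).filter (fun b => ∀ p ∈ M, Q (b (u p)) (b (v p)))).card : ℝ)
      ≤ ρ ^ M.card * (C.card : ℝ) ^ L := by
  have hCR : (0 : ℝ) < C.card := by exact_mod_cast hC
  induction M using Finset.induction_on with
  | empty => simp [card_Om]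
  | insert p M hp ih =>
    have ih' := ih (hu.mono (by simp)) (hv.mono (by simp))
      (fun a ha q hq => huv a (Finset.mem_insert_of_mem ha) q (Finset.mem_insert_of_mem hq))
    rw [Finset.card_insert_of_notMem hp]
    have hne : u p ≠ v p := huv p (Finset.mem_insert_self _ _) p (Finset.mem_insert_self _ _)
    have hr := resample (L := L) C hne (fun b => ∀ q ∈ M, Q (b (u q)) (b (v q))) (by
      intro b x y
      refine forall₂_congr fun q hq => ?_
      have a1 : u q ≠ u p := fun h => hp (by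
        have := hu (Finset.mem_coe.2 (Finset.mem_insert_of_mem hq))
          (Finset.mem_coe.2 (Finset.mem_insert_self _ _)) h
        rwa [this] at hq)
      have a2 : u q ≠ v p := huv q (Finset.mem_insert_of_mem hq) p (Finset.mem_insert_self _ _)
      have a3 : v q ≠ v p := fun h => hp (by
        have := hv (Finset.mem_coe.2 (Finset.mem_insert_of_mem hq))
          (Finset.mem_coe.2 (Finset.mem_insert_self _ _)) h
        rwa [this] at hq)
      have a4 : v q ≠ u p := fun h =>
        huv p (Finset.mem_insert_self _ _) q (Finset.mem_insert_of_mem hq) h.symm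
      rw [Function.update_of_ne a2, Function.update_of_ne a1, Function.update_of_ne a3,
        Function.update_of_ne a4]) Q
    have hset : (Om L C).filter (fun b => ∀ q ∈ insert p M, Q (b (u q)) (b (v q))) =
        (Om L C).filter (fun b => (∀ q ∈ M, Q (b (u q)) (b (v q))) ∧ Q (b (u p)) (b (v p))) := by
      ext b
      simp only [Finset.mem_filter, Finset.mem_insert, forall_eq_or_imp]
      tauto
    rw [hset]
    set A := ((Om L C).filter (fun b => (∀ q ∈ M, Q (b (u q)) (b (v q))) ∧
          Q (b (u p)) (b (v p)))).card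
    set B := ((Om L C).filter (fun b => ∀ q ∈ M, Q (b (u q)) (b (v q)))).card
    set D := ((C ×ˢ C).filter (fun p => Q p.1 p.2)).card
    have hrR : (A : ℝ) * (C.card : ℝ) ^ 2 = B * D := by exact_mod_cast hr
    have h2 : (A : ℝ) ≤ ρ * B := by
      have h3 : (A : ℝ) * (C.card : ℝ) ^ 2 ≤ (ρ * B) * (C.card : ℝ) ^ 2 := by
        calc (A : ℝ) * (C.card : ℝ) ^ 2 = B * D := hrR
          _ ≤ B * (ρ * (C.card : ℝ) ^ 2) := by gcongr
          _ = _ := by ring
      exact le_of_mul_le_mul_right h3 (by positivity)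
    calc (A : ℝ) ≤ ρ * B := h2
      _ ≤ ρ * (ρ ^ M.card * (C.card : ℝ) ^ L) := mul_le_mul_of_nonneg_left ih' hρ
      _ = _ := by ring

lemma many_boundR {L : ℕ} {ι : Type} [DecidableEq ι] (C : Finset V) (hC : 0 < C.card)
    (Q : V → V → Prop) [∀ x y, Decidable (Q x y)] (ρ : ℝ) (hρ : 0 ≤ ρ)
    (hQ : (((C ×ˢ C).filter (fun p => Q p.1 p.2)).card : ℝ) ≤ ρ * (C.card : ℝ) ^ 2)
    (M : Finset ι) (u v : ι → Fin L) (hu : Set.InjOn u M) (hv : Set.InjOn v M)
    (huv : ∀ p ∈ M, ∀ q ∈ M, u p ≠ v q) (k : ℕ) :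
    (((Om L C).filter (fun b => k ≤ (M.filter (fun p => Q (b (u p)) (b (v p)))).card)).card : ℝ)
      ≤ 2 ^ M.card * ρ ^ k * (C.card : ℝ) ^ L := by
  have hsub : (Om L C).filter (fun b => k ≤ (M.filter (fun p => Q (b (u p)) (b (v p)))).card) ⊆
      (Finset.powersetCard k M).biUnion (fun S =>
        (Om L C).filter (fun b => ∀ p ∈ S, Q (b (u p)) (b (v p)))) := by
    intro b hb
    rw [Finset.mem_filter] at hb
    obtain ⟨hbO, hb⟩ := hb
    obtain ⟨S, hS, hSc⟩ := Finset.exists_subset_card_eq hb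
    rw [Finset.mem_biUnion]
    refine ⟨S, by
      rw [Finset.mem_powersetCard]
      exact ⟨hS.trans (Finset.filter_subset _ _), hSc⟩, ?_⟩
    rw [Finset.mem_filter]
    exact ⟨hbO, fun p hp => (Finset.mem_filter.1 (hS hp)).2⟩
  have h1 := (Finset.card_le_card hsub).trans Finset.card_biUnion_le
  have h2 : (((Om L C).filter (fun b => k ≤
      (M.filter (fun p => Q (b (u p)) (b (v p)))).card)).card : ℝ) ≤
      ∑ S ∈ Finset.powersetCard k M,
        (((Om L C).filter (fun b => ∀ p ∈ S, Q (b (u p)) (b (v p)))).card : ℝ) := by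
    exact_mod_cast h1
  refine h2.trans ?_
  have h3 : ∀ S ∈ Finset.powersetCard k M,
      (((Om L C).filter (fun b => ∀ p ∈ S, Q (b (u p)) (b (v p)))).card : ℝ) ≤
        ρ ^ k * (C.card : ℝ) ^ L := by
    intro S hS
    rw [Finset.mem_powersetCard] at hS
    have := match_boundR (L := L) C hC Q ρ hρ hQ S u v (hu.mono (by exact_mod_cast hS.1))
      (hv.mono (by exact_mod_cast hS.1)) (fun p hp q hq => huv p (hS.1 hp) q (hS.1 hq))
    rwa [hS.2] at this
  refine (Finset.sum_le_sum h3).trans ?_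
  rw [Finset.sum_const, nsmul_eq_mul, Finset.card_powersetCard]
  have h4 : (Nat.choose M.card k : ℝ) ≤ 2 ^ M.card := by
    exact_mod_cast Nat.choose_le_two_pow M.card k
  have h5 : 0 ≤ ρ ^ k * (C.card : ℝ) ^ L := by positivity
  calc _ ≤ 2 ^ M.card * (ρ ^ k * (C.card : ℝ) ^ L) := mul_le_mul_of_nonneg_right h4 h5
    _ = _ := by ring

/-- The classes are matchings. -/
lemma cls_matching {n : ℕ} (E : Finset (Fin n × Fin n)) (hE : ∀ e ∈ E, e.1 < e.2) (a : ℕ) :
    Set.InjOn (fun e : Fin n × Fin n => e.1) (cls E a) ∧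
    Set.InjOn (fun e : Fin n × Fin n => e.2) (cls E a) ∧
    ∀ p ∈ cls E a, ∀ q ∈ cls E a, p.1 ≠ q.2 := by
  have hcls : ∀ e ∈ cls E a, (e.1 : ℕ) < e.2 ∧ (e.1 : ℕ) + (e.2 : ℕ) = a := by
    intro e he
    rw [cls, Finset.mem_filter] at he
    exact ⟨hE e he.1, he.2⟩
  refine ⟨?_, ?_, ?_⟩
  · intro e he e' he' h
    have a1 := hcls e he
    have a2 := hcls e' he'
    have a3 : e.1 = e'.1 := h
    refine Prod.ext a3 (Fin.ext ?_)
    have a4 := congrArg Fin.val a3
    omega
  · intro e he e' he' h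
    have a1 := hcls e he
    have a2 := hcls e' he'
    have a3 : e.2 = e'.2 := h
    refine Prod.ext (Fin.ext ?_) a3
    have a4 := congrArg Fin.val a3
    omega
  · intro e he e' he' h
    have a1 := hcls e he
    have a2 := hcls e' he'
    have a4 := congrArg Fin.val h
    omega

/-- The event that a large class has too few uncut edges. -/
def FewUncut (c : V → V → Bool) {n : ℕ} (k' : ℕ) (E : Finset (Fin n × Fin n))
    (b : Fin n → V) : Prop :=
  ∃ w : V, ∃ a ∈ Finset.range (2 * n), k' ≤ (cls E a).card / 4 ∧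
    2 * ((cls E a).filter (fun e => c w (b e.1) = c w (b e.2))).card < (cls E a).card / 4

open scoped Classical in
lemma fail_uncut (c : V → V → Bool) (n k' : ℕ) (E : Finset (Fin n × Fin n))
    (hE : ∀ e ∈ E, e.1 < e.2) (C : Finset V) (hC : 0 < C.card)
    (hp : 8 * Fintype.card V * n ≤ 2 ^ k') :
    4 * ((Om n C).filter (fun b => FewUncut c k' E b)).card ≤ C.card ^ n := by
  set fail := (Om n C).filter (fun b => FewUncut c k' E b) with hfail
  have hsub : fail ⊆ ((univ : Finset V) ×ˢ Finset.range (2 * n)).biUnion (fun z =>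
      if k' ≤ (cls E z.2).card / 4 then
        (Om n C).filter (fun b => 2 * ((cls E z.2).filter (fun e =>
          c z.1 (b e.1) = c z.1 (b e.2))).card < (cls E z.2).card / 4)
      else ∅) := by
    intro b hb
    rw [hfail, Finset.mem_filter] at hb
    obtain ⟨hbO, w, a, ha, h1, h2⟩ := hb
    rw [Finset.mem_biUnion]
    refine ⟨(w, a), by rw [Finset.mem_product]; exact ⟨Finset.mem_univ _, ha⟩, ?_⟩
    rw [if_pos h1, Finset.mem_filter]
    exact ⟨hbO, h2⟩
  have h1 := (Finset.card_le_card hsub).trans Finset.card_biUnion_le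
  have h3 : ∀ z ∈ ((univ : Finset V) ×ˢ Finset.range (2 * n)),
      2 ^ k' * (if k' ≤ (cls E z.2).card / 4 then
        (Om n C).filter (fun b => 2 * ((cls E z.2).filter (fun e =>
          c z.1 (b e.1) = c z.1 (b e.2))).card < (cls E z.2).card / 4)
      else ∅ : Finset (Fin n → V)).card ≤ C.card ^ n := by
    intro z _
    split_ifs with hz
    · obtain ⟨m1, m2, m3⟩ := cls_matching E hE z.2
      have hg := group_bound (L := n) C hC (c z.1) (cls E z.2)
        (fun e => e.1) (fun e => e.2) m1 m2 m3 ((cls E z.2).card / 4) (by omega)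
      refine le_trans ?_ hg
      apply Nat.mul_le_mul_right
      exact Nat.pow_le_pow_right (by norm_num) hz
    · rw [Finset.card_empty, mul_zero]; exact Nat.zero_le _
  have h4 : 2 ^ k' * fail.card ≤ Fintype.card V * (2 * n) * C.card ^ n := by
    refine (Nat.mul_le_mul_left _ h1).trans ?_
    rw [Finset.mul_sum]
    refine (Finset.sum_le_sum h3).trans ?_
    rw [Finset.sum_const, smul_eq_mul, Finset.card_product, Finset.card_univ,
      Finset.card_range]
  have h5 : 2 ^ k' * (4 * fail.card) ≤ 2 ^ k' * C.card ^ n := by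
    calc 2 ^ k' * (4 * fail.card) = 4 * (2 ^ k' * fail.card) := by ring
      _ ≤ 4 * (Fintype.card V * (2 * n) * C.card ^ n) := Nat.mul_le_mul_left _ h4
      _ = (8 * Fintype.card V * n) * C.card ^ n := by ring
      _ ≤ _ := Nat.mul_le_mul_right _ hp
  exact Nat.le_of_mul_le_mul_left h5 (by positivity)

/-- The event that many edges are opposite on a small set. -/
def ManyOpp (c : V → V → Bool) {n : ℕ} (g g' : ℝ) (T k' : ℕ) (E : Finset (Fin n × Fin n))
    (C : Finset V) (b : Fin n → V) : Prop :=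
  ∃ t : Fin T → Option V, ((pairs c (tset t) C).card : ℝ) ≤ g * (C.card : ℝ) ^ 2 ∧
    ∃ a ∈ Finset.range (2 * n), k' ≤ (cls E a).card ∧
    g' * (cls E a).card ≤
      ((cls E a).filter (fun e => ∀ w ∈ tset t, c w (b e.1) ≠ c w (b e.2))).card

open scoped Classical in
lemma fail_opp (c : V → V → Bool) (n k' T K : ℕ) (g g' : ℝ) (E : Finset (Fin n × Fin n))
    (hE : ∀ e ∈ E, e.1 < e.2) (C : Finset V) (hC : 0 < C.card)
    (hg0 : 0 ≤ g) (hg : g ≤ (1 / 16) ^ K) (hK : 1 ≤ K * g')
    (hp : 8 * ((Fintype.card V : ℝ) + 1) ^ T * n ≤ 2 ^ k') :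
    4 * ((((Om n C).filter (fun b => ManyOpp c g g' T k' E C b)).card : ℕ) : ℝ)
      ≤ (C.card : ℝ) ^ n := by
  set fail := (Om n C).filter (fun b => ManyOpp c g g' T k' E C b) with hfail
  have hg'0 : 0 < g' := by
    by_contra h
    push Not at h
    have : (K : ℝ) * g' ≤ 0 := mul_nonpos_of_nonneg_of_nonpos (Nat.cast_nonneg _) h
    linarith
  have hsub : fail ⊆ ((univ : Finset (Fin T → Option V)) ×ˢ Finset.range (2 * n)).biUnion
      (fun z => if ((pairs c (tset z.1) C).card : ℝ) ≤ g * (C.card : ℝ) ^ 2 ∧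
          k' ≤ (cls E z.2).card then
        (Om n C).filter (fun b => ⌈g' * (cls E z.2).card⌉₊ ≤ ((cls E z.2).filter (fun e =>
          ∀ w ∈ tset z.1, c w (b e.1) ≠ c w (b e.2))).card)
      else ∅) := by
    intro b hb
    rw [hfail, Finset.mem_filter] at hb
    obtain ⟨hbO, t, ht, a, ha, h1, h2⟩ := hb
    rw [Finset.mem_biUnion]
    refine ⟨(t, a), by rw [Finset.mem_product]; exact ⟨Finset.mem_univ _, ha⟩, ?_⟩
    rw [if_pos ⟨ht, h1⟩, Finset.mem_filter]
    exact ⟨hbO, Nat.ceil_le.2 h2⟩
  have h1 := (Finset.card_le_card hsub).trans Finset.card_biUnion_le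
  have h2 : (fail.card : ℝ) ≤ ∑ z ∈ ((univ : Finset (Fin T → Option V)) ×ˢ
      Finset.range (2 * n)), (((if ((pairs c (tset z.1) C).card : ℝ) ≤ g * (C.card : ℝ) ^ 2 ∧
          k' ≤ (cls E z.2).card then
        (Om n C).filter (fun b => ⌈g' * (cls E z.2).card⌉₊ ≤ ((cls E z.2).filter (fun e =>
          ∀ w ∈ tset z.1, c w (b e.1) ≠ c w (b e.2))).card)
      else ∅ : Finset (Fin n → V)).card : ℕ) : ℝ) := by exact_mod_cast h1
  have h3 : ∀ z ∈ ((univ : Finset (Fin T → Option V)) ×ˢ
      Finset.range (2 * n)), (((if ((pairs c (tset z.1) C).card : ℝ) ≤ g * (C.card : ℝ) ^ 2 ∧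
          k' ≤ (cls E z.2).card then
        (Om n C).filter (fun b => ⌈g' * (cls E z.2).card⌉₊ ≤ ((cls E z.2).filter (fun e =>
          ∀ w ∈ tset z.1, c w (b e.1) ≠ c w (b e.2))).card)
      else ∅ : Finset (Fin n → V)).card : ℕ) : ℝ) ≤ (1 / 2) ^ k' * (C.card : ℝ) ^ n := by
    intro z _
    split_ifs with hz
    · obtain ⟨m1, m2, m3⟩ := cls_matching E hE z.2
      have hb := many_boundR (L := n) C hC (fun x y => ∀ w ∈ tset z.1, c w x ≠ c w y) g hg0
        (by simpa only [pairs] using hz.1) (cls E z.2) (fun e => e.1) (fun e => e.2) m1 m2 m3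
        ⌈g' * (cls E z.2).card⌉₊
      refine le_trans (le_of_eq ?_) (hb.trans ?_)
      · congr 2
      · apply mul_le_mul_of_nonneg_right _ (by positivity)
        set s := (cls E z.2).card with hs
        have e1 : (s : ℝ) ≤ (K * ⌈g' * s⌉₊ : ℕ) := by
          push_cast
          have e2 : g' * s ≤ (⌈g' * s⌉₊ : ℝ) := Nat.le_ceil _
          calc (s : ℝ) = 1 * s := by ring
            _ ≤ (K * g') * s := by gcongr
            _ = K * (g' * s) := by ring
            _ ≤ _ := by gcongr
        have e3 : s ≤ K * ⌈g' * s⌉₊ := by exact_mod_cast e1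
        have e4 : g ^ ⌈g' * (s : ℝ)⌉₊ ≤ (1 / 16) ^ s := by
          calc g ^ ⌈g' * (s : ℝ)⌉₊ ≤ ((1 / 16) ^ K) ^ ⌈g' * (s : ℝ)⌉₊ := by gcongr
            _ = (1 / 16) ^ (K * ⌈g' * (s : ℝ)⌉₊) := by rw [← pow_mul]
            _ ≤ (1 / 16) ^ s := pow_le_pow_of_le_one (by norm_num) (by norm_num) e3
        calc (2 : ℝ) ^ s * g ^ ⌈g' * (s : ℝ)⌉₊ ≤ 2 ^ s * (1 / 16) ^ s := by gcongr
          _ = (1 / 8) ^ s := by rw [← mul_pow]; norm_num
          _ ≤ (1 / 2) ^ s := by gcongr; norm_num
          _ ≤ (1 / 2) ^ k' := pow_le_pow_of_le_one (by norm_num) (by norm_num) hz.2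
    · rw [Finset.card_empty, Nat.cast_zero]; positivity
  have h4 := h2.trans (Finset.sum_le_sum h3)
  rw [Finset.sum_const, nsmul_eq_mul, Finset.card_product, Finset.card_univ, Fintype.card_fun,
    Fintype.card_option, Fintype.card_fin, Finset.card_range] at h4
  push_cast at h4
  have h5 : (0 : ℝ) ≤ (C.card : ℝ) ^ n := by positivity
  have h6 : (8 * ((Fintype.card V : ℝ) + 1) ^ T * n) * (1 / 2) ^ k' ≤ 1 := by
    calc (8 * ((Fintype.card V : ℝ) + 1) ^ T * n) * (1 / 2) ^ k' ≤ 2 ^ k' * (1 / 2) ^ k' := by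
          gcongr
      _ = 1 := by rw [← mul_pow]; norm_num
  calc 4 * (fail.card : ℝ) ≤ 4 * (((Fintype.card V : ℝ) + 1) ^ T * (2 * n) *
        ((1 / 2) ^ k' * (C.card : ℝ) ^ n)) := by linarith
    _ = ((8 * ((Fintype.card V : ℝ) + 1) ^ T * n) * (1 / 2) ^ k') * (C.card : ℝ) ^ n := by ring
    _ ≤ 1 * (C.card : ℝ) ^ n := mul_le_mul_of_nonneg_right h6 h5
    _ = _ := one_mul _

/-- A collision with an earlier sample. -/
def Coll {n : ℕ} (b : Fin n → V) (v : Fin n) : Prop := ∃ v', v' < v ∧ b v' = b v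

instance {n : ℕ} (b : Fin n → V) (v : Fin n) : Decidable (Coll b v) := by
  unfold Coll; infer_instance

/-- The number of edges with a colliding end. -/
def collEdges {n : ℕ} (E : Finset (Fin n × Fin n)) (b : Fin n → V) : ℕ :=
  (E.filter (fun e => Coll b e.1 ∨ Coll b e.2)).card

lemma coll_bound (n : ℕ) (C : Finset V) (hC : 0 < C.card) (v : Fin n) :
    ((Om n C).filter (fun b => Coll b v)).card * C.card ≤ n * C.card ^ n := by
  have hsub : (Om n C).filter (fun b => Coll b v) ⊆
      (univ : Finset (Fin n)).biUnion (fun v' =>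
        (Om n C).filter (fun b => v' < v ∧ b v' = b v)) := by
    intro b hb
    rw [Finset.mem_filter] at hb
    obtain ⟨hbO, v', h1, h2⟩ := hb
    rw [Finset.mem_biUnion]
    refine ⟨v', Finset.mem_univ _, ?_⟩
    rw [Finset.mem_filter]
    exact ⟨hbO, h1, h2⟩
  have h1 := (Finset.card_le_card hsub).trans Finset.card_biUnion_le
  have h2 : ∀ v' ∈ (univ : Finset (Fin n)),
      ((Om n C).filter (fun b => v' < v ∧ b v' = b v)).card * C.card ≤ C.card ^ n := by
    intro v' _
    by_cases hv : v' < v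
    · have hr := resample (L := n) C hv.ne (fun _ => v' < v) (fun b x y => Iff.rfl)
        (fun x y => x = y)
      have hd : ((C ×ˢ C).filter (fun p => p.1 = p.2)).card = C.card := by
        have : (C ×ˢ C).filter (fun p => p.1 = p.2) = C.diag := by
          ext ⟨x, y⟩
          simp only [Finset.mem_filter, Finset.mem_product, Finset.mem_diag]
          constructor
          · rintro ⟨⟨a, _⟩, h⟩; exact ⟨a, h⟩
          · rintro ⟨a, h⟩; exact ⟨⟨a, h ▸ a⟩, h⟩
        rw [this, Finset.diag_card]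
      rw [hd] at hr
      have h3 : ((Om n C).filter (fun _ => v' < v)).card ≤ C.card ^ n := by
        rw [← card_Om]; exact Finset.card_filter_le _ _
      have h4 : (((Om n C).filter (fun b => v' < v ∧ b v' = b v)).card * C.card) * C.card ≤
          C.card ^ n * C.card := by
        calc (((Om n C).filter (fun b => v' < v ∧ b v' = b v)).card * C.card) * C.card
            = ((Om n C).filter (fun b => v' < v ∧ b v' = b v)).card * C.card ^ 2 := by ring
          _ = _ := hr
          _ ≤ _ := Nat.mul_le_mul_right _ h3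
      exact Nat.le_of_mul_le_mul_right h4 hC
    · have : (Om n C).filter (fun b => v' < v ∧ b v' = b v) = ∅ := by
        rw [Finset.filter_eq_empty_iff]
        intro b _ h
        exact hv h.1
      rw [this]; simp
  calc ((Om n C).filter (fun b => Coll b v)).card * C.card ≤
      (∑ v' ∈ (univ : Finset (Fin n)), ((Om n C).filter (fun b => v' < v ∧ b v' = b v)).card) *
        C.card := Nat.mul_le_mul_right _ h1
    _ = ∑ v' ∈ (univ : Finset (Fin n)),
        ((Om n C).filter (fun b => v' < v ∧ b v' = b v)).card * C.card := by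
        rw [Finset.sum_mul]
    _ ≤ ∑ v' ∈ (univ : Finset (Fin n)), C.card ^ n := Finset.sum_le_sum h2
    _ = n * C.card ^ n := by
        rw [Finset.sum_const, smul_eq_mul, Finset.card_univ, Fintype.card_fin]

lemma fail_coll (n R : ℕ) (E : Finset (Fin n × Fin n)) (C : Finset V) (hC : 0 < C.card)
    (hp : 32 * R * n ≤ C.card) :
    4 * ((Om n C).filter (fun b => E.card < 4 * R * collEdges E b)).card ≤ C.card ^ n := by
  set fail := (Om n C).filter (fun b => E.card < 4 * R * collEdges E b) with hfail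
  rcases Nat.eq_zero_or_pos E.card with hE0 | hE0
  · have : fail = ∅ := by
      rw [hfail, Finset.filter_eq_empty_iff]
      intro b _
      have h1 : collEdges E b ≤ E.card := Finset.card_filter_le _ _
      have h2 : collEdges E b = 0 := by omega
      rw [h2]; omega
    rw [this]; simp
  have h1 : E.card * fail.card ≤ ∑ b ∈ Om n C, 4 * R * collEdges E b := by
    have a1 : ∑ b ∈ fail, E.card ≤ ∑ b ∈ fail, 4 * R * collEdges E b :=
      Finset.sum_le_sum (fun b hb => ((Finset.mem_filter.1 hb).2).le)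
    rw [Finset.sum_const, smul_eq_mul, mul_comm] at a1
    exact a1.trans (Finset.sum_le_sum_of_subset (Finset.filter_subset _ _))
  have h2 : ∑ b ∈ Om n C, collEdges E b =
      ∑ e ∈ E, ((Om n C).filter (fun b => Coll b e.1 ∨ Coll b e.2)).card := by
    simp only [collEdges, Finset.card_filter]
    rw [Finset.sum_comm]
  have h3 : ∀ e ∈ E, ((Om n C).filter (fun b => Coll b e.1 ∨ Coll b e.2)).card * C.card ≤
      2 * (n * C.card ^ n) := by
    intro e _
    have a1 : ((Om n C).filter (fun b => Coll b e.1 ∨ Coll b e.2)).card ≤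
        ((Om n C).filter (fun b => Coll b e.1)).card +
        ((Om n C).filter (fun b => Coll b e.2)).card := by
      rw [Finset.filter_or]
      exact Finset.card_union_le _ _
    have a2 := coll_bound n C hC e.1
    have a3 := coll_bound n C hC e.2
    calc _ ≤ (((Om n C).filter (fun b => Coll b e.1)).card +
        ((Om n C).filter (fun b => Coll b e.2)).card) * C.card := Nat.mul_le_mul_right _ a1
      _ ≤ _ := by rw [add_mul]; omega
  have h4 : (∑ b ∈ Om n C, collEdges E b) * C.card ≤ E.card * (2 * (n * C.card ^ n)) := by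
    rw [h2, Finset.sum_mul]
    refine (Finset.sum_le_sum h3).trans ?_
    rw [Finset.sum_const, smul_eq_mul]
  have h5 : (E.card * C.card) * (4 * fail.card) ≤ (E.card * C.card) * C.card ^ n := by
    calc (E.card * C.card) * (4 * fail.card) = 4 * (E.card * fail.card) * C.card := by ring
      _ ≤ 4 * (∑ b ∈ Om n C, 4 * R * collEdges E b) * C.card := by gcongr
      _ = 16 * R * ((∑ b ∈ Om n C, collEdges E b) * C.card) := by
        rw [← Finset.mul_sum]; ring
      _ ≤ 16 * R * (E.card * (2 * (n * C.card ^ n))) := Nat.mul_le_mul_left _ h4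
      _ = E.card * (32 * R * n) * C.card ^ n := by ring
      _ ≤ E.card * C.card * C.card ^ n := by gcongr
      _ = _ := by ring
  exact Nat.le_of_mul_le_mul_left h5 (by positivity)

lemma sampling (c : V → V → Bool) (n R T K k' : ℕ) (g g' : ℝ) (E : Finset (Fin n × Fin n))
    (hE : ∀ e ∈ E, e.1 < e.2) (C : Finset V) (hC : 0 < C.card)
    (hg0 : 0 ≤ g) (hg : g ≤ (1 / 16) ^ K) (hK : 1 ≤ K * g')
    (hp1 : 32 * R * n ≤ C.card)
    (hp2 : 8 * ((Fintype.card V : ℝ) + 1) ^ T * n ≤ 2 ^ k')
    (hp3 : 8 * Fintype.card V * n ≤ 2 ^ k') :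
    ∃ b : Fin n → V, (∀ i, b i ∈ C) ∧ 4 * R * collEdges E b ≤ E.card ∧
      ¬ ManyOpp c g g' T k' E C b ∧ ¬ FewUncut c k' E b := by
  classical
  by_contra hcon
  push Not at hcon
  have f1 := fail_coll n R E C hC hp1
  have f2 := fail_opp c n k' T K g g' E hE C hC hg0 hg hK hp2
  have f3 := fail_uncut c n k' E hE C hC hp3
  have hsub : Om n C ⊆ (Om n C).filter (fun b => E.card < 4 * R * collEdges E b) ∪
      (Om n C).filter (fun b => ManyOpp c g g' T k' E C b) ∪
      (Om n C).filter (fun b => FewUncut c k' E b) := by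
    intro b hb
    simp only [Finset.mem_union, Finset.mem_filter]
    by_cases h1 : E.card < 4 * R * collEdges E b
    · exact Or.inl (Or.inl ⟨hb, h1⟩)
    · by_cases h2 : ManyOpp c g g' T k' E C b
      · exact Or.inl (Or.inr ⟨hb, h2⟩)
      · exact Or.inr ⟨hb, hcon b (mem_Om.1 hb) (by omega) h2⟩
  have h1 := (Finset.card_le_card hsub).trans ((Finset.card_union_le _ _).trans
    (Nat.add_le_add_right (Finset.card_union_le _ _) _))
  rw [card_Om] at h1
  have h2 : (C.card : ℝ) ^ n ≤
      (((Om n C).filter (fun b => E.card < 4 * R * collEdges E b)).card : ℝ) +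
      (((Om n C).filter (fun b => ManyOpp c g g' T k' E C b)).card : ℝ) +
      (((Om n C).filter (fun b => FewUncut c k' E b)).card : ℝ) := by exact_mod_cast h1
  have g1 : 4 * (((Om n C).filter (fun b => E.card < 4 * R * collEdges E b)).card : ℝ) ≤
      (C.card : ℝ) ^ n := by exact_mod_cast f1
  have g3 : 4 * (((Om n C).filter (fun b => FewUncut c k' E b)).card : ℝ) ≤
      (C.card : ℝ) ^ n := by exact_mod_cast f3
  have hpos : 0 < (C.card : ℝ) ^ n := by
    have : (0 : ℝ) < C.card := by exact_mod_cast hC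
    positivity
  have g2 : 4 * (((Om n C).filter (fun b => ManyOpp c g g' T k' E C b)).card : ℝ) ≤
      (C.card : ℝ) ^ n := by
    convert f2
  linarith

/-- Choosing distinct branch vertices. -/
lemma select (n : ℕ) (C : Finset V) (hn : n ≤ C.card) (b : Fin n → V) (hb : ∀ i, b i ∈ C) :
    ∃ φ : Fin n → V, Function.Injective φ ∧ (∀ u, φ u ∈ C) ∧ ∀ v, ¬ Coll b v → φ v = b v := by
  classical
  set s : Finset (Fin n) := univ.filter (fun v => ¬ Coll b v) with hs
  have hinj : Set.InjOn b s := by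
    intro u hu v hv huv
    rw [Finset.mem_coe, hs, Finset.mem_filter] at hu hv
    by_contra hne
    rcases lt_or_gt_of_ne hne with h | h
    · exact hv.2 ⟨u, h, huv⟩
    · exact hu.2 ⟨v, h, huv.symm⟩
  have hsC : s.image b ⊆ C := by
    intro x hx
    rw [Finset.mem_image] at hx
    obtain ⟨v, _, rfl⟩ := hx
    exact hb v
  have hsn : (s.image b).card ≤ n := by
    refine Finset.card_image_le.trans ((Finset.card_filter_le _ _).trans (by simp))
  obtain ⟨t, hst, htC, htc⟩ := Finset.exists_subsuperset_card_eq hsC hsn hn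
  obtain ⟨j, hj⟩ := Finset.exists_equiv_extend_of_card_eq (α := Fin n) (t := t)
    (by rw [htc, Fintype.card_fin]) (s := s) (f := b) hst hinj
  refine ⟨fun v => (j v : V), fun u v h => j.injective (Subtype.ext h),
    fun u => htC (j u).2, fun v hv => ?_⟩
  exact hj v (by rw [hs, Finset.mem_filter]; exact ⟨Finset.mem_univ _, hv⟩)

lemma opp_of_classes (n k' : ℕ) (g' : ℝ) (hg' : 0 ≤ g') (E : Finset (Fin n × Fin n))
    (P : Fin n × Fin n → Prop) [DecidablePred P]
    (h : ∀ a ∈ Finset.range (2 * n), k' ≤ (cls E a).card →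
      (((cls E a).filter P).card : ℝ) < g' * (cls E a).card) :
    ((E.filter P).card : ℝ) ≤ g' * E.card + 2 * n * k' := by
  classical
  have hmaps : ∀ e ∈ E, ((e.1 : ℕ) + (e.2 : ℕ)) ∈ Finset.range (2 * n) := by
    intro e _
    rw [Finset.mem_range]
    have := e.1.2
    have := e.2.2
    omega
  have h1 : E.card = ∑ a ∈ Finset.range (2 * n), (cls E a).card :=
    Finset.card_eq_sum_card_fiberwise (fun e he => hmaps e he)
  have h2 : (E.filter P).card = ∑ a ∈ Finset.range (2 * n), ((cls E a).filter P).card := by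
    rw [Finset.card_eq_sum_card_fiberwise (f := fun e : Fin n × Fin n => (e.1 : ℕ) + (e.2 : ℕ))
      (t := Finset.range (2 * n)) (fun e he => hmaps e (Finset.mem_filter.1 he).1)]
    apply Finset.sum_congr rfl
    intro a _
    congr 1
    ext e
    simp only [cls, Finset.mem_filter]
    tauto
  have h3 : ∀ a ∈ Finset.range (2 * n), (((cls E a).filter P).card : ℝ) ≤
      g' * (cls E a).card + k' := by
    intro a ha
    by_cases hka : k' ≤ (cls E a).card
    · have := h a ha hka
      have h4 : (0 : ℝ) ≤ k' := Nat.cast_nonneg _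
      linarith
    · have h4 : ((cls E a).filter P).card ≤ k' := (Finset.card_filter_le _ _).trans (by omega)
      have h5 : (((cls E a).filter P).card : ℝ) ≤ k' := by exact_mod_cast h4
      have h6 : 0 ≤ g' * (cls E a).card := by positivity
      linarith
  have h4 := Finset.sum_le_sum h3
  rw [Finset.sum_add_distrib, ← Finset.mul_sum, Finset.sum_const, Finset.card_range,
    nsmul_eq_mul] at h4
  rw [h1, h2]
  push_cast at h4 ⊢
  linarith

end Bounds

end Pool.Agent.W5h9.PowSub
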