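import Mathlib
import Pool.Agent.W5h9.PowSub2
import Pool.Agent.W5h9.LogSub1

set_option linter.unusedSectionVars false

/-! Helper file: sampling in a good cell, general version. -/

namespace Pool.Agent.W5h9.LogSub

open Finset
open Pool.Agent.W5h9.DenseSub (agree agree_comm Om mem_Om card_Om resample group_bound tset
  exists_tset)
open Pool.Agent.W5h9.PowSub (pairs Good match_boundR many_boundR Coll coll_bound)

section Sampling

variable {V : Type} [Fintype V] [DecidableEq V]

/-- The edges of a colour. -/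
def cls {n : ℕ} (E : Finset (Fin n × Fin n)) (col : Fin n × Fin n → ℕ) (a : ℕ) :
    Finset (Fin n × Fin n) := E.filter (fun e => col e = a)

/-- A proper edge colouring. -/
def Proper {n : ℕ} (E : Finset (Fin n × Fin n)) (col : Fin n × Fin n → ℕ) : Prop :=
  ∀ e ∈ E, ∀ e' ∈ E, e ≠ e' → col e = col e' →
    e.1 ≠ e'.1 ∧ e.2 ≠ e'.2 ∧ e.1 ≠ e'.2 ∧ e.2 ≠ e'.1

lemma cls_matching {n : ℕ} (E : Finset (Fin n × Fin n)) (hE : ∀ e ∈ E, e.1 < e.2)
    (col : Fin n × Fin n → ℕ) (hcol : Proper E col) (a : ℕ) :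
    Set.InjOn (fun e : Fin n × Fin n => e.1) (cls E col a) ∧
    Set.InjOn (fun e : Fin n × Fin n => e.2) (cls E col a) ∧
    ∀ p ∈ cls E col a, ∀ q ∈ cls E col a, p.1 ≠ q.2 := by
  refine ⟨?_, ?_, ?_⟩
  · intro e he e' he' h
    rw [Finset.mem_coe, cls, Finset.mem_filter] at he he'
    by_contra hne
    exact (hcol e he.1 e' he'.1 hne (he.2.trans he'.2.symm)).1 h
  · intro e he e' he' h
    rw [Finset.mem_coe, cls, Finset.mem_filter] at he he'
    by_contra hne
    exact (hcol e he.1 e' he'.1 hne (he.2.trans he'.2.symm)).2.1 h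
  · intro e he e' he' h
    rw [cls, Finset.mem_filter] at he he'
    by_cases hne : e = e'
    · subst hne
      exact absurd h (hE e he.1).ne
    · exact (hcol e he.1 e' he'.1 hne (he.2.trans he'.2.symm)).2.2.1 h

/-- The event that a large class has too few uncut edges. -/
def FewUncut (c : V → V → Bool) {n : ℕ} (q k' : ℕ) (E : Finset (Fin n × Fin n))
    (col : Fin n × Fin n → ℕ) (b : Fin n → V) : Prop :=
  ∃ w : V, ∃ a ∈ Finset.range q, k' ≤ (cls E col a).card / 4 ∧
    2 * ((cls E col a).filter (fun e => c w (b e.1) = c w (b e.2))).card <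
      (cls E col a).card / 4

open scoped Classical in
lemma fail_uncut (c : V → V → Bool) (n q k' : ℕ) (E : Finset (Fin n × Fin n))
    (hE : ∀ e ∈ E, e.1 < e.2) (col : Fin n × Fin n → ℕ) (hcol : Proper E col)
    (C : Finset V) (hC : 0 < C.card)
    (hp : 4 * Fintype.card V * q ≤ 2 ^ k') :
    4 * ((Om n C).filter (fun b => FewUncut c q k' E col b)).card ≤ C.card ^ n := by
  set fail := (Om n C).filter (fun b => FewUncut c q k' E col b) with hfail
  have hsub : fail ⊆ ((univ : Finset V) ×ˢ Finset.range q).biUnion (fun z =>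
      if k' ≤ (cls E col z.2).card / 4 then
        (Om n C).filter (fun b => 2 * ((cls E col z.2).filter (fun e =>
          c z.1 (b e.1) = c z.1 (b e.2))).card < (cls E col z.2).card / 4)
      else ∅) := by
    intro b hb
    rw [hfail, Finset.mem_filter] at hb
    obtain ⟨hbO, w, a, ha, h1, h2⟩ := hb
    rw [Finset.mem_biUnion]
    refine ⟨(w, a), by rw [Finset.mem_product]; exact ⟨Finset.mem_univ _, ha⟩, ?_⟩
    rw [if_pos h1, Finset.mem_filter]
    exact ⟨hbO, h2⟩
  have h1 := (Finset.card_le_card hsub).trans Finset.card_biUnion_le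
  have h3 : ∀ z ∈ ((univ : Finset V) ×ˢ Finset.range q),
      2 ^ k' * (if k' ≤ (cls E col z.2).card / 4 then
        (Om n C).filter (fun b => 2 * ((cls E col z.2).filter (fun e =>
          c z.1 (b e.1) = c z.1 (b e.2))).card < (cls E col z.2).card / 4)
      else ∅ : Finset (Fin n → V)).card ≤ C.card ^ n := by
    intro z _
    split_ifs with hz
    · obtain ⟨m1, m2, m3⟩ := cls_matching E hE col hcol z.2
      have hg := group_bound (L := n) C hC (c z.1) (cls E col z.2)
        (fun e => e.1) (fun e => e.2) m1 m2 m3 ((cls E col z.2).card / 4) (by omega)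
      refine le_trans ?_ hg
      apply Nat.mul_le_mul_right
      exact Nat.pow_le_pow_right (by norm_num) hz
    · rw [Finset.card_empty, mul_zero]; exact Nat.zero_le _
  have h4 : 2 ^ k' * fail.card ≤ Fintype.card V * q * C.card ^ n := by
    refine (Nat.mul_le_mul_left _ h1).trans ?_
    rw [Finset.mul_sum]
    refine (Finset.sum_le_sum h3).trans ?_
    rw [Finset.sum_const, smul_eq_mul, Finset.card_product, Finset.card_univ,
      Finset.card_range]
  have h5 : 2 ^ k' * (4 * fail.card) ≤ 2 ^ k' * C.card ^ n := by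
    calc 2 ^ k' * (4 * fail.card) = 4 * (2 ^ k' * fail.card) := by ring
      _ ≤ 4 * (Fintype.card V * q * C.card ^ n) := Nat.mul_le_mul_left _ h4
      _ = (4 * Fintype.card V * q) * C.card ^ n := by ring
      _ ≤ _ := Nat.mul_le_mul_right _ hp
  exact Nat.le_of_mul_le_mul_left h5 (by positivity)

/-- The event that many edges are opposite on a small set. -/
def ManyOpp (c : V → V → Bool) {n : ℕ} (g g' : ℝ) (T q k' : ℕ) (E : Finset (Fin n × Fin n))
    (col : Fin n × Fin n → ℕ) (C : Finset V) (b : Fin n → V) : Prop :=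
  ∃ t : Fin T → Option V, ((pairs c (tset t) C).card : ℝ) ≤ g * (C.card : ℝ) ^ 2 ∧
    ∃ a ∈ Finset.range q, k' ≤ (cls E col a).card ∧
    g' * (cls E col a).card ≤
      ((cls E col a).filter (fun e => ∀ w ∈ tset t, c w (b e.1) ≠ c w (b e.2))).card

open scoped Classical in
lemma fail_opp (c : V → V → Bool) (n q k' T K : ℕ) (g g' : ℝ) (E : Finset (Fin n × Fin n))
    (hE : ∀ e ∈ E, e.1 < e.2) (col : Fin n × Fin n → ℕ) (hcol : Proper E col)
    (C : Finset V) (hC : 0 < C.card)
    (hg0 : 0 ≤ g) (hg : g ≤ (1 / 16) ^ K) (hK : 1 ≤ K * g')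
    (hp : 4 * ((Fintype.card V : ℝ) + 1) ^ T * q ≤ 2 ^ k') :
    4 * ((((Om n C).filter (fun b => ManyOpp c g g' T q k' E col C b)).card : ℕ) : ℝ)
      ≤ (C.card : ℝ) ^ n := by
  set fail := (Om n C).filter (fun b => ManyOpp c g g' T q k' E col C b) with hfail
  have hg'0 : 0 < g' := by
    by_contra h
    push Not at h
    have : (K : ℝ) * g' ≤ 0 := mul_nonpos_of_nonneg_of_nonpos (Nat.cast_nonneg _) h
    linarith
  have hsub : fail ⊆ ((univ : Finset (Fin T → Option V)) ×ˢ Finset.range q).biUnion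
      (fun z => if ((pairs c (tset z.1) C).card : ℝ) ≤ g * (C.card : ℝ) ^ 2 ∧
          k' ≤ (cls E col z.2).card then
        (Om n C).filter (fun b => ⌈g' * (cls E col z.2).card⌉₊ ≤
          ((cls E col z.2).filter (fun e => ∀ w ∈ tset z.1, c w (b e.1) ≠ c w (b e.2))).card)
      else ∅) := by
    intro b hb
    rw [hfail, Finset.mem_filter] at hb
    obtain ⟨hbO, t, ht, a, ha, h1, h2⟩ := hb
    rw [Finset.mem_biUnion]
    refine ⟨(t, a), by rw [Finset.mem_product]; exact ⟨Finset.mem_univ _, ha⟩, ?_⟩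
    rw [if_pos ⟨ht, h1⟩, Finset.mem_filter]
    exact ⟨hbO, Nat.ceil_le.2 h2⟩
  have h1 := (Finset.card_le_card hsub).trans Finset.card_biUnion_le
  have h2 : (fail.card : ℝ) ≤ ∑ z ∈ ((univ : Finset (Fin T → Option V)) ×ˢ
      Finset.range q), (((if ((pairs c (tset z.1) C).card : ℝ) ≤ g * (C.card : ℝ) ^ 2 ∧
          k' ≤ (cls E col z.2).card then
        (Om n C).filter (fun b => ⌈g' * (cls E col z.2).card⌉₊ ≤
          ((cls E col z.2).filter (fun e => ∀ w ∈ tset z.1, c w (b e.1) ≠ c w (b e.2))).card)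
      else ∅ : Finset (Fin n → V)).card : ℕ) : ℝ) := by exact_mod_cast h1
  have h3 : ∀ z ∈ ((univ : Finset (Fin T → Option V)) ×ˢ
      Finset.range q), (((if ((pairs c (tset z.1) C).card : ℝ) ≤ g * (C.card : ℝ) ^ 2 ∧
          k' ≤ (cls E col z.2).card then
        (Om n C).filter (fun b => ⌈g' * (cls E col z.2).card⌉₊ ≤
          ((cls E col z.2).filter (fun e => ∀ w ∈ tset z.1, c w (b e.1) ≠ c w (b e.2))).card)
      else ∅ : Finset (Fin n → V)).card : ℕ) : ℝ) ≤ (1 / 2) ^ k' * (C.card : ℝ) ^ n := by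
    intro z _
    split_ifs with hz
    · obtain ⟨m1, m2, m3⟩ := cls_matching E hE col hcol z.2
      have hb := many_boundR (L := n) C hC (fun x y => ∀ w ∈ tset z.1, c w x ≠ c w y) g hg0
        (by simpa only [pairs] using hz.1) (cls E col z.2) (fun e => e.1) (fun e => e.2)
        m1 m2 m3 ⌈g' * (cls E col z.2).card⌉₊
      refine le_trans (le_of_eq ?_) (hb.trans ?_)
      · congr 2
      · apply mul_le_mul_of_nonneg_right _ (by positivity)
        set s := (cls E col z.2).card with hs
        have e1 : (s : ℝ) ≤ (K * ⌈g' * s⌉₊ : ℕ) := by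
          push_cast
          have e2 : g' * s ≤ (⌈g' * s⌉₊ : ℝ) := Nat.le_ceil _
          calc (s : ℝ) = 1 * s := by ring
            _ ≤ (K * g') * s := by gcongr
            _ = K * (g' * s) := by ring
            _ ≤ _ := by gcongr
        have e3 : s ≤ K * ⌈g' * s⌉₊ := by exact_mod_cast e1
        have e4 : g ^ ⌈g' * (s : ℝ)⌉₊ ≤ (1 / 16) ^ s := by
          calc g ^ ⌈g' * (s : ℝ)⌉₊ ≤ ((1 / 16) ^ K) ^ ⌈g' * (s : ℝ)⌉₊ := by gcongr
            _ = (1 / 16) ^ (K * ⌈g' * (s : ℝ)⌉₊) := by rw [← pow_mul]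
            _ ≤ (1 / 16) ^ s := pow_le_pow_of_le_one (by norm_num) (by norm_num) e3
        calc (2 : ℝ) ^ s * g ^ ⌈g' * (s : ℝ)⌉₊ ≤ 2 ^ s * (1 / 16) ^ s := by gcongr
          _ = (1 / 8) ^ s := by rw [← mul_pow]; norm_num
          _ ≤ (1 / 2) ^ s := by gcongr; norm_num
          _ ≤ (1 / 2) ^ k' := pow_le_pow_of_le_one (by norm_num) (by norm_num) hz.2
    · rw [Finset.card_empty, Nat.cast_zero]; positivity
  have h4 := h2.trans (Finset.sum_le_sum h3)
  rw [Finset.sum_const, nsmul_eq_mul, Finset.card_product, Finset.card_univ, Fintype.card_fun,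
    Fintype.card_option, Fintype.card_fin, Finset.card_range] at h4
  push_cast at h4
  have h5 : (0 : ℝ) ≤ (C.card : ℝ) ^ n := by positivity
  have h6 : (4 * ((Fintype.card V : ℝ) + 1) ^ T * q) * (1 / 2) ^ k' ≤ 1 := by
    calc (4 * ((Fintype.card V : ℝ) + 1) ^ T * q) * (1 / 2) ^ k' ≤ 2 ^ k' * (1 / 2) ^ k' := by
          gcongr
      _ = 1 := by rw [← mul_pow]; norm_num
  calc 4 * (fail.card : ℝ) ≤ 4 * (((Fintype.card V : ℝ) + 1) ^ T * q *
        ((1 / 2) ^ k' * (C.card : ℝ) ^ n)) := by linarith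
    _ = ((4 * ((Fintype.card V : ℝ) + 1) ^ T * q) * (1 / 2) ^ k') * (C.card : ℝ) ^ n := by ring
    _ ≤ 1 * (C.card : ℝ) ^ n := mul_le_mul_of_nonneg_right h6 h5
    _ = _ := one_mul _

/-- The neighbours of a vertex. -/
def Nb {n : ℕ} (E : Finset (Fin n × Fin n)) (v : Fin n) : Finset (Fin n) :=
  univ.filter (fun u => (u, v) ∈ E ∨ (v, u) ∈ E)

/-- Vertices that have to be moved. -/
def Bd (c : V → V → Bool) {n : ℕ} (a : ℕ) (E : Finset (Fin n × Fin n)) (b : Fin n → V)
    (v : Fin n) : Prop := Coll b v ∨ ∃ u ∈ Nb E v, agree c (b u) (b v) ≤ a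

instance (c : V → V → Bool) {n : ℕ} (a : ℕ) (E : Finset (Fin n × Fin n)) (b : Fin n → V)
    (v : Fin n) : Decidable (Bd c a E b v) := by
  unfold Bd; infer_instance

/-- The number of edges with an end that has to be moved. -/
def changed (c : V → V → Bool) {n : ℕ} (a : ℕ) (E : Finset (Fin n × Fin n))
    (b : Fin n → V) : ℕ :=
  (E.filter (fun e => Bd c a E b e.1 ∨ Bd c a E b e.2)).card

/-- The number of almost opposite pairs. -/
def vp (c : V → V → Bool) (a : ℕ) (C : Finset V) : ℕ :=
  ((C ×ˢ C).filter (fun p => agree c p.1 p.2 ≤ a)).card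

lemma bd_bound (c : V → V → Bool) (n a Δ : ℕ) (E : Finset (Fin n × Fin n))
    (C : Finset V) (hC : 0 < C.card) (hE : ∀ e ∈ E, e.1 < e.2) (hΔ : ∀ v, (Nb E v).card ≤ Δ)
    (v : Fin n) :
    ((Om n C).filter (fun b => Bd c a E b v)).card * C.card ^ 2 ≤
      (n * C.card + Δ * vp c a C) * C.card ^ n := by
  have hsub : (Om n C).filter (fun b => Bd c a E b v) ⊆
      (Om n C).filter (fun b => Coll b v) ∪
      (Nb E v).biUnion (fun u => (Om n C).filter (fun b => agree c (b u) (b v) ≤ a)) := by
    intro b hb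
    rw [Finset.mem_filter] at hb
    rw [Finset.mem_union]
    obtain ⟨hbO, h | ⟨u, hu, h⟩⟩ := hb
    · left; rw [Finset.mem_filter]; exact ⟨hbO, h⟩
    · right
      rw [Finset.mem_biUnion]
      exact ⟨u, hu, by rw [Finset.mem_filter]; exact ⟨hbO, h⟩⟩
  have h1 := (Finset.card_le_card hsub).trans ((Finset.card_union_le _ _).trans
    (Nat.add_le_add_left Finset.card_biUnion_le _))
  have h2 : ∀ u ∈ Nb E v, ((Om n C).filter (fun b => agree c (b u) (b v) ≤ a)).card * C.card ^ 2
      ≤ C.card ^ n * vp c a C := by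
    intro u hu
    have huv : u ≠ v := by
      rw [Nb, Finset.mem_filter] at hu
      rcases hu.2 with h | h
      · exact (hE _ h).ne
      · exact (hE _ h).ne'
    have hr := resample (L := n) C huv (fun _ => True) (fun b x y => Iff.rfl)
      (fun x y => agree c x y ≤ a)
    have e1 : (Om n C).filter (fun b => agree c (b u) (b v) ≤ a) =
        (Om n C).filter (fun b => True ∧ agree c (b u) (b v) ≤ a) := by
      ext b; simp
    rw [e1, hr]
    have e2 : (Om n C).filter (fun _ => True) = Om n C := Finset.filter_true_of_mem (by simp)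
    rw [e2, card_Om]
    exact le_rfl
  have h3 := coll_bound n C hC v
  calc ((Om n C).filter (fun b => Bd c a E b v)).card * C.card ^ 2
      ≤ (((Om n C).filter (fun b => Coll b v)).card +
        ∑ u ∈ Nb E v, ((Om n C).filter (fun b => agree c (b u) (b v) ≤ a)).card) *
          C.card ^ 2 := Nat.mul_le_mul_right _ h1
    _ = (((Om n C).filter (fun b => Coll b v)).card * C.card) * C.card +
        ∑ u ∈ Nb E v, ((Om n C).filter (fun b => agree c (b u) (b v) ≤ a)).card *
          C.card ^ 2 := by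
        rw [add_mul, Finset.sum_mul]; ring
    _ ≤ (n * C.card ^ n) * C.card + ∑ u ∈ Nb E v, C.card ^ n * vp c a C := by
        apply Nat.add_le_add
        · exact Nat.mul_le_mul_right _ h3
        · exact Finset.sum_le_sum h2
    _ = (n * C.card ^ n) * C.card + (Nb E v).card * (C.card ^ n * vp c a C) := by
        rw [Finset.sum_const, smul_eq_mul]
    _ ≤ (n * C.card ^ n) * C.card + Δ * (C.card ^ n * vp c a C) := by
        apply Nat.add_le_add_left
        exact Nat.mul_le_mul_right _ (hΔ v)
    _ = _ := by ring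

lemma fail_changed (c : V → V → Bool) (n a Δ D : ℕ) (E : Finset (Fin n × Fin n))
    (C : Finset V) (hC : 0 < C.card) (hE : ∀ e ∈ E, e.1 < e.2) (hΔ : ∀ v, (Nb E v).card ≤ Δ)
    (hp : 16 * E.card * (n * C.card + Δ * vp c a C) ≤ D * C.card ^ 2) :
    8 * ((Om n C).filter (fun b => D < changed c a E b)).card ≤ C.card ^ n := by
  set fail := (Om n C).filter (fun b => D < changed c a E b) with hfail
  have h1 : (D + 1) * fail.card ≤ ∑ b ∈ Om n C, changed c a E b := by
    have a1 : ∑ b ∈ fail, (D + 1) ≤ ∑ b ∈ fail, changed c a E b :=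
      Finset.sum_le_sum (fun b hb => (Finset.mem_filter.1 hb).2)
    rw [Finset.sum_const, smul_eq_mul, mul_comm] at a1
    exact a1.trans (Finset.sum_le_sum_of_subset (Finset.filter_subset _ _))
  have h2 : ∑ b ∈ Om n C, changed c a E b =
      ∑ e ∈ E, ((Om n C).filter (fun b => Bd c a E b e.1 ∨ Bd c a E b e.2)).card := by
    simp only [changed, Finset.card_filter]
    rw [Finset.sum_comm]
  have h3 : ∀ e ∈ E, ((Om n C).filter (fun b => Bd c a E b e.1 ∨ Bd c a E b e.2)).card *
      C.card ^ 2 ≤ 2 * ((n * C.card + Δ * vp c a C) * C.card ^ n) := by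
    intro e _
    have a1 : ((Om n C).filter (fun b => Bd c a E b e.1 ∨ Bd c a E b e.2)).card ≤
        ((Om n C).filter (fun b => Bd c a E b e.1)).card +
        ((Om n C).filter (fun b => Bd c a E b e.2)).card := by
      rw [Finset.filter_or]
      exact Finset.card_union_le _ _
    have a2 := bd_bound c n a Δ E C hC hE hΔ e.1
    have a3 := bd_bound c n a Δ E C hC hE hΔ e.2
    calc _ ≤ (((Om n C).filter (fun b => Bd c a E b e.1)).card +
        ((Om n C).filter (fun b => Bd c a E b e.2)).card) * C.card ^ 2 :=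
          Nat.mul_le_mul_right _ a1
      _ ≤ _ := by rw [add_mul]; omega
  have h4 : (∑ b ∈ Om n C, changed c a E b) * C.card ^ 2 ≤
      E.card * (2 * ((n * C.card + Δ * vp c a C) * C.card ^ n)) := by
    rw [h2, Finset.sum_mul]
    refine (Finset.sum_le_sum h3).trans ?_
    rw [Finset.sum_const, smul_eq_mul]
  have h5 : ((D + 1) * C.card ^ 2) * (8 * fail.card) ≤ ((D + 1) * C.card ^ 2) * C.card ^ n := by
    calc ((D + 1) * C.card ^ 2) * (8 * fail.card) = 8 * ((D + 1) * fail.card) * C.card ^ 2 := by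
          ring
      _ ≤ 8 * (∑ b ∈ Om n C, changed c a E b) * C.card ^ 2 := by gcongr
      _ = 8 * ((∑ b ∈ Om n C, changed c a E b) * C.card ^ 2) := by ring
      _ ≤ 8 * (E.card * (2 * ((n * C.card + Δ * vp c a C) * C.card ^ n))) :=
          Nat.mul_le_mul_left _ h4
      _ = (16 * E.card * (n * C.card + Δ * vp c a C)) * C.card ^ n := by ring
      _ ≤ (D * C.card ^ 2) * C.card ^ n := Nat.mul_le_mul_right _ hp
      _ ≤ _ := by
          apply Nat.mul_le_mul_right
          apply Nat.mul_le_mul_right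
          omega
  exact Nat.le_of_mul_le_mul_left h5 (by positivity)

/-- The weighted resampling identity. -/
lemma sum_weight {n : ℕ} (C : Finset V) (hC : 0 < C.card) (Ψ : V → V → ℝ) {u v : Fin n}
    (huv : u ≠ v) :
    (∑ b ∈ Om n C, Ψ (b u) (b v)) * (C.card : ℝ) ^ 2 =
      (C.card : ℝ) ^ n * ∑ p ∈ C ×ˢ C, Ψ p.1 p.2 := by
  have h1 : ∑ b ∈ Om n C, Ψ (b u) (b v) = ∑ p ∈ C ×ˢ C,
      ∑ b ∈ (Om n C).filter (fun b => (b u, b v) = p), Ψ (b u) (b v) := by
    rw [Finset.sum_fiberwise_of_maps_to]
    intro b hb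
    rw [Finset.mem_product]
    exact ⟨mem_Om.1 hb u, mem_Om.1 hb v⟩
  have h2 : ∀ p ∈ C ×ˢ C, (∑ b ∈ (Om n C).filter (fun b => (b u, b v) = p), Ψ (b u) (b v)) *
      (C.card : ℝ) ^ 2 = (C.card : ℝ) ^ n * Ψ p.1 p.2 := by
    intro p hp
    have h3 : ∑ b ∈ (Om n C).filter (fun b => (b u, b v) = p), Ψ (b u) (b v) =
        ((Om n C).filter (fun b => (b u, b v) = p)).card * Ψ p.1 p.2 := by
      rw [← nsmul_eq_mul, ← Finset.sum_const]
      apply Finset.sum_congr rfl
      intro b hb
      rw [Finset.mem_filter] at hb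
      rw [← hb.2]
    have hr := resample (L := n) C huv (fun _ => True) (fun b x y => Iff.rfl)
      (fun x y => (x, y) = p)
    have e1 : (Om n C).filter (fun b => (b u, b v) = p) =
        (Om n C).filter (fun b => True ∧ (b u, b v) = p) := by
      ext b; simp
    have e2 : (Om n C).filter (fun _ => True) = Om n C := Finset.filter_true_of_mem (by simp)
    have e3 : ((C ×ˢ C).filter (fun q => (q.1, q.2) = p)).card = 1 := by
      rw [Finset.card_eq_one]
      refine ⟨p, ?_⟩
      ext q
      simp only [Finset.mem_filter, Finset.mem_singleton, Prod.mk.eta]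
      constructor
      · exact fun h => h.2
      · rintro rfl; exact ⟨hp, rfl⟩
    rw [e2, card_Om, e3, mul_one] at hr
    rw [h3, e1]
    have hr' : ((((Om n C).filter (fun b => True ∧ (b u, b v) = p)).card : ℕ) : ℝ) *
        (C.card : ℝ) ^ 2 = (C.card : ℝ) ^ n := by exact_mod_cast hr
    calc _ = (((((Om n C).filter (fun b => True ∧ (b u, b v) = p)).card : ℕ) : ℝ) *
        (C.card : ℝ) ^ 2) * Ψ p.1 p.2 := by ring
      _ = _ := by rw [hr']
  rw [h1, Finset.sum_mul, Finset.mul_sum]
  exact Finset.sum_congr rfl h2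

open scoped Classical in
lemma fail_weight (n : ℕ) (E : Finset (Fin n × Fin n)) (C : Finset V) (hC : 0 < C.card)
    (hE : ∀ e ∈ E, e.1 < e.2) (hE0 : 0 < E.card) (Ψ : V → V → ℝ) (hΨ : ∀ x y, 0 ≤ Ψ x y)
    (hp : 8 * ∑ p ∈ C ×ˢ C, Ψ p.1 p.2 ≤ (C.card : ℝ) ^ 2) :
    8 * ((((Om n C).filter (fun b => (E.card : ℝ) ≤ ∑ e ∈ E, Ψ (b e.1) (b e.2))).card : ℕ) : ℝ)
      ≤ (C.card : ℝ) ^ n := by
  set fail := (Om n C).filter (fun b => (E.card : ℝ) ≤ ∑ e ∈ E, Ψ (b e.1) (b e.2)) with hfail
  have hCR : (0 : ℝ) < C.card := by exact_mod_cast hC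
  have hER : (0 : ℝ) < E.card := by exact_mod_cast hE0
  have h1 : (E.card : ℝ) * fail.card ≤ ∑ b ∈ Om n C, ∑ e ∈ E, Ψ (b e.1) (b e.2) := by
    have a1 : ∑ b ∈ fail, (E.card : ℝ) ≤ ∑ b ∈ fail, ∑ e ∈ E, Ψ (b e.1) (b e.2) :=
      Finset.sum_le_sum (fun b hb => (Finset.mem_filter.1 hb).2)
    rw [Finset.sum_const, nsmul_eq_mul, mul_comm] at a1
    refine a1.trans (Finset.sum_le_sum_of_subset_of_nonneg (Finset.filter_subset _ _) ?_)
    intro b _ _
    exact Finset.sum_nonneg (fun e _ => hΨ _ _)
  have h2 : (∑ b ∈ Om n C, ∑ e ∈ E, Ψ (b e.1) (b e.2)) * (C.card : ℝ) ^ 2 =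
      E.card * ((C.card : ℝ) ^ n * ∑ p ∈ C ×ˢ C, Ψ p.1 p.2) := by
    rw [Finset.sum_comm, Finset.sum_mul]
    rw [Finset.sum_congr rfl (fun e he => sum_weight C hC Ψ (hE e he).ne)]
    rw [Finset.sum_const, nsmul_eq_mul]
  have h3 : (E.card * (C.card : ℝ) ^ 2) * (8 * fail.card) ≤
      (E.card * (C.card : ℝ) ^ 2) * (C.card : ℝ) ^ n := by
    calc (E.card * (C.card : ℝ) ^ 2) * (8 * fail.card)
        = 8 * ((E.card * fail.card) * (C.card : ℝ) ^ 2) := by ring
      _ ≤ 8 * ((∑ b ∈ Om n C, ∑ e ∈ E, Ψ (b e.1) (b e.2)) * (C.card : ℝ) ^ 2) := by gcongr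
      _ = (E.card * (C.card : ℝ) ^ n) * (8 * ∑ p ∈ C ×ˢ C, Ψ p.1 p.2) := by rw [h2]; ring
      _ ≤ (E.card * (C.card : ℝ) ^ n) * (C.card : ℝ) ^ 2 := by gcongr
      _ = _ := by ring
  exact le_of_mul_le_mul_left h3 (by positivity)

lemma sampling (c : V → V → Bool) (n a Δ D T K q k' : ℕ) (g g' : ℝ)
    (E : Finset (Fin n × Fin n)) (hE : ∀ e ∈ E, e.1 < e.2) (hE0 : 0 < E.card)
    (col : Fin n × Fin n → ℕ) (hcol : Proper E col) (hΔ : ∀ v, (Nb E v).card ≤ Δ)
    (C : Finset V) (hC : 0 < C.card)
    (hg0 : 0 ≤ g) (hg : g ≤ (1 / 16) ^ K) (hK : 1 ≤ K * g')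
    (Ψ : V → V → ℝ) (hΨ : ∀ x y, 0 ≤ Ψ x y)
    (hp1 : 16 * E.card * (n * C.card + Δ * vp c a C) ≤ D * C.card ^ 2)
    (hp2 : 4 * ((Fintype.card V : ℝ) + 1) ^ T * q ≤ 2 ^ k')
    (hp3 : 4 * Fintype.card V * q ≤ 2 ^ k')
    (hp4 : 8 * ∑ p ∈ C ×ˢ C, Ψ p.1 p.2 ≤ (C.card : ℝ) ^ 2) :
    ∃ b : Fin n → V, (∀ i, b i ∈ C) ∧ changed c a E b ≤ D ∧
      ¬ ManyOpp c g g' T q k' E col C b ∧ ¬ FewUncut c q k' E col b ∧
      ∑ e ∈ E, Ψ (b e.1) (b e.2) < E.card := by
  classical
  by_contra hcon
  push Not at hcon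
  have f1 := fail_changed c n a Δ D E C hC hE hΔ hp1
  have f2 := fail_opp c n q k' T K g g' E hE col hcol C hC hg0 hg hK hp2
  have f3 := fail_uncut c n q k' E hE col hcol C hC hp3
  have f4 := fail_weight n E C hC hE hE0 Ψ hΨ hp4
  have hsub : Om n C ⊆ ((Om n C).filter (fun b => D < changed c a E b) ∪
      (Om n C).filter (fun b => ManyOpp c g g' T q k' E col C b)) ∪
      ((Om n C).filter (fun b => FewUncut c q k' E col b) ∪
      (Om n C).filter (fun b => (E.card : ℝ) ≤ ∑ e ∈ E, Ψ (b e.1) (b e.2))) := by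
    intro b hb
    simp only [Finset.mem_union, Finset.mem_filter]
    by_cases h1 : D < changed c a E b
    · exact Or.inl (Or.inl ⟨hb, h1⟩)
    · by_cases h2 : ManyOpp c g g' T q k' E col C b
      · exact Or.inl (Or.inr ⟨hb, h2⟩)
      · by_cases h3 : FewUncut c q k' E col b
        · exact Or.inr (Or.inl ⟨hb, h3⟩)
        · exact Or.inr (Or.inr ⟨hb, hcon b (mem_Om.1 hb) (by omega) h2 h3⟩)
  have h1 := (Finset.card_le_card hsub).trans ((Finset.card_union_le _ _).trans
    (Nat.add_le_add (Finset.card_union_le _ _) (Finset.card_union_le _ _)))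
  rw [card_Om] at h1
  have h2 : (C.card : ℝ) ^ n ≤
      ((((Om n C).filter (fun b => D < changed c a E b)).card : ℝ) +
      (((Om n C).filter (fun b => ManyOpp c g g' T q k' E col C b)).card : ℝ)) +
      ((((Om n C).filter (fun b => FewUncut c q k' E col b)).card : ℝ) +
      (((Om n C).filter
        (fun b => (E.card : ℝ) ≤ ∑ e ∈ E, Ψ (b e.1) (b e.2))).card : ℝ)) := by
    exact_mod_cast h1
  have g1 : 8 * (((Om n C).filter (fun b => D < changed c a E b)).card : ℝ) ≤
      (C.card : ℝ) ^ n := by exact_mod_cast f1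
  have g3 : 4 * (((Om n C).filter (fun b => FewUncut c q k' E col b)).card : ℝ) ≤
      (C.card : ℝ) ^ n := by exact_mod_cast f3
  have hpos : 0 < (C.card : ℝ) ^ n := by
    have : (0 : ℝ) < C.card := by exact_mod_cast hC
    positivity
  have g2 : 4 * (((Om n C).filter (fun b => ManyOpp c g g' T q k' E col C b)).card : ℝ) ≤
      (C.card : ℝ) ^ n := by
    convert f2
  linarith

/-- Choosing distinct branch vertices without almost opposite adjacent ones. -/
lemma select (c : V → V → Bool) (n a Δ ν : ℕ) (E : Finset (Fin n × Fin n))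
    (hE : ∀ e ∈ E, e.1 < e.2) (hΔ : ∀ v, (Nb E v).card ≤ Δ) (C : Finset V)
    (hν : ∀ x ∈ C, (C.filter (fun y => agree c x y ≤ a)).card ≤ ν)
    (hn : n + Δ * ν ≤ C.card) (b : Fin n → V) (hb : ∀ i, b i ∈ C) :
    ∃ φ : Fin n → V, Function.Injective φ ∧ (∀ u, φ u ∈ C) ∧
      (∀ e ∈ E, a < agree c (φ e.1) (φ e.2)) ∧ ∀ v, ¬ Bd c a E b v → φ v = b v := by
  classical
  have key : ∀ S : Finset (Fin n), ∃ φ : Fin n → V, (∀ u, φ u ∈ C) ∧
      (∀ v, ¬ Bd c a E b v → φ v = b v) ∧
      (∀ u v, (¬ Bd c a E b u ∨ u ∈ S) → (¬ Bd c a E b v ∨ v ∈ S) → φ u = φ v → u = v) ∧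
      (∀ u v, (¬ Bd c a E b u ∨ u ∈ S) → (¬ Bd c a E b v ∨ v ∈ S) → u ∈ Nb E v →
        a < agree c (φ u) (φ v)) := by
    intro S
    induction S using Finset.induction_on with
    | empty =>
      refine ⟨b, hb, fun _ _ => rfl, ?_, ?_⟩
      · intro u v hu hv huv
        simp only [Finset.notMem_empty, or_false] at hu hv
        by_contra hne
        rcases lt_or_gt_of_ne hne with h | h
        · exact hv (Or.inl ⟨u, h, huv⟩)
        · exact hu (Or.inl ⟨v, h, huv.symm⟩)
      · intro u v hu hv huv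
        simp only [Finset.notMem_empty, or_false] at hu hv
        by_contra hle
        push Not at hle
        exact hv (Or.inr ⟨u, huv, hle⟩)
    | insert v S hvS ih =>
      obtain ⟨φ, hφC, hφb, hφi, hφa⟩ := ih
      by_cases hv : Bd c a E b v
      swap
      · -- nothing to do
        have heq : ∀ u, (¬ Bd c a E b u ∨ u ∈ insert v S) → (¬ Bd c a E b u ∨ u ∈ S) := by
          intro u hu
          rcases hu with hu | hu
          · exact Or.inl hu
          · rw [Finset.mem_insert] at hu
            rcases hu with rfl | hu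
            · exact Or.inl hv
            · exact Or.inr hu
        exact ⟨φ, hφC, hφb, fun u w hu hw => hφi u w (heq u hu) (heq w hw),
          fun u w hu hw => hφa u w (heq u hu) (heq w hw)⟩
      · -- choose a new place for `v`
        set used := ((univ : Finset (Fin n)).erase v).image φ ∪
          (Nb E v).biUnion (fun u => C.filter (fun y => agree c (φ u) y ≤ a)) with hused
        have hcard : used.card < C.card := by
          have h1 : used.card ≤ (((univ : Finset (Fin n)).erase v).image φ).card +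
              ((Nb E v).biUnion (fun u => C.filter (fun y => agree c (φ u) y ≤ a))).card :=
            Finset.card_union_le _ _
          have h2 : (((univ : Finset (Fin n)).erase v).image φ).card ≤ n - 1 := by
            refine Finset.card_image_le.trans ?_
            rw [Finset.card_erase_of_mem (Finset.mem_univ _), Finset.card_univ,
              Fintype.card_fin]
          have h3 : ((Nb E v).biUnion (fun u => C.filter (fun y => agree c (φ u) y ≤ a))).card
              ≤ Δ * ν := by
            refine Finset.card_biUnion_le.trans ?_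
            refine (Finset.sum_le_sum (fun u _ => hν (φ u) (hφC u))).trans ?_
            rw [Finset.sum_const, smul_eq_mul]
            exact Nat.mul_le_mul_right _ (hΔ v)
          have h4 : 0 < n := by
            have := v.2
            omega
          omega
        obtain ⟨y, hyC, hy⟩ := Finset.exists_mem_notMem_of_card_lt_card hcard
        rw [hused, Finset.mem_union, not_or] at hy
        have hy1 : ∀ u, u ≠ v → φ u ≠ y := by
          intro u huv h
          apply hy.1
          rw [Finset.mem_image]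
          exact ⟨u, Finset.mem_erase.2 ⟨huv, Finset.mem_univ _⟩, h⟩
        have hy2 : ∀ u ∈ Nb E v, a < agree c (φ u) y := by
          intro u hu
          by_contra hle
          push Not at hle
          apply hy.2
          rw [Finset.mem_biUnion]
          exact ⟨u, hu, by rw [Finset.mem_filter]; exact ⟨hyC, hle⟩⟩
        have hNne : ∀ u w, u ∈ Nb E w → u ≠ w := by
          intro u w hu
          rw [Nb, Finset.mem_filter] at hu
          rcases hu.2 with h | h
          · exact (hE _ h).ne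
          · exact (hE _ h).ne'
        have hNs : ∀ u w, u ∈ Nb E w → w ∈ Nb E u := by
          intro u w hu
          rw [Nb, Finset.mem_filter] at hu ⊢
          exact ⟨Finset.mem_univ _, hu.2.symm⟩
        have hupd : ∀ u, u ≠ v → Function.update φ v y u = φ u := fun u hu =>
          Function.update_of_ne hu _ _
        have hred : ∀ u, u ≠ v → (¬ Bd c a E b u ∨ u ∈ insert v S) →
            (¬ Bd c a E b u ∨ u ∈ S) := by
          intro u huv hu
          rcases hu with hu | hu
          · exact Or.inl hu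
          · rw [Finset.mem_insert] at hu
            rcases hu with hu | hu
            · exact absurd hu huv
            · exact Or.inr hu
        refine ⟨Function.update φ v y, ?_, ?_, ?_, ?_⟩
        · intro u
          by_cases huv : u = v
          · subst huv; simpa using hyC
          · rw [hupd u huv]; exact hφC u
        · intro u hu
          have huv : u ≠ v := fun h => hu (h ▸ hv)
          rw [hupd u huv]; exact hφb u hu
        · intro u w hu hw huw
          by_cases h1 : u = v
          · by_cases h2 : w = v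
            · rw [h1, h2]
            · subst h1
              rw [hupd w h2] at huw
              simp only [Function.update_self] at huw
              exact absurd huw.symm (hy1 w h2)
          · by_cases h2 : w = v
            · subst h2
              rw [hupd u h1] at huw
              simp only [Function.update_self] at huw
              exact absurd huw (hy1 u h1)
            · rw [hupd u h1, hupd w h2] at huw
              exact hφi u w (hred u h1 hu) (hred w h2 hw) huw
        · intro u w hu hw huw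
          have hne := hNne u w huw
          by_cases h1 : u = v
          · subst h1
            rw [hupd w (fun h => hne h.symm)]
            simp only [Function.update_self]
            rw [agree_comm]
            exact hy2 w (hNs u w huw)
          · by_cases h2 : w = v
            · subst h2
              rw [hupd u h1]
              simp only [Function.update_self]
              exact hy2 u huw
            · rw [hupd u h1, hupd w h2]
              exact hφa u w (hred u h1 hu) (hred w h2 hw) huw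
  obtain ⟨φ, hφC, hφb, hφi, hφa⟩ := key univ
  refine ⟨φ, fun u v h => hφi u v (Or.inr (Finset.mem_univ _)) (Or.inr (Finset.mem_univ _)) h,
    hφC, ?_, hφb⟩
  intro e he
  apply hφa e.1 e.2 (Or.inr (Finset.mem_univ _)) (Or.inr (Finset.mem_univ _))
  rw [Nb, Finset.mem_filter]
  exact ⟨Finset.mem_univ _, Or.inl he⟩

lemma sum_classes {n q : ℕ} (E : Finset (Fin n × Fin n)) (col : Fin n × Fin n → ℕ)
    (hq : ∀ e ∈ E, col e < q) (P : Fin n × Fin n → Prop) [DecidablePred P] :
    (E.filter P).card = ∑ a ∈ Finset.range q, ((cls E col a).filter P).card := by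
  rw [Finset.card_eq_sum_card_fiberwise (f := col) (t := Finset.range q)
    (fun e he => Finset.mem_coe.2 (Finset.mem_range.2 (hq e (Finset.mem_filter.1 he).1)))]
  apply Finset.sum_congr rfl
  intro a _
  congr 1
  ext e
  simp only [cls, Finset.mem_filter]
  tauto

lemma sum_classes' {n q : ℕ} (E : Finset (Fin n × Fin n)) (col : Fin n × Fin n → ℕ)
    (hq : ∀ e ∈ E, col e < q) :
    E.card = ∑ a ∈ Finset.range q, (cls E col a).card :=
  Finset.card_eq_sum_card_fiberwise
    (fun e he => Finset.mem_coe.2 (Finset.mem_range.2 (hq e he)))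

lemma uncut_of_classes (n q k' : ℕ) (E : Finset (Fin n × Fin n)) (col : Fin n × Fin n → ℕ)
    (hq : ∀ e ∈ E, col e < q) (P : Fin n × Fin n → Prop)
    [DecidablePred P] (hk : 16 * q * k' ≤ E.card) (h24 : 12 * q ≤ E.card)
    (h : ∀ a ∈ Finset.range q, k' ≤ (cls E col a).card / 4 →
      (cls E col a).card / 4 ≤ 2 * ((cls E col a).filter P).card) :
    E.card ≤ 16 * (E.filter P).card := by
  have h1 := sum_classes' E col hq
  have h2 := sum_classes E col hq P
  have h3 : ∀ a ∈ Finset.range q, (cls E col a).card ≤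
      8 * ((cls E col a).filter P).card + (3 + 4 * k') := by
    intro a ha
    by_cases hka : k' ≤ (cls E col a).card / 4
    · have := h a ha hka
      omega
    · omega
  have h4 := Finset.sum_le_sum h3
  rw [← h1, Finset.sum_add_distrib, ← Finset.mul_sum, ← h2, Finset.sum_const,
    Finset.card_range, smul_eq_mul] at h4
  have h5 : q * (3 + 4 * k') = 3 * q + 4 * q * k' := by ring
  have h6 : 16 * q * k' = 4 * (4 * q * k') := by ring
  omega

lemma opp_of_classes (n q k' : ℕ) (g' : ℝ) (hg' : 0 ≤ g') (E : Finset (Fin n × Fin n))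
    (col : Fin n × Fin n → ℕ) (hq : ∀ e ∈ E, col e < q)
    (P : Fin n × Fin n → Prop) [DecidablePred P]
    (h : ∀ a ∈ Finset.range q, k' ≤ (cls E col a).card →
      (((cls E col a).filter P).card : ℝ) < g' * (cls E col a).card) :
    ((E.filter P).card : ℝ) ≤ g' * E.card + q * k' := by
  have h1 := sum_classes' E col hq
  have h2 := sum_classes E col hq P
  have h3 : ∀ a ∈ Finset.range q, (((cls E col a).filter P).card : ℝ) ≤
      g' * (cls E col a).card + k' := by
    intro a ha
    by_cases hka : k' ≤ (cls E col a).card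
    · have := h a ha hka
      have h4 : (0 : ℝ) ≤ k' := Nat.cast_nonneg _
      linarith
    · have h4 : ((cls E col a).filter P).card ≤ k' :=
        (Finset.card_filter_le _ _).trans (by omega)
      have h5 : (((cls E col a).filter P).card : ℝ) ≤ k' := by exact_mod_cast h4
      have h6 : 0 ≤ g' * (cls E col a).card := by positivity
      linarith
  have h4 := Finset.sum_le_sum h3
  rw [Finset.sum_add_distrib, ← Finset.mul_sum, Finset.sum_const, Finset.card_range,
    nsmul_eq_mul] at h4
  rw [h1, h2]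
  push_cast at h4 ⊢
  linarith

end Sampling

end Pool.Agent.W5h9.LogSub
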