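import Mathlib
import Pool.Agent.W5h9.LogSub2

set_option linter.unusedSectionVars false

/-! Helper file: Hall's condition, general version. -/

namespace Pool.Agent.W5h9.LogSub

open Finset
open Pool.Agent.W5h9.DenseSub (agree agree_comm tset exists_tset hall)
open Pool.Agent.W5h9.PowSub (pairs Good)

section Core

variable {V U : Type} [Fintype V] [DecidableEq V] [Fintype U] [DecidableEq U]

/-- Hall's condition. -/
lemma core (c : V → V → Bool) (E : Finset (U × U)) (φ : U → V) (C : Finset V) (g : ℝ)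
    (R T a : ℕ)
    (hcard : Fintype.card V = E.card + Fintype.card U)
    (hUE : Fintype.card U ≤ E.card)
    (h1 : ∀ e ∈ E, a < agree c (φ e.1) (φ e.2))
    (h2 : ∀ t : Finset V, t.card ≤ T → ((pairs c t C).card : ℝ) ≤ g * (C.card : ℝ) ^ 2 →
      2 * R * (E.filter (fun e => ∀ w ∈ t, c w (φ e.1) ≠ c w (φ e.2))).card ≤ E.card)
    (h3 : ∀ w, E.card ≤ 25 * (E.filter (fun e => c w (φ e.1) = c w (φ e.2))).card)
    (h4 : ∀ s, 1 ≤ s → 2 * R * s ≤ E.card → a < Fintype.card U + s →
      (E.filter (fun e => agree c (φ e.1) (φ e.2) < Fintype.card U + s)).card < s)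
    (hgood : Good c g T C) :
    ∀ F ⊆ E, F.Nonempty → F.card + (univ.filter (fun w => (∀ u, w ≠ φ u) ∧
      ∀ e ∈ F, c w (φ e.1) ≠ c w (φ e.2))).card ≤ E.card := by
  classical
  intro F hFE hFne
  by_contra hcon
  push Not at hcon
  set W := univ.filter (fun w => (∀ u, w ≠ φ u) ∧ ∀ e ∈ F, c w (φ e.1) ≠ c w (φ e.2)) with hWdef
  have hWmem : ∀ w ∈ W, ∀ e ∈ F, c w (φ e.1) ≠ c w (φ e.2) := by
    intro w hw
    rw [hWdef, Finset.mem_filter] at hw
    exact hw.2.2
  have hWne : W.Nonempty := by
    rw [Finset.nonempty_iff_ne_empty]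
    intro h0
    rw [h0, Finset.card_empty, add_zero] at hcon
    exact absurd (Finset.card_le_card hFE) (by omega)
  have hWbig : Fintype.card V ≤ 50 * W.card := by
    obtain ⟨w, hw⟩ := hWne
    have hsub : F ⊆ E.filter (fun e => ¬ c w (φ e.1) = c w (φ e.2)) := by
      intro e he
      rw [Finset.mem_filter]
      exact ⟨hFE he, hWmem w hw e he⟩
    have a1 := Finset.card_le_card hsub
    have a2 := Finset.card_filter_add_card_filter_not (s := E)
      (fun e => c w (φ e.1) = c w (φ e.2))
    have a3 := h3 w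
    omega
  obtain ⟨t, htW, htT, ht⟩ := hgood W hWbig
  have hFt : F ⊆ E.filter (fun e => ∀ w ∈ t, c w (φ e.1) ≠ c w (φ e.2)) := by
    intro e he
    rw [Finset.mem_filter]
    exact ⟨hFE he, fun w hw => hWmem w (htW hw) e he⟩
  have hFc : 2 * R * F.card ≤ E.card :=
    (Nat.mul_le_mul_left _ (Finset.card_le_card hFt)).trans (h2 t htT ht)
  have hag : ∀ e ∈ F, agree c (φ e.1) (φ e.2) < Fintype.card U + F.card := by
    intro e he
    have hdis : Disjoint (univ.filter (fun w => c w (φ e.1) = c w (φ e.2))) W := by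
      rw [Finset.disjoint_left]
      intro w hw hwW
      exact hWmem w hwW e he (Finset.mem_filter.1 hw).2
    have hag' : agree c (φ e.1) (φ e.2) + W.card ≤ Fintype.card V := by
      unfold agree
      rw [← Finset.card_union_of_disjoint hdis, ← Finset.card_univ]
      exact Finset.card_le_card (Finset.subset_univ _)
    omega
  have hpos : 1 ≤ F.card := hFne.card_pos
  have h5 : a < Fintype.card U + F.card := by
    obtain ⟨e, he⟩ := hFne
    exact (h1 e (hFE he)).trans (hag e he)
  have h6 := h4 F.card hpos hFc h5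
  have h7 : F ⊆ E.filter (fun e => agree c (φ e.1) (φ e.2) < Fintype.card U + F.card) := by
    intro e he
    rw [Finset.mem_filter]
    exact ⟨hFE he, hag e he⟩
  have h8 := Finset.card_le_card h7
  omega

end Core

section Branch

variable {V : Type} [Fintype V] [DecidableEq V]

open scoped Classical in
/-- The weight of a pair. -/
noncomputable def psi (c : V → V → Bool) (R a : ℕ) (x y : V) : ℝ :=
  if a < agree c x y ∧ R * agree c x y ≤ Fintype.card V then
    ((Fintype.card V : ℝ) / agree c x y) ^ 2 else 0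

lemma psi_nonneg (c : V → V → Bool) (R a : ℕ) (x y : V) : 0 ≤ psi c R a x y := by
  unfold psi
  split_ifs
  · positivity
  · exact le_rfl

/-- From a good cell to the branch vertices and the middle vertices. -/
lemma branch (c : V → V → Bool) (n R a Δ ν D T K q k' : ℕ) (g g' : ℝ)
    (E : Finset (Fin n × Fin n)) (hE : ∀ e ∈ E, e.1 < e.2) (hE0 : 0 < E.card)
    (col : Fin n × Fin n → ℕ) (hcol : Proper E col) (hq : ∀ e ∈ E, col e < q)
    (hΔ : ∀ v, (Nb E v).card ≤ Δ)
    (C : Finset V) (hC : 0 < C.card)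
    (hν : ∀ x ∈ C, (C.filter (fun y => agree c x y ≤ a)).card ≤ ν)
    (hn : n + Δ * ν ≤ C.card)
    (hg0 : 0 ≤ g) (hg : g ≤ (1 / 16) ^ K) (hK : 1 ≤ K * g') (hg' : 8 * R * g' ≤ 1)
    (hg'0 : 0 ≤ g') (hR : 16 ≤ R)
    (hp1 : 16 * E.card * (n * C.card + Δ * vp c a C) ≤ D * C.card ^ 2)
    (hp2 : 4 * ((Fintype.card V : ℝ) + 1) ^ T * q ≤ 2 ^ k')
    (hp3 : 4 * Fintype.card V * q ≤ 2 ^ k')
    (hp4 : 8 * ∑ p ∈ C ×ˢ C, psi c R a p.1 p.2 ≤ (C.card : ℝ) ^ 2)
    (hcard : Fintype.card V = E.card + n) (hnE : n ≤ E.card)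
    (hk : 8 * R * q * k' ≤ E.card) (h12 : 12 * q ≤ E.card)
    (hD : 4 * R * D ≤ E.card) (ha : 2 * n + 2 * D ≤ a)
    (hgood : Good c g T C) :
    ∃ φ : Fin n → V, Function.Injective φ ∧ ∃ ψ : E → V, Function.Injective ψ ∧
      ∀ e : E, (∀ u, ψ e ≠ φ u) ∧ c (ψ e) (φ e.1.1) = c (ψ e) (φ e.1.2) := by
  classical
  obtain ⟨b, hbC, hb1, hb2, hb3, hb4⟩ := sampling c n a Δ D T K q k' g g' E hE hE0 col hcol hΔ C
    hC hg0 hg hK (psi c R a) (psi_nonneg c R a) hp1 hp2 hp3 hp4
  obtain ⟨φ, hφ, hφC, hφa, hφb⟩ := select c n a Δ ν E hE hΔ C hν hn b hbC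
  refine ⟨φ, hφ, ?_⟩
  have hcard' : Fintype.card V = E.card + Fintype.card (Fin n) := by
    rw [Fintype.card_fin, hcard]
  -- the edges that have not changed
  have hsame : ∀ e ∈ E, ¬ (Bd c a E b e.1 ∨ Bd c a E b e.2) → φ e.1 = b e.1 ∧ φ e.2 = b e.2 := by
    intro e _ h
    push Not at h
    exact ⟨hφb _ h.1, hφb _ h.2⟩
  have h16 : 16 * q * k' ≤ E.card := by
    refine le_trans ?_ hk
    calc 16 * q * k' = 16 * (q * k') := by ring
      _ ≤ 8 * R * (q * k') := Nat.mul_le_mul_right _ (by omega)
      _ = _ := by ring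
  have hD64 : 64 * D ≤ E.card := by
    refine le_trans ?_ hD
    exact Nat.mul_le_mul_right _ (by omega)
  apply hall c E φ ?_ hφ hcard'
  apply core c E φ C g R T a hcard'
  · rw [Fintype.card_fin]; exact hnE
  · exact hφa
  · intro t ht hDt
    obtain ⟨t', rfl⟩ := exists_tset (T := T) t ht
    have h1 : ((E.filter (fun e => ∀ w ∈ tset t', c w (b e.1) ≠ c w (b e.2))).card : ℝ) ≤
        g' * E.card + q * k' := by
      apply opp_of_classes n q k' g' hg'0 E col hq _
      intro a' ha' hka
      by_contra hlt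
      push Not at hlt
      exact hb2 ⟨t', hDt, a', ha', hka, hlt⟩
    have hsub : E.filter (fun e => ∀ w ∈ tset t', c w (φ e.1) ≠ c w (φ e.2)) ⊆
        E.filter (fun e => ∀ w ∈ tset t', c w (b e.1) ≠ c w (b e.2)) ∪
        E.filter (fun e => Bd c a E b e.1 ∨ Bd c a E b e.2) := by
      intro e he
      rw [Finset.mem_filter] at he
      rw [Finset.mem_union, Finset.mem_filter, Finset.mem_filter]
      by_cases hc : Bd c a E b e.1 ∨ Bd c a E b e.2
      · exact Or.inr ⟨he.1, hc⟩
      · left
        obtain ⟨e1, e2⟩ := hsame e he.1 hc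
        refine ⟨he.1, ?_⟩
        rw [← e1, ← e2]
        exact he.2
    have h2 := (Finset.card_le_card hsub).trans (Finset.card_union_le _ _)
    have h3 : ((E.filter (fun e => ∀ w ∈ tset t', c w (φ e.1) ≠ c w (φ e.2))).card : ℝ) ≤
        ((E.filter (fun e => ∀ w ∈ tset t', c w (b e.1) ≠ c w (b e.2))).card : ℝ) +
        (changed c a E b : ℝ) := by exact_mod_cast h2
    have h4 : (changed c a E b : ℝ) ≤ D := by exact_mod_cast hb1
    have h4' : (4 : ℝ) * R * D ≤ E.card := by exact_mod_cast hD
    have h5 : (8 : ℝ) * R * q * k' ≤ E.card := by exact_mod_cast hk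
    have hRR : (0 : ℝ) < R := by
      have : 0 < R := by omega
      exact_mod_cast this
    have h6 : 8 * (R : ℝ) * g' * E.card ≤ 1 * E.card := by gcongr
    have h7 : (2 : ℝ) * R *
        ((E.filter (fun e => ∀ w ∈ tset t', c w (φ e.1) ≠ c w (φ e.2))).card : ℝ) ≤ E.card := by
      calc (2 : ℝ) * R * ((E.filter (fun e => ∀ w ∈ tset t',
            c w (φ e.1) ≠ c w (φ e.2))).card : ℝ)
          ≤ 2 * R * ((g' * E.card + q * k') + (D : ℝ)) := by
            gcongr
            linarith
        _ = (8 * R * g' * E.card) / 4 + (8 * R * q * k') / 4 + (4 * R * D) / 2 := by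
            ring
        _ ≤ E.card / 4 + E.card / 4 + E.card / 2 := by linarith
        _ = _ := by ring
    exact_mod_cast h7
  · intro w
    have h1 : E.card ≤ 16 * (E.filter (fun e => c w (b e.1) = c w (b e.2))).card := by
      apply uncut_of_classes n q k' E col hq _ h16 h12
      intro a' ha' hka
      by_contra hlt
      push Not at hlt
      exact hb3 ⟨w, a', ha', hka, hlt⟩
    have hsub : E.filter (fun e => c w (b e.1) = c w (b e.2)) ⊆
        E.filter (fun e => c w (φ e.1) = c w (φ e.2)) ∪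
        E.filter (fun e => Bd c a E b e.1 ∨ Bd c a E b e.2) := by
      intro e he
      rw [Finset.mem_filter] at he
      rw [Finset.mem_union, Finset.mem_filter, Finset.mem_filter]
      by_cases hc : Bd c a E b e.1 ∨ Bd c a E b e.2
      · exact Or.inr ⟨he.1, hc⟩
      · left
        obtain ⟨e1, e2⟩ := hsame e he.1 hc
        refine ⟨he.1, ?_⟩
        rw [e1, e2]
        exact he.2
    have h2 := (Finset.card_le_card hsub).trans (Finset.card_union_le _ _)
    have h4 : (E.filter (fun e => Bd c a E b e.1 ∨ Bd c a E b e.2)).card = changed c a E b := rfl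
    omega
  · intro s hs1 hsR hsa
    rw [Fintype.card_fin] at hsa ⊢
    have hs2 : n + s < 2 * s := by omega
    have hsD : 2 * D < s := by omega
    set P := E.filter (fun e => a < agree c (b e.1) (b e.2) ∧ agree c (b e.1) (b e.2) < 2 * s)
      with hP
    have hsub : E.filter (fun e => agree c (φ e.1) (φ e.2) < n + s) ⊆
        P ∪ E.filter (fun e => Bd c a E b e.1 ∨ Bd c a E b e.2) := by
      intro e he
      rw [Finset.mem_filter] at he
      rw [Finset.mem_union, hP, Finset.mem_filter, Finset.mem_filter]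
      by_cases hc : Bd c a E b e.1 ∨ Bd c a E b e.2
      · exact Or.inr ⟨he.1, hc⟩
      · left
        obtain ⟨e1, e2⟩ := hsame e he.1 hc
        have h1 := hφa e he.1
        rw [← e1, ← e2]
        exact ⟨he.1, h1, he.2.trans hs2⟩
    have h2 := (Finset.card_le_card hsub).trans (Finset.card_union_le _ _)
    have h4 : (E.filter (fun e => Bd c a E b e.1 ∨ Bd c a E b e.2)).card = changed c a E b := rfl
    -- the number of unchanged edges
    have hsR' : (1 : ℝ) ≤ s := by exact_mod_cast hs1
    have hN0 : (0 : ℝ) < Fintype.card V := by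
      have : 0 < Fintype.card V := by omega
      exact_mod_cast this
    have h5 : (P.card : ℝ) * ((Fintype.card V : ℝ) / (2 * s)) ^ 2 < E.card := by
      refine lt_of_le_of_lt ?_ hb4
      calc (P.card : ℝ) * ((Fintype.card V : ℝ) / (2 * s)) ^ 2
          = ∑ e ∈ P, ((Fintype.card V : ℝ) / (2 * s)) ^ 2 := by
            rw [Finset.sum_const, nsmul_eq_mul]
        _ ≤ ∑ e ∈ P, psi c R a (b e.1) (b e.2) := by
            apply Finset.sum_le_sum
            intro e he
            rw [hP, Finset.mem_filter] at he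
            obtain ⟨_, he1, he2⟩ := he
            have h6 : R * agree c (b e.1) (b e.2) ≤ Fintype.card V := by
              calc R * agree c (b e.1) (b e.2) ≤ R * (2 * s) :=
                    Nat.mul_le_mul_left _ he2.le
                _ = 2 * R * s := by ring
                _ ≤ E.card := hsR
                _ ≤ _ := by omega
            unfold psi
            rw [if_pos ⟨he1, h6⟩]
            have h7 : (0 : ℝ) < agree c (b e.1) (b e.2) := by
              have : 0 < agree c (b e.1) (b e.2) := by omega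
              exact_mod_cast this
            have h8 : (agree c (b e.1) (b e.2) : ℝ) ≤ 2 * s := by exact_mod_cast he2.le
            gcongr
        _ ≤ _ := Finset.sum_le_sum_of_subset_of_nonneg (Finset.filter_subset _ _)
            (fun _ _ _ => psi_nonneg _ _ _ _ _)
    have h6 : (P.card : ℝ) * (Fintype.card V : ℝ) ^ 2 < E.card * (2 * s) ^ 2 := by
      rw [div_pow, ← mul_div_assoc, div_lt_iff₀ (by positivity)] at h5
      exact h5
    have h7 : (E.card : ℝ) ≤ Fintype.card V := by
      have : E.card ≤ Fintype.card V := by omega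
      exact_mod_cast this
    have h8 : (2 : ℝ) * R * s ≤ Fintype.card V := by
      have h8' : (2 : ℝ) * R * s ≤ E.card := by exact_mod_cast hsR
      linarith
    have h9 : (P.card : ℝ) * (Fintype.card V : ℝ) < (2 * s) ^ 2 := by
      have e1 : (P.card : ℝ) * (Fintype.card V : ℝ) * Fintype.card V <
          (2 * s) ^ 2 * Fintype.card V := by
        calc (P.card : ℝ) * (Fintype.card V : ℝ) * Fintype.card V =
              (P.card : ℝ) * (Fintype.card V : ℝ) ^ 2 := by ring
          _ < E.card * (2 * s) ^ 2 := h6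
          _ ≤ Fintype.card V * (2 * s) ^ 2 := by gcongr
          _ = _ := by ring
      exact lt_of_mul_lt_mul_right e1 hN0.le
    have hRR : (16 : ℝ) ≤ R := by exact_mod_cast hR
    have h10 : (8 : ℝ) * P.card < s := by
      have e1 : (P.card : ℝ) * (2 * 16 * s) ≤ (P.card : ℝ) * (Fintype.card V : ℝ) := by
        apply mul_le_mul_of_nonneg_left _ (Nat.cast_nonneg _)
        refine le_trans ?_ h8
        gcongr
      have e2 : (P.card : ℝ) * (2 * 16 * s) < (2 * s) ^ 2 := lt_of_le_of_lt e1 h9
      have e3 : (8 * (P.card : ℝ)) * (4 * s) < s * (4 * s) := by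
        calc (8 * (P.card : ℝ)) * (4 * s) = (P.card : ℝ) * (2 * 16 * s) := by ring
          _ < (2 * s) ^ 2 := e2
          _ = _ := by ring
      exact lt_of_mul_lt_mul_right e3 (by positivity)
    have h11 : 8 * P.card < s := by exact_mod_cast h10
    omega
  · exact hgood

end Branch

end Pool.Agent.W5h9.LogSub
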