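import Mathlib
import Pool.Agent.W5h9.LogSub3

set_option linter.unusedSectionVars false

/-! Helper file: the numbers for graphs with at least `K n log n` edges. -/

namespace Pool.Agent.W5h9.LogSub

open Finset
open Pool.Agent.W5h9.DenseSub (agree agree_comm)
open Pool.Agent.W5h9.PowSub (pairs Good good_cell)

section Numbers

lemma proper_sum {n : ℕ} (E : Finset (Fin n × Fin n)) (hE : ∀ e ∈ E, e.1 < e.2) :
    Proper E (fun e => (e.1 : ℕ) + (e.2 : ℕ)) := by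
  intro e he e' he' hne hs
  have h1 : (e.1 : ℕ) < e.2 := hE e he
  have h2 : (e'.1 : ℕ) < e'.2 := hE e' he'
  simp only at hs
  refine ⟨?_, ?_, ?_, ?_⟩
  · intro h
    apply hne
    refine Prod.ext h (Fin.ext ?_)
    have := congrArg Fin.val h
    omega
  · intro h
    apply hne
    refine Prod.ext (Fin.ext ?_) h
    have := congrArg Fin.val h
    omega
  · intro h
    have := congrArg Fin.val h
    omega
  · intro h
    have := congrArg Fin.val h
    omega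

/-- The weight of a pair after `k` splits. -/
lemma psi_small {V : Type} [Fintype V] [DecidableEq V] (c : V → V → Bool)
    (hN : 0 < Fintype.card V) (R a k : ℕ) (hR : 0 < R) (x y : V) :
    ((agree c x y : ℝ) / Fintype.card V) ^ (k + 2) * psi c R a x y ≤ (1 / (R : ℝ)) ^ k := by
  have hNR : (0 : ℝ) < Fintype.card V := by exact_mod_cast hN
  have hRR : (0 : ℝ) < R := by exact_mod_cast hR
  unfold psi
  split_ifs with h
  · have h1 : (0 : ℝ) < agree c x y := by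
      have : 0 < agree c x y := by omega
      exact_mod_cast this
    have h2 : (R : ℝ) * agree c x y ≤ Fintype.card V := by exact_mod_cast h.2
    have h3 : ((agree c x y : ℝ) / Fintype.card V) ^ (k + 2) *
        ((Fintype.card V : ℝ) / agree c x y) ^ 2 = ((agree c x y : ℝ) / Fintype.card V) ^ k := by
      rw [pow_add, mul_assoc, ← mul_pow]
      have : (agree c x y : ℝ) / Fintype.card V * ((Fintype.card V : ℝ) / agree c x y) = 1 := by
        field_simp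
      rw [this, one_pow, mul_one]
    rw [h3]
    apply pow_le_pow_left₀ (by positivity)
    rw [div_le_div_iff₀ hNR hRR]
    linarith
  · rw [mul_zero]; positivity

set_option maxHeartbeats 2000000 in
theorem main : ∃ K₁ : ℕ, ∀ n : ℕ, 1 ≤ n →
    ∀ E : Finset (Fin n × Fin n), (∀ e ∈ E, e.1 < e.2) →
    K₁ * n * (Nat.log 2 n + 1) ≤ E.card →
    ∀ (V : Type) [Fintype V] [DecidableEq V] (c : V → V → Bool), Fintype.card V = E.card + n →
    ∃ φ : Fin n → V, Function.Injective φ ∧ ∃ ψ : E → V, Function.Injective ψ ∧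
      ∀ e : E, (∀ u, ψ e ≠ φ u) ∧ c (ψ e) (φ e.1.1) = c (ψ e) (φ e.1.2) := by
  -- the parameters
  obtain ⟨g, hg, hg0, hg1⟩ : ∃ g : ℝ, g ≤ (1 / 16) ^ 512 ∧ 0 < g ∧ g ≤ 1 :=
    ⟨(1 / 16) ^ 512, le_rfl, by positivity, pow_le_one₀ (by norm_num) (by norm_num)⟩
  obtain ⟨κ, hκ0, hκg⟩ : ∃ κ : ℝ, 0 < κ ∧ κ * (2 * (400 / g) ^ 101 + 1) ≤ g := by
    have hpos : 0 < 2 * (400 / g) ^ 101 + 1 := by positivity
    refine ⟨g / (2 * (400 / g) ^ 101 + 1), by positivity, ?_⟩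
    rw [div_mul_cancel₀ _ hpos.ne']
  obtain ⟨T, hTκ⟩ : ∃ T : ℕ, 1 ≤ T * κ := by
    refine ⟨⌈1 / κ⌉₊, ?_⟩
    have h1 : 1 / κ ≤ (⌈1 / κ⌉₊ : ℝ) := Nat.le_ceil _
    rwa [div_le_iff₀ hκ0] at h1
  obtain ⟨γ, hγ, hγ0⟩ : ∃ γ : ℝ, γ = (g / 2) ^ 101 ∧ 0 < γ := ⟨_, rfl, by positivity⟩
  obtain ⟨k, hk⟩ : ∃ k : ℕ, (1 / 16 : ℝ) ^ k * 128 ≤ γ ^ 2 := by
    obtain ⟨k, hk⟩ := exists_pow_lt_of_lt_one (show 0 < γ ^ 2 / 128 by positivity)
      (show (1 / 16 : ℝ) < 1 by norm_num)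
    refine ⟨k, ?_⟩
    rw [lt_div_iff₀ (by norm_num)] at hk
    exact hk.le
  obtain ⟨c₂, hc₂, hc₂0⟩ : ∃ c₂ : ℝ, c₂ = γ / (4 * 2 ^ (k + 2)) ∧ 0 < c₂ :=
    ⟨_, rfl, by positivity⟩
  obtain ⟨D₀, hD₀⟩ : ∃ D₀ : ℕ, 16 ≤ D₀ * c₂ := by
    refine ⟨⌈16 / c₂⌉₊, ?_⟩
    have h1 : 16 / c₂ ≤ (⌈16 / c₂⌉₊ : ℝ) := Nat.le_ceil _
    rwa [div_le_iff₀ hc₂0] at h1
  refine ⟨24 + 256 * D₀ + 5 * (2 + 2 * D₀) + 1024 * (2 * T + 6), ?_⟩
  intro n hn1 E hE hm V _ _ c hcard
  obtain ⟨lam, hlam⟩ : ∃ lam : ℕ, lam = Nat.log 2 n + 1 := ⟨_, rfl⟩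
  rw [← hlam] at hm
  have hnlam : n < 2 ^ lam := by
    rw [hlam]; exact Nat.lt_pow_succ_log_self (by norm_num) n
  have hlam1 : 1 ≤ lam := by omega
  have hnl : n ≤ n * lam := Nat.le_mul_of_pos_right _ (by omega)
  have hm' : 24 * (n * lam) + 256 * D₀ * (n * lam) + 5 * (2 + 2 * D₀) * (n * lam) +
      1024 * (2 * T + 6) * (n * lam) ≤ E.card := by
    refine le_trans (le_of_eq ?_) hm
    ring
  have hadd : ∀ x y z w m : ℕ, x + y + z + w ≤ m → x ≤ m ∧ y ≤ m ∧ z ≤ m ∧ w ≤ m := by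
    intro x y z w m h
    omega
  obtain ⟨hm1', hm2', hm3, hm4⟩ := hadd _ _ _ _ _ hm'
  have hm1 : 24 * n ≤ E.card := (Nat.mul_le_mul_left _ hnl).trans hm1'
  have hm2 : 256 * D₀ * n ≤ E.card := (Nat.mul_le_mul_left _ hnl).trans hm2'
  have hE0 : 0 < E.card := by omega
  -- sizes
  have hEn : E.card + n ≤ n ^ 2 := by
    have hsub : E ⊆ (univ : Finset (Fin n)).offDiag := by
      intro e he
      rw [Finset.mem_offDiag]
      exact ⟨Finset.mem_univ _, Finset.mem_univ _, (hE e he).ne⟩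
    have h1 := Finset.card_le_card hsub
    rw [Finset.offDiag_card, Finset.card_univ, Fintype.card_fin] at h1
    have h2 : n ≤ n * n := Nat.le_mul_self n
    rw [sq]
    omega
  have hNpow : Fintype.card V + 1 ≤ 2 ^ (2 * lam) := by
    have h1 : n ^ 2 < 2 ^ (2 * lam) := by
      calc n ^ 2 < (2 ^ lam) ^ 2 := Nat.pow_lt_pow_left hnlam (by norm_num)
        _ = 2 ^ (2 * lam) := by rw [← pow_mul, mul_comm]
    omega
  have hN0 : 0 < Fintype.card V := by omega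
  have hNR0 : (0 : ℝ) < Fintype.card V := by exact_mod_cast hN0
  -- the set without almost opposite pairs
  obtain ⟨D, hD⟩ : ∃ D : ℕ, D = D₀ * n := ⟨_, rfl⟩
  obtain ⟨a, ha⟩ : ∃ a : ℕ, a = 2 * n + 2 * D := ⟨_, rfl⟩
  obtain ⟨V₁, _, hV₁c, hV₁⟩ := Pool.Agent.W5h9.LogSub.opp_free c a (2 * lam)
    (by omega) (by
      have e1 : (2 * (2 * lam) + 1) * a ≤ 5 * (2 + 2 * D₀) * (n * lam) := by
        calc (2 * (2 * lam) + 1) * a ≤ (5 * lam) * a := Nat.mul_le_mul_right _ (by omega)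
          _ = 5 * (2 + 2 * D₀) * (n * lam) := by rw [ha, hD]; ring
      omega) (univ : Finset V).card univ le_rfl
  rw [Finset.card_univ] at hV₁c
  have hV₁pos : 0 < V₁.card := by omega
  -- splitting
  obtain ⟨V₂, hV₂V₁, hV₂c, hV₂s⟩ := wsplit c hN0 (k + 2) V₁ (psi c 64 a) (psi_nonneg c 64 a)
  have hV₂pos : 0 < V₂.card := by
    by_contra h0
    have : V₂.card = 0 := by omega
    rw [this, mul_zero] at hV₂c
    omega
  have hψV₂ : ∑ p ∈ V₂ ×ˢ V₂, psi c 64 a p.1 p.2 ≤ (V₁.card : ℝ) ^ 2 * (1 / 64) ^ k := by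
    refine hV₂s.trans ?_
    calc _ ≤ ∑ p ∈ V₁ ×ˢ V₁, (1 / ((64 : ℕ) : ℝ)) ^ k :=
          Finset.sum_le_sum (fun p _ => psi_small c hN0 64 a k (by norm_num) p.1 p.2)
      _ = _ := by
          rw [Finset.sum_const, nsmul_eq_mul, Finset.card_product]
          push_cast
          ring
  -- the cell
  obtain ⟨C, hCV₂, hC1, hgood⟩ := good_cell c hN0 V₂ (Finset.card_pos.1 hV₂pos) g κ T hg0 hg1
    hκ0 hκg hTκ
  rw [← hγ] at hC1
  have hV₂R : (0 : ℝ) < V₂.card := by exact_mod_cast hV₂pos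
  have hCR0 : (0 : ℝ) < C.card := lt_of_lt_of_le (by positivity) hC1
  have hC0 : 0 < C.card := by exact_mod_cast hCR0
  have hCopp : ∀ x ∈ C, ∀ y ∈ C, a < agree c x y := fun x hx y hy =>
    hV₁ x (hV₂V₁ (hCV₂ hx)) y (hV₂V₁ (hCV₂ hy))
  have hvp : vp c a C = 0 := by
    unfold vp
    rw [Finset.card_eq_zero, Finset.filter_eq_empty_iff]
    intro p hp hle
    rw [Finset.mem_product] at hp
    have := hCopp p.1 hp.1 p.2 hp.2
    omega
  have hV₁V₂ : (V₁.card : ℝ) ≤ 2 ^ (k + 2) * V₂.card := by exact_mod_cast hV₂c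
  have hNV₁ : (Fintype.card V : ℝ) ≤ 4 * V₁.card := by exact_mod_cast hV₁c
  have hCN : c₂ * Fintype.card V ≤ C.card := by
    calc c₂ * (Fintype.card V : ℝ) ≤ c₂ * (4 * (2 ^ (k + 2) * V₂.card)) := by
          gcongr
          linarith
      _ = γ * V₂.card := by rw [hc₂]; field_simp
      _ ≤ _ := hC1
  have hEN : (E.card : ℝ) ≤ Fintype.card V := by
    have : E.card ≤ Fintype.card V := by omega
    exact_mod_cast this
  have hDC : 16 * (E.card : ℝ) ≤ D₀ * C.card := by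
    calc 16 * (E.card : ℝ) ≤ 16 * Fintype.card V := by gcongr
      _ ≤ (D₀ * c₂) * Fintype.card V := by gcongr
      _ = D₀ * (c₂ * Fintype.card V) := by ring
      _ ≤ D₀ * C.card := by gcongr
  have hDC' : 16 * E.card ≤ D₀ * C.card := by exact_mod_cast hDC
  have hnC : n ≤ C.card := by
    have h1 : 256 * D₀ * n ≤ D₀ * C.card := by
      calc 256 * D₀ * n ≤ E.card := hm2
        _ ≤ 16 * E.card := by omega
        _ ≤ _ := hDC'
    have h2 : 0 < D₀ := by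
      rcases Nat.eq_zero_or_pos D₀ with h | h
      · rw [h] at hD₀; norm_num at hD₀
      · exact h
    have h3 : D₀ * (256 * n) ≤ D₀ * C.card := by
      refine le_trans (le_of_eq ?_) h1
      ring
    have h4 := Nat.le_of_mul_le_mul_left h3 h2
    omega
  obtain ⟨k', hk'⟩ : ∃ k' : ℕ, k' = E.card / (1024 * n) := ⟨_, rfl⟩
  have hk'1 : 1024 * n * k' ≤ E.card := by
    rw [hk']; exact Nat.mul_div_le _ _
  have hk'2 : (2 * T + 6) * lam ≤ k' := by
    rw [hk', Nat.le_div_iff_mul_le (by omega)]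
    refine le_trans (le_of_eq ?_) hm4
    ring
  refine branch c n 64 a n 0 D T 512 (2 * n) k' g (1 / 512) E hE hE0
    (fun e => (e.1 : ℕ) + (e.2 : ℕ)) (proper_sum E hE) ?_ ?_ C hC0 ?_ ?_ hg0.le hg
    ?_ ?_ ?_ (by norm_num) ?_ ?_ ?_ ?_ hcard ?_ ?_ ?_ ?_ ?_ hgood
  · intro e _
    have h1 := e.1.2
    have h2 := e.2.2
    show (e.1 : ℕ) + (e.2 : ℕ) < 2 * n
    omega
  · intro v
    exact (Finset.card_le_univ _).trans (by rw [Fintype.card_fin])
  · intro x hx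
    rw [Nat.le_zero, Finset.card_eq_zero, Finset.filter_eq_empty_iff]
    intro y hy hle
    have := hCopp x hx y hy
    omega
  · simpa using hnC
  · norm_num
  · norm_num
  · norm_num
  · rw [hvp, mul_zero, add_zero, hD]
    calc 16 * E.card * (n * C.card) = (16 * E.card) * (n * C.card) := by ring
      _ ≤ (D₀ * C.card) * (n * C.card) := Nat.mul_le_mul_right _ hDC'
      _ = _ := by ring
  · have h1 : ((Fintype.card V : ℝ) + 1) ≤ 2 ^ (2 * lam) := by exact_mod_cast hNpow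
    have h2 : (n : ℝ) ≤ 2 ^ lam := by exact_mod_cast hnlam.le
    calc 4 * ((Fintype.card V : ℝ) + 1) ^ T * ((2 * n : ℕ) : ℝ)
        = 8 * ((Fintype.card V : ℝ) + 1) ^ T * n := by push_cast; ring
      _ ≤ 8 * (2 ^ (2 * lam)) ^ T * 2 ^ lam := by gcongr
      _ = 2 ^ (3 + 2 * lam * T + lam) := by
          rw [pow_add, pow_add, pow_mul 2 (2 * lam) T]; norm_num
      _ ≤ 2 ^ k' := by
          apply pow_le_pow_right₀ (by norm_num)
          refine le_trans ?_ hk'2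
          nlinarith
  · have h1 : Fintype.card V ≤ 2 ^ (2 * lam) := by omega
    calc 4 * Fintype.card V * (2 * n) = 8 * Fintype.card V * n := by ring
      _ ≤ 8 * 2 ^ (2 * lam) * 2 ^ lam := by gcongr
      _ = 2 ^ (3 + 2 * lam + lam) := by
          rw [pow_add, pow_add]; norm_num
      _ ≤ 2 ^ k' := by
          apply Nat.pow_le_pow_right (by norm_num)
          refine le_trans ?_ hk'2
          nlinarith
  · -- weights
    have h1 : ∑ p ∈ C ×ˢ C, psi c 64 a p.1 p.2 ≤ ∑ p ∈ V₂ ×ˢ V₂, psi c 64 a p.1 p.2 := by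
      apply Finset.sum_le_sum_of_subset_of_nonneg
      · exact Finset.product_subset_product hCV₂ hCV₂
      · intro p _ _; exact psi_nonneg _ _ _ _ _
    calc 8 * ∑ p ∈ C ×ˢ C, psi c 64 a p.1 p.2 ≤ 8 * ((V₁.card : ℝ) ^ 2 * (1 / 64) ^ k) := by
          gcongr
          exact h1.trans hψV₂
      _ ≤ 8 * ((2 ^ (k + 2) * V₂.card) ^ 2 * (1 / 64) ^ k) := by gcongr
      _ = ((1 / 16) ^ k * 128) * (V₂.card : ℝ) ^ 2 := by
          have e1 : (2 : ℝ) ^ (k + 2) * 2 ^ (k + 2) = 16 * 4 ^ k := by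
            rw [← mul_pow, pow_add]; norm_num; ring
          have e2 : (4 : ℝ) ^ k * (1 / 64) ^ k = (1 / 16) ^ k := by
            rw [← mul_pow]; norm_num
          calc 8 * ((2 ^ (k + 2) * (V₂.card : ℝ)) ^ 2 * (1 / 64) ^ k)
              = 8 * ((2 : ℝ) ^ (k + 2) * 2 ^ (k + 2)) * (1 / 64) ^ k * (V₂.card : ℝ) ^ 2 := by
                ring
            _ = 128 * ((4 : ℝ) ^ k * (1 / 64) ^ k) * (V₂.card : ℝ) ^ 2 := by rw [e1]; ring
            _ = _ := by rw [e2]; ring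
      _ ≤ γ ^ 2 * (V₂.card : ℝ) ^ 2 := by gcongr
      _ = (γ * V₂.card) ^ 2 := by ring
      _ ≤ (C.card : ℝ) ^ 2 := by gcongr
  · omega
  · refine le_trans (le_of_eq ?_) hk'1
    ring
  · omega
  · rw [hD]
    refine le_trans (le_of_eq ?_) hm2
    ring
  · exact ha.ge

end Numbers

end Pool.Agent.W5h9.LogSub
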