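import Mathlib
import Pool.Agent.W5h9.LogSub4

set_option linter.unusedSectionVars false

/-! Helper file: sparse graphs with not too large maximum degree. -/

namespace Pool.Agent.W5h9.LogSub

open Finset
open Pool.Agent.W5h9.DenseSub (agree agree_comm)
open Pool.Agent.W5h9.PowSub (pairs Good good_cell)

section Colouring

/-- Greedy proper edge colouring. -/
lemma greedy_col {n : ℕ} (E : Finset (Fin n × Fin n)) (hE : ∀ e ∈ E, e.1 < e.2) (Δ : ℕ)
    (hΔ : ∀ v, (Nb E v).card ≤ Δ) :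
    ∃ col : Fin n × Fin n → ℕ, Proper E col ∧ ∀ e ∈ E, col e < 2 * Δ := by
  classical
  have key : ∀ S : Finset (Fin n × Fin n), S ⊆ E → ∃ col : Fin n × Fin n → ℕ,
      Proper S col ∧ ∀ e ∈ S, col e < 2 * Δ := by
    intro S
    induction S using Finset.induction_on with
    | empty =>
      intro _
      exact ⟨fun _ => 0, fun e he => absurd he (Finset.notMem_empty _),
        fun e he => absurd he (Finset.notMem_empty _)⟩
    | insert e S heS ih =>
      intro hS
      obtain ⟨col, hcol, hlt⟩ := ih ((Finset.subset_insert _ _).trans hS)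
      have heE : e ∈ E := hS (Finset.mem_insert_self _ _)
      have hSE : S ⊆ E := (Finset.subset_insert _ _).trans hS
      -- the edges at a vertex
      have hat : ∀ x y : Fin n, y ∈ Nb E x → (e = (x, y) ∨ e = (y, x)) →
          (S.filter (fun e' => e'.1 = x ∨ e'.2 = x)).card < Δ := by
        intro x y hy hexy
        refine lt_of_lt_of_le ?_ (hΔ x)
        refine lt_of_le_of_lt ?_ (Finset.card_erase_lt_of_mem hy)
        refine Finset.card_le_card_of_injOn (fun e' => if e'.1 = x then e'.2 else e'.1) ?_ ?_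
        · intro e' he'
          rw [Finset.mem_coe, Finset.mem_filter] at he'
          obtain ⟨he'S, he'x⟩ := he'
          rw [Finset.mem_coe, Finset.mem_erase]
          simp only
          split_ifs with h
          · refine ⟨?_, ?_⟩
            · intro hy'
              apply heS
              rcases hexy with rfl | rfl
              · have : e' = (x, y) := Prod.ext h hy'
                rwa [← this]
              · exfalso
                have h1 := hE _ heE
                have h2 := hE _ (hSE he'S)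
                rw [h, hy'] at h2
                exact absurd h1 (not_lt.2 h2.le)
            · rw [Nb, Finset.mem_filter]
              refine ⟨Finset.mem_univ _, Or.inr ?_⟩
              rw [← h]
              exact hSE he'S
          · have h' : e'.2 = x := he'x.resolve_left h
            refine ⟨?_, ?_⟩
            · intro hy'
              apply heS
              rcases hexy with rfl | rfl
              · exfalso
                have h1 := hE _ heE
                have h2 := hE _ (hSE he'S)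
                rw [h', hy'] at h2
                exact absurd h1 (not_lt.2 h2.le)
              · have : e' = (y, x) := Prod.ext hy' h'
                rwa [← this]
            · rw [Nb, Finset.mem_filter]
              refine ⟨Finset.mem_univ _, Or.inl ?_⟩
              rw [← h']
              exact hSE he'S
        · intro e₁ he₁ e₂ he₂ h
          rw [Finset.mem_coe, Finset.mem_filter] at he₁ he₂
          have l1 := hE _ (hSE he₁.1)
          have l2 := hE _ (hSE he₂.1)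
          simp only at h
          split_ifs at h with h1 h2 h2
          · exact Prod.ext (h1.trans h2.symm) h
          · exfalso
            have h3 : e₂.2 = x := he₂.2.resolve_left h2
            rw [h1, h] at l1
            rw [h3] at l2
            exact absurd l1 (not_lt.2 l2.le)
          · exfalso
            have h3 : e₁.2 = x := he₁.2.resolve_left h1
            rw [h2, ← h] at l2
            rw [h3] at l1
            exact absurd l1 (not_lt.2 l2.le)
          · have h3 : e₁.2 = x := he₁.2.resolve_left h1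
            have h4 : e₂.2 = x := he₂.2.resolve_left h2
            exact Prod.ext h (h3.trans h4.symm)
      have hn1 : e.2 ∈ Nb E e.1 := by
        rw [Nb, Finset.mem_filter]; exact ⟨Finset.mem_univ _, Or.inr heE⟩
      have hn2 : e.1 ∈ Nb E e.2 := by
        rw [Nb, Finset.mem_filter]; exact ⟨Finset.mem_univ _, Or.inl heE⟩
      have c1 := hat e.1 e.2 hn1 (Or.inl rfl)
      have c2 := hat e.2 e.1 hn2 (Or.inr rfl)
      set X := S.filter (fun e' => e'.1 = e.1 ∨ e'.2 = e.1) ∪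
        S.filter (fun e' => e'.1 = e.2 ∨ e'.2 = e.2) with hX
      have hXc : (X.image col).card < (Finset.range (2 * Δ)).card := by
        rw [Finset.card_range]
        refine lt_of_le_of_lt (Finset.card_image_le.trans (Finset.card_union_le _ _)) ?_
        omega
      obtain ⟨t, ht, htX⟩ := Finset.exists_mem_notMem_of_card_lt_card hXc
      rw [Finset.mem_range] at ht
      have hfree : ∀ e' ∈ S, (e'.1 = e.1 ∨ e'.2 = e.1 ∨ e'.1 = e.2 ∨ e'.2 = e.2) →
          col e' ≠ t := by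
        intro e' he' h h'
        apply htX
        rw [Finset.mem_image]
        refine ⟨e', ?_, h'⟩
        rw [hX, Finset.mem_union, Finset.mem_filter, Finset.mem_filter]
        tauto
      refine ⟨Function.update col e t, ?_, ?_⟩
      · intro e₁ he₁ e₂ he₂ hne hcc
        rw [Finset.mem_insert] at he₁ he₂
        rcases he₁ with rfl | he₁
        · rcases he₂ with rfl | he₂
          · exact absurd rfl hne
          · rw [Function.update_self, Function.update_of_ne hne.symm] at hcc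
            have := hfree e₂ he₂
            refine ⟨?_, ?_, ?_, ?_⟩
            · intro h; exact this (Or.inl h.symm) hcc.symm
            · intro h; exact this (Or.inr (Or.inr (Or.inr h.symm))) hcc.symm
            · intro h; exact this (Or.inr (Or.inl h.symm)) hcc.symm
            · intro h; exact this (Or.inr (Or.inr (Or.inl h.symm))) hcc.symm
        · rcases he₂ with rfl | he₂
          · rw [Function.update_self, Function.update_of_ne hne] at hcc
            have := hfree e₁ he₁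
            refine ⟨?_, ?_, ?_, ?_⟩
            · intro h; exact this (Or.inl h) hcc
            · intro h; exact this (Or.inr (Or.inr (Or.inr h))) hcc
            · intro h; exact this (Or.inr (Or.inr (Or.inl h))) hcc
            · intro h; exact this (Or.inr (Or.inl h)) hcc
          · have n1 : e₁ ≠ e := fun h => heS (h ▸ he₁)
            have n2 : e₂ ≠ e := fun h => heS (h ▸ he₂)
            rw [Function.update_of_ne n1, Function.update_of_ne n2] at hcc
            exact hcol e₁ he₁ e₂ he₂ hne hcc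
      · intro e' he'
        rw [Finset.mem_insert] at he'
        rcases he' with rfl | he'
        · rw [Function.update_self]; exact ht
        · have n1 : e' ≠ e := fun h => heS (h ▸ he')
          rw [Function.update_of_ne n1]
          exact hlt e' he'
  exact key E subset_rfl

end Colouring

section Sparse

/-- Polylogarithms are small. -/
lemma ev_log (X p : ℕ) : ∃ l₀ : ℕ, ∀ l ≥ l₀, X * l ^ p ≤ 2 ^ (l - 1) := by
  have h := tendsto_pow_const_div_const_pow_of_one_lt p (r := (2 : ℝ)) (by norm_num)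
  have h2 := h.eventually (gt_mem_nhds (show (0 : ℝ) < 1 / (2 * ((X : ℝ) + 1)) by positivity))
  obtain ⟨l₀, hl₀⟩ := Filter.eventually_atTop.1 (h2.and (Filter.eventually_ge_atTop 1))
  refine ⟨l₀, fun l hl => ?_⟩
  obtain ⟨h3, h4⟩ := hl₀ l hl
  rw [div_lt_div_iff₀ (by positivity) (by positivity)] at h3
  have h5 : (2 : ℝ) ^ l = 2 * 2 ^ (l - 1) := by
    rw [← pow_succ']; congr 1; omega
  have h6 : ((X * l ^ p : ℕ) : ℝ) ≤ ((2 ^ (l - 1) : ℕ) : ℝ) := by
    push_cast
    have h7 : (X : ℝ) * (l : ℝ) ^ p ≤ (X + 1) * (l : ℝ) ^ p := by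
      gcongr; linarith
    nlinarith
  exact_mod_cast h6

/-- Good cells with fixed constants. -/
lemma cell_exists : ∃ (g γ : ℝ) (T : ℕ), g ≤ (1 / 16) ^ 512 ∧ 0 < g ∧ 0 < γ ∧ γ ≤ 1 ∧
    ∀ (V : Type) [Fintype V] [DecidableEq V] (c : V → V → Bool), 0 < Fintype.card V →
    ∀ V' : Finset V, V'.Nonempty →
    ∃ C ⊆ V', γ * V'.card ≤ C.card ∧ Good c g T C := by
  obtain ⟨g, hg, hg0, hg1⟩ : ∃ g : ℝ, g ≤ (1 / 16) ^ 512 ∧ 0 < g ∧ g ≤ 1 :=
    ⟨(1 / 16) ^ 512, le_rfl, by positivity, pow_le_one₀ (by norm_num) (by norm_num)⟩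
  obtain ⟨κ, hκ0, hκg⟩ : ∃ κ : ℝ, 0 < κ ∧ κ * (2 * (400 / g) ^ 101 + 1) ≤ g := by
    have hpos : 0 < 2 * (400 / g) ^ 101 + 1 := by positivity
    refine ⟨g / (2 * (400 / g) ^ 101 + 1), by positivity, ?_⟩
    rw [div_mul_cancel₀ _ hpos.ne']
  obtain ⟨T, hTκ⟩ : ∃ T : ℕ, 1 ≤ T * κ := by
    refine ⟨⌈1 / κ⌉₊, ?_⟩
    have h1 : 1 / κ ≤ (⌈1 / κ⌉₊ : ℝ) := Nat.le_ceil _
    rwa [div_le_iff₀ hκ0] at h1
  refine ⟨g, (g / 2) ^ 101, T, hg, hg0, by positivity,
    pow_le_one₀ (by positivity) (by linarith), ?_⟩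
  intro V _ _ c hN V' hV'
  exact good_cell c hN V' hV' g κ T hg0 hg1 hκ0 hκg hTκ

/-- Splitting and cleaning. -/
lemma split_clean {V : Type} [Fintype V] [DecidableEq V] (c : V → V → Bool)
    (hN0 : 0 < Fintype.card V) (a j : ℕ) (ha0 : 0 < a) (η : ℝ)
    (hη : η = 2 * (4 * (a : ℝ) / Fintype.card V) ^ (j + 2)) :
    ∃ V₂ V₃ : Finset V, V₃ ⊆ V₂ ∧ 0 < V₃.card ∧ (V₂.card : ℝ) ≤ 2 * V₃.card ∧
      Fintype.card V ≤ 2 ^ (j + 2) * V₂.card ∧
      (vp c a V₂ : ℝ) ≤ η * (V₂.card : ℝ) ^ 2 ∧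
      64 ^ j * ∑ p ∈ V₂ ×ˢ V₂, psi c 64 a p.1 p.2 ≤ 2 * (Fintype.card V : ℝ) ^ 2 ∧
      ∀ x ∈ V₃, ((V₂.filter (fun y => agree c x y ≤ a)).card : ℝ) ≤ 2 * η * V₂.card := by
  have hNR0 : (0 : ℝ) < Fintype.card V := by exact_mod_cast hN0
  have haR : (0 : ℝ) < a := by exact_mod_cast ha0
  have hη0 : 0 < η := by rw [hη]; positivity
  obtain ⟨w, hw⟩ : ∃ w : V → V → ℝ, w = fun x y => 64 ^ j * psi c 64 a x y +
    (if agree c x y ≤ a then ((Fintype.card V : ℝ) / a) ^ (j + 2) else 0) := ⟨_, rfl⟩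
  have hw0 : ∀ x y, 0 ≤ w x y := by
    intro x y
    rw [hw]
    have := psi_nonneg c 64 a x y
    simp only
    split_ifs <;> positivity
  have hw2 : ∀ x y, ((agree c x y : ℝ) / Fintype.card V) ^ (j + 2) * w x y ≤ 2 := by
    intro x y
    rw [hw]
    simp only
    have h1 := psi_small c hN0 64 a j (by norm_num) x y
    have h2 : ((agree c x y : ℝ) / Fintype.card V) ^ (j + 2) * (64 ^ j * psi c 64 a x y) ≤ 1 := by
      calc ((agree c x y : ℝ) / Fintype.card V) ^ (j + 2) * (64 ^ j * psi c 64 a x y)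
          = 64 ^ j * (((agree c x y : ℝ) / Fintype.card V) ^ (j + 2) * psi c 64 a x y) := by ring
        _ ≤ 64 ^ j * (1 / ((64 : ℕ) : ℝ)) ^ j := by gcongr
        _ = 1 := by rw [← mul_pow]; norm_num
    have h3 : ((agree c x y : ℝ) / Fintype.card V) ^ (j + 2) *
        (if agree c x y ≤ a then ((Fintype.card V : ℝ) / a) ^ (j + 2) else 0) ≤ 1 := by
      split_ifs with hle
      · rw [← mul_pow]
        apply pow_le_one₀ (by positivity)
        have hle' : (agree c x y : ℝ) ≤ a := by exact_mod_cast hle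
        rw [div_mul_div_comm, div_le_one (by positivity)]
        nlinarith
      · rw [mul_zero]; norm_num
    rw [mul_add]
    linarith
  obtain ⟨V₂, _, hV₂c, hV₂s⟩ := wsplit c hN0 (j + 2) univ w hw0
  rw [Finset.card_univ] at hV₂c
  have hV₂pos : 0 < V₂.card := by
    by_contra h0
    have : V₂.card = 0 := by omega
    rw [this, mul_zero] at hV₂c
    omega
  have hV₂R : (0 : ℝ) < V₂.card := by exact_mod_cast hV₂pos
  have hNV₂ : (Fintype.card V : ℝ) ≤ 2 ^ (j + 2) * V₂.card := by exact_mod_cast hV₂c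
  have hwV₂ : ∑ p ∈ V₂ ×ˢ V₂, w p.1 p.2 ≤ 2 * (Fintype.card V : ℝ) ^ 2 := by
    refine hV₂s.trans ?_
    calc _ ≤ ∑ p ∈ (univ : Finset V) ×ˢ (univ : Finset V), (2 : ℝ) :=
          Finset.sum_le_sum (fun p _ => hw2 p.1 p.2)
      _ = _ := by
          rw [Finset.sum_const, nsmul_eq_mul, Finset.card_product, Finset.card_univ]
          push_cast
          ring
  have hψV₂ : 64 ^ j * ∑ p ∈ V₂ ×ˢ V₂, psi c 64 a p.1 p.2 ≤ 2 * (Fintype.card V : ℝ) ^ 2 := by
    refine le_trans ?_ hwV₂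
    rw [Finset.mul_sum]
    apply Finset.sum_le_sum
    intro p _
    rw [hw]
    simp only
    have : (0 : ℝ) ≤ (if agree c p.1 p.2 ≤ a then ((Fintype.card V : ℝ) / a) ^ (j + 2) else 0) := by
      split_ifs <;> positivity
    linarith
  have hvpV₂ : ((Fintype.card V : ℝ) / a) ^ (j + 2) * vp c a V₂ ≤
      2 * (Fintype.card V : ℝ) ^ 2 := by
    refine le_trans ?_ hwV₂
    have e1 : ((Fintype.card V : ℝ) / a) ^ (j + 2) * vp c a V₂ = ∑ p ∈ V₂ ×ˢ V₂,
        (if agree c p.1 p.2 ≤ a then ((Fintype.card V : ℝ) / a) ^ (j + 2) else 0) := by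
      rw [← Finset.sum_filter, Finset.sum_const, nsmul_eq_mul, vp, mul_comm]
    rw [e1]
    apply Finset.sum_le_sum
    intro p _
    rw [hw]
    simp only
    have := psi_nonneg c 64 a p.1 p.2
    have h64 : (0 : ℝ) ≤ 64 ^ j * psi c 64 a p.1 p.2 := by positivity
    linarith
  -- the density of almost opposite pairs
  have hN2 : (Fintype.card V : ℝ) ^ 2 ≤ 4 ^ (j + 2) * (V₂.card : ℝ) ^ 2 := by
    calc (Fintype.card V : ℝ) ^ 2 ≤ (2 ^ (j + 2) * V₂.card) ^ 2 := by gcongr
      _ = 4 ^ (j + 2) * (V₂.card : ℝ) ^ 2 := by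
          rw [mul_pow, ← pow_mul, mul_comm (j + 2) 2, pow_mul]; norm_num
  have hvpη : (vp c a V₂ : ℝ) ≤ η * (V₂.card : ℝ) ^ 2 := by
    have e1 : (vp c a V₂ : ℝ) ≤ 2 * (Fintype.card V : ℝ) ^ 2 * ((a : ℝ) / Fintype.card V) ^ (j + 2)
        := by
      have e2 : ((Fintype.card V : ℝ) / a) ^ (j + 2) * ((a : ℝ) / Fintype.card V) ^ (j + 2) = 1 := by
        rw [← mul_pow]
        have : (Fintype.card V : ℝ) / a * ((a : ℝ) / Fintype.card V) = 1 := by field_simp
        rw [this, one_pow]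
      calc (vp c a V₂ : ℝ) = (((Fintype.card V : ℝ) / a) ^ (j + 2) *
            ((a : ℝ) / Fintype.card V) ^ (j + 2)) * vp c a V₂ := by rw [e2, one_mul]
        _ = (((Fintype.card V : ℝ) / a) ^ (j + 2) * vp c a V₂) *
            ((a : ℝ) / Fintype.card V) ^ (j + 2) := by ring
        _ ≤ _ := by gcongr
    calc (vp c a V₂ : ℝ) ≤ 2 * (Fintype.card V : ℝ) ^ 2 *
          ((a : ℝ) / Fintype.card V) ^ (j + 2) := e1
      _ ≤ 2 * (4 ^ (j + 2) * (V₂.card : ℝ) ^ 2) * ((a : ℝ) / Fintype.card V) ^ (j + 2) := by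
          gcongr
      _ = η * (V₂.card : ℝ) ^ 2 := by
          rw [hη, mul_div_assoc, mul_pow]; ring
  -- cleaning
  obtain ⟨V₃, hV₃⟩ : ∃ V₃, V₃ = V₂.filter (fun x =>
    ((V₂.filter (fun y => agree c x y ≤ a)).card : ℝ) ≤ 2 * η * V₂.card) := ⟨_, rfl⟩
  have hV₃c : (V₂.card : ℝ) ≤ 2 * V₃.card := by
    have h1 : ((V₂.filter (fun x => ¬ ((V₂.filter (fun y => agree c x y ≤ a)).card : ℝ) ≤
        2 * η * V₂.card)).card : ℝ) * (2 * η * V₂.card) ≤ vp c a V₂ := by
      have e1 : vp c a V₂ = ∑ x ∈ V₂, (V₂.filter (fun y => agree c x y ≤ a)).card := by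
        unfold vp
        rw [Finset.card_filter, Finset.sum_product]
        apply Finset.sum_congr rfl
        intro x _
        rw [Finset.card_filter]
      rw [e1]
      push_cast
      rw [← nsmul_eq_mul, ← Finset.sum_const]
      refine le_trans (Finset.sum_le_sum (g := fun x =>
        ((V₂.filter (fun y => agree c x y ≤ a)).card : ℝ)) ?_) ?_
      · intro x hx
        rw [Finset.mem_filter] at hx
        exact (not_le.1 hx.2).le
      · exact Finset.sum_le_sum_of_subset_of_nonneg (Finset.filter_subset _ _)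
          (fun _ _ _ => Nat.cast_nonneg _)
    have h2 : ((V₂.filter (fun x => ¬ ((V₂.filter (fun y => agree c x y ≤ a)).card : ℝ) ≤
        2 * η * V₂.card)).card : ℝ) * 2 ≤ V₂.card := by
      have h3 := h1.trans hvpη
      have h4 : (((V₂.filter (fun x => ¬ ((V₂.filter (fun y => agree c x y ≤ a)).card : ℝ) ≤
        2 * η * V₂.card)).card : ℝ) * 2) * (η * V₂.card) ≤ V₂.card * (η * V₂.card) := by
        calc _ = ((V₂.filter (fun x => ¬ ((V₂.filter (fun y => agree c x y ≤ a)).card : ℝ) ≤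
              2 * η * V₂.card)).card : ℝ) * (2 * η * V₂.card) := by ring
          _ ≤ η * (V₂.card : ℝ) ^ 2 := h3
          _ = _ := by ring
      exact le_of_mul_le_mul_right h4 (by positivity)
    have h5 := Finset.card_filter_add_card_filter_not (s := V₂)
      (fun x => ((V₂.filter (fun y => agree c x y ≤ a)).card : ℝ) ≤ 2 * η * V₂.card)
    rw [← hV₃] at h5
    have h6 : (V₃.card : ℝ) + ((V₂.filter (fun x => ¬ ((V₂.filter
        (fun y => agree c x y ≤ a)).card : ℝ) ≤ 2 * η * V₂.card)).card : ℝ) = V₂.card := by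
      exact_mod_cast h5
    linarith
  have hV₃R : (0 : ℝ) < V₃.card := by linarith
  have hV₃pos : 0 < V₃.card := by exact_mod_cast hV₃R
  refine ⟨V₂, V₃, ?_, hV₃pos, hV₃c, hV₂c, hvpη, hψV₂, ?_⟩
  · rw [hV₃]; exact Finset.filter_subset _ _
  · intro x hx
    rw [hV₃] at hx
    exact (Finset.mem_filter.1 hx).2

/-- The threshold is small compared with the number of vertices. -/
lemma aN_small (j n D₁ : ℕ) (N a : ℝ) (hD₁ : (1 : ℝ) ≤ D₁) (hn0 : (0 : ℝ) < n)
    (q1 : 256 * (D₁ : ℝ) ≤ 2 ^ j) (hNn : (16 : ℝ) ^ j * n ≤ N)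
    (ha : a = 2 * n + 2 * (D₁ * 2 ^ j * n)) :
    4 * a / N ≤ (1 / 2) ^ j * (1 / 2) ^ j := by
  have hN0 : 0 < N := lt_of_lt_of_le (by positivity) hNn
  have h2pos : (1 : ℝ) ≤ 2 ^ j := one_le_pow₀ (by norm_num)
  rw [div_le_iff₀ hN0]
  have e1 : a ≤ 4 * D₁ * 2 ^ j * n := by
    rw [ha]
    have h3 : (1 : ℝ) ≤ D₁ * 2 ^ j := by nlinarith
    have : (2 : ℝ) * n ≤ 2 * (D₁ * 2 ^ j) * n := by nlinarith
    linarith
  have e2 : (1 / 2 : ℝ) ^ j * (1 / 2) ^ j * 16 ^ j = 4 ^ j := by
    rw [← mul_pow, ← mul_pow]; norm_num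
  have e3 : (4 : ℝ) ^ j = 2 ^ j * 2 ^ j := by rw [← mul_pow]; norm_num
  calc 4 * a ≤ 4 * (4 * D₁ * 2 ^ j * n) := by gcongr
    _ = (16 * D₁) * 2 ^ j * n := by ring
    _ ≤ 2 ^ j * 2 ^ j * n := by
        gcongr
        linarith
    _ = ((1 / 2 : ℝ) ^ j * (1 / 2) ^ j * 16 ^ j) * n := by rw [e2, e3]
    _ = (1 / 2 : ℝ) ^ j * (1 / 2) ^ j * (16 ^ j * n) := by ring
    _ ≤ (1 / 2) ^ j * (1 / 2) ^ j * N := by gcongr

/-- The crucial estimate. -/
lemma crucial (j B : ℕ) (Δ η z γ : ℝ) (hΔ0 : 0 ≤ Δ) (hz : 0 ≤ z)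
    (hzj : z ≤ (1 / 2) ^ j * (1 / 2) ^ j) (hη : η = 2 * z ^ (j + 2))
    (hΔR : Δ ≤ 16 ^ ((j + 1) * B)) (hjB : 4 * B + 5 ≤ j) (q2 : 1024 ≤ 2 ^ j * γ ^ 2) :
    128 * (16 : ℝ) ^ (j + 1) * Δ * η ≤ γ ^ 2 := by
  have e1 : η ≤ 2 * (1 / 4) ^ (j * j) := by
    rw [hη]
    have e2 : z ^ (j + 2) ≤ ((1 / 2) ^ j * (1 / 2) ^ j) ^ (j + 2) := by gcongr
    have e3 : ((1 / 2 : ℝ) ^ j * (1 / 2) ^ j) ^ (j + 2) ≤ (1 / 4) ^ (j * j) := by
      have e4 : (1 / 2 : ℝ) ^ j * (1 / 2) ^ j = (1 / 4) ^ j := by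
        rw [← mul_pow]; norm_num
      rw [e4, ← pow_mul]
      apply pow_le_pow_of_le_one (by norm_num) (by norm_num)
      nlinarith
    linarith
  have hη0 : 0 ≤ η := by rw [hη]; positivity
  have e2 : 128 * (16 : ℝ) ^ (j + 1) * Δ * η ≤
      128 * (16 : ℝ) ^ (j + 1) * 16 ^ ((j + 1) * B) * (2 * (1 / 4) ^ (j * j)) := by
    gcongr
  have e3 : 128 * (16 : ℝ) ^ (j + 1) * 16 ^ ((j + 1) * B) * (2 * (1 / 4) ^ (j * j)) ≤
      (1 / 4) ^ j := by
    have e4 : 128 * (16 : ℝ) ^ (j + 1) * 16 ^ ((j + 1) * B) * (2 * (1 / 4) ^ (j * j)) =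
        4 ^ (4 + 2 * (j + 1) + 2 * ((j + 1) * B)) * (1 / 4) ^ (j * j) := by
      have f1 : (16 : ℝ) ^ (j + 1) = 4 ^ (2 * (j + 1)) := by rw [pow_mul]; norm_num
      have f2 : (16 : ℝ) ^ ((j + 1) * B) = 4 ^ (2 * ((j + 1) * B)) := by
        rw [pow_mul 4 2]; norm_num
      have f3 : (4 : ℝ) ^ (4 + 2 * (j + 1) + 2 * ((j + 1) * B)) =
          256 * 4 ^ (2 * (j + 1)) * 4 ^ (2 * ((j + 1) * B)) := by
        rw [pow_add, pow_add]; norm_num
      rw [f1, f2, f3]; ring
    rw [e4]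
    have e5 : 4 + 2 * (j + 1) + 2 * ((j + 1) * B) + j ≤ j * j := by
      have f1 := Nat.mul_le_mul_left (j + 1) hjB
      have f2 : 5 * j ≤ j * j := Nat.mul_le_mul_right _ (by omega)
      have f3 : (j + 1) * (4 * B + 5) = 4 * ((j + 1) * B) + 5 * j + 5 := by ring
      have f4 : (j + 1) * j = j * j + j := by ring
      rw [f3, f4] at f1
      omega
    calc (4 : ℝ) ^ (4 + 2 * (j + 1) + 2 * ((j + 1) * B)) * (1 / 4) ^ (j * j)
        ≤ 4 ^ (4 + 2 * (j + 1) + 2 * ((j + 1) * B)) *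
          (1 / 4) ^ (4 + 2 * (j + 1) + 2 * ((j + 1) * B) + j) := by
          apply mul_le_mul_of_nonneg_left _ (by positivity)
          exact pow_le_pow_of_le_one (by norm_num) (by norm_num) e5
      _ = (1 / 4) ^ j := by
          rw [pow_add (1 / 4 : ℝ) _ j, ← mul_assoc, ← mul_pow]; norm_num
  have e4 : (1 / 4 : ℝ) ^ j ≤ γ ^ 2 := by
    have h1 : (1 / 4 : ℝ) ^ j * 2 ^ j ≤ 1 := by
      rw [← mul_pow]
      exact pow_le_one₀ (by norm_num) (by norm_num)
    have h2 : (1 / 4 : ℝ) ^ j * 1024 ≤ (1 / 4) ^ j * (2 ^ j * γ ^ 2) := by gcongr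
    have h3 : (1 / 4 : ℝ) ^ j * (2 ^ j * γ ^ 2) = ((1 / 4 : ℝ) ^ j * 2 ^ j) * γ ^ 2 := by ring
    have h4 : ((1 / 4 : ℝ) ^ j * 2 ^ j) * γ ^ 2 ≤ 1 * γ ^ 2 := by gcongr
    have h5 : (0 : ℝ) ≤ (1 / 4 : ℝ) ^ j := by positivity
    linarith
  linarith

/-- The two bounds for the thresholds of the union bounds. -/
lemma thresholds (N n Δ T lam k' : ℕ) (hNpow : N + 1 ≤ 2 ^ (2 * lam)) (hnlam : n < 2 ^ lam)
    (hΔn : Δ ≤ n) (hlam1 : 1 ≤ lam) (hk' : (2 * T + 6) * lam ≤ k') :
    4 * ((N : ℝ) + 1) ^ T * ((2 * Δ : ℕ) : ℝ) ≤ 2 ^ k' ∧ 4 * N * (2 * Δ) ≤ 2 ^ k' := by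
  constructor
  · have h1 : ((N : ℝ) + 1) ≤ 2 ^ (2 * lam) := by exact_mod_cast hNpow
    have h2 : (Δ : ℝ) ≤ 2 ^ lam := by
      have : Δ ≤ 2 ^ lam := by omega
      exact_mod_cast this
    calc 4 * ((N : ℝ) + 1) ^ T * ((2 * Δ : ℕ) : ℝ)
        = 8 * ((N : ℝ) + 1) ^ T * Δ := by push_cast; ring
      _ ≤ 8 * (2 ^ (2 * lam)) ^ T * 2 ^ lam := by gcongr
      _ = 2 ^ (3 + 2 * lam * T + lam) := by
          rw [pow_add, pow_add, pow_mul 2 (2 * lam) T]; norm_num
      _ ≤ 2 ^ k' := by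
          apply pow_le_pow_right₀ (by norm_num)
          refine le_trans ?_ hk'
          nlinarith
  · have h1 : N ≤ 2 ^ (2 * lam) := by omega
    have h2 : Δ ≤ 2 ^ lam := by omega
    calc 4 * N * (2 * Δ) = 8 * N * Δ := by ring
      _ ≤ 8 * 2 ^ (2 * lam) * 2 ^ lam := by gcongr
      _ = 2 ^ (3 + 2 * lam + lam) := by
          rw [pow_add, pow_add]; norm_num
      _ ≤ 2 ^ k' := by
          apply Nat.pow_le_pow_right (by norm_num)
          refine le_trans ?_ hk'
          nlinarith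

end Sparse

end Pool.Agent.W5h9.LogSub
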