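import Mathlib
import Pool.Agent.W5h9.LogSub5

set_option linter.unusedSectionVars false

/-! Helper file: sparse graphs with not too large maximum degree, final assembly. -/

namespace Pool.Agent.W5h9.LogSub

open Finset
open Pool.Agent.W5h9.DenseSub (agree agree_comm)
open Pool.Agent.W5h9.PowSub (pairs Good good_cell)

section Reals

lemma w_real (j : ℕ) (X N v x γ : ℝ) (h1 : 64 ^ j * X ≤ 2 * N ^ 2) (hN : N ≤ 2 ^ (j + 2) * v)
    (hN0 : 0 ≤ N) (hv : v ^ 2 ≤ 4 / γ ^ 2 * x ^ 2) (hγ : 0 < γ) (q2 : 1024 ≤ 2 ^ j * γ ^ 2) :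
    8 * X ≤ x ^ 2 := by
  have hN2 : N ^ 2 ≤ 4 ^ (j + 2) * v ^ 2 := by
    calc N ^ 2 ≤ (2 ^ (j + 2) * v) ^ 2 := by gcongr
      _ = 4 ^ (j + 2) * v ^ 2 := by
          rw [mul_pow, ← pow_mul, mul_comm (j + 2) 2, pow_mul]; norm_num
  have q2' : 1024 / γ ^ 2 ≤ 2 ^ j := by
    rw [div_le_iff₀ (by positivity)]; exact q2
  have h2 : 64 ^ j * (8 * X) ≤ 64 ^ j * x ^ 2 := by
    have e64 : (64 : ℝ) ^ j = 4 ^ j * (2 ^ j * 8 ^ j) := by
      rw [← mul_pow, ← mul_pow]; norm_num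
    calc 64 ^ j * (8 * X) = 8 * (64 ^ j * X) := by ring
      _ ≤ 8 * (2 * N ^ 2) := by gcongr
      _ ≤ 8 * (2 * (4 ^ (j + 2) * v ^ 2)) := by gcongr
      _ ≤ 8 * (2 * (4 ^ (j + 2) * (4 / γ ^ 2 * x ^ 2))) := by gcongr
      _ = 4 ^ j * (1024 / γ ^ 2) * x ^ 2 := by
          rw [pow_add]; norm_num; ring
      _ ≤ 4 ^ j * 2 ^ j * x ^ 2 := by gcongr
      _ ≤ (4 ^ j * 2 ^ j * x ^ 2) * 8 ^ j := by
          apply le_mul_of_one_le_right (by positivity)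
          exact one_le_pow₀ (by norm_num)
      _ = 64 ^ j * x ^ 2 := by rw [e64]; ring
  exact le_of_mul_le_mul_left h2 (by positivity)

lemma m_real (j : ℕ) (m n N x v Δ p D γ η D₁ : ℝ) (hp : p ≤ η * v ^ 2)
    (hv : v ^ 2 ≤ 4 / γ ^ 2 * x ^ 2) (hx : γ * N ≤ 2 ^ (j + 3) * x) (hmN : m ≤ N)
    (hm0 : 0 ≤ m) (hn0 : 0 ≤ n) (hx0 : 0 ≤ x) (hΔ0 : 0 ≤ Δ) (hη0 : 0 ≤ η) (hp0 : 0 ≤ p)
    (hmn : m ≤ 16 ^ (j + 1) * n) (hD : D = D₁ * 2 ^ j * n) (hD₁ : 256 ≤ D₁ * γ)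
    (hD₁1 : 1 ≤ D₁) (hγ : 0 < γ)
    (hcruc : 128 * (16 : ℝ) ^ (j + 1) * Δ * η ≤ γ ^ 2) :
    16 * m * (n * x + Δ * p) ≤ D * x ^ 2 := by
  have p1 : 32 * m * n ≤ D * x := by
    have h2 : (256 : ℝ) * (m * n) ≤ 8 * (D * x) := by
      calc (256 : ℝ) * (m * n) ≤ (D₁ * γ) * (N * n) := by gcongr
        _ = D₁ * n * (γ * N) := by ring
        _ ≤ D₁ * n * (2 ^ (j + 3) * x) := by gcongr
        _ = 8 * ((D₁ * 2 ^ j * n) * x) := by
            rw [pow_add]; norm_num; ring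
        _ = _ := by rw [hD]
    linarith
  have p2 : 32 * m * (Δ * p) ≤ D * x ^ 2 := by
    calc 32 * m * (Δ * p)
        ≤ 32 * (16 ^ (j + 1) * n) * (Δ * (η * (4 / γ ^ 2 * x ^ 2))) := by
          gcongr
          exact hp.trans (by gcongr)
      _ = (128 * 16 ^ (j + 1) * Δ * η) / γ ^ 2 * (n * x ^ 2) := by
          field_simp; ring
      _ ≤ γ ^ 2 / γ ^ 2 * (n * x ^ 2) := by gcongr
      _ = n * x ^ 2 := by rw [div_self (by positivity), one_mul]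
      _ ≤ D * x ^ 2 := by
          gcongr
          rw [hD]
          have h1 : (1 : ℝ) ≤ 2 ^ j := one_le_pow₀ (by norm_num)
          have : (1 : ℝ) ≤ D₁ * 2 ^ j := by nlinarith
          nlinarith
  calc (16 : ℝ) * m * (n * x + Δ * p)
      = (32 * m * n) * x / 2 + 32 * m * (Δ * p) / 2 := by ring
    _ ≤ (D * x) * x / 2 + D * x ^ 2 / 2 := by gcongr
    _ = _ := by ring

lemma n_real (j : ℕ) (n N x γ : ℝ) (hn0 : 0 ≤ n) (hNn : (16 : ℝ) ^ j * n ≤ N)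
    (hγ : 0 < γ) (hx : γ * N ≤ 2 ^ (j + 3) * x) (q3 : 16 ≤ 2 ^ j * γ) : 2 * n ≤ x := by
  have h1 : γ * (16 ^ j * n) ≤ 2 ^ (j + 3) * x := by
    refine le_trans ?_ hx
    gcongr
  have h2 : (16 : ℝ) ^ j = 2 ^ j * (2 ^ j * 4 ^ j) := by
    rw [← mul_pow, ← mul_pow]; norm_num
  have h3 : (2 : ℝ) ^ (j + 3) = 8 * 2 ^ j := by rw [pow_add]; norm_num; ring
  rw [h2, h3] at h1
  have h4 : 2 ^ j * (16 * n) ≤ 2 ^ j * (8 * x) := by
    calc 2 ^ j * (16 * n) ≤ 2 ^ j * ((2 ^ j * γ) * n) := by gcongr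
      _ ≤ 2 ^ j * ((2 ^ j * γ) * n) * 4 ^ j := by
          apply le_mul_of_one_le_right (by positivity)
          exact one_le_pow₀ (by norm_num)
      _ = γ * (2 ^ j * (2 ^ j * 4 ^ j) * n) := by ring
      _ ≤ 8 * 2 ^ j * x := h1
      _ = _ := by ring
  have h5 : 16 * n ≤ 8 * x := le_of_mul_le_mul_left h4 (by positivity)
  linarith

lemma room_real (j : ℕ) (n x v Δ ν η γ : ℝ) (hn : 2 * n ≤ x) (hΔ0 : 0 ≤ Δ)
    (hν : ν ≤ 2 * η * v) (hv0 : 0 ≤ v) (hη0 : 0 ≤ η) (hγ : 0 < γ) (hγ1 : γ ≤ 1)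
    (hvx : γ / 2 * v ≤ x)
    (hcruc : 128 * (16 : ℝ) ^ (j + 1) * Δ * η ≤ γ ^ 2) : n + Δ * ν ≤ x := by
  have h16pos : (1 : ℝ) ≤ 16 ^ (j + 1) := one_le_pow₀ (by norm_num)
  have hcruc2 : 128 * Δ * η ≤ γ ^ 2 := by
    refine le_trans ?_ hcruc
    have : 0 ≤ 128 * Δ * η := by positivity
    calc 128 * Δ * η ≤ (128 * Δ * η) * 16 ^ (j + 1) :=
          le_mul_of_one_le_right this h16pos
      _ = _ := by ring
  have hγ2 : γ ^ 2 ≤ γ := by nlinarith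
  have h2 : Δ * ν ≤ x / 2 := by
    calc Δ * ν ≤ Δ * (2 * η * v) := by gcongr
      _ = (128 * Δ * η) * v / 64 := by ring
      _ ≤ γ ^ 2 * v / 64 := by gcongr
      _ ≤ γ * v / 64 := by gcongr
      _ ≤ γ / 2 * v / 2 := by
          have : 0 ≤ γ * v := by positivity
          linarith
      _ ≤ x / 2 := by gcongr
  linarith

lemma D_real (j : ℕ) (m n D D₁ : ℝ) (hn0 : 0 ≤ n) (hD : D = D₁ * 2 ^ j * n)
    (q1 : 256 * D₁ ≤ 2 ^ j) (hj1R : (16 : ℝ) ^ j * n ≤ m) : 4 * 64 * D ≤ m := by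
  have h2 : (16 : ℝ) ^ j = 2 ^ j * (2 ^ j * 4 ^ j) := by
    rw [← mul_pow, ← mul_pow]; norm_num
  calc (4 : ℝ) * 64 * D = (256 * D₁) * (2 ^ j * n) := by rw [hD]; ring
    _ ≤ 2 ^ j * (2 ^ j * n) := by gcongr
    _ ≤ (2 ^ j * (2 ^ j * n)) * 4 ^ j := by
        apply le_mul_of_one_le_right (by positivity)
        exact one_le_pow₀ (by norm_num)
    _ = 16 ^ j * n := by rw [h2]; ring
    _ ≤ _ := hj1R

end Reals

section Cell

/-- The cell for sparse graphs. -/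
lemma sparse_cell (B : ℕ) (g γ : ℝ) (T D₁ : ℕ) (hγ0 : 0 < γ) (hγ1 : γ ≤ 1)
    (hcell : ∀ (V : Type) [Fintype V] [DecidableEq V] (c : V → V → Bool), 0 < Fintype.card V →
      ∀ V' : Finset V, V'.Nonempty → ∃ C ⊆ V', γ * V'.card ≤ C.card ∧ Good c g T C)
    (hD₁ : 256 ≤ D₁ * γ) (hD₁1 : (1 : ℝ) ≤ D₁)
    {V : Type} [Fintype V] [DecidableEq V] (c : V → V → Bool) (n m Δ j a D : ℕ)
    (hn1 : 1 ≤ n) (hm0 : 0 < m) (hcard : Fintype.card V = m + n)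
    (hj1 : 16 ^ j * n ≤ m) (hj2 : m < 16 ^ (j + 1) * n) (hjB : 4 * B + 5 ≤ j)
    (hΔR : (Δ : ℝ) ≤ 16 ^ ((j + 1) * B))
    (q1 : 256 * (D₁ : ℝ) ≤ 2 ^ j) (q2 : 1024 ≤ 2 ^ j * γ ^ 2) (q3 : 16 ≤ 2 ^ j * γ)
    (hD : D = D₁ * 2 ^ j * n) (ha : a = 2 * n + 2 * D) :
    ∃ (C : Finset V) (ν : ℕ), 0 < C.card ∧ Good c g T C ∧
      (∀ x ∈ C, (C.filter (fun y => agree c x y ≤ a)).card ≤ ν) ∧ n + Δ * ν ≤ C.card ∧
      16 * m * (n * C.card + Δ * vp c a C) ≤ D * C.card ^ 2 ∧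
      8 * ∑ p ∈ C ×ˢ C, psi c 64 a p.1 p.2 ≤ (C.card : ℝ) ^ 2 := by
  have hN0 : 0 < Fintype.card V := by omega
  have hNR0 : (0 : ℝ) < Fintype.card V := by exact_mod_cast hN0
  have hnR : (0 : ℝ) < n := by exact_mod_cast hn1
  have hmN : (m : ℝ) ≤ Fintype.card V := by
    have : m ≤ Fintype.card V := by omega
    exact_mod_cast this
  have hj1R : (16 : ℝ) ^ j * n ≤ m := by exact_mod_cast hj1
  have hj2R : (m : ℝ) ≤ 16 ^ (j + 1) * n := by exact_mod_cast hj2.le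
  have hNn : (16 : ℝ) ^ j * n ≤ Fintype.card V := hj1R.trans hmN
  have ha0 : 0 < a := by omega
  have haR : (a : ℝ) = 2 * n + 2 * (D₁ * 2 ^ j * n) := by rw [ha, hD]; push_cast; ring
  have hz := aN_small j n D₁ (Fintype.card V) a hD₁1 hnR q1 hNn haR
  obtain ⟨η, hη⟩ : ∃ η : ℝ, η = 2 * (4 * (a : ℝ) / Fintype.card V) ^ (j + 2) := ⟨_, rfl⟩
  have hη0 : 0 ≤ η := by rw [hη]; positivity
  have hcruc := crucial j B Δ η (4 * (a : ℝ) / Fintype.card V) γ (Nat.cast_nonneg _)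
    (by positivity) hz hη hΔR hjB q2
  obtain ⟨V₂, V₃, hV₃V₂, hV₃pos, hV₃c, hV₂c, hvp, hψ, hfew⟩ := split_clean c hN0 a j ha0 η hη
  obtain ⟨C, hCV₃, hC1, hgood⟩ := hcell V c hN0 V₃ (Finset.card_pos.1 hV₃pos)
  have hCV₂ : C ⊆ V₂ := hCV₃.trans hV₃V₂
  have hV₃R : (0 : ℝ) < V₃.card := by exact_mod_cast hV₃pos
  have hCR0 : (0 : ℝ) < C.card := lt_of_lt_of_le (by positivity) hC1
  have hC0 : 0 < C.card := by exact_mod_cast hCR0
  have hNV₂ : (Fintype.card V : ℝ) ≤ 2 ^ (j + 2) * V₂.card := by exact_mod_cast hV₂c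
  have hV₂R : (0 : ℝ) ≤ V₂.card := Nat.cast_nonneg _
  have hC2 : γ / 2 * V₂.card ≤ C.card := by
    calc γ / 2 * (V₂.card : ℝ) ≤ γ / 2 * (2 * V₃.card) := by gcongr
      _ = γ * V₃.card := by ring
      _ ≤ _ := hC1
  have hCN : γ * Fintype.card V ≤ 2 ^ (j + 3) * C.card := by
    calc γ * (Fintype.card V : ℝ) ≤ γ * (2 ^ (j + 2) * V₂.card) := by gcongr
      _ = 2 ^ (j + 3) * (γ / 2 * V₂.card) := by rw [pow_succ 2 (j + 2)]; ring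
      _ ≤ _ := by gcongr
  have hV₂C : (V₂.card : ℝ) ^ 2 ≤ 4 / γ ^ 2 * (C.card : ℝ) ^ 2 := by
    have h1 : (γ / 2 * V₂.card) ^ 2 ≤ (C.card : ℝ) ^ 2 := by gcongr
    calc (V₂.card : ℝ) ^ 2 = 4 / γ ^ 2 * (γ / 2 * V₂.card) ^ 2 := by field_simp; ring
      _ ≤ _ := by gcongr
  obtain ⟨ν, hν⟩ : ∃ ν : ℕ, ν = ⌊2 * η * V₂.card⌋₊ := ⟨_, rfl⟩
  have hνR : (ν : ℝ) ≤ 2 * η * V₂.card := by rw [hν]; exact Nat.floor_le (by positivity)
  have hn2 := n_real j n (Fintype.card V) C.card γ hnR.le hNn hγ0 hCN q3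
  refine ⟨C, ν, hC0, hgood, ?_, ?_, ?_, ?_⟩
  · intro x hx
    have h1 := hfew x (hCV₃ hx)
    rw [hν]
    apply Nat.le_floor
    refine le_trans ?_ h1
    exact_mod_cast Finset.card_le_card (Finset.filter_subset_filter _ hCV₂)
  · have h1 := room_real j n C.card V₂.card Δ ν η γ hn2 (Nat.cast_nonneg _) hνR hV₂R hη0 hγ0
      hγ1 hC2 hcruc
    exact_mod_cast h1
  · have h2 : (vp c a C : ℝ) ≤ η * (V₂.card : ℝ) ^ 2 := by
      have : vp c a C ≤ vp c a V₂ := by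
        unfold vp
        apply Finset.card_le_card
        apply Finset.filter_subset_filter
        exact Finset.product_subset_product hCV₂ hCV₂
      have h3 : (vp c a C : ℝ) ≤ vp c a V₂ := by exact_mod_cast this
      exact h3.trans hvp
    have h1 := m_real j m n (Fintype.card V) C.card V₂.card Δ (vp c a C) D γ η D₁ h2 hV₂C hCN
      hmN (Nat.cast_nonneg _) hnR.le hCR0.le (Nat.cast_nonneg _) hη0 (Nat.cast_nonneg _) hj2R
      (by rw [hD]; push_cast; ring) hD₁ hD₁1 hγ0 hcruc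
    exact_mod_cast h1
  · have h1 : ∑ p ∈ C ×ˢ C, psi c 64 a p.1 p.2 ≤ ∑ p ∈ V₂ ×ˢ V₂, psi c 64 a p.1 p.2 := by
      apply Finset.sum_le_sum_of_subset_of_nonneg
      · exact Finset.product_subset_product hCV₂ hCV₂
      · intro p _ _; exact psi_nonneg _ _ _ _ _
    have h2 := w_real j _ _ _ _ γ hψ hNV₂ hNR0.le hV₂C hγ0 q2
    linarith

end Cell

section Final

theorem main_sparse (B : ℕ) : ∃ K₂ : ℕ, ∀ n : ℕ, 1 ≤ n →
    ∀ E : Finset (Fin n × Fin n), (∀ e ∈ E, e.1 < e.2) → K₂ * n ≤ E.card →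
    ∀ Δ : ℕ, (∀ v, (Nb E v).card ≤ Δ) → Δ * n ^ B ≤ E.card ^ B →
    ∀ (V : Type) [Fintype V] [DecidableEq V] (c : V → V → Bool), Fintype.card V = E.card + n →
    ∃ φ : Fin n → V, Function.Injective φ ∧ ∃ ψ : E → V, Function.Injective ψ ∧
      ∀ e : E, (∀ u, ψ e ≠ φ u) ∧ c (ψ e) (φ e.1.1) = c (ψ e) (φ e.1.2) := by
  obtain ⟨K₁, hK₁⟩ := main
  obtain ⟨g, γ, T, hg, hg0, hγ0, hγ1, hcell⟩ := cell_exists
  obtain ⟨D₁, hD₁⟩ : ∃ D₁ : ℕ, 256 ≤ D₁ * γ := by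
    refine ⟨⌈256 / γ⌉₊, ?_⟩
    have h1 : 256 / γ ≤ (⌈256 / γ⌉₊ : ℝ) := Nat.le_ceil _
    rwa [div_le_iff₀ hγ0] at h1
  have hD₁R : (256 : ℝ) ≤ D₁ := by nlinarith [Nat.cast_nonneg (α := ℝ) D₁]
  obtain ⟨j₀, hj₀⟩ : ∃ j₀ : ℕ, 256 * (D₁ : ℝ) + 1024 / γ ^ 2 + 16 / γ < 2 ^ j₀ :=
    pow_unbounded_of_one_lt _ (by norm_num)
  obtain ⟨l₀, hl₀⟩ := ev_log (1024 * (2 * T + 6) * K₁ ^ B) (B + 1)
  refine ⟨16 ^ (j₀ + 4 * B + 5) + K₁ * (l₀ + 1) + 1, ?_⟩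
  intro n hn1 E hE hm Δ hΔ hΔB V _ _ c hcard
  obtain ⟨lam, hlam⟩ : ∃ lam : ℕ, lam = Nat.log 2 n + 1 := ⟨_, rfl⟩
  rcases Nat.lt_or_ge E.card (K₁ * n * (Nat.log 2 n + 1)) with hlt | hge
  swap
  · exact hK₁ n hn1 E hE hge V c hcard
  rw [← hlam] at hlt
  have hnlam : n < 2 ^ lam := by
    rw [hlam]; exact Nat.lt_pow_succ_log_self (by norm_num) n
  have hlam1 : 1 ≤ lam := by omega
  have hmul : ∀ x y z n m : ℕ, (x + y + z) * n ≤ m → x * n ≤ m ∧ y * n ≤ m ∧ z * n ≤ m := by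
    intro x y z n m h
    have e1 : (x + y + z) * n = x * n + y * n + z * n := by ring
    rw [e1] at h
    refine ⟨?_, ?_, ?_⟩ <;> omega
  obtain ⟨hm1, hm2, hm3⟩ := hmul _ _ _ _ _ hm
  rw [one_mul] at hm3
  have hE0 : 0 < E.card := by omega
  -- `lam` is large
  have hlam2 : l₀ ≤ lam := by
    by_contra h
    push Not at h
    have h1 : K₁ * (l₀ + 1) * n < K₁ * n * lam := lt_of_le_of_lt hm2 hlt
    have h2 : K₁ * n * lam ≤ K₁ * (l₀ + 1) * n := by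
      calc K₁ * n * lam ≤ K₁ * n * (l₀ + 1) := Nat.mul_le_mul_left _ (by omega)
        _ = _ := by ring
    omega
  -- the exponent
  obtain ⟨j, hj⟩ : ∃ j : ℕ, j = Nat.log 16 (E.card / n) := ⟨_, rfl⟩
  have hfpos : 16 ^ (j₀ + 4 * B + 5) ≤ E.card / n := by
    rw [Nat.le_div_iff_mul_le (by omega)]; exact hm1
  have hjj₀ : j₀ + 4 * B + 5 ≤ j := by
    rw [hj]
    exact Nat.le_log_of_pow_le (by norm_num) hfpos
  have hj1 : 16 ^ j * n ≤ E.card := by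
    have h1 : 16 ^ j ≤ E.card / n := by
      rw [hj]
      apply Nat.pow_log_le_self
      have : 0 < 16 ^ (j₀ + 4 * B + 5) := by positivity
      omega
    calc 16 ^ j * n ≤ E.card / n * n := Nat.mul_le_mul_right _ h1
      _ ≤ _ := Nat.div_mul_le_self _ _
  have hj2 : E.card < 16 ^ (j + 1) * n := by
    have h1 : E.card / n < 16 ^ (j + 1) := by
      rw [hj]; exact Nat.lt_pow_succ_log_self (by norm_num) _
    have h2 : E.card < n * (E.card / n + 1) := Nat.lt_mul_div_succ _ (by omega)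
    calc E.card < n * (E.card / n + 1) := h2
      _ ≤ n * 16 ^ (j + 1) := Nat.mul_le_mul_left _ h1
      _ = _ := mul_comm _ _
  have hnR : (1 : ℝ) ≤ n := by exact_mod_cast hn1
  have hn0 : (0 : ℝ) < n := by linarith
  have h2j : 256 * (D₁ : ℝ) + 1024 / γ ^ 2 + 16 / γ ≤ 2 ^ j := by
    refine hj₀.le.trans ?_
    exact pow_le_pow_right₀ (by norm_num) (by omega)
  have hpos1 : (0 : ℝ) ≤ 1024 / γ ^ 2 := by positivity
  have hpos2 : (0 : ℝ) ≤ 16 / γ := by positivity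
  have hpos3 : (0 : ℝ) ≤ 256 * D₁ := by positivity
  have q1 : 256 * (D₁ : ℝ) ≤ 2 ^ j := by linarith
  have q2 : 1024 ≤ 2 ^ j * γ ^ 2 := by
    have : 1024 / γ ^ 2 ≤ (2 : ℝ) ^ j := by linarith
    rwa [div_le_iff₀ (by positivity)] at this
  have q3 : 16 ≤ 2 ^ j * γ := by
    have : 16 / γ ≤ (2 : ℝ) ^ j := by linarith
    rwa [div_le_iff₀ (by positivity)] at this
  obtain ⟨D, hD⟩ : ∃ D : ℕ, D = D₁ * 2 ^ j * n := ⟨_, rfl⟩
  obtain ⟨a, ha⟩ : ∃ a : ℕ, a = 2 * n + 2 * D := ⟨_, rfl⟩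
  -- the degree
  have hΔ1 : 1 ≤ Δ := by
    obtain ⟨e, he⟩ := Finset.card_pos.1 hE0
    refine le_trans ?_ (hΔ e.1)
    apply Finset.card_pos.2
    refine ⟨e.2, ?_⟩
    rw [Nb, Finset.mem_filter]
    exact ⟨Finset.mem_univ _, Or.inr he⟩
  obtain ⟨Δ', hΔ'1, hΔ'2, hΔ'3, hΔ'4⟩ : ∃ Δ' : ℕ, Δ' ≤ Δ ∧ Δ' ≤ n ∧ (∀ v, (Nb E v).card ≤ Δ') ∧
      1 ≤ Δ' := by
    refine ⟨min Δ n, min_le_left _ _, min_le_right _ _, ?_, ?_⟩
    · intro v
      apply le_min (hΔ v)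
      exact (Finset.card_le_univ _).trans (by rw [Fintype.card_fin])
    · omega
  have hΔR : (Δ' : ℝ) ≤ 16 ^ ((j + 1) * B) := by
    have h0 : (Δ' : ℝ) ≤ Δ := by exact_mod_cast hΔ'1
    have hj2R : (E.card : ℝ) ≤ 16 ^ (j + 1) * n := by exact_mod_cast hj2.le
    have h1 : (Δ : ℝ) * (n : ℝ) ^ B ≤ (E.card : ℝ) ^ B := by exact_mod_cast hΔB
    have h2 : (E.card : ℝ) ^ B ≤ (16 ^ (j + 1) * n) ^ B := by gcongr
    have h3 : (Δ : ℝ) * (n : ℝ) ^ B ≤ 16 ^ ((j + 1) * B) * (n : ℝ) ^ B := by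
      calc (Δ : ℝ) * (n : ℝ) ^ B ≤ (16 ^ (j + 1) * n) ^ B := h1.trans h2
        _ = _ := by rw [mul_pow, ← pow_mul]
    exact h0.trans (le_of_mul_le_mul_right h3 (by positivity))
  obtain ⟨C, ν, hC0, hgood, hν, hroom, hmoved, hψ⟩ := sparse_cell B g γ T D₁ hγ0 hγ1 hcell hD₁
    (by linarith) c n E.card Δ' j a D hn1 hE0 hcard hj1 hj2 (by omega) hΔR q1 q2 q3 hD ha
  obtain ⟨col, hcol, hcolq⟩ := greedy_col E hE Δ' hΔ'3
  obtain ⟨k', hk'⟩ : ∃ k' : ℕ, k' = E.card / (1024 * Δ') := ⟨_, rfl⟩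
  have hk'1 : 1024 * Δ' * k' ≤ E.card := by
    rw [hk']; exact Nat.mul_div_le _ _
  have hk'2 : (2 * T + 6) * lam ≤ k' := by
    rw [hk', Nat.le_div_iff_mul_le (by omega)]
    have h1 : Δ' * n ^ B ≤ (K₁ * lam) ^ B * n ^ B := by
      calc Δ' * n ^ B ≤ Δ * n ^ B := Nat.mul_le_mul_right _ hΔ'1
        _ ≤ E.card ^ B := hΔB
        _ ≤ (K₁ * n * lam) ^ B := Nat.pow_le_pow_left hlt.le _
        _ = _ := by rw [← mul_pow]; ring
    have h2 : Δ' ≤ (K₁ * lam) ^ B := Nat.le_of_mul_le_mul_right h1 (by positivity)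
    have h3 := hl₀ lam hlam2
    have h4 : 2 ^ (lam - 1) ≤ n := by
      rw [hlam]
      exact Nat.pow_log_le_self 2 (by omega)
    calc (2 * T + 6) * lam * (1024 * Δ') ≤ (2 * T + 6) * lam * (1024 * (K₁ * lam) ^ B) := by
          gcongr
      _ = 1024 * (2 * T + 6) * K₁ ^ B * lam ^ (B + 1) := by rw [mul_pow, pow_succ lam B]; ring
      _ ≤ 2 ^ (lam - 1) := h3
      _ ≤ n := h4
      _ ≤ E.card := hm3
  have hk'6 : 6 ≤ k' := by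
    refine le_trans ?_ hk'2
    nlinarith
  have hNpow : Fintype.card V + 1 ≤ 2 ^ (2 * lam) := by
    have hEn : E.card + n ≤ n ^ 2 := by
      have hsub : E ⊆ (univ : Finset (Fin n)).offDiag := by
        intro e he
        rw [Finset.mem_offDiag]
        exact ⟨Finset.mem_univ _, Finset.mem_univ _, (hE e he).ne⟩
      have h1 := Finset.card_le_card hsub
      rw [Finset.offDiag_card, Finset.card_univ, Fintype.card_fin] at h1
      have h2 : n ≤ n * n := Nat.le_mul_self n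
      rw [sq]
      omega
    have h1 : n ^ 2 < 2 ^ (2 * lam) := by
      calc n ^ 2 < (2 ^ lam) ^ 2 := Nat.pow_lt_pow_left hnlam (by norm_num)
        _ = 2 ^ (2 * lam) := by rw [← pow_mul, mul_comm]
    omega
  obtain ⟨ht1, ht2⟩ := thresholds (Fintype.card V) n Δ' T lam k' hNpow hnlam hΔ'2 hlam1 hk'2
  have hDE : 4 * 64 * D ≤ E.card := by
    have h1 : (4 : ℝ) * 64 * D ≤ E.card :=
      D_real j E.card n D D₁ hn0.le (by rw [hD]; push_cast; ring) q1 (by exact_mod_cast hj1)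
    exact_mod_cast h1
  have h12 : 12 * (2 * Δ') ≤ E.card := by
    have h1 : 1024 * Δ' * 6 ≤ 1024 * Δ' * k' := Nat.mul_le_mul_left _ hk'6
    omega
  have h8 : 8 * 64 * (2 * Δ') * k' ≤ E.card := by
    refine le_trans (le_of_eq ?_) hk'1
    ring
  exact branch c n 64 a Δ' ν D T 512 (2 * Δ') k' g (1 / 512) E hE hE0
    col hcol hcolq hΔ'3 C hC0 hν hroom hg0.le hg
    (by norm_num) (by norm_num) (by norm_num) (by norm_num) hmoved ht1 ht2 hψ hcard hm3 h8 h12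
    hDE ha.ge hgood

end Final

end Pool.Agent.W5h9.LogSub
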