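import Mathlib

/-! Helper file: zero-sum cycles in complete graphs weighted by a finite cyclic group. -/

namespace Pool.Agent.W5h9.DivSub

open Finset

section Sums

variable {G : Type} [AddCommGroup G]

/-- Weight of a path given by its list of consecutive vertices. -/
def pw {V : Type} (ω : V → V → G) : List V → G
  | x :: y :: l => ω x y + pw ω (y :: l)
  | _ => 0

lemma pw_range' {V : Type} (ω : V → V → G) (v : ℕ → V) (n : ℕ) : ∀ a : ℕ,
    pw ω ((List.range' a (n + 1)).map v)
      = ∑ i ∈ range n, ω (v (a + i)) (v (a + i + 1)) := by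
  induction n with
  | zero => intro a; simp [pw, List.range'_succ]
  | succ n ih =>
    intro a
    have h := ih (a + 1)
    rw [List.range'_succ, List.range'_succ]
    rw [List.range'_succ] at h
    rw [List.map_cons, List.map_cons]
    rw [List.map_cons] at h
    rw [pw, h, Finset.sum_range_succ']
    rw [add_comm]
    congr 1
    apply Finset.sum_congr rfl
    intro i _
    congr 2 <;> ring

/-- Subset sums of a list over a base set `B`. -/
def ssF (B : Set G) : List G → Set G
  | [] => B
  | d :: l => {g | g ∈ ssF B l ∨ g - d ∈ ssF B l}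

/-- The stabilizer of a set. -/
def stab (S : Set G) : AddSubgroup G where
  carrier := {h | ∀ g, g ∈ S ↔ g + h ∈ S}
  zero_mem' := by intro g; simp
  add_mem' := by
    intro a b ha hb g
    rw [ha g, hb (g + a), add_assoc]
  neg_mem' := by
    intro a ha g
    have := ha (g + -a)
    rw [neg_add_cancel_right] at this
    exact this.symm

lemma mem_stab {S : Set G} {h : G} : h ∈ stab S ↔ ∀ g, g ∈ S ↔ g + h ∈ S := Iff.rfl

lemma mem_stab_of_forall [Finite G] {S : Set G} {h : G} (H : ∀ g ∈ S, g + h ∈ S) :
    h ∈ stab S := by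
  have hsub : (fun g => g + h) '' S ⊆ S := by
    rintro _ ⟨g, hg, rfl⟩
    exact H g hg
  have hinj : Function.Injective (fun g : G => g + h) := add_left_injective h
  have heq : (fun g => g + h) '' S = S := by
    apply Set.eq_of_subset_of_ncard_le hsub
    rw [Set.ncard_image_of_injective _ hinj]
  rw [mem_stab]
  intro g
  constructor
  · exact H g
  · intro hg
    rw [← heq] at hg
    obtain ⟨g', hg', e⟩ := hg
    have : g' = g := hinj e
    rwa [this] at hg'

lemma subset_ssF (B : Set G) (d : G) (l : List G) : ssF B l ⊆ ssF B (d :: l) :=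
  fun _ h => Or.inl h

lemma add_mem_ssF {B : Set G} {d : G} {l : List G} {g : G} (h : g ∈ ssF B l) :
    g + d ∈ ssF B (d :: l) := by
  right
  simpa using h

lemma stab_le_cons (B : Set G) (d : G) (l : List G) : stab (ssF B l) ≤ stab (ssF B (d :: l)) := by
  intro h hh
  rw [mem_stab] at hh ⊢
  intro g
  have h1 := hh g
  have h2 := hh (g - d)
  show (g ∈ ssF B l ∨ g - d ∈ ssF B l) ↔ (g + h ∈ ssF B l ∨ g + h - d ∈ ssF B l)
  rw [h1, h2, sub_add_eq_add_sub]

lemma ssF_append (B : Set G) (l₁ l₂ : List G) : ssF B (l₁ ++ l₂) = ssF (ssF B l₂) l₁ := by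
  induction l₁ with
  | nil => rfl
  | cons d l ih =>
    show {g | g ∈ ssF B (l ++ l₂) ∨ g - d ∈ ssF B (l ++ l₂)} = _
    rw [ih]; rfl

lemma ssF_perm (B : Set G) {l₁ l₂ : List G} (h : l₁.Perm l₂) : ssF B l₁ = ssF B l₂ := by
  induction h with
  | nil => rfl
  | cons x _ ih => 
    show {g | _ ∨ _} = {g | _ ∨ _}
    rw [ih]
  | swap x y l =>
    ext g
    show ((g ∈ ssF B l ∨ g - x ∈ ssF B l) ∨ (g - y ∈ ssF B l ∨ g - y - x ∈ ssF B l)) ↔
      ((g ∈ ssF B l ∨ g - y ∈ ssF B l) ∨ (g - x ∈ ssF B l ∨ g - x - y ∈ ssF B l))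
    rw [sub_right_comm]
    tauto
  | trans _ _ ih1 ih2 => rw [ih1, ih2]

lemma stab_le_append (B : Set G) (l₁ l₂ : List G) :
    stab (ssF B l₂) ≤ stab (ssF B (l₁ ++ l₂)) := by
  induction l₁ with
  | nil => exact le_rfl
  | cons d l ih => exact ih.trans (stab_le_cons B d (l ++ l₂))

lemma stab_le_sublist (B : Set G) {l₁ l : List G} (h : l₁.Sublist l) :
    stab (ssF B l₁) ≤ stab (ssF B l) := by
  obtain ⟨l₂, hp⟩ := h.exists_perm_append
  rw [ssF_perm B (hp.trans List.perm_append_comm)]
  exact stab_le_append B l₂ l₁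

/-- `addK K B` is the union of the cosets of `K` meeting `B`. -/
def addK (K : AddSubgroup G) (B : Set G) : Set G := {g | ∃ k ∈ K, g - k ∈ B}

lemma ssF_addK (K : AddSubgroup G) (B : Set G) (l : List G) :
    ssF (addK K B) l = addK K (ssF B l) := by
  induction l with
  | nil => rfl
  | cons d l ih =>
    ext g
    show (g ∈ ssF (addK K B) l ∨ g - d ∈ ssF (addK K B) l) ↔
      ∃ k ∈ K, (g - k ∈ ssF B l ∨ g - k - d ∈ ssF B l)
    rw [ih]
    constructor
    · rintro (⟨k, hk, h⟩ | ⟨k, hk, h⟩)
      · exact ⟨k, hk, Or.inl h⟩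
      · exact ⟨k, hk, Or.inr (by rwa [sub_right_comm])⟩
    · rintro ⟨k, hk, h | h⟩
      · exact Or.inl ⟨k, hk, h⟩
      · exact Or.inr ⟨k, hk, by rwa [sub_right_comm] at h⟩

/-- A list each of whose elements enlarges the set of subset sums of the later ones. -/
def Good : List G → Prop
  | [] => True
  | d :: l => Good l ∧ d ∉ stab (ssF {0} l)

lemma ssF_lt [Finite G] {B : Set G} {d : G} {l : List G} (h : d ∉ stab (ssF B l)) :
    (ssF B l).ncard + 1 ≤ (ssF B (d :: l)).ncard := by
  apply Nat.succ_le_of_lt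
  refine Set.ncard_lt_ncard ?_ (Set.toFinite _)
  refine ⟨subset_ssF B d l, fun hsub => h ?_⟩
  apply mem_stab_of_forall
  intro g hg
  exact hsub (add_mem_ssF hg)

lemma good_card [Finite G] {l : List G} (h : Good l) : l.length + 1 ≤ (ssF {0} l).ncard := by
  induction l with
  | nil => simp [ssF]
  | cons d l ih =>
    have h1 := ih h.1
    have h2 := ssF_lt h.2
    simp only [List.length_cons]
    omega

lemma zero_mem_ssF {B : Set G} (hB : (0 : G) ∈ B) (l : List G) : (0 : G) ∈ ssF B l := by
  induction l with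
  | nil => exact hB
  | cons d l ih => exact Or.inl ih

lemma ssF_subset_subgroup (K : AddSubgroup G) {B : Set G} (hB : B ⊆ K) {l : List G}
    (h : ∀ d ∈ l, d ∈ K) : ssF B l ⊆ K := by
  induction l with
  | nil => exact hB
  | cons d l ih =>
    have ih' := ih (fun x hx => h x (List.mem_cons_of_mem _ hx))
    have hd := h d List.mem_cons_self
    rintro g (hg | hg)
    · exact ih' hg
    · have := K.add_mem (ih' hg) hd
      simpa using this

open Classical in
lemma good_filter [Finite G] (K : AddSubgroup G) {l : List G} (h : Good l) :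
    (l.filter (· ∈ K)).length + 1 ≤ (ssF {0} (l.filter (· ∈ K))).ncard := by
  induction l with
  | nil => simp [ssF]
  | cons d l ih =>
    have h1 := ih h.1
    by_cases hd : d ∈ K
    · rw [List.filter_cons_of_pos (by simpa using hd)]
      have h2 : d ∉ stab (ssF {0} (l.filter (· ∈ K))) := fun hh =>
        h.2 (stab_le_sublist {0} List.filter_sublist hh)
      have h3 := ssF_lt h2
      simp only [List.length_cons]
      omega
    · rw [List.filter_cons_of_neg (by simpa using hd)]
      exact h1

open Classical in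
lemma count_in [Finite G] (K : AddSubgroup G) {l : List G} (h : Good l) :
    (l.filter (· ∈ K)).length + 1 ≤ Nat.card K := by
  refine (good_filter K h).trans ?_
  have : ssF {0} (l.filter (· ∈ K)) ⊆ (K : Set G) := by
    apply ssF_subset_subgroup
    · intro x hx
      rw [Set.mem_singleton_iff] at hx
      rw [hx]; exact K.zero_mem
    · intro d hd
      simpa using (List.mem_filter.1 hd).2
  have h2 := Set.ncard_le_ncard this (Set.toFinite _)
  rwa [← Nat.card_coe_set_eq (K : Set G)] at h2

lemma periodic_ncard [Finite G] (K : AddSubgroup G) {S : Set G} (hS : K ≤ stab S)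
    (hne : S.Nonempty) : Nat.card K ≤ S.ncard := by
  obtain ⟨g, hg⟩ := hne
  have : (fun k => g + k) '' (K : Set G) ⊆ S := by
    rintro _ ⟨k, hk, rfl⟩
    exact (mem_stab.1 (hS hk) g).1 hg
  have h1 := Set.ncard_le_ncard this (Set.toFinite _)
  rw [Set.ncard_image_of_injective _ (add_right_injective g)] at h1
  rwa [← Nat.card_coe_set_eq (K : Set G)] at h1

lemma diff_stab {K : AddSubgroup G} {S T : Set G} (hS : K ≤ stab S) (hT : K ≤ stab T) :
    K ≤ stab (S \ T) := by
  intro k hk
  rw [mem_stab]
  intro g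
  have h1 := mem_stab.1 (hS hk) g
  have h2 := mem_stab.1 (hT hk) g
  simp only [Set.mem_sdiff, h1, h2]

lemma stab_subgroup_le (K : AddSubgroup G) : K ≤ stab (K : Set G) := by
  intro k hk
  rw [mem_stab]
  intro g
  exact ⟨fun hg => K.add_mem hg hk, fun hg => by
    have := K.sub_mem hg hk
    simpa using this⟩

lemma K_le_stab_ssF (K : AddSubgroup G) (l : List G) : K ≤ stab (ssF (K : Set G) l) := by
  induction l with
  | nil => exact stab_subgroup_le K
  | cons d l ih => exact ih.trans (stab_le_cons _ d l)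

lemma count_out_aux [Finite G] (K : AddSubgroup G) : ∀ {l : List G},
    (∀ d ∈ l, d ∉ stab (ssF (K : Set G) l)) →
    Nat.card K * (l.length + 1) ≤ (ssF (K : Set G) l).ncard := by
  intro l
  induction l with
  | nil =>
    intro _
    show Nat.card K * 1 ≤ (K : Set G).ncard
    rw [mul_one, ← Nat.card_coe_set_eq (K : Set G)]
    exact le_rfl
  | cons d l ih =>
    intro h
    have hd : d ∉ stab (ssF (K : Set G) l) := fun hh =>
      h d List.mem_cons_self (stab_le_cons _ d l hh)
    have h1 := ih (fun x hx hh => h x (List.mem_cons_of_mem _ hx) (stab_le_cons _ d l hh))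
    have hsub := subset_ssF (K : Set G) d l
    have hne : (ssF (K : Set G) (d :: l) \ ssF (K : Set G) l).Nonempty := by
      rw [Set.nonempty_iff_ne_empty]
      intro he
      rw [Set.sdiff_eq_empty] at he
      exact hd (mem_stab_of_forall fun g hg => he (add_mem_ssF hg))
    have h2 := periodic_ncard K (diff_stab (K_le_stab_ssF K (d :: l)) (K_le_stab_ssF K l)) hne
    have h3 := Set.ncard_sdiff_add_ncard_of_subset hsub (Set.toFinite _)
    simp only [List.length_cons]
    nlinarith

open Classical in
/-- Number of elements outside the stabilizer. -/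
lemma count_out [Finite G] {l : List G} (K : AddSubgroup G) (hK : K = stab (ssF {0} l)) :
    Nat.card K * ((l.filter (¬ · ∈ K)).length + 1) ≤ (ssF {0} l).ncard := by
  have hperm : (l.filter (¬ · ∈ K) ++ l.filter (· ∈ K)).Perm l := by
    have := List.filter_append_perm (fun x => decide (x ∈ K)) l
    refine List.perm_append_comm.trans ?_
    simpa using this
  have hK2 : addK K (ssF {0} (l.filter (· ∈ K))) = (K : Set G) := by
    have hsub : ssF {0} (l.filter (· ∈ K)) ⊆ (K : Set G) := by
      apply ssF_subset_subgroup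
      · intro x hx
        rw [Set.mem_singleton_iff] at hx
        rw [hx]; exact K.zero_mem
      · intro d hd
        simpa using (List.mem_filter.1 hd).2
    ext g
    constructor
    · rintro ⟨k, hk, h⟩
      have := K.add_mem (hsub h) hk
      simpa using this
    · intro hg
      refine ⟨g, hg, ?_⟩
      rw [sub_self]
      exact zero_mem_ssF (Set.mem_singleton (0 : G)) _
  have hS : ssF (K : Set G) (l.filter (¬ · ∈ K)) = ssF ({0} : Set G) l := by
    rw [← hK2, ssF_addK, ← ssF_append, ssF_perm _ hperm]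
    ext g
    constructor
    · rintro ⟨k, hk, h⟩
      rw [hK] at hk
      have := (mem_stab.1 hk (g - k)).1 h
      simpa using this
    · intro h
      exact ⟨0, K.zero_mem, by simpa using h⟩
  rw [← hS]
  apply count_out_aux
  intro d hd hh
  rw [hS, ← hK] at hh
  have := (List.mem_filter.1 hd).2
  simp only [decide_not, Bool.not_eq_eq_eq_not, Bool.not_true, decide_eq_false_iff_not] at this
  exact this hh

open Classical in
/-- The numerical outcome of the greedy argument. -/
lemma greedy_count [Finite G] {l : List G} (hl : Good l) (K : AddSubgroup G)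
    (hK : K = stab (ssF {0} l)) (hne : ssF {0} l ≠ Set.univ) :
    ∃ t₁ t₂ : ℕ, l.length = t₁ + t₂ ∧ t₂ + 1 ≤ Nat.card K ∧
      Nat.card K * (t₁ + 2) ≤ Nat.card G ∧ ((∃ d ∈ l, d ∉ K) → 1 ≤ t₁) := by
  refine ⟨(l.filter (¬ · ∈ K)).length, (l.filter (· ∈ K)).length, ?_, count_in K hl, ?_, ?_⟩
  · have := (List.filter_append_perm (fun x => decide (x ∈ K)) l).length_eq
    rw [List.length_append] at this
    rw [← this, add_comm]
    simp
  · have h1 := count_out K hK
    have h2 : Nat.card K ≤ (ssF {0} l)ᶜ.ncard := by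
      apply periodic_ncard
      · intro k hk
        rw [hK] at hk
        rw [mem_stab]
        intro g
        rw [Set.mem_compl_iff, Set.mem_compl_iff, mem_stab.1 hk g]
      · rwa [Set.nonempty_compl]
    have h3 := Set.ncard_add_ncard_compl (ssF {0} l) (Set.toFinite _) (Set.toFinite _)
    nlinarith
  · rintro ⟨d, hd, hdK⟩
    apply List.length_pos_of_mem (a := d)
    rw [List.mem_filter]
    exact ⟨hd, by simpa using hdK⟩

end Sums

section Cyclic

variable {G : Type} [AddCommGroup G] [IsAddCyclic G]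

/-- In a cyclic group two elements of order two modulo a subgroup agree modulo it. -/
lemma two_torsion (K : AddSubgroup G) {x y : G} (hx : x + x ∈ K) (hy : y + y ∈ K)
    (hx' : x ∉ K) (hy' : y ∉ K) : x - y ∈ K := by
  obtain ⟨g, hg⟩ := IsAddCyclic.exists_generator (α := G)
  obtain ⟨i, rfl⟩ := AddSubgroup.mem_zmultiples_iff.1 (hg x)
  obtain ⟨j, rfl⟩ := AddSubgroup.mem_zmultiples_iff.1 (hg y)
  obtain ⟨d, hd⟩ := Int.subgroup_cyclic (K.comap (zmultiplesHom G g))
  have key : ∀ n : ℤ, n • g ∈ K ↔ d ∣ n := by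
    intro n
    have : n • g ∈ K ↔ n ∈ K.comap (zmultiplesHom G g) := by
      rw [AddSubgroup.mem_comap]; simp
    rw [this, hd, ← AddSubgroup.zmultiples_eq_closure, Int.mem_zmultiples_iff]
  rw [key] at hx' hy'
  rw [← add_smul, key] at hx hy
  rw [← sub_smul, key]
  obtain ⟨a, ha⟩ := hx
  obtain ⟨b, hb⟩ := hy
  rcases Int.even_or_odd a with ⟨a', rfl⟩ | ⟨a', rfl⟩
  · exact absurd ⟨a', by linarith [mul_add d a' a']⟩ hx'
  rcases Int.even_or_odd b with ⟨b', rfl⟩ | ⟨b', rfl⟩
  · exact absurd ⟨b', by linarith [mul_add d b' b']⟩ hy'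
  refine ⟨a' - b', ?_⟩
  have : 2 * (i - j) = 2 * (d * (a' - b')) := by
    have e1 : 2 * i = i + i := by ring
    have e2 : 2 * j = j + j := by ring
    rw [mul_sub, e1, e2, ha, hb]; ring
  linarith

/-- Two subgroups of index two of a cyclic group have the same elements. -/
lemma index_two_unique (E K : AddSubgroup G) (hE : E.index = 2) (hK : K.index = 2) {x : G}
    (hx : x ∉ E) : x ∉ K := by
  intro hxK
  obtain ⟨g, hg⟩ := IsAddCyclic.exists_generator (α := G)
  obtain ⟨i, rfl⟩ := AddSubgroup.mem_zmultiples_iff.1 (hg x)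
  have h2E : g + g ∈ E := AddSubgroup.add_self_mem_of_index_two hE g
  have h2K : g + g ∈ K := AddSubgroup.add_self_mem_of_index_two hK g
  rcases Int.even_or_odd i with ⟨j, rfl⟩ | ⟨j, rfl⟩
  · apply hx
    have : (j + j) • g = j • (g + g) := by rw [add_smul, smul_add]
    rw [this]
    exact E.zsmul_mem h2E j
  · have e : (2 * j + 1) • g = j • (g + g) + g := by
      rw [add_smul, one_smul, two_mul, add_smul, smul_add]
    rw [e] at hxK
    have hgK : g ∈ K := by
      have := K.sub_mem hxK (K.zsmul_mem h2K j)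
      rwa [add_sub_cancel_left] at this
    have htop : K = ⊤ := by
      rw [eq_top_iff]
      intro y _
      obtain ⟨n, rfl⟩ := AddSubgroup.mem_zmultiples_iff.1 (hg y)
      exact K.zsmul_mem hgK n
    rw [htop, AddSubgroup.index_top] at hK
    omega

end Cyclic

section Cut

variable {V : Type} {G : Type} [AddCommGroup G]

/-- Effect on the weight of dropping the middle vertex of a triple. -/
def del (ω : V → V → G) (t : V × V × V) : G :=
  ω t.1 t.2.2 - ω t.1 t.2.1 - ω t.2.1 t.2.2

lemma cut [IsAddCyclic G] (ω : V → V → G) (hω : ∀ x y, ω x y = ω y x) (K : AddSubgroup G)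
    (R : Finset V) (hR : 3 ≤ R.card)
    (h : ∀ a ∈ R, ∀ b ∈ R, ∀ c ∈ R, a ≠ b → b ≠ c → a ≠ c → del ω (a, b, c) ∈ K) :
    ∃ R₁ ⊆ R, R.card ≤ 2 * R₁.card ∧ ∀ x ∈ R₁, ∀ y ∈ R₁, x ≠ y → ω x y ∈ K := by
  classical
  have h2 : ∀ b ∈ R, ∀ c ∈ R, b ≠ c → ω b c + ω b c ∈ K := by
    intro b hb c hc hbc
    have hex : ∃ a ∈ R, a ≠ b ∧ a ≠ c := by
      by_contra hcon
      push Not at hcon
      have hsub : R ⊆ {b, c} := by
        intro a ha
        by_cases hab : a = b
        · simp [hab]
        · simp [hcon a ha hab]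
      have := Finset.card_le_card hsub
      have h3 : ({b, c} : Finset V).card ≤ 2 := Finset.card_le_two
      omega
    obtain ⟨a, ha, hab, hac⟩ := hex
    have e1 := h a ha b hb c hc hab hbc hac
    have e2 := h a ha c hc b hb hac hbc.symm hab
    have e3 := K.neg_mem (K.add_mem e1 e2)
    have : -(del ω (a, b, c) + del ω (a, c, b)) = ω b c + ω b c := by
      simp only [del]
      rw [hω c b]
      abel
    rwa [this] at e3
  obtain ⟨a, ha⟩ : R.Nonempty := by
    rw [← Finset.card_pos]; omega
  have hR1 : ∀ x ∈ R, ∀ y ∈ R, x ≠ y → (x = a ∨ ω a x ∈ K) → (y = a ∨ ω a y ∈ K) →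
      ω x y ∈ K := by
    intro x hx y hy hxy h1 h2'
    by_cases hxa : x = a
    · rcases h2' with h | h
      · exact absurd (hxa.trans h.symm) hxy
      · rw [hxa]; exact h
    by_cases hya : y = a
    · rcases h1 with h | h
      · exact absurd h hxa
      · rw [hya, hω]; exact h
    have e1 := h x hx a ha y hy hxa (Ne.symm hya) hxy
    have e2 := h1.resolve_left hxa
    have e3 := h2'.resolve_left hya
    have : ω x y = del ω (x, a, y) + ω a x + ω a y := by
      simp only [del]
      rw [hω x a]; abel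
    rw [this]
    exact K.add_mem (K.add_mem e1 e2) e3
  have hR2 : ∀ x ∈ R, ∀ y ∈ R, x ≠ y → ¬ (x = a ∨ ω a x ∈ K) → ¬ (y = a ∨ ω a y ∈ K) →
      ω x y ∈ K := by
    intro x hx y hy hxy h1 h2'
    push Not at h1 h2'
    have e1 := h x hx a ha y hy h1.1 (Ne.symm h2'.1) hxy
    have e2 := h2 a ha x hx (Ne.symm h1.1)
    have e3 := h2 a ha y hy (Ne.symm h2'.1)
    have e4 := two_torsion K e2 e3 h1.2 h2'.2
    have : ω x y = del ω (x, a, y) + (ω a x - ω a y) + (ω a y + ω a y) := by
      simp only [del]
      rw [hω x a]; abel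
    rw [this]
    exact K.add_mem (K.add_mem e1 e4) e3
  have hcard := Finset.card_filter_add_card_filter_not (s := R) (fun x => x = a ∨ ω a x ∈ K)
  by_cases hc : R.card ≤ 2 * (R.filter (fun x => x = a ∨ ω a x ∈ K)).card
  · refine ⟨_, Finset.filter_subset _ _, hc, ?_⟩
    intro x hx y hy hxy
    rw [Finset.mem_filter] at hx hy
    exact hR1 x hx.1 y hy.1 hxy hx.2 hy.2
  · refine ⟨R.filter (fun x => ¬ (x = a ∨ ω a x ∈ K)), Finset.filter_subset _ _, by omega, ?_⟩
    intro x hx y hy hxy
    rw [Finset.mem_filter] at hx hy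
    exact hR2 x hx.1 y hy.1 hxy hx.2 hy.2

/-- The list of all vertices of a list of triples. -/
def flat (L : List (V × V × V)) : List V := L.flatMap (fun t => [t.1, t.2.1, t.2.2])

lemma flat_cons (t : V × V × V) (L : List (V × V × V)) :
    flat (t :: L) = t.1 :: t.2.1 :: t.2.2 :: flat L := rfl

lemma length_flat (L : List (V × V × V)) : (flat L).length = 3 * L.length := by
  induction L with
  | nil => rfl
  | cons t L ih => rw [flat_cons]; simp only [List.length_cons, ih]; ring

lemma build (ω : V → V → G) : ∀ (L : List (V × V × V)) (g : G),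
    g ∈ ssF {0} (L.map (del ω)) → ∃ l : List V, l.Sublist (flat L) ∧ 2 * L.length ≤ l.length ∧
      ∀ (x : V) (r : List V), pw ω (x :: (l ++ r)) = pw ω (x :: (flat L ++ r)) + g := by
  intro L
  induction L with
  | nil =>
    intro g hg
    have : g = 0 := hg
    exact ⟨[], List.nil_sublist _, by simp, fun x r => by simp [this, flat]⟩
  | cons t L ih =>
    obtain ⟨a, b, c⟩ := t
    rintro g (hg | hg)
    · obtain ⟨l, h1, h2, h3⟩ := ih g hg
      refine ⟨a :: b :: c :: l, ?_, ?_, ?_⟩
      · rw [flat_cons]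
        exact ((h1.cons_cons _).cons_cons _).cons_cons _
      · simp only [List.length_cons]; omega
      · intro x r
        rw [flat_cons]
        simp only [List.cons_append, pw]
        rw [h3 c r]
        abel
    · obtain ⟨l, h1, h2, h3⟩ := ih _ hg
      refine ⟨a :: c :: l, ?_, ?_, ?_⟩
      · rw [flat_cons]
        exact (((h1.cons_cons _).cons _).cons_cons _)
      · simp only [List.length_cons]; omega
      · intro x r
        rw [flat_cons]
        simp only [List.cons_append, pw]
        rw [h3 c r]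
        simp only [del]
        abel

/-- A zero-sum closed sequence of distinct vertices of `R` having `m` places of equal level. -/
def ZC (ω : V → V → G) (R : Finset V) (m : ℕ) : Prop :=
  ∃ (L : ℕ) (v : ℕ → V), (∀ i, v (i + L) = v i) ∧ Set.InjOn v (Set.Iio L) ∧ (∀ i, v i ∈ R) ∧
    (∑ i ∈ range L, ω (v i) (v (i + 1)) = 0) ∧
    ∃ A : Finset ℕ, A ⊆ range L ∧ A.card = m ∧ ∀ i ∈ A, ∀ j ∈ A,
      ∑ k ∈ range i, ω (v k) (v (k + 1)) = ∑ k ∈ range j, ω (v k) (v (k + 1))

lemma zc_of_list [Finite G] (ω : V → V → G) (R : Finset V) (m : ℕ) (hm : 1 ≤ m) (x : V)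
    (C : List V) (hnd : (x :: C).Nodup) (hR : ∀ y ∈ x :: C, y ∈ R)
    (hw : pw ω (x :: (C ++ [x])) = 0) (hlen : Nat.card G * (m - 1) < (x :: C).length) :
    ZC ω R m := by
  classical
  cases nonempty_fintype G
  set l := x :: C with hl
  have hpos : 0 < l.length := by simp [hl]
  let v : ℕ → V := fun i => l[i % l.length]'(Nat.mod_lt _ hpos)
  have hv : ∀ i, v (i + l.length) = v i := by
    intro i
    simp only [v, Nat.add_mod_right]
  have hlist : x :: (C ++ [x]) = (List.range' 0 (l.length + 1)).map v := by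
    apply List.ext_getElem
    · simp [hl]
    · intro i h1 h2
      simp only [List.getElem_map, List.getElem_range', one_mul, zero_add]
      have hi : i ≤ l.length := by simp [hl] at h1 ⊢; omega
      rcases Nat.lt_or_ge i l.length with hlt | hge
      · simp only [v, Nat.mod_eq_of_lt hlt]
        have : x :: (C ++ [x]) = l ++ [x] := by simp [hl]
        simp only [this]
        rw [List.getElem_append_left hlt]
      · have : i = l.length := le_antisymm hi hge
        subst this
        simp only [v, Nat.mod_self]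
        have : x :: (C ++ [x]) = l ++ [x] := by simp [hl]
        simp only [this]
        rw [List.getElem_append_right le_rfl]
        simp [hl]
  have hsum : ∑ i ∈ range l.length, ω (v i) (v (i + 1)) = 0 := by
    rw [hlist, pw_range'] at hw
    simpa using hw
  refine ⟨l.length, v, hv, ?_, ?_, hsum, ?_⟩
  · intro i hi j hj hij
    simp only [Set.mem_Iio] at hi hj
    simp only [v, Nat.mod_eq_of_lt hi, Nat.mod_eq_of_lt hj] at hij
    exact (List.Nodup.getElem_inj_iff hnd).1 hij
  · intro i
    apply hR
    exact List.getElem_mem _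
  · have hmap : ∀ i ∈ range l.length, (fun i => ∑ k ∈ range i, ω (v k) (v (k + 1))) i ∈
        (Finset.univ : Finset G) := fun i _ => Finset.mem_univ _
    have hc : (Finset.univ : Finset G).card * (m - 1) < (range l.length).card := by
      rw [Finset.card_range, Finset.card_univ, ← Nat.card_eq_fintype_card]
      exact hlen
    obtain ⟨g, _, hg⟩ := Finset.exists_lt_card_fiber_of_mul_lt_card_of_maps_to hmap hc
    have hg' : m ≤ ((range l.length).filter
        (fun i => ∑ k ∈ range i, ω (v k) (v (k + 1)) = g)).card := by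
      have h1 : m - 1 < ((range l.length).filter
        (fun i => ∑ k ∈ range i, ω (v k) (v (k + 1)) = g)).card := hg
      omega
    obtain ⟨A, hA, hAc⟩ := Finset.exists_subset_card_eq hg'
    refine ⟨A, hA.trans (Finset.filter_subset _ _), hAc, ?_⟩
    intro i hi j hj
    have h1 := (Finset.mem_filter.1 (hA hi)).2
    have h2 := (Finset.mem_filter.1 (hA hj)).2
    exact h1.trans h2.symm

lemma zc_transfer (ω : V → V → G) (K : AddSubgroup G) (ω' : V → V → K) (R R₁ : Finset V)
    (hsub : R₁ ⊆ R) (hω : ∀ x ∈ R₁, ∀ y ∈ R₁, x ≠ y → (ω' x y : G) = ω x y) (m : ℕ) (hm : 2 ≤ m)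
    (h : ZC ω' R₁ m) : ZC ω R m := by
  obtain ⟨L, v, hv, hinj, hR, hsum, A, hA, hAc, hlev⟩ := h
  have hL : 2 ≤ L := by
    have := Finset.card_le_card hA
    rw [Finset.card_range, hAc] at this
    omega
  have hne : ∀ i, v i ≠ v (i + 1) := by
    intro i he
    have hper : Function.Periodic v L := hv
    have h1 : v (i % L) = v ((i + 1) % L) := by
      rw [hper.map_mod_nat, hper.map_mod_nat]; exact he
    have h2 := hinj (Nat.mod_lt _ (by omega)) (Nat.mod_lt _ (by omega)) h1
    have h3 : i + 1 ≡ i [MOD L] := h2.symm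
    have h4 : (1 : ℕ) ≡ 0 [MOD L] := Nat.ModEq.add_left_cancel' i (by simpa using h3)
    have h5 : 1 % L = 0 % L := h4
    rw [Nat.mod_eq_of_lt (by omega), Nat.zero_mod] at h5
    omega
  have hco : ∀ i, (ω' (v i) (v (i + 1)) : G) = ω (v i) (v (i + 1)) := fun i =>
    hω _ (hR i) _ (hR (i + 1)) (hne i)
  have hco2 : ∀ n, ((∑ i ∈ range n, ω' (v i) (v (i + 1)) : K) : G)
      = ∑ i ∈ range n, ω (v i) (v (i + 1)) := by
    intro n
    rw [AddSubgroup.val_finsetSum]
    exact Finset.sum_congr rfl fun i _ => hco i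
  refine ⟨L, v, hv, hinj, fun i => hsub (hR i), ?_, A, hA, hAc, ?_⟩
  · rw [← hco2, hsum]; rfl
  · intro i hi j hj
    rw [← hco2, ← hco2, hlev i hi j hj]

/-- Data of a greedy choice of disjoint triples. -/
def Valid (ω : V → V → G) (R : Finset V) (L : List (V × V × V)) : Prop :=
  (flat L).Nodup ∧ (∀ x ∈ flat L, x ∈ R) ∧ Good (L.map (del ω))

end Cut

section Main

variable {V : Type}

theorem main (m : ℕ) (hm : 3 ≤ m) : ∀ (q : ℕ) (G : Type) [AddCommGroup G] [Finite G]
    [IsAddCyclic G], Nat.card G = q → ∀ (ω : V → V → G), (∀ x y, ω x y = ω y x) →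
    ∀ (R : Finset V), q * m ≤ R.card → ZC ω R m := by
  classical
  intro q
  induction q using Nat.strong_induction_on with
  | _ q ih =>
  intro G _ _ _ hG ω hω R hR
  have hqpos : 0 < q := by rw [← hG]; exact Nat.card_pos
  -- the inductive step on a subset where all triples have weight in a proper subgroup
  have step : ∀ (K : AddSubgroup G), K ≠ ⊤ → ∀ R' ⊆ R, 2 * (Nat.card K * m) ≤ R'.card →
      (∀ a ∈ R', ∀ b ∈ R', ∀ c ∈ R', a ≠ b → b ≠ c → a ≠ c → del ω (a, b, c) ∈ K) →
      ZC ω R m := by
    intro K hK R' hR' hcard hdel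
    have hKpos : 0 < Nat.card K := Nat.card_pos
    have h3 : 3 ≤ R'.card := by
      have : m ≤ Nat.card K * m := Nat.le_mul_of_pos_left m hKpos
      omega
    obtain ⟨R₁, hR₁, hc₁, hw⟩ := cut ω hω K R' h3 hdel
    have hlt : Nat.card K < q := by
      rw [← hG]
      by_contra hcon
      push Not at hcon
      exact hK (AddSubgroup.eq_top_of_le_card K hcon)
    let ω' : V → V → K := fun x y => if h : ω x y ∈ K then ⟨ω x y, h⟩ else 0
    have hω' : ∀ x y, ω' x y = ω' y x := by
      intro x y
      simp only [ω']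
      simp only [hω x y]
    have := ih (Nat.card K) hlt K rfl ω' hω' R₁ (by omega)
    refine zc_transfer ω K ω' R R₁ (hR₁.trans hR') ?_ m (by omega) this
    intro x hx y hy hxy
    simp only [ω']
    rw [dif_pos (hw x hx y hy hxy)]
  by_cases hA : ∃ E : AddSubgroup G, E.index = 2 ∧
      ∀ a ∈ R, ∀ b ∈ R, ∀ c ∈ R, a ≠ b → b ≠ c → a ≠ c → del ω (a, b, c) ∈ E
  · obtain ⟨E, hE, hdel⟩ := hA
    have hcard : Nat.card E * 2 = Nat.card G := by
      rw [← hE]; exact E.card_mul_index
    have hne : E ≠ ⊤ := by
      intro h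
      rw [h, AddSubgroup.index_top] at hE
      omega
    refine step E hne R subset_rfl ?_ hdel
    have : 2 * (Nat.card E * m) = q * m := by
      rw [← hG, ← hcard]; ring
    omega
  push Not at hA
  -- greedy choice
  let P : List (V × V × V) → Prop := fun L => Valid ω R L ∧
    ∀ E : AddSubgroup G, E.index = 2 → ∃ t ∈ L, del ω t ∉ E
  have hbase : ∃ L, P L := by
    by_cases hex : ∃ E : AddSubgroup G, E.index = 2
    · obtain ⟨E, hE⟩ := hex
      obtain ⟨a, ha, b, hb, c, hc, hab, hbc, hac, hd⟩ := hA E hE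
      refine ⟨[(a, b, c)], ⟨?_, ?_, ?_⟩, ?_⟩
      · simp [flat, hab, hbc, hac]
      · simp [flat, ha, hb, hc]
      · refine ⟨trivial, ?_⟩
        intro hst
        apply hd
        have := (mem_stab.1 hst 0).1 (by simp [ssF])
        have h0 : del ω (a, b, c) = 0 := by simpa [ssF] using this
        rw [h0]; exact E.zero_mem
      · intro E' hE'
        exact ⟨(a, b, c), by simp, index_two_unique E E' hE hE' hd⟩
    · refine ⟨[], ⟨by simp [flat], by simp [flat], trivial⟩, ?_⟩
      intro E hE
      exact absurd ⟨E, hE⟩ hex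
  have hbound : ∀ L, P L → L.length + 1 ≤ q := by
    intro L hL
    have h1 := good_card hL.1.2.2
    rw [List.length_map] at h1
    have h2 : (ssF {0} (L.map (del ω))).ncard ≤ Nat.card G := by
      rw [← Set.ncard_univ]
      exact Set.ncard_le_ncard (Set.subset_univ _) (Set.toFinite _)
    omega
  obtain ⟨L, hL, hmax⟩ : ∃ L, P L ∧ ∀ L', P L' → L'.length ≤ L.length := by
    obtain ⟨L₀, hL₀⟩ := hbase
    have hmem : sSup {n | ∃ L, P L ∧ L.length = n} ∈ {n | ∃ L, P L ∧ L.length = n} := by
      apply Nat.sSup_mem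
      · exact ⟨_, L₀, hL₀, rfl⟩
      · refine ⟨q, ?_⟩
        rintro n ⟨L, hL, rfl⟩
        have := hbound L hL
        omega
    obtain ⟨L, hL, hlen⟩ := hmem
    refine ⟨L, hL, fun L' hL' => ?_⟩
    rw [hlen]
    apply le_csSup
    · refine ⟨q, ?_⟩
      rintro n ⟨L, hL, rfl⟩
      have := hbound L hL
      omega
    · exact ⟨L', hL', rfl⟩
  obtain ⟨⟨hnd, hLR, hgood⟩, hodd⟩ := hL
  have hlenq := hbound L ⟨⟨hnd, hLR, hgood⟩, hodd⟩
  set S := ssF {0} (L.map (del ω)) with hS
  let F : Finset V := (flat L).toFinset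
  have hFR : F ⊆ R := by
    intro x hx
    exact hLR x (List.mem_toFinset.1 hx)
  have hFc : F.card = 3 * L.length := by
    rw [List.toFinset_card_of_nodup hnd, length_flat]
  have hRF : (R \ F).card = R.card - 3 * L.length := by
    rw [Finset.card_sdiff_of_subset hFR, hFc]
  have hnext : ∀ a ∈ R \ F, ∀ b ∈ R \ F, ∀ c ∈ R \ F, a ≠ b → b ≠ c → a ≠ c →
      del ω (a, b, c) ∈ stab S := by
    intro a ha b hb c hc hab hbc hac
    by_contra hcon
    have ha' := Finset.mem_sdiff.1 ha
    have hb' := Finset.mem_sdiff.1 hb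
    have hc' := Finset.mem_sdiff.1 hc
    simp only [F, List.mem_toFinset] at ha' hb' hc'
    have hP : P ((a, b, c) :: L) := by
      refine ⟨⟨?_, ?_, ?_⟩, ?_⟩
      · rw [flat_cons]
        simp only [List.nodup_cons, List.mem_cons, not_or]
        exact ⟨⟨hab, hac, ha'.2⟩, ⟨hbc, hb'.2⟩, hc'.2, hnd⟩
      · rw [flat_cons]
        simp only [List.mem_cons]
        rintro x (rfl | rfl | rfl | hx)
        · exact ha'.1
        · exact hb'.1
        · exact hc'.1
        · exact hLR x hx
      · exact ⟨hgood, hcon⟩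
      · intro E hE
        obtain ⟨t, ht, hd⟩ := hodd E hE
        exact ⟨t, List.mem_cons_of_mem _ ht, hd⟩
    have := hmax _ hP
    simp at this
  have hqm : 3 * q ≤ q * m := by nlinarith
  by_cases huniv : S = Set.univ
  · -- direct construction of a long zero-sum cycle
    have hne : (R \ F).toList ≠ [] := by
      intro h
      have : (R \ F).card = 0 := by rw [← Finset.length_toList, h]; rfl
      omega
    obtain ⟨x, rest, hrest⟩ := List.exists_cons_of_ne_nil hne
    have hrc : rest.length + 1 = R.card - 3 * L.length := by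
      rw [← hRF, ← Finset.length_toList, hrest, List.length_cons]
    obtain ⟨l, hl1, hl2, hl3⟩ := build ω L (-(pw ω (x :: (flat L ++ (rest ++ [x]))))) (by
      rw [← hS, huniv]; trivial)
    have hndF : (flat L ++ (R \ F).toList).Nodup := by
      rw [List.nodup_append]
      refine ⟨hnd, Finset.nodup_toList _, ?_⟩
      intro y hy z hz hyz
      rw [Finset.mem_toList, Finset.mem_sdiff] at hz
      apply hz.2
      rw [← hyz]
      exact List.mem_toFinset.2 hy
    rw [hrest] at hndF
    have hndF2 : (x :: (flat L ++ rest)).Nodup := List.nodup_middle.1 hndF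
    have hndl : (x :: (l ++ rest)).Nodup :=
      List.Nodup.sublist ((hl1.append_right rest).cons_cons x) hndF2
    refine zc_of_list ω R m (by omega) x (l ++ rest) hndl ?_ ?_ ?_
    · intro y hy
      have hy2 : y ∈ x :: (flat L ++ rest) := ((hl1.append_right rest).cons_cons x).subset hy
      have hy3 : y ∈ flat L ++ (R \ F).toList := by
        rw [hrest]
        exact (List.perm_middle.symm.mem_iff).1 hy2
      rw [List.mem_append, Finset.mem_toList, Finset.mem_sdiff] at hy3
      rcases hy3 with h | h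
      · exact hLR y h
      · exact h.1
    · rw [List.append_assoc, hl3, add_neg_cancel]
    · rw [hG]
      simp only [List.length_cons, List.length_append]
      have e1 : q * (m - 1) + q = q * m := by
        obtain ⟨n, rfl⟩ : ∃ n, m = n + 1 := ⟨m - 1, by omega⟩
        simp; ring
      omega
  · have hcount := greedy_count hgood (stab S) rfl huniv
    obtain ⟨t₁, t₂, hlen, ht₂, ht₁, hex⟩ := hcount
    rw [List.length_map] at hlen
    have hKpos : 0 < Nat.card (stab S) := Nat.card_pos
    obtain ⟨q', hq'⟩ : ∃ q', Nat.card G = Nat.card (stab S) * q' :=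
      AddSubgroup.card_addSubgroup_dvd_card (stab S)
    have htop : stab S ≠ ⊤ := by
      intro h
      apply huniv
      rw [Set.eq_univ_iff_forall]
      intro g
      have hg : g ∈ stab S := by rw [h]; trivial
      have := (mem_stab.1 hg 0).1 (zero_mem_ssF (Set.mem_singleton (0 : G)) _)
      simpa using this
    set k := Nat.card (stab S) with hk
    have ht₁' : t₁ + 2 ≤ q' := by
      rw [hq'] at ht₁
      exact Nat.le_of_mul_le_mul_left ht₁ hKpos
    have hq3 : 3 ≤ q' := by
      by_contra hcon
      have hq2 : q' = 2 := by omega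
      have hind : (stab S).index = 2 := by
        have h1 := (stab S).card_mul_index
        rw [hq', hq2] at h1
        exact Nat.eq_of_mul_eq_mul_left hKpos h1
      obtain ⟨t, ht, hd⟩ := hodd _ hind
      have := hex ⟨del ω t, List.mem_map_of_mem ht, hd⟩
      omega
    refine step (stab S) htop (R \ F) Finset.sdiff_subset ?_ hnext
    rw [hRF, ← hk]
    have hqk : q = k * q' := by rw [← hG, hq']
    obtain ⟨u, rfl⟩ : ∃ u, q' = u + 3 := ⟨q' - 3, by omega⟩
    obtain ⟨w, hw⟩ : ∃ w, k = w + 1 := ⟨k - 1, by omega⟩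
    obtain ⟨n, rfl⟩ : ∃ n, m = n + 3 := ⟨m - 3, by omega⟩
    have hL3 : L.length ≤ u + 1 + w := by omega
    have : 2 * (k * (n + 3)) + 3 * L.length ≤ q * (n + 3) := by
      rw [hqk, hw]
      nlinarith [Nat.zero_le (w * u), Nat.zero_le (w * u * n), Nat.zero_le (u * n),
        Nat.zero_le (w * n), Nat.zero_le n]
    omega

/-- A zero-sum closed sequence with `n + 3` places of equal level gives `n + 3` branch vertices
and zero-sum paths between cyclically consecutive ones. -/
lemma cycle_of_zc {G : Type} [AddCommGroup G] (ω : V → V → G) (R : Finset V) (n : ℕ)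
    (h : ZC ω R (n + 3)) :
    ∃ (b : Fin (n + 3) → V) (I : Fin (n + 3) → List V), Function.Injective b ∧
      (∀ j, b j ∈ R) ∧ (∀ j, (I j).Nodup) ∧ (∀ j, ∀ x ∈ I j, x ∈ R ∧ ∀ j', x ≠ b j') ∧
      (∀ j j', j ≠ j' → List.Disjoint (I j) (I j')) ∧
      ∀ j, pw ω (b j :: (I j ++ [b (j + 1)])) = 0 := by
  classical
  obtain ⟨L, v, hv, hinj, hR, hsum, A, hA, hAc, hlev⟩ := h
  have hper : Function.Periodic v L := hv
  have hLpos : 0 < L := by
    rcases Nat.eq_zero_or_pos L with h0 | h0
    · rw [h0] at hA
      have := Finset.card_le_card hA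
      rw [hAc] at this
      simp at this
    · exact h0
  have hvinj : ∀ x y, v x = v y → x ≡ y [MOD L] := by
    intro x y hxy
    rw [← hper.map_mod_nat x, ← hper.map_mod_nat y] at hxy
    exact hinj (Nat.mod_lt _ hLpos) (Nat.mod_lt _ hLpos) hxy
  let e : Fin (n + 3) → ℕ := fun j => A.orderEmbOfFin hAc j
  have hmono : StrictMono e := (A.orderEmbOfFin hAc).strictMono
  have heA : ∀ j, e j ∈ A := fun j => Finset.orderEmbOfFin_mem A hAc j
  have heL : ∀ j, e j < L := fun j => Finset.mem_range.1 (hA (heA j))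
  -- the next marked place
  let nx : Fin (n + 3) → ℕ := fun j => if h : j.val + 1 < n + 3 then e ⟨j.val + 1, h⟩ else e 0 + L
  have hjs : ∀ j : Fin (n + 3), (h : j.val + 1 < n + 3) → j + 1 = ⟨j.val + 1, h⟩ := by
    intro j h
    apply Fin.ext
    rw [Fin.val_add_one_of_lt' h]
  have hjl : ∀ j : Fin (n + 3), ¬ (j.val + 1 < n + 3) → j + 1 = 0 := by
    intro j h
    have : j = Fin.last (n + 2) := by
      apply Fin.ext
      simp only [Fin.val_last]
      have := j.isLt
      omega
    rw [this]
    exact Fin.last_add_one _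
  have hvn : ∀ j, v (nx j) = v (e (j + 1)) := by
    intro j
    by_cases h : j.val + 1 < n + 3
    · simp only [nx, dif_pos h, hjs j h]
    · simp only [nx, dif_neg h, hjl j h]
      exact hv _
  have hlt : ∀ j, e j < nx j := by
    intro j
    by_cases h : j.val + 1 < n + 3
    · simp only [nx, dif_pos h]
      apply hmono
      rw [Fin.lt_def]; simp
    · simp only [nx, dif_neg h]
      have := heL j
      omega
  have hnxle : ∀ j, nx j ≤ e 0 + L := by
    intro j
    by_cases h : j.val + 1 < n + 3
    · simp only [nx, dif_pos h]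
      have := heL ⟨j.val + 1, h⟩
      omega
    · simp only [nx, dif_neg h]
      exact le_rfl
  have he0 : ∀ j, e 0 ≤ e j := fun j => hmono.monotone (Fin.zero_le j)
  have hnx : ∀ j j' : Fin (n + 3), j < j' → nx j ≤ e j' := by
    intro j j' hjj
    have h : j.val + 1 < n + 3 := by
      have := j'.isLt
      have : j.val < j'.val := hjj
      omega
    simp only [nx, dif_pos h]
    apply hmono.monotone
    rw [Fin.le_def]
    exact hjj
  have hwin : ∀ x y, e 0 ≤ x → x < e 0 + L → e 0 ≤ y → y < e 0 + L → v x = v y → x = y := by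
    intro x y h1 h2 h3 h4 hxy
    have h5 := hvinj x y hxy
    rcases le_total x y with h | h
    · have := (Nat.modEq_iff_dvd' h).1 h5
      by_contra hne
      have := Nat.le_of_dvd (by omega) this
      omega
    · have := (Nat.modEq_iff_dvd' h).1 h5.symm
      by_contra hne
      have := Nat.le_of_dvd (by omega) this
      omega
  let I : Fin (n + 3) → List V := fun j => (List.range' (e j + 1) (nx j - e j - 1)).map v
  have hI : ∀ j x, x ∈ I j → ∃ p, e j < p ∧ p < nx j ∧ v p = x := by
    intro j x hx
    simp only [I, List.mem_map, List.mem_range'_1] at hx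
    obtain ⟨p, ⟨h1, h2⟩, h3⟩ := hx
    have := hlt j
    exact ⟨p, by omega, by omega, h3⟩
  have hpos : ∀ j p, e j < p → p < nx j → e 0 ≤ p ∧ p < e 0 + L := by
    intro j p h1 h2
    have := he0 j
    have := hnxle j
    omega
  have hewin : ∀ j, e 0 ≤ e j ∧ e j < e 0 + L := fun j => ⟨he0 j, by have := heL j; omega⟩
  refine ⟨fun j => v (e j), I, ?_, fun j => hR _, ?_, ?_, ?_, ?_⟩
  · intro j j' hjj
    have := hwin _ _ (hewin j).1 (hewin j).2 (hewin j').1 (hewin j').2 hjj
    exact hmono.injective this
  · intro j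
    apply List.Nodup.map_on
    · intro x hx y hy hxy
      rw [List.mem_range'_1] at hx hy
      have h1 := hpos j x (by omega) (by omega)
      have h2 := hpos j y (by omega) (by omega)
      exact hwin x y h1.1 h1.2 h2.1 h2.2 hxy
    · exact List.nodup_range'
  · intro j x hx
    obtain ⟨p, h1, h2, rfl⟩ := hI j x hx
    refine ⟨hR p, fun j' hj' => ?_⟩
    have h3 := hpos j p h1 h2
    have h4 := hwin p (e j') h3.1 h3.2 (hewin j').1 (hewin j').2 hj'
    rcases lt_trichotomy j j' with h | h | h
    · have := hnx j j' h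
      omega
    · rw [h] at h1; omega
    · have := hmono h
      omega
  · intro j j' hjj x hx hx'
    obtain ⟨p, h1, h2, rfl⟩ := hI j x hx
    obtain ⟨p', h1', h2', he⟩ := hI j' _ hx'
    have h3 := hpos j p h1 h2
    have h3' := hpos j' p' h1' h2'
    have h4 := hwin p' p h3'.1 h3'.2 h3.1 h3.2 he
    rcases lt_or_gt_of_ne hjj with h | h
    · have := hnx j j' h
      omega
    · have := hnx j' j h
      omega
  · intro j
    have h1 : v (e j) :: (I j ++ [v (e (j + 1))]) =
        (List.range' (e j) (nx j - e j + 1)).map v := by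
      have hd : nx j - e j + 1 = (nx j - e j - 1) + 1 + 1 := by
        have := hlt j
        omega
      rw [hd, List.range'_succ, List.map_cons, List.range'_concat, List.map_append]
      simp only [I, List.map_cons, List.map_nil, one_mul]
      have h2 : e j + 1 + (nx j - e j - 1) = nx j := by
        have := hlt j
        omega
      rw [h2, hvn]
    rw [h1, pw_range']
    have h2 := Finset.sum_range_add_sub_sum_range (fun k => ω (v k) (v (k + 1))) (e j)
      (nx j - e j)
    have h3 : e j + (nx j - e j) = nx j := by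
      have := hlt j
      omega
    rw [h3] at h2
    rw [← h2, sub_eq_zero]
    by_cases h : j.val + 1 < n + 3
    · simp only [nx, dif_pos h]
      exact hlev _ (heA _) _ (heA _)
    · simp only [nx, dif_neg h]
      rw [hlev (e j) (heA j) (e 0) (heA 0), add_comm (e 0) L, Finset.sum_range_add, hsum, zero_add]
      apply Finset.sum_congr rfl
      intro i _
      have e1 : v (L + i) = v i := by rw [add_comm]; exact hv i
      have e2 : v (L + i + 1) = v (i + 1) := by
        have : L + i + 1 = (i + 1) + L := by ring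
        rw [this]; exact hv _
      rw [e1, e2]

end Main

end Pool.Agent.W5h9.DivSub
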