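import Mathlib
import Pool.Agent.W5h9.DenseSub3

/-! Helper file: assembling the proof for dense graphs. -/

namespace Pool.Agent.W5h9.DenseSub

open Finset

section Main

variable {V : Type} [Fintype V] [DecidableEq V]

/-- Equal or almost opposite. -/
def Bad (c : V → V → Bool) (x y : V) : Prop := x = y ∨ Opp c x y

instance (c : V → V → Bool) (x y : V) : Decidable (Bad c x y) := by unfold Bad; infer_instance

lemma Bad.symm {c : V → V → Bool} {x y : V} (h : Bad c x y) : Bad c y x := by
  rcases h with h | h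
  · exact Or.inl h.symm
  · right
    unfold Opp at h ⊢
    rwa [agree_comm]

/-- The number of bad pairs. -/
def badPairs (c : V → V → Bool) {L : ℕ} (b : Fin L → V) : ℕ :=
  ((univ : Finset (Fin L × Fin L)).filter (fun p => p.1 < p.2 ∧ Bad c (b p.1) (b p.2))).card

lemma sampling (c : V → V → Bool) (n r T s k' : ℕ) (E : Finset (Fin n × Fin n))
    (hE : ∀ e ∈ E, e.1 < e.2) (C : Finset V) (hC : 0 < C.card) (γ : ℝ) (hγ : 0 ≤ γ)
    (hp1 : 4 * (n + r) ^ 2 * ((C ×ˢ C).filter (fun p => Bad c p.1 p.2)).card ≤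
      (r + 1) * C.card ^ 2)
    (hp2 : 8 * ((Fintype.card V : ℝ) + 1) ^ T * 2 ^ (n + r) * γ ^ s ≤ 1)
    (hp3 : 8 * Fintype.card V * n ≤ 2 ^ k') :
    ∃ b : Fin (n + r) → V, (∀ i, b i ∈ C) ∧ badPairs c b ≤ r ∧ ¬ ManyMono c T s C γ b ∧
      ¬ FewUncut c k' E b := by
  classical
  by_contra hcon
  push Not at hcon
  have f1 := fail_pairs (n + r) r C hC (Bad c) hp1
  have f2 := fail_mono c (n + r) T s C γ hγ hp2
  have f3 := fail_uncut c n r k' E hE C hC hp3
  have hsub : Om (n + r) C ⊆ (Om (n + r) C).filter (fun b => r < badPairs c b) ∪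
      (Om (n + r) C).filter (fun b => ManyMono c T s C γ b) ∪
      (Om (n + r) C).filter (fun b => FewUncut c k' E b) := by
    intro b hb
    simp only [Finset.mem_union, Finset.mem_filter]
    by_cases h1 : r < badPairs c b
    · exact Or.inl (Or.inl ⟨hb, h1⟩)
    · by_cases h2 : ManyMono c T s C γ b
      · exact Or.inl (Or.inr ⟨hb, h2⟩)
      · exact Or.inr ⟨hb, hcon b (mem_Om.1 hb) (by omega) h2⟩
  have h1 := (Finset.card_le_card hsub).trans ((Finset.card_union_le _ _).trans
    (Nat.add_le_add_right (Finset.card_union_le _ _) _))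
  rw [card_Om] at h1
  have h2 : (C.card : ℝ) ^ (n + r) ≤
      (((Om (n + r) C).filter (fun b => r < badPairs c b)).card : ℝ) +
      (((Om (n + r) C).filter (fun b => ManyMono c T s C γ b)).card : ℝ) +
      (((Om (n + r) C).filter (fun b => FewUncut c k' E b)).card : ℝ) := by exact_mod_cast h1
  have g1 : 4 * (((Om (n + r) C).filter (fun b => r < badPairs c b)).card : ℝ) ≤
      (C.card : ℝ) ^ (n + r) := by exact_mod_cast f1
  have g3 : 4 * (((Om (n + r) C).filter (fun b => FewUncut c k' E b)).card : ℝ) ≤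
      (C.card : ℝ) ^ (n + r) := by exact_mod_cast f3
  have hpos : 0 < (C.card : ℝ) ^ (n + r) := by
    have : (0 : ℝ) < C.card := by exact_mod_cast hC
    positivity
  have g2 : 4 * (((Om (n + r) C).filter (fun b => ManyMono c T s C γ b)).card : ℝ) ≤
      (C.card : ℝ) ^ (n + r) := by
    convert f2
  linarith

/-- From the sample to the branch vertices. -/
lemma branch (c : V → V → Bool) (n r T s k' : ℕ) (E : Finset (Fin n × Fin n))
    (hE : ∀ e ∈ E, e.1 < e.2) (C : Finset V) (hC : 0 < C.card) (γ h g : ℝ) (hγ : 0 ≤ γ)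
    (hg : 0 ≤ g) (hs : s = ⌈g * n⌉₊)
    (hp1 : 4 * (n + r) ^ 2 * ((C ×ˢ C).filter (fun p => Bad c p.1 p.2)).card ≤
      (r + 1) * C.card ^ 2)
    (hp2 : 8 * ((Fintype.card V : ℝ) + 1) ^ T * 2 ^ (n + r) * γ ^ s ≤ 1)
    (hp3 : 8 * Fintype.card V * n ≤ 2 ^ k')
    (hcard : Fintype.card V = E.card + n)
    (hk : 32 * n * k' ≤ E.card) (h24 : 24 * n ≤ E.card)
    (hrn : 200 * (r * n) ≤ E.card)
    (hcell : GoodCell c γ h C) (hT : (C.card : ℝ) < T * h)
    (hbig : 200 * ((n : ℝ) + 2 * g * (n : ℝ) ^ 2) ≤ Fintype.card V) :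
    ∃ φ : Fin n → V, Function.Injective φ ∧ ∃ ψ : E → V, Function.Injective ψ ∧
      ∀ e : E, (∀ u, ψ e ≠ φ u) ∧ c (ψ e) (φ e.1.1) = c (ψ e) (φ e.1.2) := by
  classical
  obtain ⟨b, hbC, hb1, hb2, hb3⟩ := sampling c n r T s k' E hE C hC γ hγ hp1 hp2 hp3
  obtain ⟨j, hj, hjbad, hjr⟩ := select n r b (Bad c) (fun x y h => h.symm) hb1
  set φ : Fin n → V := fun v => b (j v) with hφdef
  have hφ : Function.Injective φ := by
    intro u v huv
    by_contra hne
    exact hjbad u v hne (Or.inl huv)
  refine ⟨φ, hφ, ?_⟩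
  have hcard' : Fintype.card V = E.card + Fintype.card (Fin n) := by
    rw [Fintype.card_fin, hcard]
  apply hall c E φ ?_ hφ hcard'
  apply core c E φ C g γ h T hg hφ hcard'
  · rw [Fintype.card_fin]; omega
  · exact fun e he => (hE e he).ne
  · exact fun u v huv h => hjbad u v huv (Or.inr h)
  · exact fun u => hbC _
  · intro β S hS hlt
    obtain ⟨t, rfl⟩ := exists_tset (T := T) S hS
    have h1 : (univ.filter (fun i => b i ∈ mono c C β (tset t))).card < s := by
      by_contra hge
      push Not at hge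
      exact hb2 ⟨β, t, hlt, hge⟩
    have h2 : (univ.filter (fun u => φ u ∈ mono c C β (tset t))).card ≤
        (univ.filter (fun i => b i ∈ mono c C β (tset t))).card := by
      refine Finset.card_le_card_of_injOn j ?_ hj.injOn
      intro u hu
      rw [Finset.mem_coe, Finset.mem_filter] at hu ⊢
      exact ⟨Finset.mem_univ _, hu.2⟩
    rw [Fintype.card_fin]
    rw [hs] at h1
    exact Nat.lt_ceil.1 (lt_of_le_of_lt h2 h1)
  · intro w
    have h1 : E.card ≤ 16 * (E.filter (fun e =>
        c w (b (Fin.castAdd r e.1)) = c w (b (Fin.castAdd r e.2)))).card := by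
      apply uncut_of_classes n k' E _ hk h24
      intro a ha hka
      by_contra hlt
      push Not at hlt
      exact hb3 ⟨w, a, ha, hka, hlt⟩
    set D : Finset (Fin n) := univ.filter (fun v => j v ≠ Fin.castAdd r v) with hD
    have hsub : E.filter (fun e =>
        c w (b (Fin.castAdd r e.1)) = c w (b (Fin.castAdd r e.2))) ⊆
        (E.filter (fun e => c w (φ e.1) = c w (φ e.2)) ∪ (D ×ˢ univ)) ∪ (univ ×ˢ D) := by
      intro e he
      rw [Finset.mem_filter] at he
      simp only [Finset.mem_union, Finset.mem_product, Finset.mem_univ, and_true, true_and,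
        Finset.mem_filter, hD]
      by_cases h1 : j e.1 = Fin.castAdd r e.1
      · by_cases h2 : j e.2 = Fin.castAdd r e.2
        · left; left
          refine ⟨he.1, ?_⟩
          show c w (b (j e.1)) = c w (b (j e.2))
          rw [h1, h2]; exact he.2
        · right; exact h2
      · left; right; exact h1
    have h2 := (Finset.card_le_card hsub).trans ((Finset.card_union_le _ _).trans
      (Nat.add_le_add_right (Finset.card_union_le _ _) _))
    rw [Finset.card_product, Finset.card_product, Finset.card_univ, Fintype.card_fin] at h2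
    have h3 : D.card * n ≤ r * n := Nat.mul_le_mul_right _ hjr
    have h4 : n * D.card ≤ r * n := by rw [mul_comm]; exact h3
    omega
  · exact hcell
  · exact hT
  · rw [Fintype.card_fin]; exact hbig

end Main

end Pool.Agent.W5h9.DenseSub
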