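import Mathlib
import Pool.Agent.W5h9.DenseSub4

/-! Helper file: the numerical part of the proof for dense graphs. -/

namespace Pool.Agent.W5h9.DenseSub

open Finset

section Numbers

lemma ev_poly (T : ℕ) : ∀ᶠ n : ℕ in Filter.atTop, 8 * ((n : ℝ) ^ 2 + 1) ^ T ≤ 4 ^ n := by
  have h := tendsto_pow_const_div_const_pow_of_one_lt (2 * T) (r := (4 : ℝ)) (by norm_num)
  have h2 := h.eventually (gt_mem_nhds (show (0 : ℝ) < 1 / (8 * 2 ^ T) by positivity))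
  filter_upwards [h2, Filter.eventually_ge_atTop 1] with n hn h1
  have hn1 : (1 : ℝ) ≤ n := by exact_mod_cast h1
  rw [div_lt_div_iff₀ (by positivity) (by positivity)] at hn
  calc 8 * ((n : ℝ) ^ 2 + 1) ^ T ≤ 8 * (2 * (n : ℝ) ^ 2) ^ T := by
        gcongr
        nlinarith
    _ = (n : ℝ) ^ (2 * T) * (8 * 2 ^ T) := by rw [mul_pow, ← pow_mul]; ring
    _ ≤ 1 * 4 ^ n := hn.le
    _ = _ := one_mul _

lemma ev_exp (δ : ℝ) (hδ : 0 < δ) :
    ∀ᶠ n : ℕ in Filter.atTop, 8 * n ^ 3 ≤ 2 ^ ⌊δ * n / 32⌋₊ := by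
  have hρ : 1 < (2 : ℝ) ^ (δ / 32) := Real.one_lt_rpow (by norm_num) (by positivity)
  have h := tendsto_pow_const_div_const_pow_of_one_lt 3 hρ
  have h2 := h.eventually (gt_mem_nhds (show (0 : ℝ) < 1 / 16 by norm_num))
  filter_upwards [h2] with n hn
  rw [div_lt_div_iff₀ (by positivity) (by positivity)] at hn
  have h3 : ((2 : ℝ) ^ (δ / 32)) ^ n ≤ 2 * 2 ^ ⌊δ * n / 32⌋₊ := by
    rw [← Real.rpow_natCast, ← Real.rpow_mul (by norm_num)]
    calc (2 : ℝ) ^ (δ / 32 * n) ≤ (2 : ℝ) ^ (((⌊δ * n / 32⌋₊ + 1 : ℕ)) : ℝ) := by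
          apply Real.rpow_le_rpow_of_exponent_le (by norm_num)
          have := Nat.lt_floor_add_one (δ * n / 32)
          push_cast
          have e : δ / 32 * (n : ℝ) = δ * n / 32 := by ring
          rw [e]; exact this.le
      _ = 2 * 2 ^ ⌊δ * n / 32⌋₊ := by rw [Real.rpow_natCast, pow_succ]; ring
  have h4 : (8 : ℝ) * (n : ℝ) ^ 3 ≤ 2 ^ ⌊δ * n / 32⌋₊ := by linarith
  exact_mod_cast h4

set_option maxHeartbeats 2000000 in
theorem main (δ : ℝ) (hδ : 0 < δ) (hδ1 : δ ≤ 1) : ∃ n₀ : ℕ, ∀ n ≥ n₀,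
    ∀ E : Finset (Fin n × Fin n), (∀ e ∈ E, e.1 < e.2) → δ * (n : ℝ) ^ 2 ≤ E.card →
    ∀ (V : Type) [Fintype V] [DecidableEq V] (c : V → V → Bool), Fintype.card V = E.card + n →
    ∃ φ : Fin n → V, Function.Injective φ ∧ ∃ ψ : E → V, Function.Injective ψ ∧
      ∀ e : E, (∀ u, ψ e ≠ φ u) ∧ c (ψ e) (φ e.1.1) = c (ψ e) (φ e.1.2) := by
  set g : ℝ := δ / 800 with hg
  have hg0 : 0 < g := by positivity
  set K : ℕ := ⌈1 / g⌉₊ with hK
  set γ : ℝ := (1 / 16) ^ K with hγ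
  have hγ0 : 0 < γ := by positivity
  have hγ1 : γ ≤ 1 := pow_le_one₀ (by norm_num) (by norm_num)
  set η : ℝ := γ ^ 102 / 4 with hη
  have hη0 : 0 < η := by positivity
  set T : ℕ := ⌊1 / η⌋₊ + 1 with hT
  have hTη : 1 < T * η := by
    have h1 : 1 / η < (T : ℝ) := by
      rw [hT]; push_cast; exact Nat.lt_floor_add_one _
    rwa [div_lt_iff₀ hη0] at h1
  set A : ℝ := 25600 / (δ ^ 2 * γ ^ 101) with hA
  have hA0 : 0 < A := by positivity
  have ev : ∀ᶠ n : ℕ in Filter.atTop, 8 * ((n : ℝ) ^ 2 + 1) ^ T ≤ 4 ^ n ∧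
      8 * n ^ 3 ≤ 2 ^ ⌊δ * n / 32⌋₊ ∧ 400 / δ ≤ (n : ℝ) ∧ A ^ 2 ≤ (n : ℝ) ∧
      6400 / (δ * γ ^ 202) ≤ (n : ℝ) ∧ 1 ≤ n := by
    filter_upwards [ev_poly T, ev_exp δ hδ, Filter.eventually_ge_atTop ⌈400 / δ⌉₊,
      Filter.eventually_ge_atTop ⌈A ^ 2⌉₊, Filter.eventually_ge_atTop ⌈6400 / (δ * γ ^ 202)⌉₊,
      Filter.eventually_ge_atTop 1] with n h1 h2 h3 h4 h5 h6
    exact ⟨h1, h2, Nat.ceil_le.1 h3, Nat.ceil_le.1 h4, Nat.ceil_le.1 h5, h6⟩
  obtain ⟨n₀, hn₀⟩ := Filter.eventually_atTop.1 ev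
  refine ⟨n₀, fun n hn E hE hm V _ _ c hcard => ?_⟩
  obtain ⟨hev1, hev2, hev3, hev4, hev5, hev6⟩ := hn₀ n hn
  have hn1 : (1 : ℝ) ≤ n := by exact_mod_cast hev6
  have hn0 : (0 : ℝ) < n := by linarith
  have hδn : 400 ≤ δ * n := by
    rw [div_le_iff₀ hδ] at hev3
    linarith
  -- sizes
  have hEn : E.card + n ≤ n ^ 2 := by
    have hsub : E ⊆ (univ : Finset (Fin n)).offDiag := by
      intro e he
      rw [Finset.mem_offDiag]
      exact ⟨Finset.mem_univ _, Finset.mem_univ _, (hE e he).ne⟩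
    have h1 := Finset.card_le_card hsub
    rw [Finset.offDiag_card, Finset.card_univ, Fintype.card_fin] at h1
    have h2 : n ≤ n * n := Nat.le_mul_self n
    rw [sq]
    omega
  have hNn : Fintype.card V ≤ n ^ 2 := by rw [hcard]; exact hEn
  have hNnR : (Fintype.card V : ℝ) ≤ (n : ℝ) ^ 2 := by exact_mod_cast hNn
  have hEN : E.card ≤ Fintype.card V := by rw [hcard]; omega
  have hENR : (E.card : ℝ) ≤ Fintype.card V := by exact_mod_cast hEN
  have hN0 : 0 < Fintype.card V := by rw [hcard]; omega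
  have hNR0 : (0 : ℝ) < Fintype.card V := by exact_mod_cast hN0
  -- the large set with few opposite pairs
  set k : ℕ := Nat.log 4 n + 1 with hk
  obtain ⟨V', hV'1, hV'2⟩ := split c hN0 k
  have hk1 : n < 4 ^ k := Nat.lt_pow_succ_log_self (by norm_num) n
  have hk2 : 4 ^ k ≤ 4 * n := by
    rw [hk, pow_succ]
    have := Nat.pow_log_le_self 4 (x := n) (by omega)
    omega
  have hV'0 : 0 < V'.card := by
    by_contra h0
    have : V'.card = 0 := by omega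
    rw [this, mul_zero] at hV'1
    omega
  have hV'R0 : (0 : ℝ) < V'.card := by exact_mod_cast hV'0
  set h : ℝ := η * V'.card with hh
  have hh2 : 2 * h < γ ^ 102 * V'.card := by
    rw [hh, hη]
    have : 0 < γ ^ 102 * (V'.card : ℝ) := by positivity
    linarith
  obtain ⟨C, hCV', hC1, hcell⟩ := cell c hN0 V' γ h hγ0 hγ1 hh2
  have hCR0 : (0 : ℝ) < C.card := lt_of_lt_of_le (by positivity) hC1
  have hC0 : 0 < C.card := by exact_mod_cast hCR0
  set r : ℕ := ⌊δ * n / 200⌋₊ with hr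
  have hr1 : (r : ℝ) ≤ δ * n / 200 := Nat.floor_le (by positivity)
  have hr2 : δ * n / 200 < (r : ℝ) + 1 := Nat.lt_floor_add_one _
  have hrn : r ≤ n := by
    have : (r : ℝ) ≤ n := by nlinarith
    exact_mod_cast this
  have hrnR : (r : ℝ) ≤ n := by exact_mod_cast hrn
  refine branch c n r T ⌈g * n⌉₊ ⌊δ * n / 32⌋₊ E hE C hC0 γ h g hγ0.le hg0.le rfl
    ?_ ?_ ?_ hcard ?_ ?_ ?_ hcell ?_ ?_
  · -- pairs
    set x : ℝ := (C.card : ℝ) with hx
    set o : ℝ := (((V' ×ˢ V').filter (fun p => Opp c p.1 p.2)).card : ℝ) with ho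
    set q : ℝ := (2 : ℝ) ^ k with hq
    have hq0 : 0 < q := by positivity
    have ho0 : 0 ≤ o := Nat.cast_nonneg _
    have hB : (((C ×ˢ C).filter (fun p => Bad c p.1 p.2)).card : ℝ) ≤ x + o := by
      have hsub : (C ×ˢ C).filter (fun p => Bad c p.1 p.2) ⊆
          C.image (fun y => (y, y)) ∪ (V' ×ˢ V').filter (fun p => Opp c p.1 p.2) := by
        rintro ⟨y, z⟩ hp
        rw [Finset.mem_filter, Finset.mem_product] at hp
        rw [Finset.mem_union]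
        rcases hp.2 with h | h
        · left
          rw [Finset.mem_image]
          simp only at h
          exact ⟨y, hp.1.1, by rw [h]⟩
        · right
          rw [Finset.mem_filter, Finset.mem_product]
          exact ⟨⟨hCV' hp.1.1, hCV' hp.1.2⟩, h⟩
      have h1 := (Finset.card_le_card hsub).trans ((Finset.card_union_le _ _).trans
        (Nat.add_le_add_right Finset.card_image_le _))
      rw [hx, ho]
      exact_mod_cast h1
    have a1 : (Fintype.card V : ℝ) ≤ q * V'.card := by rw [hq]; exact_mod_cast hV'1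
    have a2 : (200 : ℝ) ^ k * o ≤ (Fintype.card V : ℝ) ^ 2 := by
      rw [ho]; exact_mod_cast hV'2
    have a3 : γ ^ 101 * Fintype.card V ≤ q * x := by
      calc γ ^ 101 * (Fintype.card V : ℝ) ≤ γ ^ 101 * (q * V'.card) := by gcongr
        _ = q * (γ ^ 101 * V'.card) := by ring
        _ ≤ q * x := by gcongr
    have hqq : q ^ 2 = (4 : ℝ) ^ k := by
      rw [hq, ← pow_mul, mul_comm, pow_mul]; norm_num
    have hk1R : (n : ℝ) < 4 ^ k := by exact_mod_cast hk1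
    have hk2R : (4 : ℝ) ^ k ≤ 4 * n := by exact_mod_cast hk2
    have a4 : (n : ℝ) ^ 2 * q ^ 2 ≤ (200 : ℝ) ^ k := by
      calc (n : ℝ) ^ 2 * q ^ 2 ≤ ((4 : ℝ) ^ k) ^ 2 * q ^ 2 := by gcongr
        _ = (64 : ℝ) ^ k := by
          rw [hqq, ← pow_mul, mul_comm k 2, pow_mul, ← mul_pow]; norm_num
        _ ≤ (200 : ℝ) ^ k := by gcongr; norm_num
    have a5 : γ ^ 202 * (o * (n : ℝ) ^ 2) ≤ x ^ 2 := by
      have b1 : γ ^ 202 * (Fintype.card V : ℝ) ^ 2 ≤ (q * x) ^ 2 := by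
        calc γ ^ 202 * (Fintype.card V : ℝ) ^ 2 = (γ ^ 101 * (Fintype.card V : ℝ)) ^ 2 := by ring
          _ ≤ (q * x) ^ 2 := by gcongr
      have b2 : q ^ 2 * (γ ^ 202 * (o * (n : ℝ) ^ 2)) ≤ q ^ 2 * x ^ 2 := by
        calc q ^ 2 * (γ ^ 202 * (o * (n : ℝ) ^ 2)) = γ ^ 202 * (((n : ℝ) ^ 2 * q ^ 2) * o) := by
              ring
          _ ≤ γ ^ 202 * ((200 : ℝ) ^ k * o) := by gcongr
          _ ≤ γ ^ 202 * (Fintype.card V : ℝ) ^ 2 := by gcongr
          _ ≤ (q * x) ^ 2 := b1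
          _ = _ := by ring
      exact le_of_mul_le_mul_left b2 (by positivity)
    have hr0 : (0 : ℝ) < (r : ℝ) + 1 := by positivity
    -- (i)
    have hqA : A < q := by
      have : A ^ 2 < q ^ 2 := by rw [hqq]; linarith
      exact lt_of_pow_lt_pow_left₀ 2 hq0.le this
    have c1 : 32 * (n : ℝ) ^ 2 ≤ (r + 1) * x := by
      have d1 : q * (32 * (n : ℝ) ^ 2) ≤ q * ((r + 1) * x) := by
        have e1 : 25600 ≤ δ ^ 2 * γ ^ 101 * q := by
          have e0 : 25600 = δ ^ 2 * γ ^ 101 * A := by rw [hA]; field_simp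
          calc (25600 : ℝ) = δ ^ 2 * γ ^ 101 * A := e0
            _ ≤ δ ^ 2 * γ ^ 101 * q := by gcongr
        have e2 : q ^ 2 ≤ 4 * n := by rw [hqq]; exact hk2R
        have e3 : 6400 * q ≤ δ ^ 2 * γ ^ 101 * n := by
          calc 6400 * q = 25600 * q / 4 := by ring
            _ ≤ (δ ^ 2 * γ ^ 101 * q) * q / 4 := by gcongr
            _ = δ ^ 2 * γ ^ 101 * (q ^ 2 / 4) := by ring
            _ ≤ δ ^ 2 * γ ^ 101 * (4 * n / 4) := by gcongr
            _ = _ := by ring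
        calc q * (32 * (n : ℝ) ^ 2) = (6400 * q) * ((n : ℝ) ^ 2 / 200) := by ring
          _ ≤ (δ ^ 2 * γ ^ 101 * n) * ((n : ℝ) ^ 2 / 200) := by gcongr
          _ = (δ * n / 200) * (γ ^ 101 * (δ * (n : ℝ) ^ 2)) := by ring
          _ ≤ (r + 1) * (γ ^ 101 * (Fintype.card V : ℝ)) := by
            gcongr
            exact hm.trans hENR
          _ ≤ (r + 1) * (q * x) := by gcongr
          _ = _ := by ring
      exact le_of_mul_le_mul_left d1 hq0
    -- (ii)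
    have c2 : 32 * (n : ℝ) ^ 2 * o ≤ (r + 1) * x ^ 2 := by
      have d1 : 32 ≤ (r + 1) * γ ^ 202 := by
        rw [div_le_iff₀ (by positivity)] at hev5
        calc (32 : ℝ) = 6400 / 200 := by norm_num
          _ ≤ n * (δ * γ ^ 202) / 200 := by gcongr
          _ = δ * n / 200 * γ ^ 202 := by ring
          _ ≤ (r + 1) * γ ^ 202 := by gcongr
      calc 32 * (n : ℝ) ^ 2 * o = 32 * (o * (n : ℝ) ^ 2) := by ring
        _ ≤ ((r + 1) * γ ^ 202) * (o * (n : ℝ) ^ 2) := by gcongr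
        _ = (r + 1) * (γ ^ 202 * (o * (n : ℝ) ^ 2)) := by ring
        _ ≤ _ := by gcongr
    have c3 : 4 * ((n : ℝ) + r) ^ 2 * (((C ×ˢ C).filter (fun p => Bad c p.1 p.2)).card : ℝ) ≤
        (r + 1) * x ^ 2 := by
      calc 4 * ((n : ℝ) + r) ^ 2 * (((C ×ˢ C).filter (fun p => Bad c p.1 p.2)).card : ℝ)
          ≤ 4 * ((n : ℝ) + n) ^ 2 * (x + o) := by gcongr
        _ = (32 * (n : ℝ) ^ 2 * x + 32 * (n : ℝ) ^ 2 * o) / 2 := by ring
        _ ≤ ((r + 1) * x * x + (r + 1) * x ^ 2) / 2 := by gcongr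
        _ = _ := by ring
    rw [hx] at c3
    exact_mod_cast c3
  · -- monochromatic sets
    have b1 : (n : ℝ) ≤ (K * ⌈g * n⌉₊ : ℕ) := by
      push_cast
      have e1 : 1 / g ≤ (K : ℝ) := Nat.le_ceil _
      have e2 : g * n ≤ (⌈g * n⌉₊ : ℝ) := Nat.le_ceil _
      calc (n : ℝ) = 1 / g * (g * n) := by field_simp
        _ ≤ _ := by gcongr
    have b2 : n ≤ K * ⌈g * n⌉₊ := by exact_mod_cast b1
    have b3 : γ ^ ⌈g * n⌉₊ ≤ (1 / 16) ^ n := by
      rw [hγ, ← pow_mul]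
      exact pow_le_pow_of_le_one (by norm_num) (by norm_num) b2
    have b4 : (2 : ℝ) ^ (n + r) ≤ 4 ^ n := by
      calc (2 : ℝ) ^ (n + r) ≤ 2 ^ (2 * n) := pow_le_pow_right₀ (by norm_num) (by omega)
        _ = 4 ^ n := by rw [pow_mul]; norm_num
    calc 8 * ((Fintype.card V : ℝ) + 1) ^ T * 2 ^ (n + r) * γ ^ ⌈g * n⌉₊
        ≤ 8 * ((n : ℝ) ^ 2 + 1) ^ T * 4 ^ n * (1 / 16) ^ n := by gcongr
      _ ≤ 4 ^ n * 4 ^ n * (1 / 16) ^ n := by gcongr
      _ = 1 := by rw [← mul_pow, ← mul_pow]; norm_num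
  · -- uncut edges
    calc 8 * Fintype.card V * n ≤ 8 * n ^ 2 * n := by gcongr
      _ = 8 * n ^ 3 := by ring
      _ ≤ _ := hev2
  · have b1 : ((⌊δ * n / 32⌋₊ : ℕ) : ℝ) ≤ δ * n / 32 := Nat.floor_le (by positivity)
    have b2 : (32 : ℝ) * n * (⌊δ * n / 32⌋₊ : ℕ) ≤ E.card := by
      calc (32 : ℝ) * n * (⌊δ * n / 32⌋₊ : ℕ) ≤ 32 * n * (δ * n / 32) := by gcongr
        _ = δ * (n : ℝ) ^ 2 := by ring
        _ ≤ _ := hm
    exact_mod_cast b2
  · have b2 : (24 : ℝ) * n ≤ E.card := by nlinarith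
    exact_mod_cast b2
  · have b2 : (200 : ℝ) * (r * n) ≤ E.card := by
      calc (200 : ℝ) * (r * n) ≤ 200 * ((δ * n / 200) * n) := by gcongr
        _ = δ * (n : ℝ) ^ 2 := by ring
        _ ≤ _ := hm
    exact_mod_cast b2
  · -- `T` times `h`
    have b1 : (C.card : ℝ) ≤ V'.card := by exact_mod_cast Finset.card_le_card hCV'
    calc (C.card : ℝ) ≤ 1 * V'.card := by rw [one_mul]; exact b1
      _ < T * η * V'.card := by gcongr
      _ = T * h := by rw [hh]; ring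
  · calc 200 * ((n : ℝ) + 2 * g * (n : ℝ) ^ 2) = 200 * n + δ * (n : ℝ) ^ 2 / 2 := by
          rw [hg]; ring
      _ ≤ δ * (n : ℝ) ^ 2 := by nlinarith
      _ ≤ E.card := hm
      _ ≤ _ := hENR

end Numbers

end Pool.Agent.W5h9.DenseSub
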