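import Mathlib
import Pool.Agent.W5h9.PowSub2

set_option linter.unusedSectionVars false

/-! Helper file: Hall's condition and the numbers (graphs with at least `n ^ (1 + ε)` edges). -/

namespace Pool.Agent.W5h9.PowSub

open Finset
open Pool.Agent.W5h9.DenseSub (agree agree_comm cls tset exists_tset uncut_of_classes hall)

section Core

variable {V U : Type} [Fintype V] [DecidableEq V] [Fintype U] [DecidableEq U]

/-- Hall's condition. -/
lemma core (c : V → V → Bool) (E : Finset (U × U)) (φ : U → V) (C : Finset V) (g : ℝ)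
    (R T : ℕ) (hR : 0 < R)
    (hcard : Fintype.card V = E.card + Fintype.card U)
    (hUE : Fintype.card U ≤ E.card)
    (h1 : ∀ e ∈ E, Fintype.card V < R * agree c (φ e.1) (φ e.2))
    (h2 : ∀ t : Finset V, t.card ≤ T → ((pairs c t C).card : ℝ) ≤ g * (C.card : ℝ) ^ 2 →
      2 * R * (E.filter (fun e => ∀ w ∈ t, c w (φ e.1) ≠ c w (φ e.2))).card ≤ E.card)
    (h3 : ∀ w, E.card ≤ 25 * (E.filter (fun e => c w (φ e.1) = c w (φ e.2))).card)
    (hgood : Good c g T C)
    (hbig : 2 * R * Fintype.card U ≤ E.card) :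
    ∀ F ⊆ E, F.Nonempty → F.card + (univ.filter (fun w => (∀ u, w ≠ φ u) ∧
      ∀ e ∈ F, c w (φ e.1) ≠ c w (φ e.2))).card ≤ E.card := by
  classical
  intro F hFE hFne
  by_contra hcon
  push Not at hcon
  set W := univ.filter (fun w => (∀ u, w ≠ φ u) ∧ ∀ e ∈ F, c w (φ e.1) ≠ c w (φ e.2)) with hWdef
  have hWmem : ∀ w ∈ W, ∀ e ∈ F, c w (φ e.1) ≠ c w (φ e.2) := by
    intro w hw
    rw [hWdef, Finset.mem_filter] at hw
    exact hw.2.2
  have hWne : W.Nonempty := by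
    rw [Finset.nonempty_iff_ne_empty]
    intro h0
    rw [h0, Finset.card_empty, add_zero] at hcon
    exact absurd (Finset.card_le_card hFE) (by omega)
  have hWbig : Fintype.card V ≤ 50 * W.card := by
    obtain ⟨w, hw⟩ := hWne
    have hsub : F ⊆ E.filter (fun e => ¬ c w (φ e.1) = c w (φ e.2)) := by
      intro e he
      rw [Finset.mem_filter]
      exact ⟨hFE he, hWmem w hw e he⟩
    have a1 := Finset.card_le_card hsub
    have a2 := Finset.card_filter_add_card_filter_not (s := E)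
      (fun e => c w (φ e.1) = c w (φ e.2))
    have a3 := h3 w
    omega
  obtain ⟨t, htW, htT, ht⟩ := hgood W hWbig
  have hFt : F ⊆ E.filter (fun e => ∀ w ∈ t, c w (φ e.1) ≠ c w (φ e.2)) := by
    intro e he
    rw [Finset.mem_filter]
    exact ⟨hFE he, fun w hw => hWmem w (htW hw) e he⟩
  have hFc : 2 * R * F.card ≤ E.card :=
    (Nat.mul_le_mul_left _ (Finset.card_le_card hFt)).trans (h2 t htT ht)
  obtain ⟨e, he⟩ := hFne
  have hag : agree c (φ e.1) (φ e.2) + W.card ≤ Fintype.card V := by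
    have hdis : Disjoint (univ.filter (fun w => c w (φ e.1) = c w (φ e.2))) W := by
      rw [Finset.disjoint_left]
      intro w hw hwW
      exact hWmem w hwW e he (Finset.mem_filter.1 hw).2
    unfold agree
    rw [← Finset.card_union_of_disjoint hdis, ← Finset.card_univ]
    exact Finset.card_le_card (Finset.subset_univ _)
  have hag2 : agree c (φ e.1) (φ e.2) ≤ Fintype.card U + F.card := by omega
  have h4 := h1 e (hFE he)
  have h5 : R * agree c (φ e.1) (φ e.2) ≤ R * (Fintype.card U + F.card) :=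
    Nat.mul_le_mul_left _ hag2
  have h6 : 2 * (R * (Fintype.card U + F.card)) = 2 * R * Fintype.card U + 2 * R * F.card := by
    ring
  omega

end Core

section Branch

variable {V : Type} [Fintype V] [DecidableEq V]

/-- From a good cell to the branch vertices and the middle vertices. -/
lemma branch (c : V → V → Bool) (n R T K k' : ℕ) (g g' : ℝ) (E : Finset (Fin n × Fin n))
    (hE : ∀ e ∈ E, e.1 < e.2) (C : Finset V) (hC : 0 < C.card)
    (hg0 : 0 ≤ g) (hg : g ≤ (1 / 16) ^ K) (hK : 1 ≤ K * g') (hg' : 8 * R * g' ≤ 1)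
    (hg'0 : 0 ≤ g')
    (hR : 16 ≤ R)
    (hp1 : 32 * R * n ≤ C.card)
    (hp2 : 8 * ((Fintype.card V : ℝ) + 1) ^ T * n ≤ 2 ^ k')
    (hp3 : 8 * Fintype.card V * n ≤ 2 ^ k')
    (hcard : Fintype.card V = E.card + n)
    (hk : 32 * n * k' ≤ E.card) (hk2 : 16 * R * n * k' ≤ E.card) (h24 : 2 * R * n ≤ E.card)
    (hopp : ∀ x ∈ C, ∀ y ∈ C, Fintype.card V < R * agree c x y)
    (hgood : Good c g T C) :
    ∃ φ : Fin n → V, Function.Injective φ ∧ ∃ ψ : E → V, Function.Injective ψ ∧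
      ∀ e : E, (∀ u, ψ e ≠ φ u) ∧ c (ψ e) (φ e.1.1) = c (ψ e) (φ e.1.2) := by
  classical
  obtain ⟨b, hbC, hb1, hb2, hb3⟩ := sampling c n R T K k' g g' E hE C hC hg0 hg hK hp1 hp2 hp3
  have hnC : n ≤ C.card := by nlinarith
  obtain ⟨φ, hφ, hφC, hφb⟩ := select n C hnC b hbC
  refine ⟨φ, hφ, ?_⟩
  have hcard' : Fintype.card V = E.card + Fintype.card (Fin n) := by
    rw [Fintype.card_fin, hcard]
  have hnE : 32 * n ≤ E.card := by nlinarith
  apply hall c E φ ?_ hφ hcard'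
  apply core c E φ C g R T (by omega) hcard'
  · rw [Fintype.card_fin]; omega
  · exact fun e _ => hopp _ (hφC _) _ (hφC _)
  · intro t ht hD
    obtain ⟨t', rfl⟩ := exists_tset (T := T) t ht
    have h1 : ((E.filter (fun e => ∀ w ∈ tset t', c w (b e.1) ≠ c w (b e.2))).card : ℝ) ≤
        g' * E.card + 2 * n * k' := by
      apply opp_of_classes n k' g' hg'0 E _
      intro a ha hka
      by_contra hlt
      push Not at hlt
      exact hb2 ⟨t', hD, a, ha, hka, hlt⟩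
    have hsub : E.filter (fun e => ∀ w ∈ tset t', c w (φ e.1) ≠ c w (φ e.2)) ⊆
        E.filter (fun e => ∀ w ∈ tset t', c w (b e.1) ≠ c w (b e.2)) ∪
        E.filter (fun e => Coll b e.1 ∨ Coll b e.2) := by
      intro e he
      rw [Finset.mem_filter] at he
      rw [Finset.mem_union, Finset.mem_filter, Finset.mem_filter]
      by_cases hc : Coll b e.1 ∨ Coll b e.2
      · exact Or.inr ⟨he.1, hc⟩
      · push Not at hc
        left
        refine ⟨he.1, ?_⟩
        rw [← hφb _ hc.1, ← hφb _ hc.2]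
        exact he.2
    have h2 := (Finset.card_le_card hsub).trans (Finset.card_union_le _ _)
    have h3 : ((E.filter (fun e => ∀ w ∈ tset t', c w (φ e.1) ≠ c w (φ e.2))).card : ℝ) ≤
        ((E.filter (fun e => ∀ w ∈ tset t', c w (b e.1) ≠ c w (b e.2))).card : ℝ) +
        (collEdges E b : ℝ) := by exact_mod_cast h2
    have h4 : (4 : ℝ) * R * collEdges E b ≤ E.card := by exact_mod_cast hb1
    have h5 : (16 : ℝ) * R * n * k' ≤ E.card := by exact_mod_cast hk2
    have hRR : (0 : ℝ) < R := by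
      have : 0 < R := by omega
      exact_mod_cast this
    have h6 : 8 * (R : ℝ) * g' * E.card ≤ 1 * E.card := by gcongr
    have h7 : (2 : ℝ) * R *
        ((E.filter (fun e => ∀ w ∈ tset t', c w (φ e.1) ≠ c w (φ e.2))).card : ℝ) ≤ E.card := by
      calc (2 : ℝ) * R * ((E.filter (fun e => ∀ w ∈ tset t',
            c w (φ e.1) ≠ c w (φ e.2))).card : ℝ)
          ≤ 2 * R * ((g' * E.card + 2 * n * k') + (collEdges E b : ℝ)) := by
            gcongr
            linarith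
        _ = (8 * R * g' * E.card) / 4 + (16 * R * n * k') / 4 + (4 * R * collEdges E b) / 2 := by
            ring
        _ ≤ E.card / 4 + E.card / 4 + E.card / 2 := by linarith
        _ = _ := by ring
    exact_mod_cast h7
  · intro w
    have h1 : E.card ≤ 16 * (E.filter (fun e => c w (b e.1) = c w (b e.2))).card := by
      apply uncut_of_classes n k' E _ hk (by omega)
      intro a ha hka
      by_contra hlt
      push Not at hlt
      exact hb3 ⟨w, a, ha, hka, hlt⟩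
    have hsub : E.filter (fun e => c w (b e.1) = c w (b e.2)) ⊆
        E.filter (fun e => c w (φ e.1) = c w (φ e.2)) ∪
        E.filter (fun e => Coll b e.1 ∨ Coll b e.2) := by
      intro e he
      rw [Finset.mem_filter] at he
      rw [Finset.mem_union, Finset.mem_filter, Finset.mem_filter]
      by_cases hc : Coll b e.1 ∨ Coll b e.2
      · exact Or.inr ⟨he.1, hc⟩
      · push Not at hc
        left
        refine ⟨he.1, ?_⟩
        rw [hφb _ hc.1, hφb _ hc.2]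
        exact he.2
    have h2 := (Finset.card_le_card hsub).trans (Finset.card_union_le _ _)
    have h3 : 64 * collEdges E b ≤ E.card := by
      refine le_trans ?_ hb1
      have : 64 ≤ 4 * R := by omega
      exact Nat.mul_le_mul_right _ this
    have h4 : (E.filter (fun e => Coll b e.1 ∨ Coll b e.2)).card = collEdges E b := rfl
    omega
  · exact hgood
  · rw [Fintype.card_fin]; exact h24

end Branch

section Numbers

/-- Exponentials of powers beat powers. -/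
lemma ev_exp (ε : ℝ) (hε : 0 < ε) (D : ℝ) (hD : 0 < D) (p : ℕ) (A : ℝ) :
    ∀ᶠ n : ℕ in Filter.atTop, A * (n : ℝ) ^ p ≤ 2 ^ ⌊(n : ℝ) ^ ε / D⌋₊ := by
  have h1 : Filter.Tendsto (fun x : ℝ => x ^ ((p : ℝ) / ε) * Real.exp (-(Real.log 2 / D) * x))
      Filter.atTop (nhds 0) :=
    tendsto_rpow_mul_exp_neg_mul_atTop_nhds_zero _ _ (by
      have := Real.log_pos (show (1 : ℝ) < 2 by norm_num)
      positivity)
  have h2 : Filter.Tendsto (fun n : ℕ => (n : ℝ) ^ ε) Filter.atTop Filter.atTop :=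
    (tendsto_rpow_atTop hε).comp tendsto_natCast_atTop_atTop
  have h3 := (h1.comp h2).eventually
    (gt_mem_nhds (show (0 : ℝ) < 1 / (2 * (|A| + 1)) by positivity))
  filter_upwards [h3, Filter.eventually_ge_atTop 1] with n hn h1n
  have hn1 : (1 : ℝ) ≤ n := by exact_mod_cast h1n
  have hn0 : (0 : ℝ) < n := by linarith
  simp only [Function.comp_apply] at hn
  have e1 : ((n : ℝ) ^ ε) ^ ((p : ℝ) / ε) = (n : ℝ) ^ p := by
    rw [← Real.rpow_mul hn0.le, mul_div_cancel₀ _ hε.ne', Real.rpow_natCast]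
  rw [e1] at hn
  have e2 : Real.exp (-(Real.log 2 / D) * (n : ℝ) ^ ε) = ((2 : ℝ) ^ ((n : ℝ) ^ ε / D))⁻¹ := by
    rw [Real.rpow_def_of_pos (by norm_num : (0 : ℝ) < 2), ← Real.exp_neg]
    congr 1
    field_simp
  rw [e2, ← div_eq_mul_inv, div_lt_div_iff₀ (by positivity) (by positivity)] at hn
  have e3 : (2 : ℝ) ^ ((n : ℝ) ^ ε / D) ≤ 2 * 2 ^ ⌊(n : ℝ) ^ ε / D⌋₊ := by
    calc (2 : ℝ) ^ ((n : ℝ) ^ ε / D) ≤ (2 : ℝ) ^ (((⌊(n : ℝ) ^ ε / D⌋₊ + 1 : ℕ)) : ℝ) := by
          apply Real.rpow_le_rpow_of_exponent_le (by norm_num)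
          push_cast
          exact (Nat.lt_floor_add_one _).le
      _ = 2 * 2 ^ ⌊(n : ℝ) ^ ε / D⌋₊ := by rw [Real.rpow_natCast, pow_succ]; ring
  have e4 : A * (n : ℝ) ^ p ≤ (|A| + 1) * (n : ℝ) ^ p := by
    gcongr
    have := le_abs_self A
    linarith
  have e5 : (n : ℝ) ^ p * (2 * (|A| + 1)) ≤ 2 * 2 ^ ⌊(n : ℝ) ^ ε / D⌋₊ := by linarith
  linarith

set_option maxHeartbeats 2000000 in
theorem main (ε : ℝ) (hε : 0 < ε) : ∃ n₀ : ℕ, ∀ n ≥ n₀,
    ∀ E : Finset (Fin n × Fin n), (∀ e ∈ E, e.1 < e.2) → (n : ℝ) ^ (1 + ε) ≤ E.card →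
    ∀ (V : Type) [Fintype V] [DecidableEq V] (c : V → V → Bool), Fintype.card V = E.card + n →
    ∃ φ : Fin n → V, Function.Injective φ ∧ ∃ ψ : E → V, Function.Injective ψ ∧
      ∀ e : E, (∀ u, ψ e ≠ φ u) ∧ c (ψ e) (φ e.1.1) = c (ψ e) (φ e.1.2) := by
  -- the parameters
  set ρ : ℕ := ⌈40 / ε⌉₊ + 4 with hρ
  set R : ℕ := 2 ^ ρ with hR
  have hR16 : 16 ≤ R := by
    calc 16 = 2 ^ 4 := by norm_num
      _ ≤ 2 ^ ρ := Nat.pow_le_pow_right (by norm_num) (by omega)
  have hR0 : (0 : ℝ) < R := by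
    have : 0 < R := by omega
    exact_mod_cast this
  set g' : ℝ := 1 / (8 * R) with hg'
  have hg'0 : 0 < g' := by positivity
  set g : ℝ := (1 / 16) ^ (8 * R) with hg
  have hg0 : 0 < g := by positivity
  have hg1 : g ≤ 1 := pow_le_one₀ (by norm_num) (by norm_num)
  set κ : ℝ := g / (2 * (400 / g) ^ 101 + 1) with hκ
  have hκ0 : 0 < κ := by positivity
  set T : ℕ := ⌈1 / κ⌉₊ with hT
  have hTκ : 1 ≤ T * κ := by
    have h1 : 1 / κ ≤ (T : ℝ) := Nat.le_ceil _
    rwa [div_le_iff₀ hκ0] at h1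
  set γ : ℝ := (g / 2) ^ 101 with hγ
  have hγ0 : 0 < γ := by positivity
  have ev : ∀ᶠ n : ℕ in Filter.atTop,
      (8 * 2 ^ T * (n : ℝ) ^ (2 * T + 1) ≤ 2 ^ ⌊(n : ℝ) ^ ε / (16 * R)⌋₊) ∧
      (8 * (n : ℝ) ^ 3 ≤ 2 ^ ⌊(n : ℝ) ^ ε / (16 * R)⌋₊) ∧
      (2 * R ≤ (n : ℝ) ^ ε) ∧ (32 * R / γ ≤ (n : ℝ) ^ (ε / 2)) ∧
      (R < (n : ℝ) ^ (5 : ℕ)) ∧ 1 ≤ n := by
    filter_upwards [ev_exp ε hε (16 * R) (by positivity) (2 * T + 1) (8 * 2 ^ T),
      ev_exp ε hε (16 * R) (by positivity) 3 8,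
      ((tendsto_rpow_atTop hε).comp tendsto_natCast_atTop_atTop).eventually_ge_atTop
        (2 * (R : ℝ)),
      ((tendsto_rpow_atTop (half_pos hε)).comp tendsto_natCast_atTop_atTop).eventually_ge_atTop
        (32 * R / γ),
      Filter.eventually_gt_atTop R,
      Filter.eventually_ge_atTop 1] with n h1 h2 h3 h4 h5 h6
    refine ⟨h1, h2, h3, h4, ?_, h6⟩
    have h7 : (R : ℝ) < n := by exact_mod_cast h5
    have h8 : (1 : ℝ) ≤ n := by exact_mod_cast h6
    calc (R : ℝ) < n := h7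
      _ = (n : ℝ) ^ 1 := (pow_one _).symm
      _ ≤ (n : ℝ) ^ 5 := pow_le_pow_right₀ h8 (by norm_num)
  obtain ⟨n₀, hn₀⟩ := Filter.eventually_atTop.1 ev
  refine ⟨n₀, fun n hn E hE hm V _ _ c hcard => ?_⟩
  obtain ⟨hev1, hev2, hev3, hev4, hev5, hev6⟩ := hn₀ n hn
  have hn1 : (1 : ℝ) ≤ n := by exact_mod_cast hev6
  have hn0 : (0 : ℝ) < n := by linarith
  -- sizes
  have hEn : E.card + n ≤ n ^ 2 := by
    have hsub : E ⊆ (univ : Finset (Fin n)).offDiag := by
      intro e he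
      rw [Finset.mem_offDiag]
      exact ⟨Finset.mem_univ _, Finset.mem_univ _, (hE e he).ne⟩
    have h1 := Finset.card_le_card hsub
    rw [Finset.offDiag_card, Finset.card_univ, Fintype.card_fin] at h1
    have h2 : n ≤ n * n := Nat.le_mul_self n
    rw [sq]
    omega
  have hNn : Fintype.card V ≤ n ^ 2 := by rw [hcard]; exact hEn
  have hNnR : (Fintype.card V : ℝ) ≤ (n : ℝ) ^ 2 := by exact_mod_cast hNn
  have hEN : E.card ≤ Fintype.card V := by rw [hcard]; omega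
  have hENR : (E.card : ℝ) ≤ Fintype.card V := by exact_mod_cast hEN
  have hN0 : 0 < Fintype.card V := by rw [hcard]; omega
  have hNR0 : (0 : ℝ) < Fintype.card V := by exact_mod_cast hN0
  have hm' : (n : ℝ) * (n : ℝ) ^ ε ≤ E.card := by
    rwa [Real.rpow_add hn0, Real.rpow_one] at hm
  -- the large set without opposite pairs
  set k : ℕ := ⌊ε / 4 * Real.logb 2 n⌋₊ with hk
  have hlog : 0 ≤ Real.logb 2 n := Real.logb_nonneg (by norm_num) hn1
  have hpow : ∀ s : ℝ, (2 : ℝ) ^ (s * Real.logb 2 n) = (n : ℝ) ^ s := by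
    intro s
    rw [mul_comm, Real.rpow_mul (by norm_num), Real.rpow_logb (by norm_num) (by norm_num) hn0]
  have hk1 : (2 : ℝ) ^ k ≤ (n : ℝ) ^ (ε / 4) := by
    rw [← hpow, ← Real.rpow_natCast]
    apply Real.rpow_le_rpow_of_exponent_le (by norm_num)
    exact Nat.floor_le (by positivity)
  have hk2 : (n : ℝ) ^ (ε / 4) ≤ (2 : ℝ) ^ (k + 1) := by
    rw [← hpow, ← Real.rpow_natCast]
    apply Real.rpow_le_rpow_of_exponent_le (by norm_num)
    push_cast
    exact (Nat.lt_floor_add_one _).le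
  obtain ⟨V', hV'1, hV'2⟩ := splitR c hN0 R k
  have hRk : (n : ℝ) ^ 4 < (R : ℝ) ^ k := by
    have h1 : (n : ℝ) ^ 10 ≤ (R : ℝ) ^ (k + 1) := by
      calc (n : ℝ) ^ 10 = ((n : ℝ) ^ (ε / 4)) ^ (40 / ε) := by
            rw [← Real.rpow_mul hn0.le, ← Real.rpow_natCast]
            congr 1
            field_simp
            norm_num
        _ ≤ ((2 : ℝ) ^ (k + 1)) ^ (40 / ε) :=
            Real.rpow_le_rpow (by positivity) hk2 (by positivity)
        _ ≤ ((2 : ℝ) ^ (k + 1)) ^ (ρ : ℝ) := by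
            apply Real.rpow_le_rpow_of_exponent_le
            · exact one_le_pow₀ (by norm_num)
            · rw [hρ]; push_cast
              have := Nat.le_ceil (40 / ε)
              linarith
        _ = (R : ℝ) ^ (k + 1) := by
            rw [Real.rpow_natCast, hR]
            push_cast
            rw [← pow_mul, ← pow_mul, mul_comm]
    have h2 : (n : ℝ) ^ 4 * (n : ℝ) ^ 5 < (R : ℝ) ^ k * (n : ℝ) ^ 5 := by
      calc (n : ℝ) ^ 4 * (n : ℝ) ^ 5 = (n : ℝ) ^ 9 := by ring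
        _ ≤ (n : ℝ) ^ 10 := pow_le_pow_right₀ hn1 (by norm_num)
        _ ≤ (R : ℝ) ^ (k + 1) := h1
        _ = (R : ℝ) ^ k * R := by ring
        _ < (R : ℝ) ^ k * (n : ℝ) ^ 5 := by gcongr
    exact lt_of_mul_lt_mul_right h2 (by positivity)
  have hno : (V' ×ˢ V').filter (fun p => R * agree c p.1 p.2 ≤ Fintype.card V) = ∅ := by
    rw [← Finset.card_eq_zero]
    by_contra h0
    have h1 : 1 ≤ ((V' ×ˢ V').filter
      (fun p => R * agree c p.1 p.2 ≤ Fintype.card V)).card := by omega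
    have h2 : R ^ k ≤ (Fintype.card V) ^ 2 :=
      le_trans (by nlinarith [Nat.zero_le (R ^ k)]) hV'2
    have h3 : (R : ℝ) ^ k ≤ (Fintype.card V : ℝ) ^ 2 := by exact_mod_cast h2
    have h4 : (Fintype.card V : ℝ) ^ 2 ≤ ((n : ℝ) ^ 2) ^ 2 := by gcongr
    have h5 : ((n : ℝ) ^ 2) ^ 2 = (n : ℝ) ^ 4 := by ring
    linarith
  have hV'0 : 0 < V'.card := by
    by_contra h0
    have : V'.card = 0 := by omega
    rw [this, mul_zero] at hV'1
    omega
  obtain ⟨C, hCV', hC1, hgood⟩ := good_cell c hN0 V' (Finset.card_pos.1 hV'0) g κ T hg0 hg1 hκ0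
    (by rw [hκ]; field_simp; exact le_refl _) hTκ
  have hV'R : (Fintype.card V : ℝ) ≤ 2 ^ k * V'.card := by exact_mod_cast hV'1
  have hCbig : 32 * R * (n : ℝ) ≤ C.card := by
    have h1 : (n : ℝ) ^ (ε / 4) * (γ * V'.card) ≤ (n : ℝ) ^ (ε / 4) * C.card := by gcongr
    have h2 : γ * (n * (n : ℝ) ^ ε) ≤ (n : ℝ) ^ (ε / 4) * (γ * V'.card) := by
      calc γ * (n * (n : ℝ) ^ ε) ≤ γ * Fintype.card V := by
            gcongr
            exact hm'.trans hENR
        _ ≤ γ * (2 ^ k * V'.card) := by gcongr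
        _ ≤ γ * ((n : ℝ) ^ (ε / 4) * V'.card) := by gcongr
        _ = _ := by ring
    have h3 : (n : ℝ) ^ ε = (n : ℝ) ^ (ε / 4) * ((n : ℝ) ^ (ε / 4) * (n : ℝ) ^ (ε / 2)) := by
      rw [← Real.rpow_add hn0, ← Real.rpow_add hn0]
      congr 1
      ring
    have h4 : (1 : ℝ) ≤ (n : ℝ) ^ (ε / 4) := Real.one_le_rpow hn1 (by positivity)
    have h5 : 32 * R ≤ γ * (n : ℝ) ^ (ε / 2) := by
      rw [div_le_iff₀ hγ0] at hev4
      linarith
    have h6 : (n : ℝ) ^ (ε / 4) * (32 * R * n) ≤ (n : ℝ) ^ (ε / 4) * C.card := by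
      calc (n : ℝ) ^ (ε / 4) * (32 * R * n) ≤ (n : ℝ) ^ (ε / 4) * (γ * (n : ℝ) ^ (ε / 2) * n) := by
            gcongr
        _ ≤ (n : ℝ) ^ (ε / 4) * (γ * (n : ℝ) ^ (ε / 2) * n) * (n : ℝ) ^ (ε / 4) := by
            apply le_mul_of_one_le_right _ h4
            positivity
        _ = γ * (n * (n : ℝ) ^ ε) := by rw [h3]; ring
        _ ≤ _ := h2.trans h1
    exact le_of_mul_le_mul_left h6 (by positivity)
  have hC0 : 0 < C.card := by
    have : (0 : ℝ) < C.card := lt_of_lt_of_le (by positivity) hCbig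
    exact_mod_cast this
  have hk'1 : ((⌊(n : ℝ) ^ ε / (16 * R)⌋₊ : ℕ) : ℝ) ≤ (n : ℝ) ^ ε / (16 * R) :=
    Nat.floor_le (by positivity)
  have hk2' : 16 * R * n * ⌊(n : ℝ) ^ ε / (16 * R)⌋₊ ≤ E.card := by
    have h1 : (16 : ℝ) * R * n * (⌊(n : ℝ) ^ ε / (16 * R)⌋₊ : ℕ) ≤ E.card := by
      calc (16 : ℝ) * R * n * (⌊(n : ℝ) ^ ε / (16 * R)⌋₊ : ℕ)
          ≤ 16 * R * n * ((n : ℝ) ^ ε / (16 * R)) := by gcongr
        _ = n * (n : ℝ) ^ ε := by field_simp
        _ ≤ _ := hm'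
    exact_mod_cast h1
  refine branch c n R T (8 * R) ⌊(n : ℝ) ^ ε / (16 * R)⌋₊ g g' E hE C hC0 hg0.le le_rfl
    ?_ ?_ hg'0.le hR16 ?_ ?_ ?_ hcard ?_ hk2' ?_ ?_ hgood
  · rw [hg']; push_cast; field_simp; exact le_refl _
  · rw [hg']; field_simp; exact le_refl _
  · exact_mod_cast hCbig
  · calc 8 * ((Fintype.card V : ℝ) + 1) ^ T * n ≤ 8 * (2 * (n : ℝ) ^ 2) ^ T * n := by
          gcongr
          nlinarith
      _ = 8 * 2 ^ T * (n : ℝ) ^ (2 * T + 1) := by
          rw [mul_pow, ← pow_mul, pow_succ]; ring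
      _ ≤ _ := hev1
  · have h1 : (8 : ℝ) * Fintype.card V * n ≤ 2 ^ ⌊(n : ℝ) ^ ε / (16 * R)⌋₊ := by
      calc (8 : ℝ) * Fintype.card V * n ≤ 8 * (n : ℝ) ^ 2 * n := by gcongr
        _ = 8 * (n : ℝ) ^ 3 := by ring
        _ ≤ _ := hev2
    exact_mod_cast h1
  · refine le_trans ?_ hk2'
    apply Nat.mul_le_mul_right
    nlinarith
  · have h1 : (2 : ℝ) * R * n ≤ E.card := by
      calc (2 : ℝ) * R * n ≤ (n : ℝ) ^ ε * n := by gcongr
        _ = n * (n : ℝ) ^ ε := by ring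
        _ ≤ _ := hm'
    exact_mod_cast h1
  · intro x hx y hy
    by_contra hlt
    push Not at hlt
    have : (x, y) ∈ (V' ×ˢ V').filter (fun p => R * agree c p.1 p.2 ≤ Fintype.card V) := by
      rw [Finset.mem_filter, Finset.mem_product]
      exact ⟨⟨hCV' hx, hCV' hy⟩, hlt⟩
    rw [hno] at this
    exact absurd this (Finset.notMem_empty _)

end Numbers

end Pool.Agent.W5h9.PowSub
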